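import Pool.Agent.Y282.RB.Stm4
import Pool.Agent.TH55.PowE

/-! Project RB, job K: from compactly supported functions to Schwartz functions. -/

set_option autoImplicit false

open MeasureTheory Set Filter Topology
open scoped SchwartzMap ENNReal ContDiff

namespace Pool.Agent.Y282.RB.K

open Pool.Agent.TH55.PowA (T Ft bs sm Adm T_integrand_int T_cont Ft_eq Ft_fun Ft_int bs_meas
  bs_norm_le norm_ex meas_ex)

lemma adm_sy (n : ℕ) : Adm (fun ξ => bs ξ ^ n) :=
  ⟨bs_meas.pow_const n, fun ξ => by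
    rw [norm_pow]
    exact pow_le_one₀ (norm_nonneg _) (bs_norm_le ξ)⟩

lemma Tn_eq (n : ℕ) (f : 𝓢(ℂ, ℂ)) : Tn n f = T (fun ξ => bs ξ ^ n) f := rfl

lemma norm_ex' (a : ℝ) : ‖Complex.exp (-(2 * (Real.pi : ℂ) * Complex.I * (a : ℂ)))‖ = 1 := by
  have : -(2 * (Real.pi : ℂ) * Complex.I * (a : ℂ)) = ((-(2 * Real.pi * a) : ℝ) : ℂ) * Complex.I := by
    push_cast; ring
  rw [this, Complex.norm_exp_ofReal_mul_I]

lemma Ft_integrand (f : 𝓢(ℂ, ℂ)) (ξ : ℂ) : Integrable (fun x : ℂ =>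
    Complex.exp (-(2 * (Real.pi : ℂ) * Complex.I * ((sm x ξ : ℝ) : ℂ))) * f x) := by
  refine f.integrable.mono ?_ (Eventually.of_forall fun x => ?_)
  · refine AEStronglyMeasurable.mul ?_ f.integrable.aestronglyMeasurable
    apply Measurable.aestronglyMeasurable
    unfold sm
    fun_prop
  · rw [norm_mul, norm_ex', one_mul]

lemma Ft_add (f g : 𝓢(ℂ, ℂ)) (ξ : ℂ) : Ft (f + g) ξ = Ft f ξ + Ft g ξ := by
  unfold Ft
  rw [← integral_add (Ft_integrand f ξ) (Ft_integrand g ξ)]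
  refine integral_congr_ae (Eventually.of_forall fun x => ?_)
  simp only [add_apply]
  ring

lemma Tn_add (n : ℕ) (f g : 𝓢(ℂ, ℂ)) : Tn n (f + g : 𝓢(ℂ, ℂ)) = fun z => Tn n f z + Tn n g z := by
  funext z
  rw [Tn_eq, Tn_eq, Tn_eq]
  unfold T
  rw [← integral_add (T_integrand_int (adm_sy n) f z) (T_integrand_int (adm_sy n) g z)]
  refine integral_congr_ae (Eventually.of_forall fun x => ?_)
  simp only [Ft_add]
  ring

/-- cut-off functions -/
lemma exists_cut (ε : ℝ) (h0 : 0 < ε) (h1 : ε < 1) : ∃ (χ : ℝ → ℝ) (R : ℝ), ContDiff ℝ ∞ χ ∧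
    HasCompactSupport χ ∧ (∀ x, 0 ≤ χ x ∧ χ x ≤ 1) ∧ (∀ x, ε ≤ x → x ≤ 1 / ε → χ x = 1) ∧
    (∀ x, x ≤ ε / 2 → χ x = 0) ∧ ∀ x, R ≤ x → χ x = 0 := by
  have hε : 1 < 1 / ε := by rw [lt_div_iff₀ h0]; linarith
  let b : ContDiffBump ((1 / ε + ε) / 2 : ℝ) :=
    ⟨(1 / ε - ε) / 2, (1 / ε - ε) / 2 + ε / 2, by linarith, by linarith⟩
  refine ⟨b, (1 / ε + ε) / 2 + ((1 / ε - ε) / 2 + ε / 2), b.contDiff, b.hasCompactSupport,
    fun x => ⟨b.nonneg, b.le_one⟩, fun x hx1 hx2 => ?_, fun x hx => ?_, fun x hx => ?_⟩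
  · apply b.one_of_mem_closedBall
    rw [Metric.mem_closedBall, Real.dist_eq]
    show |x - (1 / ε + ε) / 2| ≤ (1 / ε - ε) / 2
    exact abs_le.2 ⟨by linarith, by linarith⟩
  · apply b.zero_of_le_dist
    rw [Real.dist_eq]
    show (1 / ε - ε) / 2 + ε / 2 ≤ |x - (1 / ε + ε) / 2|
    rw [abs_sub_comm]
    refine le_trans ?_ (le_abs_self _)
    linarith
  · apply b.zero_of_le_dist
    rw [Real.dist_eq]
    show (1 / ε - ε) / 2 + ε / 2 ≤ |x - (1 / ε + ε) / 2|
    refine le_trans ?_ (le_abs_self _)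
    linarith

/-- truncations -/
lemma exists_trunc (n : ℕ) (f : 𝓢(ℂ, ℂ)) (hf : Ang n f) (ε : ℝ) (h0 : 0 < ε) (h1 : ε < 1) :
    ∃ (g : ℝ → ℂ) (h : 𝓢(ℂ, ℂ)), ContDiff ℝ ∞ g ∧ HasCompactSupport g ∧ (⇑h = rad n g) ∧
      (∀ z, ‖h z‖ ≤ ‖f z‖) ∧ (∀ z, ‖(f - h) z‖ ≤ ‖f z‖) ∧
      ∀ z, ε ≤ Complex.normSq z → Complex.normSq z ≤ 1 / ε → (f - h) z = 0 := by
  obtain ⟨χ, R, hχ1, hχ2, hχ3, hχ4, hχ5, hχ6⟩ := exists_cut ε h0 h1
  obtain ⟨g, hg⟩ : ∃ g : ℝ → ℂ, g = fun x => (χ x : ℂ) * (f ((√x : ℝ) : ℂ) * ((x : ℂ) ^ n)⁻¹) :=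
    ⟨_, rfl⟩
  have hgs : ContDiff ℝ ∞ g := by
    rw [contDiff_iff_contDiffAt]
    intro x
    rcases lt_or_ge x (ε / 2) with hx | hx
    · refine (contDiffAt_const (c := (0 : ℂ))).congr_of_eventuallyEq ?_
      filter_upwards [Iio_mem_nhds hx] with y hy
      rw [hg]
      simp only
      rw [hχ5 y (le_of_lt hy)]
      simp
    · have hx0 : 0 < x := by linarith
      rw [hg]
      refine ContDiffAt.mul ?_ (ContDiffAt.mul ?_ ?_)
      · exact (Complex.ofRealCLM.contDiff.comp hχ1).contDiffAt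
      · have e1 : ContDiffAt ℝ ∞ (fun x : ℝ => ((√x : ℝ) : ℂ)) x :=
          Complex.ofRealCLM.contDiff.contDiffAt.comp x (Real.contDiffAt_sqrt hx0.ne')
        exact ((f.smooth ⊤).contDiffAt).comp x e1
      · refine ContDiffAt.inv ?_ ?_
        · exact (Complex.ofRealCLM.contDiff.pow n).contDiffAt
        · exact pow_ne_zero _ (Complex.ofReal_ne_zero.2 hx0.ne')
  have hgc : HasCompactSupport g := by
    rw [hg]
    have h2 : HasCompactSupport (fun x : ℝ => (χ x : ℂ)) := hχ2.comp_left (g := fun y : ℝ => (y : ℂ)) (by simp)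
    exact h2.mul_right
  have hrad : ∀ z, rad n g z = (χ (Complex.normSq z) : ℂ) * f z := by
    intro z
    unfold rad
    rw [hg]
    simp only
    by_cases hz : z = 0
    · subst hz
      rw [map_zero, hχ5 0 (by linarith)]
      simp
    · have hn : (‖z‖ : ℂ) ≠ 0 := Complex.ofReal_ne_zero.2 (norm_ne_zero_iff.2 hz)
      have h2 : √(Complex.normSq z) = ‖z‖ := rfl
      have ha : ‖z / (‖z‖ : ℂ)‖ = 1 := by
        rw [norm_div, Complex.norm_real, norm_norm]
        exact div_self (norm_ne_zero_iff.2 hz)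
      have h3 := hf (z / (‖z‖ : ℂ)) (‖z‖ : ℂ) ha
      rw [div_mul_cancel₀ _ hn] at h3
      rw [h2, h3, div_pow]
      have h4 : ((Complex.normSq z : ℝ) : ℂ) ^ n = (‖z‖ : ℂ) ^ (2 * n) := by
        rw [Complex.normSq_eq_norm_sq, pow_mul]
        push_cast
        rfl
      rw [h4]
      field_simp
  have hrs : ContDiff ℝ ∞ (rad n g) := by
    unfold rad
    refine ContDiff.mul ?_ ?_
    · exact contDiff_id.pow _
    · refine hgs.comp ?_
      have : (fun z : ℂ => Complex.normSq z) = fun z => z.re * z.re + z.im * z.im := by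
        funext z
        exact Complex.normSq_apply z
      show ContDiff ℝ ∞ (fun z : ℂ => Complex.normSq z)
      rw [this]
      exact (Complex.reCLM.contDiff.mul Complex.reCLM.contDiff).add
        (Complex.imCLM.contDiff.mul Complex.imCLM.contDiff)
  have hrc : HasCompactSupport (rad n g) := by
    refine HasCompactSupport.intro (isCompact_closedBall (0 : ℂ) (max R 1)) fun z hz => ?_
    rw [Metric.mem_closedBall, dist_zero_right, not_le] at hz
    rw [hrad z, hχ6 _ ?_]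
    · simp
    · rw [Complex.normSq_eq_norm_sq]
      have h2 : R < ‖z‖ := lt_of_le_of_lt (le_max_left _ _) hz
      have h3 : 1 < ‖z‖ := lt_of_le_of_lt (le_max_right _ _) hz
      nlinarith
  refine ⟨g, hrc.toSchwartzMap hrs, hgs, hgc, rfl, fun z => ?_, fun z => ?_, fun z hz1 hz2 => ?_⟩
  · show ‖rad n g z‖ ≤ ‖f z‖
    rw [hrad z, norm_mul, Complex.norm_real, Real.norm_of_nonneg (hχ3 _).1]
    exact mul_le_of_le_one_left (norm_nonneg _) (hχ3 _).2
  · show ‖f z - rad n g z‖ ≤ ‖f z‖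
    have e : f z - rad n g z = ((1 - χ (Complex.normSq z) : ℝ) : ℂ) * f z := by
      rw [hrad z]
      push_cast
      ring
    rw [e, norm_mul, Complex.norm_real, Real.norm_of_nonneg (by linarith [(hχ3 (Complex.normSq z)).2])]
    exact mul_le_of_le_one_left (norm_nonneg _) (by linarith [(hχ3 (Complex.normSq z)).1])
  · show f z - rad n g z = 0
    rw [hrad z, hχ4 _ hz1 hz2]
    simp

/-- convergence of the truncations -/
lemma tendsto_trunc (f : 𝓢(ℂ, ℂ)) (F : ℕ → 𝓢(ℂ, ℂ)) (p : ℝ) (hp : 2 ≤ p)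
    (h1 : ∀ k z, ‖F k z‖ ≤ ‖f z‖)
    (h2 : ∀ (k : ℕ) (z : ℂ), 1 / ((k : ℝ) + 2) ≤ Complex.normSq z → Complex.normSq z ≤ (k : ℝ) + 2 → F k z = 0) :
    Tendsto (fun k => eLpNorm (F k) (ENNReal.ofReal p) (volume : Measure ℂ)) atTop (𝓝 0) := by
  have hp0 : 0 < p := by linarith
  have hP0 : ENNReal.ofReal p ≠ 0 := by
    rw [ne_eq, ENNReal.ofReal_eq_zero, not_le]
    exact hp0
  have hPt : (ENNReal.ofReal p).toReal = p := ENNReal.toReal_ofReal hp0.le
  have e : ∀ k, eLpNorm (F k) (ENNReal.ofReal p) (volume : Measure ℂ) =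
      (∫⁻ z, ‖F k z‖ₑ ^ p) ^ (1 / p) := by
    intro k
    rw [eLpNorm_eq_lintegral_rpow_enorm_toReal hP0 ENNReal.ofReal_ne_top, hPt]
  simp only [e]
  have hfin : ∫⁻ z, ‖f z‖ₑ ^ p ≠ ⊤ := by
    have h3 : MemLp f (ENNReal.ofReal p) (volume : Measure ℂ) := f.memLp _ _
    have h4 := lintegral_rpow_enorm_lt_top_of_eLpNorm_lt_top hP0 ENNReal.ofReal_ne_top h3.2
    rw [hPt] at h4
    exact h4.ne
  have hlim : Tendsto (fun k => ∫⁻ z, ‖F k z‖ₑ ^ p) atTop (𝓝 (∫⁻ _ : ℂ, 0)) := by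
    refine tendsto_lintegral_of_dominated_convergence (fun z => ‖f z‖ₑ ^ p) (fun k => ?_)
      (fun k => Eventually.of_forall fun z => ?_) hfin ?_
    · exact ((F k).continuous.enorm.measurable).pow_const p
    · exact ENNReal.rpow_le_rpow (enorm_le_iff_norm_le.2 (h1 k z)) hp0.le
    · have h5 : ∀ᵐ z : ℂ, z ≠ 0 := by
        rw [ae_iff]
        simp
      filter_upwards [h5] with z hz
      have hz0 : 0 < Complex.normSq z := Complex.normSq_pos.2 hz
      obtain ⟨N, hN⟩ := exists_nat_gt (max (Complex.normSq z) (1 / Complex.normSq z))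
      refine tendsto_const_nhds.congr' ?_
      filter_upwards [eventually_ge_atTop N] with k hk
      have hk' : (N : ℝ) ≤ k := by exact_mod_cast hk
      have h6 : Complex.normSq z < N := lt_of_le_of_lt (le_max_left _ _) hN
      have h7 : 1 / Complex.normSq z < N := lt_of_le_of_lt (le_max_right _ _) hN
      rw [h2 k z ?_ (by linarith)]
      · simp [hp0]
      · rw [div_le_iff₀ (by positivity)]
        rw [div_lt_iff₀ hz0] at h7
        nlinarith
  rw [lintegral_zero] at hlim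
  have h8 := (ENNReal.continuous_rpow_const (y := 1 / p)).tendsto 0
  rw [ENNReal.zero_rpow_of_pos (by positivity)] at h8
  exact h8.comp hlim

theorem main : S_K := by
  intro n p C hn hp hC hH f hf
  have hk : ∀ k : ℕ, (0 : ℝ) < 1 / ((k : ℝ) + 2) ∧ 1 / ((k : ℝ) + 2) < 1 := by
    intro k
    have : (0 : ℝ) ≤ k := Nat.cast_nonneg k
    refine ⟨by positivity, ?_⟩
    rw [div_lt_one (by linarith)]
    linarith
  choose g h hg1 hg2 hh hle1 hle2 hz using fun k : ℕ =>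
    exists_trunc n f hf (1 / ((k : ℝ) + 2)) (hk k).1 (hk k).2
  set K : ℝ≥0∞ := ENNReal.ofReal (Pool.Agent.TH55.PowA.Cn n * (p - 1)) with hK
  have hKt : K ≠ ⊤ := ENNReal.ofReal_ne_top
  have hP1 : (1 : ℝ≥0∞) ≤ ENNReal.ofReal p := by
    rw [← ENNReal.ofReal_one]
    exact ENNReal.ofReal_le_ofReal (by linarith)
  have hbound : ∀ k, eLpNorm (Tn n f) (ENNReal.ofReal p) (volume : Measure ℂ) ≤
      K * eLpNorm (f - h k : 𝓢(ℂ, ℂ)) (ENNReal.ofReal p) (volume : Measure ℂ) +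
        ENNReal.ofReal C * eLpNorm (⇑f) (ENNReal.ofReal p) (volume : Measure ℂ) := by
    intro k
    have e1 : Tn n f = fun z => Tn n (f - h k : 𝓢(ℂ, ℂ)) z + Tn n (h k) z := by
      rw [← Tn_add]
      congr 2
      rw [sub_add_cancel]
    have m1 : AEStronglyMeasurable (Tn n (f - h k : 𝓢(ℂ, ℂ))) (volume : Measure ℂ) := by
      rw [Tn_eq]
      exact (T_cont (adm_sy n) _).aestronglyMeasurable
    have m2 : AEStronglyMeasurable (Tn n (h k)) (volume : Measure ℂ) := by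
      rw [Tn_eq]
      exact (T_cont (adm_sy n) _).aestronglyMeasurable
    rw [e1]
    refine (eLpNorm_add_le m1 m2 hP1).trans (add_le_add ?_ ?_)
    · rw [Tn_eq]
      exact Pool.Agent.TH55.PowA.main p hp n hn (f - h k)
    · have h2 := hH (g k) (hg1 k) (hg2 k)
      rw [← hh k] at h2
      refine h2.trans ?_
      gcongr
      exact eLpNorm_mono (hle1 k)
  have hlim : Tendsto (fun k => K * eLpNorm (f - h k : 𝓢(ℂ, ℂ)) (ENNReal.ofReal p)
      (volume : Measure ℂ) + ENNReal.ofReal C * eLpNorm (⇑f) (ENNReal.ofReal p)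
        (volume : Measure ℂ)) atTop (𝓝 (K * 0 + ENNReal.ofReal C * eLpNorm (⇑f) (ENNReal.ofReal p)
          (volume : Measure ℂ))) := by
    refine Tendsto.add ?_ tendsto_const_nhds
    refine ENNReal.Tendsto.const_mul ?_ (Or.inr hKt)
    refine tendsto_trunc f (fun k => f - h k) p hp (fun k z => hle2 k z) fun k z hz1 hz2 => ?_
    refine hz k z hz1 ?_
    rw [one_div_one_div]
    exact hz2
  rw [mul_zero, zero_add] at hlim
  exact ge_of_tendsto' hlim hbound

end Pool.Agent.Y282.RB.K
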