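import Pool.Agent.Y282.RB.Stm
import Mathlib

/-!
# Project RB: assembly of part A
-/

set_option autoImplicit false

open MeasureTheory Set Filter Topology

namespace Pool.Agent.Y282.RB.A

theorem iter_zero {f : ℝ → ℂ} {R : ℝ} (hf : ∀ x, R ≤ x → f x = 0) (n : ℕ) (x : ℝ)
    (hx : R + 1 ≤ x) : iteratedDeriv n f x = 0 := by
  have h1 : f =ᶠ[𝓝 x] fun _ => (0 : ℂ) := by
    have h2 : Ioi R ∈ 𝓝 x := Ioi_mem_nhds (by linarith)
    filter_upwards [h2] with y hy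
    exact hf y (le_of_lt hy)
  rw [Filter.EventuallyEq.iteratedDeriv_eq n h1]
  simp

theorem main : S_A1 → S_A2 → S_A3 → S_A4 → S_A := by
  intro h1 h2 h3 h4 n p C hp hC hO g hg hgc
  obtain ⟨h, hh, ⟨R, hR⟩, hhg⟩ := h1 n g hg hgc
  obtain ⟨f, hf⟩ : ∃ f : ℝ → ℂ, f = fun t : ℝ => (t : ℂ) ^ n * h t := ⟨_, rfl⟩
  obtain ⟨F, hF⟩ : ∃ F : ℝ → ℂ, F = iteratedDeriv n f := ⟨_, rfl⟩
  have hfc : ContDiff ℝ (⊤ : ℕ∞) f := by
    rw [hf]
    exact (Complex.ofRealCLM.contDiff.pow n).mul hh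
  have hFc : Continuous F := by
    rw [hF]
    exact hfc.continuous_iteratedDeriv n (by exact_mod_cast le_top)
  have hgC : Continuous g := hg.continuous
  have hf0 : ∀ x, R ≤ x → f x = 0 := by
    intro x hx
    rw [hf]
    simp [hR x hx]
  have hF0 : ∀ x, R + 1 ≤ x → F x = 0 := by
    intro x hx
    rw [hF]
    exact iter_zero hf0 n x hx
  have hg0 : ∀ x, R + 1 ≤ x → g x = 0 := by
    intro x hx
    rw [← hhg]
    exact iter_zero hR n x hx
  have hT : Tn n (rad n g) = fun z => F (Complex.normSq z) := by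
    funext z
    rw [← hhg, h2 n h hh ⟨R, hR⟩ z, hF, hf]
  have e1 : eLpNorm (Tn n (rad n g)) (ENNReal.ofReal p) (volume : Measure ℂ) =
      ENNReal.ofReal ((Real.pi * ∫ x in Ioi (0 : ℝ), ‖F x‖ ^ p) ^ (1 / p)) := by
    rw [hT, ← eLpNorm_norm]
    have := h3 p hp (fun x => ‖F x‖) hFc.norm ⟨R + 1, fun x hx => by simp [hF0 x hx]⟩
    simp only [abs_norm] at this
    exact this
  have e2 : eLpNorm (rad n g) (ENNReal.ofReal p) (volume : Measure ℂ) =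
      ENNReal.ofReal ((Real.pi * ∫ x in Ioi (0 : ℝ), ‖(x : ℂ) ^ n * g x‖ ^ p) ^ (1 / p)) := by
    have h5 : (fun z => ‖rad n g z‖) =
        fun z => (fun x : ℝ => ‖(x : ℂ) ^ n * g x‖) (Complex.normSq z) := by
      funext z
      unfold rad
      simp only [norm_mul, norm_pow, pow_mul, Complex.norm_real, Real.norm_eq_abs,
        abs_of_nonneg (Complex.normSq_nonneg z), Complex.sq_norm]
    rw [← eLpNorm_norm, h5]
    have := h3 p hp (fun x : ℝ => ‖(x : ℂ) ^ n * g x‖)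
      (((Complex.continuous_ofReal.pow n).mul hgC).norm)
      ⟨R + 1, fun x hx => by simp [hg0 x hx]⟩
    simp only [abs_norm] at this
    exact this
  have h6 := h4 n p C hp hC hO h hh ⟨R, hR⟩
  rw [hhg, ← hf, ← hF] at h6
  rw [e1, e2, ← ENNReal.ofReal_mul hC]
  refine ENNReal.ofReal_le_ofReal ?_
  have hI1 : 0 ≤ ∫ x in Ioi (0 : ℝ), ‖F x‖ ^ p := integral_nonneg fun x => by positivity
  have hI2 : 0 ≤ ∫ x in Ioi (0 : ℝ), ‖(x : ℂ) ^ n * g x‖ ^ p :=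
    integral_nonneg fun x => by positivity
  have hp0 : p ≠ 0 := by linarith
  have h7 : (Real.pi * ∫ x in Ioi (0 : ℝ), ‖F x‖ ^ p) ≤
      C ^ p * (Real.pi * ∫ x in Ioi (0 : ℝ), ‖(x : ℂ) ^ n * g x‖ ^ p) := by
    calc _ ≤ Real.pi * (C ^ p * ∫ x in Ioi (0 : ℝ), ‖(x : ℂ) ^ n * g x‖ ^ p) :=
          mul_le_mul_of_nonneg_left h6 Real.pi_pos.le
      _ = _ := by ring
  calc (Real.pi * ∫ x in Ioi (0 : ℝ), ‖F x‖ ^ p) ^ (1 / p)
      ≤ (C ^ p * (Real.pi * ∫ x in Ioi (0 : ℝ), ‖(x : ℂ) ^ n * g x‖ ^ p)) ^ (1 / p) := by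
        refine Real.rpow_le_rpow (by positivity) h7 (by positivity)
    _ = C * (Real.pi * ∫ x in Ioi (0 : ℝ), ‖(x : ℂ) ^ n * g x‖ ^ p) ^ (1 / p) := by
        rw [Real.mul_rpow (by positivity) (by positivity), ← Real.rpow_mul hC,
          mul_one_div_cancel hp0, Real.rpow_one]

end Pool.Agent.Y282.RB.A
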