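import Pool.Agent.Y282.RB.Stm

/-!
# Smooth primitives that vanish on the right (job RB-A1, helper67)
-/

set_option autoImplicit false

open MeasureTheory Set

namespace Pool.Agent.Y282.RB.A1

theorem key : ∀ (n : ℕ) (R : ℝ) (g : ℝ → ℂ), ContDiff ℝ (⊤ : ℕ∞) g → (∀ x, R ≤ x → g x = 0) →
    ∃ h : ℝ → ℂ, ContDiff ℝ (⊤ : ℕ∞) h ∧ (∀ x, R ≤ x → h x = 0) ∧ iteratedDeriv n h = g := by
  intro n R
  induction n with
  | zero => exact fun g hg hR => ⟨g, hg, hR, iteratedDeriv_zero⟩
  | succ n ih =>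
    intro g hg hR
    have hc : Continuous g := hg.continuous
    have hd : ∀ x, HasDerivAt (fun x => ∫ t in R..x, g t) (g x) x := fun x =>
      (hc.integral_hasStrictDerivAt R x).hasDerivAt
    have hder : deriv (fun x => ∫ t in R..x, g t) = g := funext fun x => (hd x).deriv
    have hsm : ContDiff ℝ (⊤ : ℕ∞) (fun x => ∫ t in R..x, g t) := by
      refine contDiff_infty_iff_deriv.2 ⟨fun x => (hd x).differentiableAt, ?_⟩
      rw [hder]
      exact hg
    have h0 : ∀ x, R ≤ x → (fun x => ∫ t in R..x, g t) x = 0 := by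
      intro x hx
      have h1 : ∫ t in R..x, g t = ∫ _t in R..x, (0 : ℂ) := by
        refine intervalIntegral.integral_congr fun t ht => ?_
        rw [uIcc_of_le hx] at ht
        exact hR t ht.1
      change ∫ t in R..x, g t = 0
      rw [h1, intervalIntegral.integral_zero]
    obtain ⟨h, h1, h2, h3⟩ := ih _ hsm h0
    refine ⟨h, h1, h2, ?_⟩
    rw [iteratedDeriv_succ, h3, hder]

theorem main : S_A1 := by
  intro n g hg hs
  obtain ⟨R, hR⟩ : ∃ R : ℝ, ∀ x, R ≤ x → g x = 0 := by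
    obtain ⟨R, hR⟩ := hs.isCompact.isBounded.bddAbove
    refine ⟨R + 1, fun x hx => ?_⟩
    by_contra h
    have h1 : x ∈ tsupport g := subset_tsupport g (Function.mem_support.2 h)
    have h2 := hR h1
    linarith
  obtain ⟨h, h1, h2, h3⟩ := key n R g hg hR
  exact ⟨h, h1, ⟨R, h2⟩, h3⟩

end Pool.Agent.Y282.RB.A1
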