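import Pool.Agent.Y282.RB.Stm

set_option autoImplicit false

/-!
# RB-A2: the multiplier `(conj ξ / ξ) ^ n` on the functions `z ^ (2 n) g(|z| ^ 2)` (helper960)
-/

open MeasureTheory Filter Topology
open scoped FourierTransform SchwartzMap LineDeriv ContDiff

namespace Pool.Agent.Y282.RB.A2

/-! ### Fourier transforms of the Wirtinger derivatives -/

/-- the derivative with respect to `conj z` -/
noncomputable def db (f : 𝓢(ℂ, ℂ)) : 𝓢(ℂ, ℂ) :=
  (1 / 2 : ℂ) • (∂_{(1 : ℂ)} f + Complex.I • ∂_{Complex.I} f)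

/-- the derivative with respect to `z` -/
noncomputable def dd (f : 𝓢(ℂ, ℂ)) : 𝓢(ℂ, ℂ) :=
  (1 / 2 : ℂ) • (∂_{(1 : ℂ)} f + (-Complex.I) • ∂_{Complex.I} f)

theorem db_apply (f : 𝓢(ℂ, ℂ)) (z : ℂ) :
    db f z = 1 / 2 * (fderiv ℝ f z 1 + Complex.I * fderiv ℝ f z Complex.I) := by
  rw [← SchwartzMap.lineDerivOp_apply_eq_fderiv, ← SchwartzMap.lineDerivOp_apply_eq_fderiv]
  rfl

theorem dd_apply (f : 𝓢(ℂ, ℂ)) (z : ℂ) :
    dd f z = 1 / 2 * (fderiv ℝ f z 1 + (-Complex.I) * fderiv ℝ f z Complex.I) := by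
  rw [← SchwartzMap.lineDerivOp_apply_eq_fderiv, ← SchwartzMap.lineDerivOp_apply_eq_fderiv]
  rfl

theorem four_line (f : 𝓢(ℂ, ℂ)) (m ξ : ℂ) : (𝓕 (∂_{m} f) : 𝓢(ℂ, ℂ)) ξ =
    2 * Real.pi * Complex.I * (((ξ.re * m.re + ξ.im * m.im : ℝ)) : ℂ) * (𝓕 f : 𝓢(ℂ, ℂ)) ξ := by
  have h : (inner ℝ · m : ℂ → ℝ).HasTemperateGrowth := ((innerSL ℝ).flip m).hasTemperateGrowth
  rw [SchwartzMap.fourier_lineDerivOp_eq]
  simp only [smul_apply, SchwartzMap.smulLeftCLM_apply_apply h, smul_eq_mul,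
    Complex.real_smul]
  have h2 : (inner ℝ ξ m : ℝ) = ξ.re * m.re + ξ.im * m.im := by
    rw [Complex.inner]
    simp
    ring
  rw [h2]
  ring

theorem four_db (f : 𝓢(ℂ, ℂ)) (ξ : ℂ) : (𝓕 (db f) : 𝓢(ℂ, ℂ)) ξ =
    (Real.pi * Complex.I * ξ) * (𝓕 f : 𝓢(ℂ, ℂ)) ξ := by
  have h1 : (𝓕 (db f) : 𝓢(ℂ, ℂ)) ξ = 1 / 2 * ((𝓕 (∂_{(1 : ℂ)} f) : 𝓢(ℂ, ℂ)) ξ +
      Complex.I * (𝓕 (∂_{Complex.I} f) : 𝓢(ℂ, ℂ)) ξ) := by
    unfold db
    rw [FourierTransform.fourier_smul, FourierTransform.fourier_add, FourierTransform.fourier_smul]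
    rfl
  rw [h1, four_line, four_line]
  have h2 : ξ = (ξ.re : ℂ) + ξ.im * Complex.I := (Complex.re_add_im ξ).symm
  simp only [Complex.one_re, Complex.one_im, Complex.I_re, Complex.I_im, mul_zero, mul_one,
    add_zero, zero_add]
  linear_combination (-(Real.pi * Complex.I * (𝓕 f : 𝓢(ℂ, ℂ)) ξ)) * h2

theorem four_dd (f : 𝓢(ℂ, ℂ)) (ξ : ℂ) : (𝓕 (dd f) : 𝓢(ℂ, ℂ)) ξ =
    (Real.pi * Complex.I * (starRingEnd ℂ) ξ) * (𝓕 f : 𝓢(ℂ, ℂ)) ξ := by
  have h1 : (𝓕 (dd f) : 𝓢(ℂ, ℂ)) ξ = 1 / 2 * ((𝓕 (∂_{(1 : ℂ)} f) : 𝓢(ℂ, ℂ)) ξ +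
      (-Complex.I) * (𝓕 (∂_{Complex.I} f) : 𝓢(ℂ, ℂ)) ξ) := by
    unfold dd
    rw [FourierTransform.fourier_smul, FourierTransform.fourier_add, FourierTransform.fourier_smul]
    rfl
  rw [h1, four_line, four_line]
  have h2 : (starRingEnd ℂ) ξ = (ξ.re : ℂ) - ξ.im * Complex.I := by
    apply Complex.ext <;> simp
  simp only [Complex.one_re, Complex.one_im, Complex.I_re, Complex.I_im, mul_zero, mul_one,
    add_zero, zero_add]
  rw [h2]
  ring

theorem four_db_iter (n : ℕ) (f : 𝓢(ℂ, ℂ)) (ξ : ℂ) : (𝓕 (db^[n] f) : 𝓢(ℂ, ℂ)) ξ =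
    (Real.pi * Complex.I * ξ) ^ n * (𝓕 f : 𝓢(ℂ, ℂ)) ξ := by
  induction n with
  | zero => simp
  | succ n ih => rw [Function.iterate_succ_apply', four_db, ih, pow_succ]; ring

theorem four_dd_iter (n : ℕ) (f : 𝓢(ℂ, ℂ)) (ξ : ℂ) : (𝓕 (dd^[n] f) : 𝓢(ℂ, ℂ)) ξ =
    (Real.pi * Complex.I * (starRingEnd ℂ) ξ) ^ n * (𝓕 f : 𝓢(ℂ, ℂ)) ξ := by
  induction n with
  | zero => simp
  | succ n ih => rw [Function.iterate_succ_apply', four_dd, ih, pow_succ]; ring

theorem inner_eq (x ξ : ℂ) : (inner ℝ x ξ : ℝ) = x.re * ξ.re + x.im * ξ.im := by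
  rw [Complex.inner]
  simp
  ring

theorem Ft_eq (f : 𝓢(ℂ, ℂ)) (ξ : ℂ) : (∫ x : ℂ, Complex.exp (-(2 * (Real.pi : ℂ) * Complex.I *
    (((x.re * ξ.re + x.im * ξ.im : ℝ)) : ℂ))) * f x) = (𝓕 f : 𝓢(ℂ, ℂ)) ξ := by
  rw [SchwartzMap.fourier_coe, Real.fourier_eq']
  refine integral_congr_ae (Eventually.of_forall fun x => ?_)
  simp only [smul_eq_mul]
  rw [inner_eq]
  congr 2
  push_cast
  ring

theorem Inv_eq (f : 𝓢(ℂ, ℂ)) (z : ℂ) : (∫ ξ : ℂ, Complex.exp (2 * (Real.pi : ℂ) * Complex.I *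
    (((z.re * ξ.re + z.im * ξ.im : ℝ)) : ℂ)) * f ξ) = (𝓕⁻ f : 𝓢(ℂ, ℂ)) z := by
  rw [SchwartzMap.fourierInv_coe, Real.fourierInv_eq']
  refine integral_congr_ae (Eventually.of_forall fun x => ?_)
  simp only [smul_eq_mul]
  rw [inner_eq]
  congr 2
  push_cast
  ring

/-- the multiplier turns the `n`-th derivative with respect to `conj z` into the one with respect
to `z` -/
theorem Tn_db (n : ℕ) (f : 𝓢(ℂ, ℂ)) (z : ℂ) : Tn n (db^[n] f) z = dd^[n] f z := by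
  have h1 : Tn n (db^[n] f) z = ∫ ξ : ℂ, Complex.exp (2 * (Real.pi : ℂ) * Complex.I *
      (((z.re * ξ.re + z.im * ξ.im : ℝ)) : ℂ)) * (𝓕 (dd^[n] f) : 𝓢(ℂ, ℂ)) ξ := by
    unfold Tn
    refine integral_congr_ae ?_
    have h0 : ∀ᵐ ξ : ℂ, ξ ≠ 0 := by
      rw [ae_iff]
      simp
    filter_upwards [h0] with ξ hξ
    rw [Ft_eq, four_db_iter, four_dd_iter]
    congr 1
    rw [← mul_assoc, ← mul_pow]
    congr 2
    field_simp
  rw [h1, Inv_eq, FourierTransform.fourierInv_fourier_eq]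

/-! ### functions of the form `z ^ m F(|z| ^ 2)` -/

theorem fd_normSq (z : ℂ) : HasFDerivAt (Complex.normSq : ℂ → ℝ)
    ((2 * z.re) • Complex.reCLM + (2 * z.im) • Complex.imCLM) z := by
  have h1 : HasFDerivAt (fun z : ℂ => z.re) Complex.reCLM z := Complex.reCLM.hasFDerivAt
  have h2 : HasFDerivAt (fun z : ℂ => z.im) Complex.imCLM z := Complex.imCLM.hasFDerivAt
  have h3 := (h1.mul h1).add (h2.mul h2)
  have e : (Complex.normSq : ℂ → ℝ) = fun z => z.re * z.re + z.im * z.im := by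
    funext z
    exact Complex.normSq_apply z
  rw [e]
  refine h3.congr_fderiv ?_
  ext v
  simp
  ring

theorem fd_rad (m : ℕ) (F : ℝ → ℂ) (z : ℂ) (hF : DifferentiableAt ℝ F (Complex.normSq z)) (v : ℂ) :
    fderiv ℝ (fun z : ℂ => z ^ m * F (Complex.normSq z)) z v =
      m * z ^ (m - 1) * v * F (Complex.normSq z) +
      z ^ m * (((2 * z.re * v.re + 2 * z.im * v.im : ℝ) : ℂ) * deriv F (Complex.normSq z)) := by
  have h1 : HasFDerivAt (fun z : ℂ => z ^ m)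
      ((ContinuousLinearMap.toSpanSingleton ℂ (m * z ^ (m - 1) : ℂ)).restrictScalars ℝ) z :=
    (hasDerivAt_pow m z).hasFDerivAt.restrictScalars ℝ
  have h2 : HasFDerivAt (fun z : ℂ => F (Complex.normSq z))
      ((ContinuousLinearMap.toSpanSingleton ℝ (deriv F (Complex.normSq z))).comp
        ((2 * z.re) • Complex.reCLM + (2 * z.im) • Complex.imCLM)) z :=
    HasFDerivAt.comp z hF.hasDerivAt.hasFDerivAt (fd_normSq z)
  have h3 := h1.mul h2
  have h4 : HasFDerivAt (fun z : ℂ => z ^ m * F (Complex.normSq z)) _ z := h3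
  rw [h4.fderiv]
  simp [Complex.real_smul]
  ring

theorem db_rad {m : ℕ} {F : ℝ → ℂ} (hF : Differentiable ℝ F) {f : 𝓢(ℂ, ℂ)}
    (hf : ∀ z, f z = z ^ m * F (Complex.normSq z)) (z : ℂ) :
    db f z = z ^ (m + 1) * deriv F (Complex.normSq z) := by
  have h1 : (f : ℂ → ℂ) = fun z : ℂ => z ^ m * F (Complex.normSq z) := funext hf
  rw [db_apply, h1, fd_rad m F z (hF _), fd_rad m F z (hF _)]
  have h2 : z = (z.re : ℂ) + z.im * Complex.I := (Complex.re_add_im z).symm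
  simp only [Complex.one_re, Complex.one_im, Complex.I_re, Complex.I_im, mul_zero, mul_one,
    add_zero, zero_add]
  push_cast
  rw [pow_succ]
  linear_combination (1 / 2 * m * z ^ (m - 1) * F (Complex.normSq z)) * Complex.I_sq -
    z ^ m * deriv F (Complex.normSq z) * h2

theorem dd_rad {k : ℕ} {F : ℝ → ℂ} (hF : Differentiable ℝ F) {f : 𝓢(ℂ, ℂ)}
    (hf : ∀ z, f z = z ^ (k + 1) * F (Complex.normSq z)) (z : ℂ) :
    dd f z = z ^ k * (((k + 1 : ℕ) : ℂ) * F (Complex.normSq z) +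
      ((Complex.normSq z : ℝ) : ℂ) * deriv F (Complex.normSq z)) := by
  have h1 : (f : ℂ → ℂ) = fun z : ℂ => z ^ (k + 1) * F (Complex.normSq z) := funext hf
  rw [dd_apply, h1, fd_rad (k + 1) F z (hF _), fd_rad (k + 1) F z (hF _)]
  have h3 : z * ((z.re : ℂ) - z.im * Complex.I) = ((Complex.normSq z : ℝ) : ℂ) := by
    have : (starRingEnd ℂ) z = (z.re : ℂ) - z.im * Complex.I := by
      apply Complex.ext <;> simp
    rw [← this, Complex.mul_conj]
  simp only [Complex.one_re, Complex.one_im, Complex.I_re, Complex.I_im, mul_zero, mul_one,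
    add_zero, zero_add, Nat.add_sub_cancel]
  rw [← h3, pow_succ]
  push_cast
  linear_combination (-(1 / 2) * (k + 1) * z ^ k * F (Complex.normSq z)) * Complex.I_sq

theorem db_iter {m : ℕ} {F : ℝ → ℂ} (hF : ContDiff ℝ (⊤ : ℕ∞) F) {f : 𝓢(ℂ, ℂ)}
    (hf : ∀ z, f z = z ^ m * F (Complex.normSq z)) (j : ℕ) (z : ℂ) :
    db^[j] f z = z ^ (m + j) * iteratedDeriv j F (Complex.normSq z) := by
  induction j generalizing z with
  | zero => simpa using hf z
  | succ j ih =>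
    rw [Function.iterate_succ_apply', db_rad (m := m + j) (F := iteratedDeriv j F) ?_ ih,
      iteratedDeriv_succ, add_assoc]
    exact hF.differentiable_iteratedDeriv j (by exact_mod_cast ENat.natCast_lt_top j)

/-- the functions `H_j` -/
noncomputable def HH (n : ℕ) (h : ℝ → ℂ) : ℕ → ℝ → ℂ
  | 0 => h
  | j + 1 => fun t => ((n - j : ℕ) : ℂ) * HH n h j t + (t : ℂ) * deriv (HH n h j) t

theorem HH_smooth (n : ℕ) {h : ℝ → ℂ} (hh : ContDiff ℝ (⊤ : ℕ∞) h) (j : ℕ) :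
    ContDiff ℝ (⊤ : ℕ∞) (HH n h j) := by
  induction j with
  | zero => exact hh
  | succ j ih =>
    have h1 : ContDiff ℝ (⊤ : ℕ∞) (deriv (HH n h j)) := by
      have := (contDiff_infty_iff_deriv (f := HH n h j)).1 ih
      exact this.2
    exact (contDiff_const.mul ih).add (Complex.ofRealCLM.contDiff.mul h1)

theorem dd_iter {n : ℕ} {h : ℝ → ℂ} (hh : ContDiff ℝ (⊤ : ℕ∞) h) {f : 𝓢(ℂ, ℂ)}
    (hf : ∀ z, f z = z ^ n * h (Complex.normSq z)) (j : ℕ) (hj : j ≤ n) (z : ℂ) :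
    dd^[j] f z = z ^ (n - j) * HH n h j (Complex.normSq z) := by
  induction j generalizing z with
  | zero => simpa [HH] using hf z
  | succ j ih =>
    have e : n - j = n - (j + 1) + 1 := by omega
    have h1 : ∀ z, dd^[j] f z = z ^ (n - (j + 1) + 1) * HH n h j (Complex.normSq z) := by
      intro z
      rw [ih (by omega) z, e]
    rw [Function.iterate_succ_apply', dd_rad (k := n - (j + 1)) (F := HH n h j)
      ((HH_smooth n hh j).differentiable (by norm_num)) h1, ← e]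
    rfl

theorem real_iter {n : ℕ} {h : ℝ → ℂ} (hh : ContDiff ℝ (⊤ : ℕ∞) h) (j : ℕ) (hj : j ≤ n) (t : ℝ) :
    iteratedDeriv j (fun t : ℝ => (t : ℂ) ^ n * h t) t = (t : ℂ) ^ (n - j) * HH n h j t := by
  induction j generalizing t with
  | zero => simp [HH]
  | succ j ih =>
    have h1 : iteratedDeriv j (fun t : ℝ => (t : ℂ) ^ n * h t) =
        fun t : ℝ => (t : ℂ) ^ (n - j) * HH n h j t := funext fun t => ih (by omega) t
    rw [iteratedDeriv_succ, h1]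
    have h2 : HasDerivAt (HH n h j) (deriv (HH n h j) t) t :=
      ((HH_smooth n hh j).differentiable (by norm_num) t).hasDerivAt
    have h3 : HasDerivAt (fun t : ℝ => (t : ℂ) ^ (n - j))
        ((n - j : ℕ) * (t : ℂ) ^ (n - j - 1)) t := by
      have := (hasDerivAt_pow (n - j) (t : ℂ)).comp_ofReal
      exact this
    have h4 := (h3.mul h2).deriv
    have h5 : deriv (fun t : ℝ => (t : ℂ) ^ (n - j) * HH n h j t) t = _ := h4
    rw [h5]
    have e : n - j = n - (j + 1) + 1 := by omega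
    have e2 : n - j - 1 = n - (j + 1) := by omega
    change _ = (t : ℂ) ^ (n - (j + 1)) * (((n - j : ℕ) : ℂ) * HH n h j t +
      (t : ℂ) * deriv (HH n h j) t)
    rw [e2]
    have e3 : (t : ℂ) ^ (n - j) = (t : ℂ) ^ (n - (j + 1)) * t := by rw [← pow_succ, ← e]
    rw [e3]
    ring

theorem main : S_A2 := by
  intro n h hh hR z
  obtain ⟨R, hR⟩ := hR
  have hs : ContDiff ℝ ∞ (fun z : ℂ => z ^ n * h (Complex.normSq z)) := by
    have h1 : ContDiff ℝ ∞ (Complex.normSq : ℂ → ℝ) := by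
      have e : (Complex.normSq : ℂ → ℝ) = fun z => z.re * z.re + z.im * z.im := by
        funext z
        exact Complex.normSq_apply z
      rw [e]
      exact (Complex.reCLM.contDiff.mul Complex.reCLM.contDiff).add
        (Complex.imCLM.contDiff.mul Complex.imCLM.contDiff)
    exact (contDiff_id.pow n).mul (hh.comp h1)
  have hc : HasCompactSupport (fun z : ℂ => z ^ n * h (Complex.normSq z)) := by
    refine HasCompactSupport.intro (isCompact_closedBall (0 : ℂ) (|R| + 1)) fun w hw => ?_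
    rw [Metric.mem_closedBall, dist_zero_right, not_le] at hw
    have h1 : R ≤ Complex.normSq w := by
      rw [Complex.normSq_eq_norm_sq]
      nlinarith [le_abs_self R, abs_nonneg R]
    rw [hR _ h1, mul_zero]
  set f : 𝓢(ℂ, ℂ) := hc.toSchwartzMap hs with hfdef
  have hf : ∀ z, f z = z ^ n * h (Complex.normSq z) := fun z => rfl
  have h1 : rad n (iteratedDeriv n h) = db^[n] f := by
    funext w
    rw [db_iter hh hf n w, rad, two_mul]
  rw [h1, Tn_db, dd_iter hh hf n le_rfl z, real_iter hh n le_rfl, Nat.sub_self, pow_zero, pow_zero]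

end Pool.Agent.Y282.RB.A2
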