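import Pool.Agent.Y282.RB.Stm

/-!
Project RB (helper282), job RB-A3 (helper310): polar coordinates.
-/

set_option autoImplicit false

open MeasureTheory Set

namespace Pool.Agent.Y282.RB.A3

theorem int_normSq (φ : ℝ → ℝ) :
    ∫ z : ℂ, φ (Complex.normSq z) = Real.pi * ∫ x in Ioi (0 : ℝ), φ x := by
  rw [← Complex.integral_comp_polarCoord_symm]
  have h1 : ∀ q : ℝ × ℝ, q.1 • φ (Complex.normSq (Complex.polarCoord.symm q)) = (q.1 * φ (q.1 ^ 2)) * 1 := by
    intro q
    have : Complex.normSq (Complex.polarCoord.symm q) = q.1 ^ 2 := by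
      rw [Complex.normSq_eq_norm_sq, Complex.norm_polarCoord_symm, sq_abs]
    rw [this, smul_eq_mul, mul_one]
  simp_rw [h1]
  rw [polarCoord_target, Measure.volume_eq_prod, setIntegral_prod_mul (fun r : ℝ => r * φ (r ^ 2)) (fun _ : ℝ => (1 : ℝ))]
  have h2 : ∫ _y in Ioo (-Real.pi) Real.pi, (1 : ℝ) = 2 * Real.pi := by
    rw [setIntegral_const, Measure.real, Real.volume_Ioo, smul_eq_mul, mul_one, ENNReal.toReal_ofReal (by
      have := Real.pi_pos
      linarith)]
    ring
  rw [h2]
  have h3 := integral_comp_rpow_Ioi_of_pos (g := φ) (p := 2) (by norm_num)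
  have h4 : ∫ x in Ioi (0 : ℝ), (2 * x ^ ((2 : ℝ) - 1)) • φ (x ^ (2 : ℝ))
      = 2 * ∫ x in Ioi (0 : ℝ), x * φ (x ^ 2) := by
    rw [← integral_const_mul]
    refine setIntegral_congr_fun measurableSet_Ioi (fun x _ => ?_)
    have e : (2 : ℝ) - 1 = 1 := by norm_num
    simp only [e, Real.rpow_one, Real.rpow_two, smul_eq_mul]
    ring
  rw [h4] at h3
  rw [← h3]
  ring

theorem main : S_A3 := by
  intro p hp F hF hR
  obtain ⟨R, hR⟩ := hR
  have hc : Continuous (fun z : ℂ => F (Complex.normSq z)) := hF.comp Complex.continuous_normSq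
  have hs : HasCompactSupport (fun z : ℂ => F (Complex.normSq z)) := by
    refine HasCompactSupport.of_support_subset_isCompact (isCompact_closedBall (0 : ℂ) (Real.sqrt (max R 0))) ?_
    intro z hz
    rw [mem_closedBall_zero_iff]
    by_contra hcon
    push Not at hcon
    apply hz
    apply hR
    rw [Complex.normSq_eq_norm_sq]
    have h1 : Real.sqrt (max R 0) ^ 2 = max R 0 := Real.sq_sqrt (le_max_right _ _)
    have h2 : Real.sqrt (max R 0) ^ 2 ≤ ‖z‖ ^ 2 := pow_le_pow_left₀ (Real.sqrt_nonneg _) hcon.le 2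
    rw [h1] at h2
    exact le_trans (le_max_left _ _) h2
  have hm : MemLp (fun z : ℂ => F (Complex.normSq z)) (ENNReal.ofReal p) (volume : Measure ℂ) :=
    hc.memLp_of_hasCompactSupport hs
  have hp0 : 0 < p := by linarith
  rw [hm.eLpNorm_eq_integral_rpow_norm (by simpa using hp0) ENNReal.ofReal_ne_top, ENNReal.toReal_ofReal hp0.le]
  have h5 := int_normSq (fun x => |F x| ^ p)
  simp only [Real.norm_eq_abs]
  rw [h5, one_div]

end Pool.Agent.Y282.RB.A3
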