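import Pool.Agent.Y282.RB.Stm

/-!
# Project RB (helper282), part A4: complexification of the one-dimensional inequality

Proved by helper434.
-/

set_option autoImplicit false

open MeasureTheory Set

namespace Pool.Agent.Y282.RB.A4

open Pool.Agent.Y282.RB

/-- the real part after a rotation -/
noncomputable def ell (α : ℝ) : ℂ →L[ℝ] ℝ :=
  Complex.reCLM.comp ((ContinuousLinearMap.mul ℝ ℂ) (Complex.exp (α * Complex.I)))

theorem ell_apply (α : ℝ) (ζ : ℂ) : ell α ζ = (Complex.exp (α * Complex.I) * ζ).re := rfl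

theorem ell_mul (α t : ℝ) (ζ : ℂ) : ell α ((t : ℂ) * ζ) = t * ell α ζ := by
  rw [ell_apply, ell_apply, mul_left_comm, Complex.re_ofReal_mul]

theorem iteratedDeriv_ell (ℓ : ℂ →L[ℝ] ℝ) (f : ℝ → ℂ) (hf : ContDiff ℝ (⊤ : ℕ∞) f) (n : ℕ) :
    iteratedDeriv n (fun x => ℓ (f x)) = fun x => ℓ (iteratedDeriv n f x) := by
  induction n with
  | zero => simp [iteratedDeriv_zero]
  | succ n ih =>
    rw [iteratedDeriv_succ, ih]
    funext x
    have hd : DifferentiableAt ℝ (iteratedDeriv n f) x :=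
      (hf.differentiable_iteratedDeriv n (by exact_mod_cast ENat.coe_lt_top n)) x
    rw [iteratedDeriv_succ]
    exact (ℓ.hasFDerivAt.comp_hasDerivAt x hd.hasDerivAt).deriv

theorem iteratedDeriv_zero_of {E : Type} [NormedAddCommGroup E] [NormedSpace ℝ E] (f : ℝ → E)
    (R : ℝ) (hR : ∀ x, R ≤ x → f x = 0) (n : ℕ) (x : ℝ) (hx : R < x) :
    iteratedDeriv n f x = 0 := by
  have h : f =ᶠ[nhds x] fun _ => (0 : E) := by
    filter_upwards [Ioi_mem_nhds hx] with y hy
    exact hR y (le_of_lt hy)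
  rw [h.iteratedDeriv_eq n]
  have h0 : ∀ m : ℕ, iteratedDeriv m (fun _ : ℝ => (0 : E)) = fun _ => 0 := by
    intro m
    induction m with
    | zero => exact iteratedDeriv_zero
    | succ m ih =>
      rw [iteratedDeriv_succ, ih]
      funext y
      exact deriv_const y 0
  rw [h0 n]

theorem ioi_eq (g : ℝ → ℝ) (R : ℝ) (hR : 0 ≤ R) (h : ∀ x, R < x → g x = 0) :
    ∫ x in Ioi (0 : ℝ), g x = ∫ x in (0 : ℝ)..R, g x := by
  rw [intervalIntegral.integral_of_le hR]
  apply setIntegral_eq_of_subset_of_forall_diff_eq_zero measurableSet_Ioi Ioc_subset_Ioi_self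
  rintro x ⟨hx1, hx2⟩
  apply h
  by_contra hc
  exact hx2 ⟨hx1, not_lt.1 hc⟩

/-- the average of the `p`-th power of the real part -/
theorem avg (p : ℝ) (ζ : ℂ) :
    ∫ α in (0 : ℝ)..2 * Real.pi, |ell α ζ| ^ p =
      (∫ α in (0 : ℝ)..2 * Real.pi, |Real.cos α| ^ p) * ‖ζ‖ ^ p := by
  have h1 : ∀ α : ℝ, |ell α ζ| ^ p = |Real.cos (α + Complex.arg ζ)| ^ p * ‖ζ‖ ^ p := by
    intro α
    have h2 : ell α ζ = Real.cos (α + Complex.arg ζ) * ‖ζ‖ := by
      rw [ell_apply]
      conv_lhs => rw [← Complex.norm_mul_exp_arg_mul_I ζ]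
      rw [mul_left_comm, ← Complex.exp_add, ← add_mul, ← Complex.ofReal_add,
        Complex.re_ofReal_mul, Complex.exp_ofReal_mul_I_re, mul_comm]
    rw [h2, abs_mul, abs_of_nonneg (norm_nonneg ζ),
      Real.mul_rpow (abs_nonneg _) (norm_nonneg ζ)]
  simp_rw [h1]
  rw [intervalIntegral.integral_mul_const]
  congr 1
  rw [intervalIntegral.integral_comp_add_right (fun α => |Real.cos α| ^ p), zero_add]
  have hper : Function.Periodic (fun α : ℝ => |Real.cos α| ^ p) (2 * Real.pi) := by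
    intro α
    show |Real.cos (α + 2 * Real.pi)| ^ p = |Real.cos α| ^ p
    rw [Real.cos_add_two_pi]
  have h3 := hper.intervalIntegral_add_eq (Complex.arg ζ) 0
  rw [zero_add] at h3
  rw [add_comm (2 * Real.pi) (Complex.arg ζ)]
  exact h3

theorem cos_pos (p : ℝ) (hp : 1 ≤ p) :
    0 < ∫ α in (0 : ℝ)..2 * Real.pi, |Real.cos α| ^ p := by
  apply intervalIntegral.integral_pos
  · positivity
  · exact (Continuous.rpow_const (Real.continuous_cos.abs)
      (fun x => Or.inr (by linarith))).continuousOn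
  · intro x _
    positivity
  · refine ⟨0, ⟨le_rfl, by positivity⟩, ?_⟩
    rw [Real.cos_zero, abs_one, Real.one_rpow]
    exact one_pos

theorem cont (p : ℝ) (hp : 1 ≤ p) (f : ℝ → ℂ) (hf : Continuous f) :
    Continuous (Function.uncurry fun (α x : ℝ) => |ell α (f x)| ^ p) := by
  have h1 : Continuous (fun z : ℝ × ℝ => ell z.1 (f z.2)) := by
    simp only [ell_apply]
    exact Complex.continuous_re.comp
      ((Complex.continuous_exp.comp ((Complex.continuous_ofReal.comp continuous_fst).mul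
        continuous_const)).mul (hf.comp continuous_snd))
  exact Continuous.rpow_const h1.abs (fun x => Or.inr (by linarith))

/-- Fubini -/
theorem key (p : ℝ) (hp : 1 ≤ p) (f : ℝ → ℂ) (hf : Continuous f) (R : ℝ) :
    ∫ α in (0 : ℝ)..2 * Real.pi, ∫ x in (0 : ℝ)..R, |ell α (f x)| ^ p =
      (∫ α in (0 : ℝ)..2 * Real.pi, |Real.cos α| ^ p) * ∫ x in (0 : ℝ)..R, ‖f x‖ ^ p := by
  rw [intervalIntegral_intervalIntegral_swap]
  · simp_rw [avg p]
    rw [intervalIntegral.integral_const_mul]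
  · apply IntegrableOn.mono_set (t := uIcc 0 (2 * Real.pi) ×ˢ uIcc 0 R)
    · exact (cont p hp f hf).continuousOn.integrableOn_compact
        (isCompact_uIcc.prod isCompact_uIcc)
    · exact prod_mono uIoc_subset_uIcc uIoc_subset_uIcc

theorem main : S_A4 := by
  intro n p C hp hC hOne h hh hR0
  obtain ⟨R0, hR0⟩ := hR0
  set F : ℝ → ℂ := iteratedDeriv n (fun t : ℝ => (t : ℂ) ^ n * h t) with hF
  set w : ℝ → ℂ := fun x : ℝ => (x : ℂ) ^ n * iteratedDeriv n h x with hw
  have hn : ((n : ℕ∞) : WithTop ℕ∞) ≤ ((⊤ : ℕ∞) : WithTop ℕ∞) := by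
    exact_mod_cast le_top
  have hsm : ContDiff ℝ (⊤ : ℕ∞) (fun t : ℝ => (t : ℂ) ^ n * h t) :=
    (Complex.ofRealCLM.contDiff.pow n).mul hh
  have hFc : Continuous F := hsm.continuous_iteratedDeriv n hn
  have hwc : Continuous w :=
    (Complex.continuous_ofReal.pow n).mul (hh.continuous_iteratedDeriv n hn)
  set R : ℝ := max R0 0 with hR
  have hR1 : R0 ≤ R := le_max_left _ _
  have hR2 : 0 ≤ R := le_max_right _ _
  have hF0 : ∀ x, R < x → F x = 0 := by
    intro x hx
    apply iteratedDeriv_zero_of (fun t : ℝ => (t : ℂ) ^ n * h t) R0 _ n x (lt_of_le_of_lt hR1 hx)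
    intro y hy
    simp [hR0 y hy]
  have hw0 : ∀ x, R < x → w x = 0 := by
    intro x hx
    show (x : ℂ) ^ n * iteratedDeriv n h x = 0
    rw [iteratedDeriv_zero_of h R0 hR0 n x (lt_of_le_of_lt hR1 hx), mul_zero]
  have hp0 : p ≠ 0 := by linarith
  -- the inequality for the rotated real parts
  have hα : ∀ α : ℝ, ∫ x in (0 : ℝ)..R, |ell α (F x)| ^ p ≤
      C ^ p * ∫ x in (0 : ℝ)..R, |ell α (w x)| ^ p := by
    intro α
    have h1 := hOne (fun x => ell α (h x)) ((ell α).contDiff.comp hh)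
      ⟨R0, fun x hx => by simp [hR0 x hx]⟩
    have e1 : (fun t : ℝ => t ^ n * ell α (h t)) = fun t : ℝ => ell α ((t : ℂ) ^ n * h t) := by
      funext t
      rw [← ell_mul, Complex.ofReal_pow]
    rw [e1, iteratedDeriv_ell (ell α) _ hsm n, iteratedDeriv_ell (ell α) h hh n] at h1
    have e2 : ∀ x : ℝ, x ^ n * ell α (iteratedDeriv n h x) = ell α (w x) := by
      intro x
      rw [← ell_mul, Complex.ofReal_pow]
    simp only [e2] at h1
    rw [ioi_eq (fun x => |ell α (F x)| ^ p) R hR2, ioi_eq (fun x => |ell α (w x)| ^ p) R hR2] at h1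
    · exact h1
    · intro x hx
      show |ell α (w x)| ^ p = 0
      rw [hw0 x hx, map_zero, abs_zero, Real.zero_rpow hp0]
    · intro x hx
      show |ell α (F x)| ^ p = 0
      rw [hF0 x hx, map_zero, abs_zero, Real.zero_rpow hp0]
  have hint : ∀ f : ℝ → ℂ, Continuous f →
      Continuous (fun α : ℝ => ∫ x in (0 : ℝ)..R, |ell α (f x)| ^ p) := by
    intro f hf
    exact intervalIntegral.continuous_parametric_intervalIntegral_of_continuous'
      (cont p hp f hf) 0 R
  have h2 : ∫ α in (0 : ℝ)..2 * Real.pi, ∫ x in (0 : ℝ)..R, |ell α (F x)| ^ p ≤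
      ∫ α in (0 : ℝ)..2 * Real.pi, C ^ p * ∫ x in (0 : ℝ)..R, |ell α (w x)| ^ p := by
    apply intervalIntegral.integral_mono_on (by positivity)
    · exact (hint F hFc).intervalIntegrable _ _
    · exact (continuous_const.mul (hint w hwc)).intervalIntegrable _ _
    · intro α _
      exact hα α
  rw [intervalIntegral.integral_const_mul, key p hp F hFc R, key p hp w hwc R] at h2
  have hc := cos_pos p hp
  rw [ioi_eq (fun x => ‖F x‖ ^ p) R hR2, ioi_eq (fun x => ‖(x : ℂ) ^ n * iteratedDeriv n h x‖ ^ p)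
    R hR2]
  · have h3 : (∫ α in (0 : ℝ)..2 * Real.pi, |Real.cos α| ^ p) * (∫ x in (0 : ℝ)..R, ‖F x‖ ^ p) ≤
        (∫ α in (0 : ℝ)..2 * Real.pi, |Real.cos α| ^ p) *
          (C ^ p * ∫ x in (0 : ℝ)..R, ‖w x‖ ^ p) := by
      calc _ ≤ _ := h2
        _ = _ := by ring
    exact le_of_mul_le_mul_left h3 hc
  · intro x hx
    show ‖w x‖ ^ p = 0
    rw [hw0 x hx, norm_zero, Real.zero_rpow hp0]
  · intro x hx
    show ‖F x‖ ^ p = 0
    rw [hF0 x hx, norm_zero, Real.zero_rpow hp0]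

end Pool.Agent.Y282.RB.A4
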