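import Pool.Agent.Y282.RB.Stm

/-!
# Integrating the pointwise inequality (job RB-B2 of helper282)

Author helper584.
-/

set_option autoImplicit false

open MeasureTheory Set
open scoped BigOperators

namespace Pool.Agent.Y282.RB.B2

/-- the partial products -/
noncomputable def cc (σ : ℝ) (j : ℕ) : ℝ :=
  ∏ i ∈ Finset.range j, (((i : ℝ) + 1 - σ) / ((i : ℝ) + σ))

theorem cc_zero (σ : ℝ) : cc σ 0 = 1 := by simp [cc]

theorem cc_succ (σ : ℝ) (j : ℕ) : cc σ (j + 1) = cc σ j * (((j : ℝ) + 1 - σ) / ((j : ℝ) + σ)) := by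
  rw [cc, Finset.prod_range_succ]; rfl

theorem cc_pos {σ : ℝ} (h0 : 0 < σ) (h1 : σ < 1) (j : ℕ) : 0 < cc σ j := by
  apply Finset.prod_pos
  intro i _
  have : (0 : ℝ) ≤ i := Nat.cast_nonneg i
  apply div_pos <;> linarith

theorem kk_pos {σ : ℝ} (h0 : 0 < σ) (h1 : σ < 1) (j : ℕ) : 0 < kk σ j := by
  have : (0 : ℝ) ≤ j := Nat.cast_nonneg j
  unfold kk
  apply div_pos
  · linarith
  · apply mul_pos <;> linarith

theorem KK_pos {σ : ℝ} (h0 : 0 < σ) (h1 : σ < 1) {n : ℕ} (hn : 1 ≤ n) : 0 < KK σ n := by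
  apply Finset.sum_pos
  · intro i _; exact kk_pos h0 h1 i
  · exact ⟨0, Finset.mem_range.2 hn⟩

theorem main : S_B2 := by
  intro hB1 n p hn hp hstar h hh hR0
  obtain ⟨X, G, R, hR, hX, hG, hXR, hGR, hGn, hG0, hXG1, hXG0⟩ := hB1 n h hh hR0
  have hp0 : 0 < p := by linarith
  obtain ⟨σ, hσ⟩ : ∃ σ : ℝ, σ = 1 / p := ⟨_, rfl⟩
  have hσ0 : 0 < σ := by rw [hσ]; positivity
  have hσp : σ * p = 1 := by rw [hσ]; field_simp
  have hσ1 : σ < 1 := by nlinarith
  have hKp : 0 < KK σ n := KK_pos hσ0 hσ1 hn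
  have hstar' : ∀ γ : ℕ → ℝ, |γ 0| ^ p - |γ n| ^ p ≤ p * (Lam σ n γ) ^ (p / 2 - 1) *
    ∑ j ∈ Finset.range n, yy σ γ j * (γ j - γ (j + 1)) := by
    rw [hσ]; exact hstar
  let γ : ℝ → ℕ → ℝ := fun x j => (-1) ^ j * cc σ j * G j x
  let Y : ℕ → ℝ → ℝ := fun j x => (-1) ^ j * cc σ j * ((j : ℝ) + 1 - σ) * X j x
  let Y' : ℕ → ℝ → ℝ := fun j x => (-1) ^ j * cc σ j * ((j : ℝ) + 1 - σ) * deriv (X j) x
  have hγs : ∀ x j, γ x (j + 1) = - ((-1) ^ j * cc σ j * (((j : ℝ) + 1 - σ) / ((j : ℝ) + σ)) *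
      G (j + 1) x) := by
    intro x j
    change (-1) ^ (j + 1) * cc σ (j + 1) * G (j + 1) x = _
    rw [cc_succ, pow_succ]
    ring
  have hyy : ∀ x j, j < n → yy σ (γ x) j = Y j x := by
    intro x j hj
    have h1 := hXG1 j hj x
    have h2 := hXG0 j hj x
    have hj0 : (0 : ℝ) ≤ j := Nat.cast_nonneg j
    have hne1 : (2 * (j : ℝ) + 1) ≠ 0 := by positivity
    have hne2 : ((j : ℝ) + σ) ≠ 0 := by positivity
    unfold yy th
    rw [hγs]
    change _ * ((-1) ^ j * cc σ j * G j x) + _ = (-1) ^ j * cc σ j * ((j : ℝ) + 1 - σ) * X j x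
    have h3 : G j x = G (j + 1) x + (2 * (j : ℝ) + 1) * X j x := by rw [← h1, ← h2]; ring
    rw [h3]
    field_simp
    ring
  have hYd : ∀ x j, j < n → x * Y' j x = -σ * Y j x + (γ x j - γ x (j + 1)) / kk σ j := by
    intro x j hj
    have h1 := hXG1 j hj x
    have h2 := hXG0 j hj x
    have hj0 : (0 : ℝ) ≤ j := Nat.cast_nonneg j
    have hne1 : (2 * (j : ℝ) + 1) ≠ 0 := by positivity
    have hne2 : ((j : ℝ) + σ) ≠ 0 := by positivity
    have hne3 : ((j : ℝ) + 1 - σ) ≠ 0 := by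
      have : (0 : ℝ) < (j : ℝ) + 1 - σ := by linarith
      exact this.ne'
    rw [hγs]
    change x * ((-1) ^ j * cc σ j * ((j : ℝ) + 1 - σ) * deriv (X j) x) =
      -σ * ((-1) ^ j * cc σ j * ((j : ℝ) + 1 - σ) * X j x) +
      ((-1) ^ j * cc σ j * G j x - _) / _
    rw [← h1, ← h2]
    unfold kk
    field_simp
    ring
  -- the function `Λ`
  let L : ℝ → ℝ := fun x => (∑ j ∈ Finset.range n, kk σ j * (Y j x) ^ 2) / KK σ n
  have hLL : ∀ x, Lam σ n (γ x) = L x := by
    intro x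
    unfold Lam
    change _ = (∑ j ∈ Finset.range n, kk σ j * (Y j x) ^ 2) / KK σ n
    congr 1
    apply Finset.sum_congr rfl
    intro j hj
    rw [hyy x j (Finset.mem_range.1 hj)]
  have hL0 : ∀ x, 0 ≤ L x := by
    intro x
    apply div_nonneg _ hKp.le
    apply Finset.sum_nonneg
    intro j _
    exact mul_nonneg (kk_pos hσ0 hσ1 j).le (sq_nonneg _)
  have hYD : ∀ j x, HasDerivAt (Y j) (Y' j x) x := by
    intro j x
    have h1 : HasDerivAt (X j) (deriv (X j) x) x :=
      (((hX j).differentiable (by simp)) x).hasDerivAt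
    exact h1.const_mul _
  let L' : ℝ → ℝ := fun x => (∑ j ∈ Finset.range n, kk σ j * (2 * Y j x * Y' j x)) / KK σ n
  have hLD : ∀ x, HasDerivAt L (L' x) x := by
    intro x
    apply HasDerivAt.div_const
    apply HasDerivAt.fun_sum
    intro j _
    apply HasDerivAt.const_mul
    have h1 := (hYD j x).pow 2
    have h2 : 2 * Y j x * Y' j x = ((2 : ℕ) : ℝ) * Y j x ^ (2 - 1) * Y' j x := by norm_num
    rw [h2]
    exact h1
  have hxL : ∀ x, x * L' x = -2 * σ * L x +
      2 * (∑ j ∈ Finset.range n, Y j x * (γ x j - γ x (j + 1))) / KK σ n := by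
    intro x
    change x * ((∑ j ∈ Finset.range n, kk σ j * (2 * Y j x * Y' j x)) / KK σ n) =
      -2 * σ * ((∑ j ∈ Finset.range n, kk σ j * (Y j x) ^ 2) / KK σ n) + _
    rw [← mul_div_assoc, ← mul_div_assoc, ← add_div]
    congr 1
    rw [Finset.mul_sum, Finset.mul_sum, Finset.mul_sum, ← Finset.sum_add_distrib]
    apply Finset.sum_congr rfl
    intro j hj
    have h1 := hYd x j (Finset.mem_range.1 hj)
    have hk := (kk_pos hσ0 hσ1 j).ne'
    have h2 : x * (kk σ j * (2 * Y j x * Y' j x)) = kk σ j * (2 * Y j x) * (x * Y' j x) := by ring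
    rw [h2, h1]
    field_simp
  have hp2 : 0 ≤ p / 2 - 1 := by linarith
  have hpow : ∀ x, L x ^ (p / 2) = L x ^ (p / 2 - 1) * L x := by
    intro x
    have h1 : p / 2 = (p / 2 - 1) + 1 := by ring
    have h2 : (p / 2 - 1) + 1 ≠ 0 := by linarith
    conv_lhs => rw [h1]
    rw [Real.rpow_add_one' (hL0 x) h2]
  -- the derivative
  let F : ℝ → ℝ := fun x => p * L x ^ (p / 2 - 1) *
    ∑ j ∈ Finset.range n, Y j x * (γ x j - γ x (j + 1))
  have hFD : ∀ x, HasDerivAt (fun x => x * (KK σ n * L x ^ (p / 2))) (F x) x := by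
    intro x
    have h1 := (hLD x).rpow_const (p := p / 2) (Or.inr (by linarith))
    have h2 := (hasDerivAt_id x).mul (h1.const_mul (KK σ n))
    have h3 : F x = 1 * (KK σ n * L x ^ (p / 2)) +
        id x * (KK σ n * (L' x * (p / 2) * L x ^ (p / 2 - 1))) := by
      have h4 := hxL x
      have h5 := hpow x
      have h6 : id x * (KK σ n * (L' x * (p / 2) * L x ^ (p / 2 - 1))) =
          KK σ n * (p / 2) * L x ^ (p / 2 - 1) * (x * L' x) := by
        rw [id]; ring
      rw [h6, h4, h5]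
      change p * L x ^ (p / 2 - 1) *
        (∑ j ∈ Finset.range n, Y j x * (γ x j - γ x (j + 1))) = _
      generalize (∑ j ∈ Finset.range n, Y j x * (γ x j - γ x (j + 1))) = S
      generalize L x ^ (p / 2 - 1) = q
      generalize L x = l
      have hK := hKp.ne'
      field_simp
      have h7 : σ * p = 1 := hσp
      linear_combination (q * l * KK σ n) * h7
    rw [h3]
    exact h2
  have hcY : ∀ j, Continuous (Y j) := fun j => (continuous_const.mul (hX j).continuous)
  have hcG : ∀ j, Continuous (fun x => γ x j) := fun j => (continuous_const.mul (hG j).continuous)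
  have hcL : Continuous L := by
    apply Continuous.div_const
    apply continuous_finsetSum
    intro j _
    exact continuous_const.mul ((hcY j).pow 2)
  have hcF : Continuous F := by
    apply Continuous.mul
    · exact continuous_const.mul (hcL.rpow_const (fun x => Or.inr hp2))
    · apply continuous_finsetSum
      intro j _
      exact (hcY j).mul ((hcG j).sub (hcG (j + 1)))
  have hint : ∫ x in (0 : ℝ)..R, F x = 0 := by
    rw [intervalIntegral.integral_eq_sub_of_hasDerivAt (fun x _ => hFD x)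
      (hcF.intervalIntegrable _ _)]
    have h1 : L R = 0 := by
      change (∑ j ∈ Finset.range n, kk σ j * (Y j R) ^ 2) / KK σ n = 0
      rw [Finset.sum_eq_zero, zero_div]
      intro j _
      have : Y j R = 0 := by
        change (-1) ^ j * cc σ j * ((j : ℝ) + 1 - σ) * X j R = 0
        rw [hXR j R le_rfl, mul_zero]
      rw [this]; ring
    rw [h1, Real.zero_rpow (by positivity)]
    ring
  have hcn : cc σ n = Cn p n := by rw [hσ]; rfl
  have hcn0 : 0 < Cn p n := by rw [← hcn]; exact cc_pos hσ0 hσ1 n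
  have hpt : ∀ x, |G 0 x| ^ p - Cn p n ^ p * |G n x| ^ p ≤ F x := by
    intro x
    have h1 := hstar' (γ x)
    have h2 : |γ x 0| = |G 0 x| := by
      change |(-1) ^ 0 * cc σ 0 * G 0 x| = _
      rw [cc_zero, pow_zero, one_mul, one_mul]
    have h3 : |γ x n| = Cn p n * |G n x| := by
      change |(-1) ^ n * cc σ n * G n x| = _
      rw [abs_mul, abs_mul, abs_pow, abs_neg, abs_one, one_pow, one_mul, hcn, abs_of_pos hcn0]
    rw [h2, h3, Real.mul_rpow hcn0.le (abs_nonneg _), hLL] at h1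
    refine h1.trans (le_of_eq ?_)
    change _ = p * L x ^ (p / 2 - 1) * ∑ j ∈ Finset.range n, Y j x * (γ x j - γ x (j + 1))
    congr 1
    apply Finset.sum_congr rfl
    intro j hj
    rw [hyy x j (Finset.mem_range.1 hj)]
  -- the integrals
  have hc0 : Continuous (fun x => |G 0 x| ^ p) :=
    (hG 0).continuous.abs.rpow_const (fun x => Or.inr hp0.le)
  have hc1 : Continuous (fun x => |G n x| ^ p) :=
    (hG n).continuous.abs.rpow_const (fun x => Or.inr hp0.le)
  have hI : ∀ g : ℝ → ℝ, (∀ x, R ≤ x → g x = 0) →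
      ∫ x in Ioi (0 : ℝ), |g x| ^ p = ∫ x in (0 : ℝ)..R, |g x| ^ p := by
    intro g hg
    rw [intervalIntegral.integral_of_le hR.le]
    apply setIntegral_eq_of_subset_of_forall_sdiff_eq_zero measurableSet_Ioi Ioc_subset_Ioi_self
    rintro x ⟨hx1, hx2⟩
    have hx3 : R ≤ x := by
      by_contra hx
      exact hx2 ⟨hx1, (not_le.1 hx).le⟩
    rw [hg x hx3, abs_zero, Real.zero_rpow hp0.ne']
  have e0 : ∫ x in Ioi (0 : ℝ), |iteratedDeriv n (fun t => t ^ n * h t) x| ^ p =
      ∫ x in (0 : ℝ)..R, |G 0 x| ^ p := by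
    rw [← hI (G 0) (hGR 0)]
    simp only [hG0]
  have e1 : ∫ x in Ioi (0 : ℝ), |x ^ n * iteratedDeriv n h x| ^ p =
      ∫ x in (0 : ℝ)..R, |G n x| ^ p := by
    rw [← hI (G n) (hGR n)]
    simp only [hGn]
  rw [e0, e1]
  have h1 : ∫ x in (0 : ℝ)..R, (|G 0 x| ^ p - Cn p n ^ p * |G n x| ^ p) ≤
      ∫ x in (0 : ℝ)..R, F x := by
    apply intervalIntegral.integral_mono_on hR.le
    · exact (hc0.sub (continuous_const.mul hc1)).intervalIntegrable _ _
    · exact hcF.intervalIntegrable _ _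
    · intro x _; exact hpt x
  have h2 : IntervalIntegrable (fun x => Cn p n ^ p * |G n x| ^ p) volume 0 R :=
    (continuous_const.mul hc1).intervalIntegrable _ _
  rw [hint, intervalIntegral.integral_sub (hc0.intervalIntegrable _ _) h2,
    intervalIntegral.integral_const_mul] at h1
  linarith

end Pool.Agent.Y282.RB.B2
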