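import Mathlib

/-!
# Project RB (helper282): powers of the Beurling transform on `z ^ (2 n) g(|z|^2)`

Definitions and statements.  `σ = 1 / p` throughout.
-/

set_option autoImplicit false

open MeasureTheory Set
open scoped BigOperators

namespace Pool.Agent.Y282.RB

/-- the weights `k_j = (2 j + 1) / ((j + σ) (j + 1 - σ))` -/
noncomputable def kk (σ : ℝ) (j : ℕ) : ℝ := (2 * (j : ℝ) + 1) / (((j : ℝ) + σ) * ((j : ℝ) + 1 - σ))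

/-- `θ_j = (j + 1 - σ) / (2 j + 1)` -/
noncomputable def th (σ : ℝ) (j : ℕ) : ℝ := ((j : ℝ) + 1 - σ) / (2 * (j : ℝ) + 1)

/-- `y_j = θ_j γ_j + (1 - θ_j) γ_{j+1}` -/
noncomputable def yy (σ : ℝ) (γ : ℕ → ℝ) (j : ℕ) : ℝ := th σ j * γ j + (1 - th σ j) * γ (j + 1)

noncomputable def KK (σ : ℝ) (n : ℕ) : ℝ := ∑ j ∈ Finset.range n, kk σ j

/-- `Λ = (Σ k_j y_j ^ 2) / (Σ k_j)` -/
noncomputable def Lam (σ : ℝ) (n : ℕ) (γ : ℕ → ℝ) : ℝ :=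
  (∑ j ∈ Finset.range n, kk σ j * (yy σ γ j) ^ 2) / KK σ n

/-- `Σ (γ_j - γ_{j+1}) ^ 2 / (2 j + 1)` -/
noncomputable def TT (n : ℕ) (γ : ℕ → ℝ) : ℝ :=
  ∑ j ∈ Finset.range n, (γ j - γ (j + 1)) ^ 2 / (2 * (j : ℝ) + 1)

/-- the constant `(1 - 1/p)_n / (1/p)_n` as a product -/
noncomputable def Cn (p : ℝ) (n : ℕ) : ℝ :=
  ∏ j ∈ Finset.range n, (((j : ℝ) + 1 - 1 / p) / ((j : ℝ) + 1 / p))

/-- the pointwise inequality -/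
def Star (n : ℕ) (p : ℝ) : Prop := ∀ γ : ℕ → ℝ,
  |γ 0| ^ p - |γ n| ^ p ≤ p * (Lam (1 / p) n γ) ^ (p / 2 - 1) *
    ∑ j ∈ Finset.range n, yy (1 / p) γ j * (γ j - γ (j + 1))

/-- the function `b ^ r - 1 - r (b - 1)` -/
noncomputable def ph (r b : ℝ) : ℝ := b ^ r - 1 - r * (b - 1)

/-- the one-dimensional inequality -/
def OneD (n : ℕ) (p C : ℝ) : Prop := ∀ h : ℝ → ℝ, ContDiff ℝ (⊤ : ℕ∞) h →
  (∃ R : ℝ, ∀ x, R ≤ x → h x = 0) →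
  ∫ x in Ioi (0 : ℝ), |iteratedDeriv n (fun t => t ^ n * h t) x| ^ p
    ≤ C ^ p * ∫ x in Ioi (0 : ℝ), |x ^ n * iteratedDeriv n h x| ^ p

/-- the Fourier multiplier operator with symbol `(conj ξ / ξ) ^ n`, literal form -/
noncomputable def Tn (n : ℕ) (f : ℂ → ℂ) (z : ℂ) : ℂ :=
  ∫ ξ : ℂ,
    Complex.exp (2 * (Real.pi : ℂ) * Complex.I * (((z.re * ξ.re + z.im * ξ.im : ℝ)) : ℂ)) *
      ((starRingEnd ℂ ξ / ξ) ^ n *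
        ∫ x : ℂ, Complex.exp (-(2 * (Real.pi : ℂ) * Complex.I *
          (((x.re * ξ.re + x.im * ξ.im : ℝ)) : ℂ))) * f x)

/-- the functions of angular type `2 n` : `f(z) = z ^ (2 n) g(|z| ^ 2)` -/
noncomputable def rad (n : ℕ) (g : ℝ → ℂ) (z : ℂ) : ℂ := z ^ (2 * n) * g (Complex.normSq z)

/-! ### Part A : from the plane to the half-line -/

/-- primitives with bounded support on the right -/
def S_A1 : Prop := ∀ (n : ℕ) (g : ℝ → ℂ), ContDiff ℝ (⊤ : ℕ∞) g → HasCompactSupport g →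
  ∃ h : ℝ → ℂ, ContDiff ℝ (⊤ : ℕ∞) h ∧ (∃ R : ℝ, ∀ x, R ≤ x → h x = 0) ∧ iteratedDeriv n h = g

/-- the multiplier on these functions -/
def S_A2 : Prop := ∀ (n : ℕ) (h : ℝ → ℂ), ContDiff ℝ (⊤ : ℕ∞) h →
  (∃ R : ℝ, ∀ x, R ≤ x → h x = 0) → ∀ z : ℂ,
  Tn n (rad n (iteratedDeriv n h)) z = iteratedDeriv n (fun t : ℝ => (t : ℂ) ^ n * h t) (Complex.normSq z)

/-- polar coordinates -/
def S_A3 : Prop := ∀ (p : ℝ), 1 ≤ p → ∀ (F : ℝ → ℝ), Continuous F → (∃ R : ℝ, ∀ x, R ≤ x → F x = 0) →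
  eLpNorm (fun z : ℂ => F (Complex.normSq z)) (ENNReal.ofReal p) (volume : Measure ℂ)
    = ENNReal.ofReal ((Real.pi * ∫ x in Ioi (0 : ℝ), |F x| ^ p) ^ (1 / p))

/-- complexification of the one-dimensional inequality -/
def S_A4 : Prop := ∀ (n : ℕ) (p C : ℝ), 1 ≤ p → 0 ≤ C → OneD n p C →
  ∀ h : ℝ → ℂ, ContDiff ℝ (⊤ : ℕ∞) h → (∃ R : ℝ, ∀ x, R ≤ x → h x = 0) →
  ∫ x in Ioi (0 : ℝ), ‖iteratedDeriv n (fun t : ℝ => (t : ℂ) ^ n * h t) x‖ ^ p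
    ≤ C ^ p * ∫ x in Ioi (0 : ℝ), ‖(x : ℂ) ^ n * iteratedDeriv n h x‖ ^ p

/-- conclusion of Part A -/
def S_A : Prop := ∀ (n : ℕ) (p C : ℝ), 1 ≤ p → 0 ≤ C → OneD n p C →
  ∀ g : ℝ → ℂ, ContDiff ℝ (⊤ : ℕ∞) g → HasCompactSupport g →
  eLpNorm (Tn n (rad n g)) (ENNReal.ofReal p) (volume : Measure ℂ)
    ≤ ENNReal.ofReal C * eLpNorm (rad n g) (ENNReal.ofReal p) (volume : Measure ℂ)

/-! ### Part B : from the pointwise inequality to the half-line -/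

/-- the chain of first order operators -/
def S_B1 : Prop := ∀ (n : ℕ) (h : ℝ → ℝ), ContDiff ℝ (⊤ : ℕ∞) h →
  (∃ R : ℝ, ∀ x, R ≤ x → h x = 0) →
  ∃ (X G : ℕ → ℝ → ℝ) (R : ℝ), 0 < R ∧ (∀ j, ContDiff ℝ (⊤ : ℕ∞) (X j)) ∧
    (∀ j, ContDiff ℝ (⊤ : ℕ∞) (G j)) ∧ (∀ j x, R ≤ x → X j x = 0) ∧ (∀ j x, R ≤ x → G j x = 0) ∧
    (∀ x, G n x = x ^ n * iteratedDeriv n h x) ∧
    (∀ x, G 0 x = iteratedDeriv n (fun t => t ^ n * h t) x) ∧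
    (∀ j, j < n → ∀ x, x * deriv (X j) x - (j : ℝ) * X j x = G (j + 1) x) ∧
    (∀ j, j < n → ∀ x, x * deriv (X j) x + ((j : ℝ) + 1) * X j x = G j x)

def S_B2 : Prop := S_B1 → ∀ (n : ℕ) (p : ℝ), 1 ≤ n → 2 ≤ p → Star n p → OneD n p (Cn p n)

/-! ### Part C : the pointwise inequality -/

/-- reduction of the pointwise inequality, normalised by `Λ = 1` -/
def S_C0 : Prop := ∀ (n : ℕ) (p : ℝ), 1 ≤ n → 2 < p →
  (∀ γ : ℕ → ℝ, Lam (1 / p) n γ = 1 → 0 ≤ γ 0 → (γ 0 ≤ 1 ∨ (γ n) ^ 2 ≤ (γ 0) ^ 2) →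
    ph (p / 2) ((γ 0) ^ 2) ≤ (p / 2 - 1) * TT n γ) → Star n p

end Pool.Agent.Y282.RB
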