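import Mathlib
import Pool.Agent.Y282.RB.Stm

/-!
# RB-C0: algebraic reduction of the pointwise inequality (helper286)
-/

set_option autoImplicit false

namespace Pool.Agent.Y282.RB.C0

open Finset

theorem TT_nonneg (n : ℕ) (γ : ℕ → ℝ) : 0 ≤ TT n γ := sum_nonneg fun j _ => by positivity

theorem ident (n : ℕ) (p : ℝ) (hp : 2 < p) (γ : ℕ → ℝ) :
    p * ∑ j ∈ range n, yy (1 / p) γ j * (γ j - γ (j + 1)) =
      p / 2 * (γ 0 ^ 2 - γ n ^ 2) + (p / 2 - 1) * TT n γ := by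
  have hp0 : p ≠ 0 := by linarith
  unfold TT
  induction n with
  | zero => simp
  | succ n ih =>
    rw [sum_range_succ, sum_range_succ, mul_add, mul_add, ih]
    have h1 : p * (yy (1 / p) γ n * (γ n - γ (n + 1))) = p / 2 * (γ n ^ 2 - γ (n + 1) ^ 2) +
        (p / 2 - 1) * ((γ n - γ (n + 1)) ^ 2 / (2 * (n : ℝ) + 1)) := by
      have h2 : (2 * (n : ℝ) + 1) ≠ 0 := by positivity
      unfold yy th
      field_simp
      ring
    rw [h1]
    ring

theorem yy_smul (σ c : ℝ) (γ : ℕ → ℝ) (j : ℕ) : yy σ (fun i => c * γ i) j = c * yy σ γ j := by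
  unfold yy
  ring

theorem Lam_smul (σ c : ℝ) (n : ℕ) (γ : ℕ → ℝ) :
    Lam σ n (fun i => c * γ i) = c ^ 2 * Lam σ n γ := by
  unfold Lam
  rw [← mul_div_assoc, mul_sum]
  congr 1
  refine sum_congr rfl fun j _ => ?_
  rw [yy_smul]
  ring

theorem kk_pos {p : ℝ} (hp : 2 < p) (j : ℕ) : 0 < kk (1 / p) j := by
  unfold kk
  have h1 : 0 < 1 / p := by positivity
  have h2 : 1 / p < 1 := by rw [div_lt_one (by linarith)]; linarith
  have h3 : (0 : ℝ) ≤ j := Nat.cast_nonneg j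
  have h4 : 0 < (j : ℝ) + 1 / p := by linarith
  have h5 : 0 < (j : ℝ) + 1 - 1 / p := by linarith
  positivity

theorem rpow_sq {p : ℝ} (x : ℝ) : |x| ^ p = (x ^ 2) ^ (p / 2) := by
  rw [← sq_abs, ← Real.rpow_natCast, ← Real.rpow_mul (abs_nonneg x)]
  congr 1
  push_cast
  ring

theorem norm_case (n : ℕ) (p : ℝ) (hp : 2 < p)
    (H : ∀ γ : ℕ → ℝ, Lam (1 / p) n γ = 1 → 0 ≤ γ 0 → (γ 0 ≤ 1 ∨ (γ n) ^ 2 ≤ (γ 0) ^ 2) →
      ph (p / 2) ((γ 0) ^ 2) ≤ (p / 2 - 1) * TT n γ) (γ : ℕ → ℝ) (hL : Lam (1 / p) n γ = 1)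
    (h0 : 0 ≤ γ 0) :
    |γ 0| ^ p - |γ n| ^ p ≤ p * ∑ j ∈ range n, yy (1 / p) γ j * (γ j - γ (j + 1)) := by
  rw [ident n p hp γ, rpow_sq, rpow_sq]
  have hT := TT_nonneg n γ
  have hr : 1 ≤ p / 2 := by linarith
  set a := γ n ^ 2 with ha
  set b := γ 0 ^ 2 with hb
  have ha0 : 0 ≤ a := sq_nonneg _
  by_cases hc : γ 0 ≤ 1 ∨ a ≤ b
  · have h1 := H γ hL h0 hc
    unfold ph at h1
    have h2 := one_add_mul_self_le_rpow_one_add (s := a - 1) (by linarith) hr
    rw [show 1 + (a - 1) = a by ring] at h2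
    nlinarith
  · push Not at hc
    have hb1 : 1 < b := by nlinarith [hc.1]
    have hb0 : 0 < b := by linarith
    have h1 := one_add_mul_self_le_rpow_one_add (s := a / b - 1)
      (by have : 0 ≤ a / b := by positivity
          linarith) hr
    rw [show 1 + (a / b - 1) = a / b by ring, Real.div_rpow ha0 hb0.le] at h1
    have hbr : 0 < b ^ (p / 2) := Real.rpow_pos_of_pos hb0 _
    rw [le_div_iff₀ hbr] at h1
    have h2 : b ≤ b ^ (p / 2) := by
      have := Real.rpow_le_rpow_of_exponent_le hb1.le hr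
      rwa [Real.rpow_one] at this
    have h3 : 0 ≤ a / b - 1 := by
      rw [sub_nonneg, le_div_iff₀ hb0]; linarith
    have h4 : p / 2 * (a - b) ≤ p / 2 * (a / b - 1) * b ^ (p / 2) := by
      have h5 : p / 2 * (a - b) = p / 2 * (a / b - 1) * b := by
        field_simp
      rw [h5]
      exact mul_le_mul_of_nonneg_left h2 (mul_nonneg (by linarith) h3)
    have h6 : 0 ≤ (p / 2 - 1) * TT n γ := mul_nonneg (by linarith) hT
    nlinarith

theorem main : S_C0 := by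
  intro n p hn hp H γ
  have hp0 : 0 < p := by linarith
  have hK : 0 < KK (1 / p) n := by
    unfold KK
    exact sum_pos (fun j _ => kk_pos hp j) ⟨0, mem_range.mpr hn⟩
  have hnum : 0 ≤ ∑ j ∈ range n, kk (1 / p) j * (yy (1 / p) γ j) ^ 2 :=
    sum_nonneg fun j _ => mul_nonneg (kk_pos hp j).le (sq_nonneg _)
  have hΛ : 0 ≤ Lam (1 / p) n γ := div_nonneg hnum hK.le
  rcases hΛ.eq_or_lt with h0 | h0
  · have h1 : ∑ j ∈ range n, kk (1 / p) j * (yy (1 / p) γ j) ^ 2 = 0 := by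
      have h2 := h0.symm
      unfold Lam at h2
      rcases div_eq_zero_iff.mp h2 with h | h
      · exact h
      · exact absurd h hK.ne'
    have h2 : ∀ j ∈ range n, yy (1 / p) γ j = 0 := by
      intro j hj
      have h3 := (sum_eq_zero_iff_of_nonneg fun j _ =>
        mul_nonneg (kk_pos hp j).le (sq_nonneg (yy (1 / p) γ j))).mp h1 j hj
      rcases mul_eq_zero.mp h3 with h | h
      · exact absurd h (kk_pos hp j).ne'
      · exact pow_eq_zero_iff (two_ne_zero) |>.mp h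
    have hS : ∑ j ∈ range n, yy (1 / p) γ j * (γ j - γ (j + 1)) = 0 :=
      sum_eq_zero fun j hj => by rw [h2 j hj, zero_mul]
    have h3 := ident n p hp γ
    rw [hS, mul_zero] at h3
    have hT := TT_nonneg n γ
    have h4 : γ 0 ^ 2 ≤ γ n ^ 2 := by
      have h5 : 0 ≤ (p / 2 - 1) * TT n γ := mul_nonneg (by linarith) hT
      by_contra hcon
      push Not at hcon
      have h6 : 0 < p / 2 * (γ 0 ^ 2 - γ n ^ 2) := mul_pos (by linarith) (by linarith)
      linarith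
    have h5 := Real.rpow_le_rpow (abs_nonneg _) (sq_le_sq.mp h4) hp0.le
    rw [hS, mul_zero]
    linarith
  · obtain ⟨c, hc2, hc0⟩ : ∃ c : ℝ, c ^ 2 = (Lam (1 / p) n γ)⁻¹ ∧ 0 ≤ c * γ 0 := by
      have h1 : (√(Lam (1 / p) n γ))⁻¹ ^ 2 = (Lam (1 / p) n γ)⁻¹ := by
        rw [inv_pow, Real.sq_sqrt h0.le]
      have h2 : 0 ≤ (√(Lam (1 / p) n γ))⁻¹ := inv_nonneg.mpr (Real.sqrt_nonneg _)
      rcases le_total 0 (γ 0) with h | h
      · exact ⟨_, h1, mul_nonneg h2 h⟩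
      · refine ⟨-(√(Lam (1 / p) n γ))⁻¹, by rw [neg_sq]; exact h1, ?_⟩
        rw [neg_mul, ← mul_neg]
        exact mul_nonneg h2 (by linarith)
    have h1 := norm_case n p hp H (fun i => c * γ i)
      (by rw [Lam_smul, hc2]; exact inv_mul_cancel₀ h0.ne') hc0
    simp only [yy_smul] at h1
    rw [abs_mul, abs_mul, Real.mul_rpow (abs_nonneg _) (abs_nonneg _),
      Real.mul_rpow (abs_nonneg _) (abs_nonneg _)] at h1
    have h2 : |c| ^ p = ((Lam (1 / p) n γ) ^ (p / 2))⁻¹ := by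
      rw [rpow_sq, hc2, Real.inv_rpow h0.le]
    have h3 : ∑ j ∈ range n, c * yy (1 / p) γ j * (c * γ j - c * γ (j + 1)) =
        (Lam (1 / p) n γ)⁻¹ * ∑ j ∈ range n, yy (1 / p) γ j * (γ j - γ (j + 1)) := by
      rw [mul_sum, ← hc2]
      refine sum_congr rfl fun j _ => ?_
      ring
    rw [h2, h3] at h1
    have h4 : 0 < (Lam (1 / p) n γ) ^ (p / 2) := Real.rpow_pos_of_pos h0 _
    have h5 := mul_le_mul_of_nonneg_left h1 h4.le
    rw [Real.rpow_sub_one h0.ne']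
    have h6 : (Lam (1 / p) n γ) ^ (p / 2) *
        (((Lam (1 / p) n γ) ^ (p / 2))⁻¹ * |γ 0| ^ p -
          ((Lam (1 / p) n γ) ^ (p / 2))⁻¹ * |γ n| ^ p) = |γ 0| ^ p - |γ n| ^ p := by
      field_simp
    rw [h6] at h5
    refine h5.trans (le_of_eq ?_)
    rw [div_eq_mul_inv]
    ring

end Pool.Agent.Y282.RB.C0
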