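import Pool.Agent.Y282.RB.Stm3
import Pool.Agent.Y282.RB.C0

/-!
# RB-C1: reduction of the pointwise inequality with both alternatives (helper532)
-/

set_option autoImplicit false

namespace Pool.Agent.Y282.RB.C1

open Finset
open Pool.Agent.Y282.RB.C0

theorem norm_case1 (n : ℕ) (p : ℝ) (hp : 2 < p) (γ : ℕ → ℝ)
    (H : ph (p / 2) ((γ 0) ^ 2) ≤ (p / 2 - 1) * TT n γ ∨
      |γ 0| ^ p - |γ n| ^ p ≤ p * ∑ j ∈ range n, yy (1 / p) γ j * (γ j - γ (j + 1))) :
    |γ 0| ^ p - |γ n| ^ p ≤ p * ∑ j ∈ range n, yy (1 / p) γ j * (γ j - γ (j + 1)) := by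
  rcases H with h1 | h1
  · rw [ident n p hp γ, rpow_sq, rpow_sq]
    have hr : 1 ≤ p / 2 := by linarith
    set a := γ n ^ 2 with ha
    set b := γ 0 ^ 2 with hb
    have ha0 : 0 ≤ a := sq_nonneg _
    unfold ph at h1
    have h2 := one_add_mul_self_le_rpow_one_add (s := a - 1) (by linarith) hr
    rw [show 1 + (a - 1) = a by ring] at h2
    nlinarith
  · exact h1

theorem main : S_C1 := by
  intro n p hn hp H γ
  have hp0 : 0 < p := by linarith
  have hK : 0 < KK (1 / p) n := by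
    unfold KK
    exact sum_pos (fun j _ => kk_pos hp j) ⟨0, mem_range.mpr hn⟩
  have hnum : 0 ≤ ∑ j ∈ range n, kk (1 / p) j * (yy (1 / p) γ j) ^ 2 :=
    sum_nonneg fun j _ => mul_nonneg (kk_pos hp j).le (sq_nonneg _)
  have hΛ : 0 ≤ Lam (1 / p) n γ := div_nonneg hnum hK.le
  rcases hΛ.eq_or_lt with h0 | h0
  · have h1 : ∑ j ∈ range n, kk (1 / p) j * (yy (1 / p) γ j) ^ 2 = 0 := by
      have h2 := h0.symm
      unfold Lam at h2
      rcases div_eq_zero_iff.mp h2 with h | h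
      · exact h
      · exact absurd h hK.ne'
    have h2 : ∀ j ∈ range n, yy (1 / p) γ j = 0 := by
      intro j hj
      have h3 := (sum_eq_zero_iff_of_nonneg fun j _ =>
        mul_nonneg (kk_pos hp j).le (sq_nonneg (yy (1 / p) γ j))).mp h1 j hj
      rcases mul_eq_zero.mp h3 with h | h
      · exact absurd h (kk_pos hp j).ne'
      · exact pow_eq_zero_iff (two_ne_zero) |>.mp h
    have hS : ∑ j ∈ range n, yy (1 / p) γ j * (γ j - γ (j + 1)) = 0 :=
      sum_eq_zero fun j hj => by rw [h2 j hj, zero_mul]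
    have h3 := ident n p hp γ
    rw [hS, mul_zero] at h3
    have hT := TT_nonneg n γ
    have h4 : γ 0 ^ 2 ≤ γ n ^ 2 := by
      have h5 : 0 ≤ (p / 2 - 1) * TT n γ := mul_nonneg (by linarith) hT
      by_contra hcon
      push Not at hcon
      have h6 : 0 < p / 2 * (γ 0 ^ 2 - γ n ^ 2) := mul_pos (by linarith) (by linarith)
      linarith
    have h5 := Real.rpow_le_rpow (abs_nonneg _) (sq_le_sq.mp h4) hp0.le
    rw [hS, mul_zero]
    linarith
  · obtain ⟨c, hc2, hc0⟩ : ∃ c : ℝ, c ^ 2 = (Lam (1 / p) n γ)⁻¹ ∧ 0 ≤ c * γ 0 := by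
      have h1 : (√(Lam (1 / p) n γ))⁻¹ ^ 2 = (Lam (1 / p) n γ)⁻¹ := by
        rw [inv_pow, Real.sq_sqrt h0.le]
      have h2 : 0 ≤ (√(Lam (1 / p) n γ))⁻¹ := inv_nonneg.mpr (Real.sqrt_nonneg _)
      rcases le_total 0 (γ 0) with h | h
      · exact ⟨_, h1, mul_nonneg h2 h⟩
      · refine ⟨-(√(Lam (1 / p) n γ))⁻¹, by rw [neg_sq]; exact h1, ?_⟩
        rw [neg_mul, ← mul_neg]
        exact mul_nonneg h2 (by linarith)
    have hLc : Lam (1 / p) n (fun i => c * γ i) = 1 := by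
      rw [Lam_smul, hc2]; exact inv_mul_cancel₀ h0.ne'
    have h1 := norm_case1 n p hp (fun i => c * γ i) (H (fun i => c * γ i) hLc hc0)
    simp only [yy_smul] at h1
    rw [abs_mul, abs_mul, Real.mul_rpow (abs_nonneg _) (abs_nonneg _),
      Real.mul_rpow (abs_nonneg _) (abs_nonneg _)] at h1
    have h2 : |c| ^ p = ((Lam (1 / p) n γ) ^ (p / 2))⁻¹ := by
      rw [rpow_sq, hc2, Real.inv_rpow h0.le]
    have h3 : ∑ j ∈ range n, c * yy (1 / p) γ j * (c * γ j - c * γ (j + 1)) =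
        (Lam (1 / p) n γ)⁻¹ * ∑ j ∈ range n, yy (1 / p) γ j * (γ j - γ (j + 1)) := by
      rw [mul_sum, ← hc2]
      refine sum_congr rfl fun j _ => ?_
      ring
    rw [h2, h3] at h1
    have h4 : 0 < (Lam (1 / p) n γ) ^ (p / 2) := Real.rpow_pos_of_pos h0 _
    have h5 := mul_le_mul_of_nonneg_left h1 h4.le
    rw [Real.rpow_sub_one h0.ne']
    have h6 : (Lam (1 / p) n γ) ^ (p / 2) *
        (((Lam (1 / p) n γ) ^ (p / 2))⁻¹ * |γ 0| ^ p -
          ((Lam (1 / p) n γ) ^ (p / 2))⁻¹ * |γ n| ^ p) = |γ 0| ^ p - |γ n| ^ p := by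
      field_simp
    rw [h6] at h5
    refine h5.trans (le_of_eq ?_)
    rw [div_eq_mul_inv]
    ring

end Pool.Agent.Y282.RB.C1
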