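import Pool.Agent.Y282.RB.Stm2

/-!
# Project RB: exact minimisation of `T + ν Λ` for `n = 2`
-/

set_option autoImplicit false

namespace Pool.Agent.Y282.RB.D1

open Pool.Agent.Y282.RB

/-- the sum of squares -/
lemma core (σ ν x y y1 κ b Δ c : ℝ) (hκ : 0 < κ) (hN : 0 < κ + ν * b) (hΔ : 0 < Δ)
    (hE : κ * Δ = κ + ν * b + κ * ν * (1 - b) * σ ^ 2 + ν ^ 2 * (1 - b) * b * σ ^ 2 + κ * ν * b)
    (hc : κ * c = (1 - b) * b + κ * ((1 - b) * b) * (1 - σ) ^ 2) :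
    x ^ 2 * (ν * (1 + c * ν) / Δ) ≤ (x - y) ^ 2 + κ * (y1 - y) ^ 2 +
      (ν * ((1 - b) * (x - σ * (x - y)) ^ 2) + ν * (b * y1 ^ 2)) := by
  rw [mul_div_assoc', div_le_iff₀ hΔ]
  set N := κ + ν * b with hNd
  set E := κ + ν * b + κ * ν * (1 - b) * σ ^ 2 + ν ^ 2 * (1 - b) * b * σ ^ 2 + κ * ν * b with hEd
  have hE0 : 0 < E := by rw [← hE]; positivity
  set Q := (x - y) ^ 2 + κ * (y1 - y) ^ 2 +
      (ν * ((1 - b) * (x - σ * (x - y)) ^ 2) + ν * (b * y1 ^ 2)) with hQ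
  have key : N * κ * (Q * Δ - x ^ 2 * (ν * (1 + c * ν))) =
      E * (N * y1 - κ * y) ^ 2 +
        (E * (x - y) - x * (κ * ν * b + N * ν * (1 - b) * σ)) ^ 2 := by
    have h1 : N * κ * (Q * Δ - x ^ 2 * (ν * (1 + c * ν))) =
        N * Q * E - N * x ^ 2 * ν * (κ + ν * ((1 - b) * b + κ * ((1 - b) * b) * (1 - σ) ^ 2)) := by
      linear_combination (N * Q) * hE - N * x ^ 2 * ν ^ 2 * hc
    rw [h1, hQ, hEd, hNd]
    ring
  have h2 : 0 ≤ N * κ * (Q * Δ - x ^ 2 * (ν * (1 + c * ν))) := by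
    rw [key]
    positivity
  have h3 : 0 ≤ Q * Δ - x ^ 2 * (ν * (1 + c * ν)) := by
    by_contra h
    push Not at h
    have : N * κ * (Q * Δ - x ^ 2 * (ν * (1 + c * ν))) < 0 :=
      mul_neg_of_pos_of_neg (mul_pos hN hκ) h
    linarith
  linarith

theorem main : S_D1 := by
  intro σ ν x y z h0 h1 hν
  have hm : 0 < mm σ := by
    unfold mm
    have : 0 < 1 - σ := by linarith
    positivity
  have hm4 : mm σ ≤ 1 / 4 := by
    unfold mm
    nlinarith [sq_nonneg (σ - 1 / 2)]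
  have hb0 : 0 < pb σ := by unfold pb; positivity
  have hb1 : pb σ ≤ 1 := by
    unfold pb
    rw [div_le_one (by positivity)]
    linarith
  have ha : pa σ = 1 - pb σ := by
    unfold pa pb
    field_simp
    ring
  have hκ0 : 0 < 3 / (1 + σ) ^ 2 := by positivity
  have hκ1 : 1 < 3 / (1 + σ) ^ 2 := by
    rw [lt_div_iff₀ (by positivity)]
    nlinarith
  have hN : 0 < 3 / (1 + σ) ^ 2 + ν * pb σ := by nlinarith
  have hB0 : 0 ≤ cB σ := by
    unfold cB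
    have : σ ^ 3 ≤ 1 := pow_le_one₀ h0.le (by linarith)
    have : 0 ≤ 2 - σ ^ 3 := by linarith
    positivity
  have hB1 : cB σ < 1 := by
    unfold cB
    rw [div_lt_one (by positivity)]
    unfold mm
    nlinarith [mul_pos h0 h0, pow_pos h0 4]
  have hG0 : 0 ≤ cG σ := by
    unfold cG
    positivity
  have hΔ : 0 < 1 + cB σ * ν + cG σ * ν ^ 2 := by
    have : 0 ≤ cG σ * ν ^ 2 := by positivity
    nlinarith
  have hE : 3 / (1 + σ) ^ 2 * (1 + cB σ * ν + cG σ * ν ^ 2) =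
      3 / (1 + σ) ^ 2 + ν * pb σ + 3 / (1 + σ) ^ 2 * ν * (1 - pb σ) * σ ^ 2 +
        ν ^ 2 * (1 - pb σ) * pb σ * σ ^ 2 + 3 / (1 + σ) ^ 2 * ν * pb σ := by
    rw [← ha]
    unfold cB cG pa pb
    have h2 : (1 + 2 * mm σ) ≠ 0 := by positivity
    have h3 : (2 + 4 * mm σ) = 2 * (1 + 2 * mm σ) := by ring
    have h4 : (1 + σ) ≠ 0 := by positivity
    rw [h3]
    field_simp
    unfold mm
    ring
  have hc : 3 / (1 + σ) ^ 2 * cA σ = (1 - pb σ) * pb σ +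
      3 / (1 + σ) ^ 2 * ((1 - pb σ) * pb σ) * (1 - σ) ^ 2 := by
    rw [← ha]
    unfold cA pa pb
    have h2 : (1 + 2 * mm σ) ≠ 0 := by positivity
    have h3 : (2 + 4 * mm σ) = 2 * (1 + 2 * mm σ) := by ring
    have h4 : (1 + σ) ≠ 0 := by positivity
    rw [h3]
    field_simp
    unfold mm
    ring
  have hcore := core σ ν x y (((2 - σ) * y + (1 + σ) * z) / 3) (3 / (1 + σ) ^ 2) (pb σ)
    (1 + cB σ * ν + cG σ * ν ^ 2) (cA σ) hκ0 hN hΔ hE hc
  refine (le_of_eq ?_).trans (hcore.trans (le_of_eq ?_))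
  · rfl
  · unfold T2 L2
    rw [ha]
    have h4 : (1 + σ) ≠ 0 := by positivity
    field_simp
    ring

end Pool.Agent.Y282.RB.D1
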