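import Pool.Agent.Y282.RB.Stm

/-!
# Project RB (helper282): the pointwise inequality for `n = 2`

Throughout `σ = 1 / p`, `m = σ (1 - σ)`.
-/

set_option autoImplicit false

namespace Pool.Agent.Y282.RB

noncomputable def mm (σ : ℝ) : ℝ := σ * (1 - σ)

/-- the two normalised weights -/
noncomputable def pa (σ : ℝ) : ℝ := (2 + mm σ) / (2 + 4 * mm σ)
noncomputable def pb (σ : ℝ) : ℝ := 3 * mm σ / (2 + 4 * mm σ)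

/-- `Λ` for `n = 2` -/
noncomputable def L2 (σ x y z : ℝ) : ℝ :=
  pa σ * ((1 - σ) * x + σ * y) ^ 2 + pb σ * (((2 - σ) * y + (1 + σ) * z) / 3) ^ 2

/-- `T` for `n = 2` -/
noncomputable def T2 (x y z : ℝ) : ℝ := (x - y) ^ 2 + (y - z) ^ 2 / 3

noncomputable def cA (σ : ℝ) : ℝ := mm σ * (2 + mm σ) * (1 - mm σ) / (1 + 2 * mm σ) ^ 2
noncomputable def cB (σ : ℝ) : ℝ := σ * (2 - σ ^ 3) / (1 + 2 * mm σ)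
noncomputable def cG (σ : ℝ) : ℝ :=
  mm σ * (2 + mm σ) * σ ^ 2 * (1 + σ) ^ 2 / (4 * (1 + 2 * mm σ) ^ 2)

/-- the lower bound function: `T + ν Λ ≥ x² H(ν)` -/
noncomputable def HH (σ ν : ℝ) : ℝ := ν * (1 + cA σ * ν) / (1 + cB σ * ν + cG σ * ν ^ 2)

/-- the largest value of `x² / Λ` when `z² ≤ x²` -/
noncomputable def bm (σ : ℝ) : ℝ :=
  (1 + 2 * σ - 2 * σ ^ 2) * (1 + 2 * σ ^ 2) / ((1 - 2 * σ) ^ 2 * (1 - σ ^ 2))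

def S_D1 : Prop := ∀ σ ν x y z : ℝ, 0 < σ → σ ≤ 1 / 2 → -1 ≤ ν →
  x ^ 2 * HH σ ν ≤ T2 x y z + ν * L2 σ x y z

/-- the polynomial whose positivity gives the comparison of `HH` with the power function -/
noncomputable def PP (σ ν : ℝ) : ℝ :=
  σ * (1 + 2 * cA σ * ν + (cA σ * cB σ - cG σ) * ν ^ 2) * (1 + cB σ * ν + cG σ * ν ^ 2)
    - (1 + ν) * ((cB σ - cA σ) + 3 * cG σ * ν + 3 * cA σ * cG σ * ν ^ 2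
        + (cA σ * cB σ - cG σ) * cG σ * ν ^ 3)

def S_D2a : Prop := ∀ σ ν : ℝ, 0 < σ → σ ≤ 1 / 4 → -1 ≤ ν → ν ≤ 12 → 0 < PP σ ν

/-- wider range of `σ` -/
def S_D2w : Prop := ∀ σ ν : ℝ, 0 < σ → σ ≤ 1 / 2 → -1 ≤ ν → ν ≤ 9 → 0 < PP σ ν

def S_D2b : Prop := ∀ σ V : ℝ, 0 < σ → σ < 1 / 2 → 0 ≤ V →
  (∀ ν, -1 ≤ ν → ν ≤ V → 0 < PP σ ν) →
  ∀ s : ℝ, 0 ≤ s → s ≤ 1 + V → (s ^ (1 - 2 * σ) - 1) / (1 - 2 * σ) ≤ HH σ (s - 1)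

def S_D3 : Prop := ∀ σ x y z : ℝ, 0 < σ → σ < 1 / 2 → z ^ 2 ≤ x ^ 2 →
  x ^ 2 ≤ bm σ * L2 σ x y z

def S_D4 : Prop := ∀ σ : ℝ, 0 < σ → σ ≤ 1 / 4 →
  31 - 36 * σ ≤ (13 : ℝ) ^ (2 * σ) * (1 + (1 - 2 * σ) * HH σ 30)

def S_D5 : Prop := ∀ σ : ℝ, 0 < σ → σ ≤ 1 / 4 → (bm σ) ^ (1 / (2 * σ)) ≤ 44

def S_D6 : Prop := ∀ σ : ℝ, 0 < σ → σ ≤ 1 / 4 →
  44 ≤ 1 + (1 / (2 * σ)) * (bm σ - 1) + (1 / (2 * σ) - 1) * (bm σ * HH σ 30 - 30)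

/-- the pointwise inequality for `n = 2`, `p ≥ 4` -/
def S_D7 : Prop := S_C0 → S_D1 → S_D2a → S_D2b → S_D3 → S_D4 → S_D5 → S_D6 →
  ∀ p : ℝ, 4 ≤ p → Star 2 p

/-! ### general `n`, large `p` -/

/-- upper bounds for `ph` -/
def S_E0 : Prop := (∀ r b : ℝ, 2 ≤ r → 0 ≤ b → b ≤ 1 →
    ph r b ≤ r * (r - 1) / 2 * (1 - b) ^ 2 ∧ ph r b ≤ r - 1) ∧
  (∀ r b : ℝ, 2 ≤ r → 1 ≤ b → ph r b ≤ r * (r - 1) / 2 * b ^ r * (b - 1) ^ 2)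

/-- lower bound for `TT` -/
def S_E1 : Prop := ∀ (n : ℕ) (σ : ℝ) (γ : ℕ → ℝ), 1 ≤ n → 0 < σ → σ ≤ 1 / 2 →
  Lam σ n γ = 1 → 0 ≤ γ 0 →
  |(γ 0) ^ 2 - 1| ≤ 6 * (n : ℝ) ^ 2 * σ * γ 0 * Real.sqrt (TT n γ) + 3 * (n : ℝ) ^ 3 * σ * TT n γ

/-- upper bound for `γ 0` -/
def S_E2 : Prop := ∀ (n : ℕ) (σ : ℝ) (γ : ℕ → ℝ), 1 ≤ n → 0 < σ → σ * (100 * (n : ℝ) ^ 2) ≤ 1 →
  Lam σ n γ = 1 → 0 ≤ γ 0 → (γ n) ^ 2 ≤ (γ 0) ^ 2 →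
  (γ 0) ^ 2 ≤ 1 + 50 * (n : ℝ) ^ 2 * σ

/-- the pointwise inequality for all `n` and all large `p` -/
def S_E3 : Prop := S_C0 → S_E0 → S_E1 → S_E2 → ∀ (n : ℕ) (p : ℝ), 1 ≤ n →
  144 * (n : ℝ) ^ 6 * Real.exp (25 * (n : ℝ) ^ 2) ≤ p → Star n p

end Pool.Agent.Y282.RB
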