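import Mathlib
import Pool.Agent.Y282.RB.Stm2

/-!
# Project RB (helper282), job RB-D2a: positivity of the comparison polynomial

The polynomial `PP σ ν * (1 + 2 m) ^ 5 / σ` has positive Bernstein coefficients on
`[0, 1/4] × [-1, 4]` and on `[0, 1/4] × [4, 12]`.
-/

set_option autoImplicit false

namespace Pool.Agent.Y282.RB.D2a

open Pool.Agent.Y282.RB

/-- coefficient of `ν ^ 0` -/
noncomputable def c0 (s : ℝ) : ℝ :=
  (1) + (3) * s^1 + (-7) * s^2 + (-9) * s^3 + (39) * s^4 + (-33) * s^5 + (-48) * s^6 + (150) * s^7 + (-180) * s^8 + (124) * s^9 + (-48) * s^10 + (8) * s^11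

/-- coefficient of `ν ^ 1` -/
noncomputable def c1 (s : ℝ) : ℝ :=
  (-1) * s^1 + (-9/2) * s^2 + (7/4) * s^3 + (21) * s^4 + (-9/2) * s^5 + (-33) * s^6 + (-39/4) * s^7 + (63/2) * s^8 + (195/2) * s^9 + (-208) * s^10 + (153) * s^11 + (-50) * s^12 + (6) * s^13

/-- coefficient of `ν ^ 2` -/
noncomputable def c2 (s : ℝ) : ℝ :=
  (21/2) * s^2 + (63/4) * s^3 + (-93) * s^4 + (-117/4) * s^5 + (1203/4) * s^6 + (-801/4) * s^7 + (-513/4) * s^8 + (261/2) * s^9 + (81/4) * s^10 + (15) * s^11 + (-369/4) * s^12 + (267/4) * s^13 + (-18) * s^14 + (3/2) * s^15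

/-- coefficient of `ν ^ 3` -/
noncomputable def c3 (s : ℝ) : ℝ :=
  (5) * s^3 + (-3) * s^4 + (-23) * s^5 + (37) * s^6 + (-543/16) * s^7 + (271/8) * s^8 + (123/8) * s^9 + (-273/4) * s^10 + (231/8) * s^11 + (83/4) * s^12 + (-9/2) * s^13 + (-71/4) * s^14 + (193/16) * s^15 + (-21/8) * s^16 + (1/8) * s^17

/-- coefficient of `ν ^ 4` -/
noncomputable def c4 (s : ℝ) : ℝ :=
  (-2) * s^4 + (9/4) * s^5 + (13/2) * s^6 + (-115/16) * s^7 + (-123/16) * s^8 + (7) * s^9 + (45/8) * s^10 + (-9/8) * s^11 + (-45/8) * s^12 + (-1/2) * s^13 + (9/2) * s^14 + (-19/16) * s^15 + (-19/16) * s^16 + (3/4) * s^17 + (-1/8) * s^18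

theorem key (σ ν : ℝ) (hm : 0 < 1 + 2 * mm σ) : PP σ ν * (1 + 2 * mm σ) ^ 5 =
    σ * (c0 σ + c1 σ * ν + c2 σ * ν ^ 2 + c3 σ * ν ^ 3 + c4 σ * ν ^ 4) := by
  have hA : cA σ * (1 + 2 * mm σ) ^ 2 = mm σ * (2 + mm σ) * (1 - mm σ) :=
    div_mul_cancel₀ _ (pow_pos hm 2).ne'
  have hB : cB σ * (1 + 2 * mm σ) = σ * (2 - σ ^ 3) := div_mul_cancel₀ _ hm.ne'
  have hG : cG σ * (1 + 2 * mm σ) ^ 2 = mm σ * (2 + mm σ) * σ ^ 2 * (1 + σ) ^ 2 / 4 := by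
    have h4 : cG σ * (4 * (1 + 2 * mm σ) ^ 2) = mm σ * (2 + mm σ) * σ ^ 2 * (1 + σ) ^ 2 :=
      div_mul_cancel₀ _ (mul_pos four_pos (pow_pos hm 2)).ne'
    linarith
  have h1 : PP σ ν * (1 + 2 * mm σ) ^ 5 =
      σ * ((1 + 2 * mm σ) ^ 3 + 2 * (cA σ * (1 + 2 * mm σ) ^ 2) * (1 + 2 * mm σ) * ν
        + ((cA σ * (1 + 2 * mm σ) ^ 2) * (cB σ * (1 + 2 * mm σ))
          - (cG σ * (1 + 2 * mm σ) ^ 2) * (1 + 2 * mm σ)) * ν ^ 2)
        * ((1 + 2 * mm σ) ^ 2 + (cB σ * (1 + 2 * mm σ)) * (1 + 2 * mm σ) * ν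
          + (cG σ * (1 + 2 * mm σ) ^ 2) * ν ^ 2)
      - (1 + ν) * ((cB σ * (1 + 2 * mm σ)) * (1 + 2 * mm σ) ^ 4
          - (cA σ * (1 + 2 * mm σ) ^ 2) * (1 + 2 * mm σ) ^ 3
          + 3 * (cG σ * (1 + 2 * mm σ) ^ 2) * (1 + 2 * mm σ) ^ 3 * ν
          + 3 * (cA σ * (1 + 2 * mm σ) ^ 2) * (cG σ * (1 + 2 * mm σ) ^ 2) * (1 + 2 * mm σ) * ν ^ 2
          + ((cA σ * (1 + 2 * mm σ) ^ 2) * (cB σ * (1 + 2 * mm σ))
            - (cG σ * (1 + 2 * mm σ) ^ 2) * (1 + 2 * mm σ)) * (cG σ * (1 + 2 * mm σ) ^ 2)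
            * ν ^ 3) := by
    unfold PP; ring
  rw [h1, hA, hB, hG]
  unfold c0 c1 c2 c3 c4 mm
  ring

theorem box_a (a0 a1 a2 a3 a4 ν : ℝ) (hl : -1 ≤ ν) (hr : ν ≤ 4)
    (h0 : 0 < (1/1) * a0 + (-1/1) * a1 + (1/1) * a2 + (-1/1) * a3 + (1/1) * a4)
    (h1 : 0 < (1/1) * a0 + (1/4) * a1 + (-3/2) * a2 + (11/4) * a3 + (-4/1) * a4)
    (h2 : 0 < (1/1) * a0 + (3/2) * a1 + (1/6) * a2 + (-6/1) * a3 + (16/1) * a4)
    (h3 : 0 < (1/1) * a0 + (11/4) * a1 + (6/1) * a2 + (4/1) * a3 + (-64/1) * a4)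
    (h4 : 0 < (1/1) * a0 + (4/1) * a1 + (16/1) * a2 + (64/1) * a3 + (256/1) * a4) :
    0 < a0 + a1 * ν + a2 * ν ^ 2 + a3 * ν ^ 3 + a4 * ν ^ 4 := by
  have e : a0 + a1 * ν + a2 * ν ^ 2 + a3 * ν ^ 3 + a4 * ν ^ 4 =
      (1 * ((1/1) * a0 + (-1/1) * a1 + (1/1) * a2 + (-1/1) * a3 + (1/1) * a4) * ((ν + 1)^0 * (4 - ν)^4) + 4 * ((1/1) * a0 + (1/4) * a1 + (-3/2) * a2 + (11/4) * a3 + (-4/1) * a4) * ((ν + 1)^1 * (4 - ν)^3) + 6 * ((1/1) * a0 + (3/2) * a1 + (1/6) * a2 + (-6/1) * a3 + (16/1) * a4) * ((ν + 1)^2 * (4 - ν)^2) + 4 * ((1/1) * a0 + (11/4) * a1 + (6/1) * a2 + (4/1) * a3 + (-64/1) * a4) * ((ν + 1)^3 * (4 - ν)^1) + 1 * ((1/1) * a0 + (4/1) * a1 + (16/1) * a2 + (64/1) * a3 + (256/1) * a4) * ((ν + 1)^4 * (4 - ν)^0)) / 625 := by ring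
  have u : 0 ≤ (ν + 1) := by linarith
  have v : 0 ≤ 4 - ν := by linarith
  rw [e]
  apply div_pos _ (by norm_num)
  rcases eq_or_lt_of_le v with hv | hv
  · have hu : 0 < (ν + 1) := by linarith
    rw [← hv]
    have := mul_pos h4 (pow_pos hu 4)
    simp only [ne_eq, OfNat.ofNat_ne_zero, not_false_eq_true, zero_pow, mul_zero, zero_add,
      pow_zero, mul_one, one_mul] 
    nlinarith [this]
  · have t0 := mul_pos h0 (pow_pos hv 4)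
    have t1 : 0 ≤ 4 * ((1/1) * a0 + (1/4) * a1 + (-3/2) * a2 + (11/4) * a3 + (-4/1) * a4) * ((ν + 1)^1 * (4 - ν)^3) := by
      have := mul_nonneg (pow_nonneg u 1) (pow_nonneg v 3)
      have := mul_nonneg h1.le this
      linarith
    have t2 : 0 ≤ 6 * ((1/1) * a0 + (3/2) * a1 + (1/6) * a2 + (-6/1) * a3 + (16/1) * a4) * ((ν + 1)^2 * (4 - ν)^2) := by
      have := mul_nonneg (pow_nonneg u 2) (pow_nonneg v 2)
      have := mul_nonneg h2.le this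
      linarith
    have t3 : 0 ≤ 4 * ((1/1) * a0 + (11/4) * a1 + (6/1) * a2 + (4/1) * a3 + (-64/1) * a4) * ((ν + 1)^3 * (4 - ν)^1) := by
      have := mul_nonneg (pow_nonneg u 3) (pow_nonneg v 1)
      have := mul_nonneg h3.le this
      linarith
    have t4 : 0 ≤ 1 * ((1/1) * a0 + (4/1) * a1 + (16/1) * a2 + (64/1) * a3 + (256/1) * a4) * ((ν + 1)^4 * (4 - ν)^0) := by
      have := mul_nonneg (pow_nonneg u 4) (pow_nonneg v 0)
      have := mul_nonneg h4.le this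
      linarith
    have t0' : 0 < 1 * ((1/1) * a0 + (-1/1) * a1 + (1/1) * a2 + (-1/1) * a3 + (1/1) * a4) * ((ν + 1)^0 * (4 - ν)^4) := by
      rw [pow_zero, one_mul, one_mul]; exact t0
    linarith

theorem q_a0 (s : ℝ) (h0 : 0 < s) (h1 : s ≤ 1 / 4) :
    0 < (1/1) * c0 s + (-1/1) * c1 s + (1/1) * c2 s + (-1/1) * c3 s + (1/1) * c4 s := by
  have hy : 0 ≤ 1 - 4 * s := by linarith
  have e : (1/1) * c0 s + (-1/1) * c1 s + (1/1) * c2 s + (-1/1) * c3 s + (1/1) * c4 s =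
      1/8 + ((7/8) * (s^0 * (1 - 4 * s)^18) + (67/1) * (s^1 * (1 - 4 * s)^17) + (2422/1) * (s^2 * (1 - 4 * s)^16) + (54912/1) * (s^3 * (1 - 4 * s)^15) + (874806/1) * (s^4 * (1 - 4 * s)^14) + (20793183/2) * (s^5 * (1 - 4 * s)^13) + (381990421/4) * (s^6 * (1 - 4 * s)^12) + (2772110713/4) * (s^7 * (1 - 4 * s)^11) + (64430716123/16) * (s^8 * (1 - 4 * s)^10) + (150962878433/8) * (s^9 * (1 - 4 * s)^9) + (571723900957/8) * (s^10 * (1 - 4 * s)^8) + (218170399916/1) * (s^11 * (1 - 4 * s)^7) + (4262353433499/8) * (s^12 * (1 - 4 * s)^6) + (4106266543431/4) * (s^13 * (1 - 4 * s)^5) + (6104104839669/4) * (s^14 * (1 - 4 * s)^4) + (6754424182337/4) * (s^15 * (1 - 4 * s)^3) + (20954355226823/16) * (s^16 * (1 - 4 * s)^2) + (5082172208833/8) * (s^17 * (1 - 4 * s)^1) + (1160329220939/8) * (s^18 * (1 - 4 * s)^0)) := by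
    unfold c0 c1 c2 c3 c4
    ring
  rw [e]
  generalize 1 - 4 * s = y at hy
  positivity

theorem q_a1 (s : ℝ) (h0 : 0 < s) (h1 : s ≤ 1 / 4) :
    0 < (1/1) * c0 s + (1/4) * c1 s + (-3/2) * c2 s + (11/4) * c3 s + (-4/1) * c4 s := by
  have hy : 0 ≤ 1 - 4 * s := by linarith
  have e : (1/1) * c0 s + (1/4) * c1 s + (-3/2) * c2 s + (11/4) * c3 s + (-4/1) * c4 s =
      1/8 + ((7/8) * (s^0 * (1 - 4 * s)^18) + (263/4) * (s^1 * (1 - 4 * s)^17) + (18441/8) * (s^2 * (1 - 4 * s)^16) + (802137/16) * (s^3 * (1 - 4 * s)^15) + (3033429/4) * (s^4 * (1 - 4 * s)^14) + (16952013/2) * (s^5 * (1 - 4 * s)^13) + (580492307/8) * (s^6 * (1 - 4 * s)^12) + (31140924503/64) * (s^7 * (1 - 4 * s)^11) + (82916257791/32) * (s^8 * (1 - 4 * s)^10) + (353266453037/32) * (s^9 * (1 - 4 * s)^9) + (603457571449/16) * (s^10 * (1 - 4 * s)^8) + (3297980847477/32) * (s^11 * (1 - 4 * s)^7) + (3576199424253/16)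 * (s^12 * (1 - 4 * s)^6) + (379339576434/1) * (s^13 * (1 - 4 * s)^5) + (7879500178611/16) * (s^14 * (1 - 4 * s)^4) + (30179391777707/64) * (s^15 * (1 - 4 * s)^3) + (10026077937011/32) * (s^16 * (1 - 4 * s)^2) + (4120020007227/32) * (s^17 * (1 - 4 * s)^1) + (196699483979/8) * (s^18 * (1 - 4 * s)^0)) := by
    unfold c0 c1 c2 c3 c4
    ring
  rw [e]
  generalize 1 - 4 * s = y at hy
  positivity

theorem q_a2 (s : ℝ) (h0 : 0 < s) (h1 : s ≤ 1 / 4) :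
    0 < (1/1) * c0 s + (3/2) * c1 s + (1/6) * c2 s + (-6/1) * c3 s + (16/1) * c4 s := by
  have hy : 0 ≤ 1 - 4 * s := by linarith
  have e : (1/1) * c0 s + (3/2) * c1 s + (1/6) * c2 s + (-6/1) * c3 s + (16/1) * c4 s =
      1/8 + ((7/8) * (s^0 * (1 - 4 * s)^18) + (129/2) * (s^1 * (1 - 4 * s)^17) + (2232/1) * (s^2 * (1 - 4 * s)^16) + (192633/4) * (s^3 * (1 - 4 * s)^15) + (725696/1) * (s^4 * (1 - 4 * s)^14) + (64851947/8) * (s^5 * (1 - 4 * s)^13) + (556244497/8) * (s^6 * (1 - 4 * s)^12) + (3743266181/8) * (s^7 * (1 - 4 * s)^11) + (20020222009/8) * (s^8 * (1 - 4 * s)^10) + (42825991099/4) * (s^9 * (1 - 4 * s)^9) + (293464634367/8) * (s^10 * (1 - 4 * s)^8) + (401026304499/4) * (s^11 * (1 - 4 * s)^7) + (1731882674529/8) * (s^12 * (1 - 4 * s)^6) + (2905991852657/8) * (s^13 * (1 - 4 * s)^5) + (461253044156/1) * (s^14 * (1 - 4 * s)^4) + (3399507732359/8) * (s^15 * (1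 - 4 * s)^3) + (1058706072797/4) * (s^16 * (1 - 4 * s)^2) + (390425904109/4) * (s^17 * (1 - 4 * s)^1) + (15421028143/1) * (s^18 * (1 - 4 * s)^0)) := by
    unfold c0 c1 c2 c3 c4
    ring
  rw [e]
  generalize 1 - 4 * s = y at hy
  positivity

theorem q_a3 (s : ℝ) (h0 : 0 < s) (h1 : s ≤ 1 / 4) :
    0 < (1/1) * c0 s + (11/4) * c1 s + (6/1) * c2 s + (4/1) * c3 s + (-64/1) * c4 s := by
  have hy : 0 ≤ 1 - 4 * s := by linarith
  have e : (1/1) * c0 s + (11/4) * c1 s + (6/1) * c2 s + (4/1) * c3 s + (-64/1) * c4 s =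
      1/8 + ((7/8) * (s^0 * (1 - 4 * s)^18) + (253/4) * (s^1 * (1 - 4 * s)^17) + (17621/8) * (s^2 * (1 - 4 * s)^16) + (786277/16) * (s^3 * (1 - 4 * s)^15) + (1572707/2) * (s^4 * (1 - 4 * s)^14) + (76466417/8) * (s^5 * (1 - 4 * s)^13) + (364522081/4) * (s^6 * (1 - 4 * s)^12) + (11104479967/16) * (s^7 * (1 - 4 * s)^11) + (34109421839/8) * (s^8 * (1 - 4 * s)^10) + (169731047093/8) * (s^9 * (1 - 4 * s)^9) + (85487348009/1) * (s^10 * (1 - 4 * s)^8) + (1110745159529/4) * (s^11 * (1 - 4 * s)^7) + (720682875143/1) * (s^12 * (1 - 4 * s)^6) + (1472615864099/1) * (s^13 * (1 - 4 * s)^5) + (2315429272841/1) * (s^14 * (1 - 4 * s)^4) + (10807723507157/4) * (s^15 * (1 - 4 * s)^3) + (4406019441601/2) * (s^16 * (1 - 4 * s)^2) + (2239681404337/2) * (s^17 * (1 - 4 * s)^1) + (267086142898/1) * (s^18 * (1 - 4 * s)^0)) := by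
    unfold c0 c1 c2 c3 c4
    ring
  rw [e]
  generalize 1 - 4 * s = y at hy
  positivity

theorem q_a4 (s : ℝ) (h0 : 0 < s) (h1 : s ≤ 1 / 4) :
    0 < (1/1) * c0 s + (4/1) * c1 s + (16/1) * c2 s + (64/1) * c3 s + (256/1) * c4 s := by
  have hy : 0 ≤ 1 - 4 * s := by linarith
  have e : (1/1) * c0 s + (4/1) * c1 s + (16/1) * c2 s + (64/1) * c3 s + (256/1) * c4 s =
      1/8 + ((7/8) * (s^0 * (1 - 4 * s)^18) + (62/1) * (s^1 * (1 - 4 * s)^17) + (2217/1) * (s^2 * (1 - 4 * s)^16) + (53242/1) * (s^3 * (1 - 4 * s)^15) + (948611/1) * (s^4 * (1 - 4 * s)^14) + (13033089/1) * (s^5 * (1 - 4 * s)^13) + (140344444/1) * (s^6 * (1 - 4 * s)^12) + (1194775967/1) * (s^7 * (1 - 4 * s)^11) + (8086664418/1) * (s^8 * (1 - 4 * s)^10) + (43662382786/1) * (s^9 * (1 - 4 * s)^9) + (188191805644/1) * (s^10 * (1 - 4 * s)^8) + (645760660596/1) * (s^11 * (1 - 4 * s)^7) + (1751622983348/1) *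 (s^12 * (1 - 4 * s)^6) + (3707484075844/1) * (s^13 * (1 - 4 * s)^5) + (5993587598976/1) * (s^14 * (1 - 4 * s)^4) + (7146979362668/1) * (s^15 * (1 - 4 * s)^3) + (5924413674808/1) * (s^16 * (1 - 4 * s)^2) + (3048820806216/1) * (s^17 * (1 - 4 * s)^1) + (733583974528/1) * (s^18 * (1 - 4 * s)^0)) := by
    unfold c0 c1 c2 c3 c4
    ring
  rw [e]
  generalize 1 - 4 * s = y at hy
  positivity

theorem box_b (a0 a1 a2 a3 a4 ν : ℝ) (hl : 4 ≤ ν) (hr : ν ≤ 12)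
    (h0 : 0 < (1/1) * a0 + (4/1) * a1 + (16/1) * a2 + (64/1) * a3 + (256/1) * a4)
    (h1 : 0 < (1/1) * a0 + (6/1) * a1 + (32/1) * a2 + (160/1) * a3 + (768/1) * a4)
    (h2 : 0 < (1/1) * a0 + (8/1) * a1 + (176/3) * a2 + (384/1) * a3 + (2304/1) * a4)
    (h3 : 0 < (1/1) * a0 + (10/1) * a1 + (96/1) * a2 + (864/1) * a3 + (6912/1) * a4)
    (h4 : 0 < (1/1) * a0 + (12/1) * a1 + (144/1) * a2 + (1728/1) * a3 + (20736/1) * a4) :
    0 < a0 + a1 * ν + a2 * ν ^ 2 + a3 * ν ^ 3 + a4 * ν ^ 4 := by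
  have e : a0 + a1 * ν + a2 * ν ^ 2 + a3 * ν ^ 3 + a4 * ν ^ 4 =
      (1 * ((1/1) * a0 + (4/1) * a1 + (16/1) * a2 + (64/1) * a3 + (256/1) * a4) * ((ν - 4)^0 * (12 - ν)^4) + 4 * ((1/1) * a0 + (6/1) * a1 + (32/1) * a2 + (160/1) * a3 + (768/1) * a4) * ((ν - 4)^1 * (12 - ν)^3) + 6 * ((1/1) * a0 + (8/1) * a1 + (176/3) * a2 + (384/1) * a3 + (2304/1) * a4) * ((ν - 4)^2 * (12 - ν)^2) + 4 * ((1/1) * a0 + (10/1) * a1 + (96/1) * a2 + (864/1) * a3 + (6912/1) * a4) * ((ν - 4)^3 * (12 - ν)^1) + 1 * ((1/1) * a0 + (12/1) * a1 + (144/1) * a2 + (1728/1) * a3 + (20736/1) * a4) * ((ν - 4)^4 * (12 - ν)^0)) / 4096 := by ring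
  have u : 0 ≤ (ν - 4) := by linarith
  have v : 0 ≤ 12 - ν := by linarith
  rw [e]
  apply div_pos _ (by norm_num)
  rcases eq_or_lt_of_le v with hv | hv
  · have hu : 0 < (ν - 4) := by linarith
    rw [← hv]
    have := mul_pos h4 (pow_pos hu 4)
    simp only [ne_eq, OfNat.ofNat_ne_zero, not_false_eq_true, zero_pow, mul_zero, zero_add,
      pow_zero, mul_one, one_mul] 
    nlinarith [this]
  · have t0 := mul_pos h0 (pow_pos hv 4)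
    have t1 : 0 ≤ 4 * ((1/1) * a0 + (6/1) * a1 + (32/1) * a2 + (160/1) * a3 + (768/1) * a4) * ((ν - 4)^1 * (12 - ν)^3) := by
      have := mul_nonneg (pow_nonneg u 1) (pow_nonneg v 3)
      have := mul_nonneg h1.le this
      linarith
    have t2 : 0 ≤ 6 * ((1/1) * a0 + (8/1) * a1 + (176/3) * a2 + (384/1) * a3 + (2304/1) * a4) * ((ν - 4)^2 * (12 - ν)^2) := by
      have := mul_nonneg (pow_nonneg u 2) (pow_nonneg v 2)
      have := mul_nonneg h2.le this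
      linarith
    have t3 : 0 ≤ 4 * ((1/1) * a0 + (10/1) * a1 + (96/1) * a2 + (864/1) * a3 + (6912/1) * a4) * ((ν - 4)^3 * (12 - ν)^1) := by
      have := mul_nonneg (pow_nonneg u 3) (pow_nonneg v 1)
      have := mul_nonneg h3.le this
      linarith
    have t4 : 0 ≤ 1 * ((1/1) * a0 + (12/1) * a1 + (144/1) * a2 + (1728/1) * a3 + (20736/1) * a4) * ((ν - 4)^4 * (12 - ν)^0) := by
      have := mul_nonneg (pow_nonneg u 4) (pow_nonneg v 0)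
      have := mul_nonneg h4.le this
      linarith
    have t0' : 0 < 1 * ((1/1) * a0 + (4/1) * a1 + (16/1) * a2 + (64/1) * a3 + (256/1) * a4) * ((ν - 4)^0 * (12 - ν)^4) := by
      rw [pow_zero, one_mul, one_mul]; exact t0
    linarith

theorem q_b0 (s : ℝ) (h0 : 0 < s) (h1 : s ≤ 1 / 4) :
    0 < (1/1) * c0 s + (4/1) * c1 s + (16/1) * c2 s + (64/1) * c3 s + (256/1) * c4 s := by
  have hy : 0 ≤ 1 - 4 * s := by linarith
  have e : (1/1) * c0 s + (4/1) * c1 s + (16/1) * c2 s + (64/1) * c3 s + (256/1) * c4 s =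
      1/8 + ((7/8) * (s^0 * (1 - 4 * s)^18) + (62/1) * (s^1 * (1 - 4 * s)^17) + (2217/1) * (s^2 * (1 - 4 * s)^16) + (53242/1) * (s^3 * (1 - 4 * s)^15) + (948611/1) * (s^4 * (1 - 4 * s)^14) + (13033089/1) * (s^5 * (1 - 4 * s)^13) + (140344444/1) * (s^6 * (1 - 4 * s)^12) + (1194775967/1) * (s^7 * (1 - 4 * s)^11) + (8086664418/1) * (s^8 * (1 - 4 * s)^10) + (43662382786/1) * (s^9 * (1 - 4 * s)^9) + (188191805644/1) * (s^10 * (1 - 4 * s)^8) + (645760660596/1) * (s^11 * (1 - 4 * s)^7) + (1751622983348/1) * (s^12 * (1 - 4 * s)^6) + (3707484075844/1) * (s^13 * (1 - 4 * s)^5) + (5993587598976/1) * (s^14 * (1 - 4 * s)^4) + (7146979362668/1) * (s^15 * (1 - 4 * s)^3) + (5924413674808/1) * (s^16 * (1 - 4 * s)^2) + (3048820806216/1) * (s^17 * (1 - 4 * s)^1) + (733583974528/1) * (s^18 * (1 - 4 * s)^0)) := by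
    unfold c0 c1 c2 c3 c4
    ring
  rw [e]
  generalize 1 - 4 * s = y at hy
  positivity

theorem q_b1 (s : ℝ) (h0 : 0 < s) (h1 : s ≤ 1 / 4) :
    0 < (1/1) * c0 s + (6/1) * c1 s + (32/1) * c2 s + (160/1) * c3 s + (768/1) * c4 s := by
  have hy : 0 ≤ 1 - 4 * s := by linarith
  have e : (1/1) * c0 s + (6/1) * c1 s + (32/1) * c2 s + (160/1) * c3 s + (768/1) * c4 s =
      1/8 + ((7/8) * (s^0 * (1 - 4 * s)^18) + (60/1) * (s^1 * (1 - 4 * s)^17) + (2240/1) * (s^2 * (1 - 4 * s)^16) + (119603/2) * (s^3 * (1 - 4 * s)^15) + (1208223/1) * (s^4 * (1 - 4 * s)^14) + (18592748/1) * (s^5 * (1 - 4 * s)^13) + (219086722/1) * (s^6 * (1 - 4 * s)^12) + (3991939035/2) * (s^7 * (1 - 4 * s)^11) + (14203443119/1) * (s^8 * (1 - 4 * s)^10) + (79575985825/1) * (s^9 * (1 - 4 * s)^9) + (352518937860/1) * (s^10 * (1 - 4 * s)^8) + (1234679653738/1) * (s^11 * (1 - 4 * s)^7) + (3401127156476/1)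 * (s^12 * (1 - 4 * s)^6) + (7283273214636/1) * (s^13 * (1 - 4 * s)^5) + (11878640920792/1) * (s^14 * (1 - 4 * s)^4) + (14259056940074/1) * (s^15 * (1 - 4 * s)^3) + (11878660001220/1) * (s^16 * (1 - 4 * s)^2) + (6135188972692/1) * (s^17 * (1 - 4 * s)^1) + (1479980505136/1) * (s^18 * (1 - 4 * s)^0)) := by
    unfold c0 c1 c2 c3 c4
    ring
  rw [e]
  generalize 1 - 4 * s = y at hy
  positivity

theorem q_b2 (s : ℝ) (h0 : 0 < s) (h1 : s ≤ 1 / 4) :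
    0 < (1/1) * c0 s + (8/1) * c1 s + (176/3) * c2 s + (384/1) * c3 s + (2304/1) * c4 s := by
  have hy : 0 ≤ 1 - 4 * s := by linarith
  have e : (1/1) * c0 s + (8/1) * c1 s + (176/3) * c2 s + (384/1) * c3 s + (2304/1) * c4 s =
      1/8 + ((7/8) * (s^0 * (1 - 4 * s)^18) + (58/1) * (s^1 * (1 - 4 * s)^17) + (2375/1) * (s^2 * (1 - 4 * s)^16) + (74337/1) * (s^3 * (1 - 4 * s)^15) + (1727931/1) * (s^4 * (1 - 4 * s)^14) + (29331231/1) * (s^5 * (1 - 4 * s)^13) + (368520752/1) * (s^6 * (1 - 4 * s)^12) + (3500201132/1) * (s^7 * (1 - 4 * s)^11) + (25598523796/1) * (s^8 * (1 - 4 * s)^10) + (146046052960/1) * (s^9 * (1 - 4 * s)^9) + (654830553716/1) * (s^10 * (1 - 4 * s)^8) + (2311648968688/1) * (s^11 * (1 - 4 * s)^7) + (6399092302092/1) * (s^12 * (1 - 4 * s)^6) + (13740345756252/1) * (s^13 * (1 - 4 * s)^5) + (22433088412080/1) * (s^14 * (1 - 4 * s)^4) + (26921358071104/1)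 * (s^15 * (1 - 4 * s)^3) + (22397567451232/1) * (s^16 * (1 - 4 * s)^2) + (11542826586608/1) * (s^17 * (1 - 4 * s)^1) + (2776348790944/1) * (s^18 * (1 - 4 * s)^0)) := by
    unfold c0 c1 c2 c3 c4
    ring
  rw [e]
  generalize 1 - 4 * s = y at hy
  positivity

theorem q_b3 (s : ℝ) (h0 : 0 < s) (h1 : s ≤ 1 / 4) :
    0 < (1/1) * c0 s + (10/1) * c1 s + (96/1) * c2 s + (864/1) * c3 s + (6912/1) * c4 s := by
  have hy : 0 ≤ 1 - 4 * s := by linarith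
  have e : (1/1) * c0 s + (10/1) * c1 s + (96/1) * c2 s + (864/1) * c3 s + (6912/1) * c4 s =
      1/8 + ((7/8) * (s^0 * (1 - 4 * s)^18) + (56/1) * (s^1 * (1 - 4 * s)^17) + (2622/1) * (s^2 * (1 - 4 * s)^16) + (194977/2) * (s^3 * (1 - 4 * s)^15) + (2541655/1) * (s^4 * (1 - 4 * s)^14) + (46074522/1) * (s^5 * (1 - 4 * s)^13) + (600865030/1) * (s^6 * (1 - 4 * s)^12) + (11659340485/2) * (s^7 * (1 - 4 * s)^11) + (43140591969/1) * (s^8 * (1 - 4 * s)^10) + (247550154415/1) * (s^9 * (1 - 4 * s)^9) + (1111768296892/1) * (s^10 * (1 - 4 * s)^8) + (3919306400118/1) * (s^11 * (1 - 4 * s)^7) + (10809079725700/1) * (s^12 * (1 - 4 * s)^6) + (23078881317908/1) * (s^13 * (1 - 4 * s)^5) + (37405395334440/1) * (s^14 * (1 - 4 * s)^4) + (44496746414390/1) * (s^15 * (1 - 4 * s)^3) + (36645958067356/1) * (s^16 * (1 - 4 * s)^2) + (18671126938476/1) * (s^17 * (1 - 4 * s)^1) + (4434277725712/1)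 * (s^18 * (1 - 4 * s)^0)) := by
    unfold c0 c1 c2 c3 c4
    ring
  rw [e]
  generalize 1 - 4 * s = y at hy
  positivity

theorem q_b4 (s : ℝ) (h0 : 0 < s) (h1 : s ≤ 1 / 4) :
    0 < (1/1) * c0 s + (12/1) * c1 s + (144/1) * c2 s + (1728/1) * c3 s + (20736/1) * c4 s := by
  have hy : 0 ≤ 1 - 4 * s := by linarith
  have e : (1/1) * c0 s + (12/1) * c1 s + (144/1) * c2 s + (1728/1) * c3 s + (20736/1) * c4 s =
      1/8 + ((7/8) * (s^0 * (1 - 4 * s)^18) + (54/1) * (s^1 * (1 - 4 * s)^17) + (2981/1) * (s^2 * (1 - 4 * s)^16) + (129896/1) * (s^3 * (1 - 4 * s)^15) + (3675123/1) * (s^4 * (1 - 4 * s)^14) + (69199069/1) * (s^5 * (1 - 4 * s)^13) + (916916356/1) * (s^6 * (1 - 4 * s)^12) + (8928485529/1) * (s^7 * (1 - 4 * s)^11) + (65794561766/1) * (s^8 * (1 - 4 * s)^10) + (373806491710/1) * (s^9 * (1 - 4 * s)^9) + (1654396798332/1) * (s^10 * (1 - 4 * s)^8) + (5723311936876/1)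 * (s^11 * (1 - 4 * s)^7) + (15426842472196/1) * (s^12 * (1 - 4 * s)^6) + (32059764714900/1) * (s^13 * (1 - 4 * s)^5) + (50354413485920/1) * (s^14 * (1 - 4 * s)^4) + (57771262917524/1) * (s^15 * (1 - 4 * s)^3) + (45641358359304/1) * (s^16 * (1 - 4 * s)^2) + (22170521142808/1) * (s^17 * (1 - 4 * s)^1) + (4983845483200/1) * (s^18 * (1 - 4 * s)^0)) := by
    unfold c0 c1 c2 c3 c4
    ring
  rw [e]
  generalize 1 - 4 * s = y at hy
  positivity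

theorem main : S_D2a := by
  intro σ ν h0 h1 hl hr
  have hmm : 0 < 1 + 2 * mm σ := by
    have : 0 < mm σ := by unfold mm; exact mul_pos h0 (by linarith)
    linarith
  have hk := key σ ν hmm
  have hpos : 0 < c0 σ + c1 σ * ν + c2 σ * ν ^ 2 + c3 σ * ν ^ 3 + c4 σ * ν ^ 4 := by
    rcases le_total ν 4 with h | h
    · exact box_a _ _ _ _ _ ν hl h (q_a0 σ h0 h1) (q_a1 σ h0 h1) (q_a2 σ h0 h1) (q_a3 σ h0 h1)
        (q_a4 σ h0 h1)
    · exact box_b _ _ _ _ _ ν h hr (q_b0 σ h0 h1) (q_b1 σ h0 h1) (q_b2 σ h0 h1) (q_b3 σ h0 h1)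
        (q_b4 σ h0 h1)
  have h2 : 0 < PP σ ν * (1 + 2 * mm σ) ^ 5 := by
    rw [hk]; exact mul_pos h0 hpos
  exact pos_of_mul_pos_left h2 (by positivity)

end Pool.Agent.Y282.RB.D2a
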