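import Pool.Agent.Y282.RB.Stm2

set_option autoImplicit false

/-!
# RB-D2b: comparison of `HH` with the power function
-/

namespace Pool.Agent.Y282.RB


namespace D2b

open Set

theorem Dpos (σ ν : ℝ) (h0 : 0 < σ) (h1 : σ < 1 / 2) (hν : -1 ≤ ν) :
    0 < 1 + cB σ * ν + cG σ * ν ^ 2 := by
  have hm : 0 < mm σ := mul_pos h0 (by linarith)
  have hσ3 : 0 < σ ^ 3 := pow_pos h0 3
  have hσ3' : σ ^ 3 < 1 := pow_lt_one₀ h0.le (by linarith) (by norm_num)
  have hB0 : 0 ≤ cB σ := by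
    unfold cB
    apply div_nonneg (mul_nonneg h0.le (by linarith)) (by linarith)
  have hB1 : cB σ < 1 := by
    unfold cB
    rw [div_lt_one (by linarith)]
    have : σ * (2 - σ ^ 3) ≤ σ * 2 := mul_le_mul_of_nonneg_left (by linarith) h0.le
    linarith
  have hG : 0 ≤ cG σ := by
    unfold cG
    positivity
  have h3 : 0 ≤ cB σ * (ν + 1) := mul_nonneg hB0 (by linarith)
  have h4 : 0 ≤ cG σ * ν ^ 2 := mul_nonneg hG (sq_nonneg _)
  nlinarith

theorem dH (A B G ν : ℝ) (hD : 1 + B * ν + G * ν ^ 2 ≠ 0) :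
    HasDerivAt (fun ν : ℝ => ν * (1 + A * ν) / (1 + B * ν + G * ν ^ 2))
      ((1 + 2 * A * ν + (A * B - G) * ν ^ 2) / (1 + B * ν + G * ν ^ 2) ^ 2) ν := by
  have h1 : HasDerivAt (fun ν : ℝ => ν * (1 + A * ν)) (1 + 2 * A * ν) ν := by
    refine ((hasDerivAt_id ν).mul (((hasDerivAt_id ν).const_mul A).const_add 1)).congr_deriv ?_
    simp only [id]
    ring
  have h2 : HasDerivAt (fun ν : ℝ => 1 + B * ν + G * ν ^ 2) (B + 2 * G * ν) ν := by
    refine ((((hasDerivAt_id ν).const_mul B).const_add 1).add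
      ((hasDerivAt_pow 2 ν).const_mul G)).congr_deriv ?_
    norm_num
    ring
  refine (h1.div h2 hD).congr_deriv ?_
  congr 1
  ring

theorem dH1 (A B G ν : ℝ) (hD : 1 + B * ν + G * ν ^ 2 ≠ 0) :
    HasDerivAt (fun ν : ℝ => (1 + 2 * A * ν + (A * B - G) * ν ^ 2) /
        (1 + B * ν + G * ν ^ 2) ^ 2)
      (-(2 * ((B - A) + 3 * G * ν + 3 * A * G * ν ^ 2 + (A * B - G) * G * ν ^ 3)) /
        (1 + B * ν + G * ν ^ 2) ^ 3) ν := by
  have h1 : HasDerivAt (fun ν : ℝ => 1 + 2 * A * ν + (A * B - G) * ν ^ 2)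
      (2 * A + 2 * (A * B - G) * ν) ν := by
    refine ((((hasDerivAt_id ν).const_mul (2 * A)).const_add 1).add
      ((hasDerivAt_pow 2 ν).const_mul (A * B - G))).congr_deriv ?_
    norm_num
    ring
  have h2 : HasDerivAt (fun ν : ℝ => 1 + B * ν + G * ν ^ 2) (B + 2 * G * ν) ν := by
    refine ((((hasDerivAt_id ν).const_mul B).const_add 1).add
      ((hasDerivAt_pow 2 ν).const_mul G)).congr_deriv ?_
    norm_num
    ring
  have h3 : HasDerivAt (fun ν : ℝ => (1 + B * ν + G * ν ^ 2) ^ 2)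
      (2 * (1 + B * ν + G * ν ^ 2) * (B + 2 * G * ν)) ν := (h2.pow 2).congr_deriv (by norm_num)
  refine (h1.div h3 (pow_ne_zero 2 hD)).congr_deriv ?_
  rw [div_eq_div_iff (pow_ne_zero 2 (pow_ne_zero 2 hD)) (pow_ne_zero 3 hD)]
  ring

theorem main : S_D2b := by
  intro σ V h0 h1 hV hPP s hs0 hs1
  obtain ⟨A, hA⟩ : ∃ A, A = cA σ := ⟨_, rfl⟩
  obtain ⟨B, hB⟩ : ∃ B, B = cB σ := ⟨_, rfl⟩
  obtain ⟨G, hG⟩ : ∃ G, G = cG σ := ⟨_, rfl⟩
  have hD : ∀ ν, -1 ≤ ν → 0 < 1 + B * ν + G * ν ^ 2 := by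
    intro ν hν
    rw [hB, hG]
    exact Dpos σ ν h0 h1 hν
  have hP : ∀ ν, -1 ≤ ν → ν ≤ V → 0 < σ * (1 + 2 * A * ν + (A * B - G) * ν ^ 2) *
      (1 + B * ν + G * ν ^ 2) - (1 + ν) * ((B - A) + 3 * G * ν + 3 * A * G * ν ^ 2 +
        (A * B - G) * G * ν ^ 3) := by
    intro ν h2 h3
    rw [hA, hB, hG]
    exact hPP ν h2 h3
  have hH : HH σ = fun ν => ν * (1 + A * ν) / (1 + B * ν + G * ν ^ 2) := by
    rw [hA, hB, hG]
    rfl
  obtain ⟨H1, hH1⟩ : ∃ H1 : ℝ → ℝ, H1 = fun ν => (1 + 2 * A * ν + (A * B - G) * ν ^ 2) /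
    (1 + B * ν + G * ν ^ 2) ^ 2 := ⟨_, rfl⟩
  have hdH : ∀ t, 0 ≤ t → HasDerivAt (fun t => HH σ (t - 1)) (H1 (t - 1)) t := by
    intro t ht
    have e1 := dH A B G (t - 1) (hD (t - 1) (by linarith)).ne'
    have e2 := e1.comp_sub_const t 1
    rw [hH, hH1]
    exact e2
  -- the quotient of the derivatives is increasing
  obtain ⟨q, hq⟩ : ∃ q : ℝ → ℝ, q = fun t => H1 (t - 1) * t ^ (2 * σ) := ⟨_, rfl⟩
  have hdq : ∀ t, 0 < t → HasDerivAt q (t ^ (2 * σ) * (2 * (σ * (1 + 2 * A * (t - 1) +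
      (A * B - G) * (t - 1) ^ 2) * (1 + B * (t - 1) + G * (t - 1) ^ 2) - (1 + (t - 1)) *
      ((B - A) + 3 * G * (t - 1) + 3 * A * G * (t - 1) ^ 2 + (A * B - G) * G * (t - 1) ^ 3)) /
      (t * (1 + B * (t - 1) + G * (t - 1) ^ 2) ^ 3))) t := by
    intro t ht
    have hDt := (hD (t - 1) (by linarith)).ne'
    have e1 := (dH1 A B G (t - 1) hDt).comp_sub_const t 1
    have e2 : HasDerivAt (fun t : ℝ => t ^ (2 * σ)) (2 * σ * t ^ (2 * σ - 1)) t :=
      Real.hasDerivAt_rpow_const (Or.inl ht.ne')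
    rw [hq, hH1]
    refine (e1.mul e2).congr_deriv ?_
    rw [Real.rpow_sub_one ht.ne']
    generalize t ^ (2 * σ) = w
    generalize hDD : 1 + B * (t - 1) + G * (t - 1) ^ 2 = D at *
    have e3 : (1 + (t - 1)) = t := by ring
    rw [e3]
    field_simp
    ring
  have hqmono : MonotoneOn q (Ioc 0 (1 + V)) := by
    apply monotoneOn_of_deriv_nonneg (convex_Ioc _ _)
    · intro t ht
      exact (hdq t ht.1).continuousAt.continuousWithinAt
    · intro t ht
      rw [interior_Ioc] at ht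
      exact (hdq t ht.1).differentiableAt.differentiableWithinAt
    · intro t ht
      rw [interior_Ioc] at ht
      rw [(hdq t ht.1).deriv]
      have e1 := hP (t - 1) (by linarith [ht.1]) (by linarith [ht.2])
      have e2 := hD (t - 1) (by linarith [ht.1])
      have e3 := ht.1
      apply mul_nonneg (Real.rpow_nonneg e3.le _)
      apply div_nonneg (by linarith)
      positivity
  have hq1 : q 1 = 1 := by
    rw [hq, hH1]
    simp
  -- the difference
  obtain ⟨F, hF⟩ : ∃ F : ℝ → ℝ, F = fun t => HH σ (t - 1) - (t ^ (1 - 2 * σ) - 1) / (1 - 2 * σ) :=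
    ⟨_, rfl⟩
  have hdF : ∀ t, 0 < t → HasDerivAt F (H1 (t - 1) - t ^ (-(2 * σ))) t := by
    intro t ht
    have e2 : HasDerivAt (fun t : ℝ => t ^ (1 - 2 * σ)) ((1 - 2 * σ) * t ^ (1 - 2 * σ - 1)) t :=
      Real.hasDerivAt_rpow_const (Or.inl ht.ne')
    rw [hF]
    refine ((hdH t ht.le).sub ((e2.sub_const 1).div_const (1 - 2 * σ))).congr_deriv ?_
    have e3 : 1 - 2 * σ - 1 = -(2 * σ) := by ring
    have e4 : (1 - 2 * σ) ≠ 0 := by linarith
    rw [e3, mul_div_cancel_left₀ _ e4]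
  have hcF : ContinuousOn F (Icc 0 (1 + V)) := by
    rw [hF]
    apply ContinuousOn.sub
    · intro t ht
      exact (hdH t ht.1).continuousAt.continuousWithinAt
    · apply ContinuousOn.div_const
      apply ContinuousOn.sub _ continuousOn_const
      exact (Real.continuous_rpow_const (by linarith)).continuousOn
  have hsgn : ∀ t : ℝ, 0 < t → t ^ (-(2 * σ)) = (t ^ (2 * σ))⁻¹ := fun t ht => Real.rpow_neg ht.le _
  have hF1 : F 1 = 0 := by
    rw [hF, hH]
    simp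
  have hanti : AntitoneOn F (Icc 0 1) := by
    apply antitoneOn_of_deriv_nonpos (convex_Icc _ _)
    · exact hcF.mono (Icc_subset_Icc_right (by linarith))
    · intro t ht
      rw [interior_Icc] at ht
      exact (hdF t ht.1).differentiableAt.differentiableWithinAt
    · intro t ht
      rw [interior_Icc] at ht
      rw [(hdF t ht.1).deriv, hsgn t ht.1]
      have e1 := hqmono ⟨ht.1, by linarith [ht.2]⟩ ⟨one_pos, by linarith⟩ ht.2.le
      rw [hq1, hq] at e1
      simp only at e1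
      have e2 : 0 < t ^ (2 * σ) := Real.rpow_pos_of_pos ht.1 _
      rw [← le_div_iff₀ e2] at e1
      rw [← one_div]
      linarith
  have hmono : MonotoneOn F (Icc 1 (1 + V)) := by
    apply monotoneOn_of_deriv_nonneg (convex_Icc _ _)
    · exact hcF.mono (Icc_subset_Icc_left (by linarith))
    · intro t ht
      rw [interior_Icc] at ht
      exact (hdF t (by linarith [ht.1])).differentiableAt.differentiableWithinAt
    · intro t ht
      rw [interior_Icc] at ht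
      have ht0 : 0 < t := by linarith [ht.1]
      rw [(hdF t ht0).deriv, hsgn t ht0]
      have e1 := hqmono ⟨one_pos, by linarith⟩ ⟨ht0, ht.2.le⟩ ht.1.le
      rw [hq1, hq] at e1
      simp only at e1
      have e2 : 0 < t ^ (2 * σ) := Real.rpow_pos_of_pos ht0 _
      rw [← div_le_iff₀ e2] at e1
      rw [← one_div]
      linarith
  have hfin : 0 ≤ F s := by
    rcases le_total s 1 with h | h
    · have := hanti ⟨hs0, h⟩ ⟨zero_le_one, le_rfl⟩ h
      rwa [hF1] at this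
    · have := hmono ⟨le_rfl, by linarith⟩ ⟨h, hs1⟩ h
      rwa [hF1] at this
  rw [hF] at hfin
  simp only at hfin
  linarith

end D2b

end Pool.Agent.Y282.RB
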