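import Pool.Agent.Y282.RB.Stm2

/-!
# Job RB-D2w: positivity of `PP σ ν` for `0 < σ ≤ 1/2`, `-1 ≤ ν ≤ 9`

`PP σ ν * (1 + 2 m)^5 = σ N(σ, ν)` with a polynomial `N` of degree `4` in `ν`; its Bernstein
coefficients on `[-1, 1]` and on `[1, 9]` are polynomials in `σ` which are at least `1 / 2` on
`[0, 1/2]` (again by Bernstein expansion).
-/

set_option autoImplicit false
set_option linter.all false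

namespace Pool.Agent.Y282.RB.D2w

open Pool.Agent.Y282.RB

/-- coefficient of `ν^0` -/
noncomputable def n0 (σ : ℝ) : ℝ :=
  1 + 3*σ + (-7)*σ^2 + (-9)*σ^3 + 39*σ^4 + (-33)*σ^5 + (-48)*σ^6 + 150*σ^7 + (-180)*σ^8 + 124*σ^9 + (-48)*σ^10 + 8*σ^11

/-- coefficient of `ν^1` -/
noncomputable def n1 (σ : ℝ) : ℝ :=
  (-1)*σ + (-9/2)*σ^2 + (7/4)*σ^3 + 21*σ^4 + (-9/2)*σ^5 + (-33)*σ^6 + (-39/4)*σ^7 + (63/2)*σ^8 + (195/2)*σ^9 + (-208)*σ^10 + 153*σ^11 + (-50)*σ^12 + 6*σ^13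

/-- coefficient of `ν^2` -/
noncomputable def n2 (σ : ℝ) : ℝ :=
  (21/2)*σ^2 + (63/4)*σ^3 + (-93)*σ^4 + (-117/4)*σ^5 + (1203/4)*σ^6 + (-801/4)*σ^7 + (-513/4)*σ^8 + (261/2)*σ^9 + (81/4)*σ^10 + 15*σ^11 + (-369/4)*σ^12 + (267/4)*σ^13 + (-18)*σ^14 + (3/2)*σ^15

/-- coefficient of `ν^3` -/
noncomputable def n3 (σ : ℝ) : ℝ :=
  5*σ^3 + (-3)*σ^4 + (-23)*σ^5 + 37*σ^6 + (-543/16)*σ^7 + (271/8)*σ^8 + (123/8)*σ^9 + (-273/4)*σ^10 + (231/8)*σ^11 + (83/4)*σ^12 + (-9/2)*σ^13 + (-71/4)*σ^14 + (193/16)*σ^15 + (-21/8)*σ^16 + (1/8)*σ^17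

/-- coefficient of `ν^4` -/
noncomputable def n4 (σ : ℝ) : ℝ :=
  (-2)*σ^4 + (9/4)*σ^5 + (13/2)*σ^6 + (-115/16)*σ^7 + (-123/16)*σ^8 + 7*σ^9 + (45/8)*σ^10 + (-9/8)*σ^11 + (-45/8)*σ^12 + (-1/2)*σ^13 + (9/2)*σ^14 + (-19/16)*σ^15 + (-19/16)*σ^16 + (3/4)*σ^17 + (-1/8)*σ^18

lemma bL0 (σ : ℝ) (h0 : 0 ≤ σ) (h1 : 0 ≤ 1/2 - σ) :
    1/2 ≤ 1*n0 σ + (-1)*n1 σ + 1*n2 σ + (-1)*n3 σ + 1*n4 σ := by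
  have e : 1*n0 σ + (-1)*n1 σ + 1*n2 σ + (-1)*n3 σ + 1*n4 σ - 1/2 =
      131072*(σ^0*(1/2-σ)^18) + 2883584*(σ^1*(1/2-σ)^17) + 29491200*(σ^2*(1/2-σ)^16) + 186646528*(σ^3*(1/2-σ)^15) + 819298304*(σ^4*(1/2-σ)^14) + 2647191552*(σ^5*(1/2-σ)^13) + 6518973440*(σ^6*(1/2-σ)^12) + 12500345344*(σ^7*(1/2-σ)^11) + 18908829888*(σ^8*(1/2-σ)^10) + 22723031744*(σ^9*(1/2-σ)^9) + 21740997408*(σ^10*(1/2-σ)^8) + 16522693632*(σ^11*(1/2-σ)^7) + 9901658328*(σ^12*(1/2-σ)^6) + 4616910504*(σ^13*(1/2-σ)^5) + 1638703908*(σ^14*(1/2-σ)^4) + 427368066*(σ^15*(1/2-σ)^3) + (308578671/4)*(σ^16*(1/2-σ)^2) + (34413867/4)*(σ^17*(1/2-σ)^1) + (3569639/8)*(σ^18*(1/2-σ)^0) := by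
    simp only [n0, n1, n2, n3, n4]
    ring
  have h : 0 ≤ 1*n0 σ + (-1)*n1 σ + 1*n2 σ + (-1)*n3 σ + 1*n4 σ - 1/2 := by
    rw [e]
    positivity
  linarith

lemma bL1 (σ : ℝ) (h0 : 0 ≤ σ) (h1 : 0 ≤ 1/2 - σ) :
    1/2 ≤ 1*n0 σ + (-1/2)*n1 σ + (1/2)*n3 σ + (-1)*n4 σ := by
  have e : 1*n0 σ + (-1/2)*n1 σ + (1/2)*n3 σ + (-1)*n4 σ - 1/2 =
      131072*(σ^0*(1/2-σ)^18) + 2818048*(σ^1*(1/2-σ)^17) + 27541504*(σ^2*(1/2-σ)^16) + 164122624*(σ^3*(1/2-σ)^15) + 672526336*(σ^4*(1/2-σ)^14) + 2021441536*(σ^5*(1/2-σ)^13) + 4633880576*(σ^6*(1/2-σ)^12) + 8302991552*(σ^7*(1/2-σ)^11) + 11807855552*(σ^8*(1/2-σ)^10) + 13441858592*(σ^9*(1/2-σ)^9) + 12285849696*(σ^10*(1/2-σ)^8) + 8997019272*(σ^11*(1/2-σ)^7) + 5239645944*(σ^12*(1/2-σ)^6) + 2393250768*(σ^13*(1/2-σ)^5) + 838158282*(σ^14*(1/2-σ)^4)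 + (868221735/4)*(σ^15*(1/2-σ)^3) + (156455811/4)*(σ^16*(1/2-σ)^2) + (34985367/8)*(σ^17*(1/2-σ)^1) + 228082*(σ^18*(1/2-σ)^0) := by
    simp only [n0, n1, n2, n3, n4]
    ring
  have h : 0 ≤ 1*n0 σ + (-1/2)*n1 σ + (1/2)*n3 σ + (-1)*n4 σ - 1/2 := by
    rw [e]
    positivity
  linarith

lemma bL2 (σ : ℝ) (h0 : 0 ≤ σ) (h1 : 0 ≤ 1/2 - σ) :
    1/2 ≤ 1*n0 σ + (-1/3)*n2 σ + 1*n4 σ := by
  have e : 1*n0 σ + (-1/3)*n2 σ + 1*n4 σ - 1/2 =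
      131072*(σ^0*(1/2-σ)^18) + 2752512*(σ^1*(1/2-σ)^17) + 26050560*(σ^2*(1/2-σ)^16) + 148955136*(σ^3*(1/2-σ)^15) + 580001792*(σ^4*(1/2-σ)^14) + 1639923712*(σ^5*(1/2-σ)^13) + 3500155904*(σ^6*(1/2-σ)^12) + 5780135040*(σ^7*(1/2-σ)^11) + 7502228928*(σ^8*(1/2-σ)^10) + 7724443904*(σ^9*(1/2-σ)^9) + 6334936992*(σ^10*(1/2-σ)^8) + 4135448304*(σ^11*(1/2-σ)^7) + 2136597720*(σ^12*(1/2-σ)^6) + 863311752*(σ^13*(1/2-σ)^5) + 267242040*(σ^14*(1/2-σ)^4) + (122461221/2)*(σ^15*(1/2-σ)^3) + (39129579/4)*(σ^16*(1/2-σ)^2) + (1942767/2)*(σ^17*(1/2-σ)^1) + (359609/8)*(σ^18*(1/2-σ)^0) := by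
    simp only [n0, n1, n2, n3, n4]
    ring
  have h : 0 ≤ 1*n0 σ + (-1/3)*n2 σ + 1*n4 σ - 1/2 := by
    rw [e]
    positivity
  linarith

lemma bL3 (σ : ℝ) (h0 : 0 ≤ σ) (h1 : 0 ≤ 1/2 - σ) :
    1/2 ≤ 1*n0 σ + (1/2)*n1 σ + (-1/2)*n3 σ + (-1)*n4 σ := by
  have e : 1*n0 σ + (1/2)*n1 σ + (-1/2)*n3 σ + (-1)*n4 σ - 1/2 =
      131072*(σ^0*(1/2-σ)^18) + 2686976*(σ^1*(1/2-σ)^17) + 25018368*(σ^2*(1/2-σ)^16) + 141471744*(σ^3*(1/2-σ)^15) + 546803712*(σ^4*(1/2-σ)^14) + 1538813952*(σ^5*(1/2-σ)^13) + 3275077632*(σ^6*(1/2-σ)^12) + 5398862400*(σ^7*(1/2-σ)^11) + 6995876544*(σ^8*(1/2-σ)^10) + 7183934432*(σ^9*(1/2-σ)^9) + 5861025504*(σ^10*(1/2-σ)^8) + 3788632728*(σ^11*(1/2-σ)^7) + 1923804600*(σ^12*(1/2-σ)^6) + 755251920*(σ^13*(1/2-σ)^5) + 223262550*(σ^14*(1/2-σ)^4) + (190385061/4)*(σ^15*(1/2-σ)^3)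 + (27177543/4)*(σ^16*(1/2-σ)^2) + (4502961/8)*(σ^17*(1/2-σ)^1) + (75679/4)*(σ^18*(1/2-σ)^0) := by
    simp only [n0, n1, n2, n3, n4]
    ring
  have h : 0 ≤ 1*n0 σ + (1/2)*n1 σ + (-1/2)*n3 σ + (-1)*n4 σ - 1/2 := by
    rw [e]
    positivity
  linarith

lemma bL4 (σ : ℝ) (h0 : 0 ≤ σ) (h1 : 0 ≤ 1/2 - σ) :
    1/2 ≤ 1*n0 σ + 1*n1 σ + 1*n2 σ + 1*n3 σ + 1*n4 σ := by
  have e : 1*n0 σ + 1*n1 σ + 1*n2 σ + 1*n3 σ + 1*n4 σ - 1/2 =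
      131072*(σ^0*(1/2-σ)^18) + 2621440*(σ^1*(1/2-σ)^17) + 24444928*(σ^2*(1/2-σ)^16) + 142000128*(σ^3*(1/2-σ)^15) + 577486848*(σ^4*(1/2-σ)^14) + 1747243008*(σ^5*(1/2-σ)^13) + 4072473600*(σ^6*(1/2-σ)^12) + 7463298816*(σ^7*(1/2-σ)^11) + 10877655744*(σ^8*(1/2-σ)^10) + 12674275136*(σ^9*(1/2-σ)^9) + 11808868896*(σ^10*(1/2-σ)^8) + 8760727008*(σ^11*(1/2-σ)^7) + 5127978840*(σ^12*(1/2-σ)^6) + 2332418472*(σ^13*(1/2-σ)^5) + 804938508*(σ^14*(1/2-σ)^4) + 203013699*(σ^15*(1/2-σ)^3) + (140637159/4)*(σ^16*(1/2-σ)^2) + (14881041/4)*(σ^17*(1/2-σ)^1) + (1441931/8)*(σ^18*(1/2-σ)^0) := by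
    simp only [n0, n1, n2, n3, n4]
    ring
  have h : 0 ≤ 1*n0 σ + 1*n1 σ + 1*n2 σ + 1*n3 σ + 1*n4 σ - 1/2 := by
    rw [e]
    positivity
  linarith

lemma bR0 (σ : ℝ) (h0 : 0 ≤ σ) (h1 : 0 ≤ 1/2 - σ) :
    1/2 ≤ 1*n0 σ + 1*n1 σ + 1*n2 σ + 1*n3 σ + 1*n4 σ := by
  have e : 1*n0 σ + 1*n1 σ + 1*n2 σ + 1*n3 σ + 1*n4 σ - 1/2 =
      131072*(σ^0*(1/2-σ)^18) + 2621440*(σ^1*(1/2-σ)^17) + 24444928*(σ^2*(1/2-σ)^16) + 142000128*(σ^3*(1/2-σ)^15) + 577486848*(σ^4*(1/2-σ)^14) + 1747243008*(σ^5*(1/2-σ)^13) + 4072473600*(σ^6*(1/2-σ)^12) + 7463298816*(σ^7*(1/2-σ)^11) + 10877655744*(σ^8*(1/2-σ)^10) + 12674275136*(σ^9*(1/2-σ)^9) + 11808868896*(σ^10*(1/2-σ)^8) + 8760727008*(σ^11*(1/2-σ)^7) + 5127978840*(σ^12*(1/2-σ)^6) + 2332418472*(σ^13*(1/2-σ)^5) + 804938508*(σ^14*(1/2-σ)^4)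 + 203013699*(σ^15*(1/2-σ)^3) + (140637159/4)*(σ^16*(1/2-σ)^2) + (14881041/4)*(σ^17*(1/2-σ)^1) + (1441931/8)*(σ^18*(1/2-σ)^0) := by
    simp only [n0, n1, n2, n3, n4]
    ring
  have h : 0 ≤ 1*n0 σ + 1*n1 σ + 1*n2 σ + 1*n3 σ + 1*n4 σ - 1/2 := by
    rw [e]
    positivity
  linarith

lemma bR1 (σ : ℝ) (h0 : 0 ≤ σ) (h1 : 0 ≤ 1/2 - σ) :
    1/2 ≤ 1*n0 σ + 3*n1 σ + 5*n2 σ + 7*n3 σ + 9*n4 σ := by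
  have e : 1*n0 σ + 3*n1 σ + 5*n2 σ + 7*n3 σ + 9*n4 σ - 1/2 =
      131072*(σ^0*(1/2-σ)^18) + 2359296*(σ^1*(1/2-σ)^17) + 22151168*(σ^2*(1/2-σ)^16) + 144113664*(σ^3*(1/2-σ)^15) + 700219392*(σ^4*(1/2-σ)^14) + 2580959232*(σ^5*(1/2-σ)^13) + 7262057472*(σ^6*(1/2-σ)^12) + 15721044480*(σ^7*(1/2-σ)^11) + 26404772544*(σ^8*(1/2-σ)^10) + 34635637952*(σ^9*(1/2-σ)^9) + 35600242464*(σ^10*(1/2-σ)^8) + 28649104128*(σ^11*(1/2-σ)^7) + 17944675800*(σ^12*(1/2-σ)^6) + 8641084680*(σ^13*(1/2-σ)^5) + 3131642340*(σ^14*(1/2-σ)^4) + 824683434*(σ^15*(1/2-σ)^3) + (594475623/4)*(σ^16*(1/2-σ)^2) + (65399283/4)*(σ^17*(1/2-σ)^1) + (6604223/8)*(σ^18*(1/2-σ)^0) := by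
    simp only [n0, n1, n2, n3, n4]
    ring
  have h : 0 ≤ 1*n0 σ + 3*n1 σ + 5*n2 σ + 7*n3 σ + 9*n4 σ - 1/2 := by
    rw [e]
    positivity
  linarith

lemma bR2 (σ : ℝ) (h0 : 0 ≤ σ) (h1 : 0 ≤ 1/2 - σ) :
    1/2 ≤ 1*n0 σ + 5*n1 σ + (59/3)*n2 σ + 45*n3 σ + 81*n4 σ := by
  have e : 1*n0 σ + 5*n1 σ + (59/3)*n2 σ + 45*n3 σ + 81*n4 σ - 1/2 =
      131072*(σ^0*(1/2-σ)^18) + 2097152*(σ^1*(1/2-σ)^17) + 27197440*(σ^2*(1/2-σ)^16) + 274415616*(σ^3*(1/2-σ)^15) + 1845051392*(σ^4*(1/2-σ)^14) + 8367296512*(σ^5*(1/2-σ)^13) + 26811229184*(σ^6*(1/2-σ)^12) + 63110135040*(σ^7*(1/2-σ)^11) + 112141994688*(σ^8*(1/2-σ)^10) + 153090603584*(σ^9*(1/2-σ)^9) + 162139694112*(σ^10*(1/2-σ)^8) + 133640038944*(σ^11*(1/2-σ)^7) + 85432850520*(σ^12*(1/2-σ)^6) + 41913373032*(σ^13*(1/2-σ)^5) + 15468833340*(σ^14*(1/2-σ)^4)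 + 4151181633*(σ^15*(1/2-σ)^3) + (3054900519/4)*(σ^16*(1/2-σ)^2) + (344135349/4)*(σ^17*(1/2-σ)^1) + (35747699/8)*(σ^18*(1/2-σ)^0) := by
    simp only [n0, n1, n2, n3, n4]
    ring
  have h : 0 ≤ 1*n0 σ + 5*n1 σ + (59/3)*n2 σ + 45*n3 σ + 81*n4 σ - 1/2 := by
    rw [e]
    positivity
  linarith

lemma bR3 (σ : ℝ) (h0 : 0 ≤ σ) (h1 : 0 ≤ 1/2 - σ) :
    1/2 ≤ 1*n0 σ + 7*n1 σ + 45*n2 σ + 243*n3 σ + 729*n4 σ := by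
  have e : 1*n0 σ + 7*n1 σ + 45*n2 σ + 243*n3 σ + 729*n4 σ - 1/2 =
      131072*(σ^0*(1/2-σ)^18) + 1835008*(σ^1*(1/2-σ)^17) + 39583744*(σ^2*(1/2-σ)^16) + 553877504*(σ^3*(1/2-σ)^15) + 4303486976*(σ^4*(1/2-σ)^14) + 20970622976*(σ^5*(1/2-σ)^13) + 70004970496*(σ^6*(1/2-σ)^12) + 169094582272*(σ^7*(1/2-σ)^11) + 305776192192*(σ^8*(1/2-σ)^10) + 422691649472*(σ^9*(1/2-σ)^9) + 451891458336*(σ^10*(1/2-σ)^8) + 375199417152*(σ^11*(1/2-σ)^7) + 241302087384*(σ^12*(1/2-σ)^6) + 119003504328*(σ^13*(1/2-σ)^5) + 44134508052*(σ^14*(1/2-σ)^4) + 11901631560*(σ^15*(1/2-σ)^3) + (8804309031/4)*(σ^16*(1/2-σ)^2) + (997682391/4)*(σ^17*(1/2-σ)^1) + (104362151/8)*(σ^18*(1/2-σ)^0) := by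
    simp only [n0, n1, n2, n3, n4]
    ring
  have h : 0 ≤ 1*n0 σ + 7*n1 σ + 45*n2 σ + 243*n3 σ + 729*n4 σ - 1/2 := by
    rw [e]
    positivity
  linarith

lemma bR4 (σ : ℝ) (h0 : 0 ≤ σ) (h1 : 0 ≤ 1/2 - σ) :
    1/2 ≤ 1*n0 σ + 9*n1 σ + 81*n2 σ + 729*n3 σ + 6561*n4 σ := by
  have e : 1*n0 σ + 9*n1 σ + 81*n2 σ + 729*n3 σ + 6561*n4 σ - 1/2 =
      131072*(σ^0*(1/2-σ)^18) + 1572864*(σ^1*(1/2-σ)^17) + 59310080*(σ^2*(1/2-σ)^16) + 1003470848*(σ^3*(1/2-σ)^15) + 8232812544*(σ^4*(1/2-σ)^14) + 40451756032*(σ^5*(1/2-σ)^13) + 133004968960*(σ^6*(1/2-σ)^12) + 311420277504*(σ^7*(1/2-σ)^11) + 538736523968*(σ^8*(1/2-σ)^10) + 703735594304*(σ^9*(1/2-σ)^9) + 702148558368*(σ^10*(1/2-σ)^8) + 536889755232*(σ^11*(1/2-σ)^7) + 313289826648*(σ^12*(1/2-σ)^6) + 137774015784*(σ^13*(1/2-σ)^5)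 + 44607962988*(σ^14*(1/2-σ)^4) + 10219766271*(σ^15*(1/2-σ)^3) + (6186829671/4)*(σ^16*(1/2-σ)^2) + (542286297/4)*(σ^17*(1/2-σ)^1) + (39820379/8)*(σ^18*(1/2-σ)^0) := by
    simp only [n0, n1, n2, n3, n4]
    ring
  have h : 0 ≤ 1*n0 σ + 9*n1 σ + 81*n2 σ + 729*n3 σ + 6561*n4 σ - 1/2 := by
    rw [e]
    positivity
  linarith

lemma NL (σ ν : ℝ) (h0 : 0 ≤ σ) (h1 : 0 ≤ 1/2 - σ) (hp : 0 ≤ (ν+1)) (hq : 0 ≤ (1-ν)) :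
    1/2 ≤ n0 σ + n1 σ * ν + n2 σ * ν^2 + n3 σ * ν^3 + n4 σ * ν^4 := by
  have c0 : 0 ≤ (1*n0 σ + (-1)*n1 σ + 1*n2 σ + (-1)*n3 σ + 1*n4 σ) - 1/2 := by linarith [bL0 σ h0 h1]
  have c1 : 0 ≤ (1*n0 σ + (-1/2)*n1 σ + (1/2)*n3 σ + (-1)*n4 σ) - 1/2 := by linarith [bL1 σ h0 h1]
  have c2 : 0 ≤ (1*n0 σ + (-1/3)*n2 σ + 1*n4 σ) - 1/2 := by linarith [bL2 σ h0 h1]
  have c3 : 0 ≤ (1*n0 σ + (1/2)*n1 σ + (-1/2)*n3 σ + (-1)*n4 σ) - 1/2 := by linarith [bL3 σ h0 h1]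
  have c4 : 0 ≤ (1*n0 σ + 1*n1 σ + 1*n2 σ + 1*n3 σ + 1*n4 σ) - 1/2 := by linarith [bL4 σ h0 h1]
  have e : n0 σ + n1 σ * ν + n2 σ * ν^2 + n3 σ * ν^3 + n4 σ * ν^4 - 1/2 =
      1/16*((ν+1)^0*(1-ν)^4)*((1*n0 σ + (-1)*n1 σ + 1*n2 σ + (-1)*n3 σ + 1*n4 σ) - 1/2) +
      4/16*((ν+1)^1*(1-ν)^3)*((1*n0 σ + (-1/2)*n1 σ + (1/2)*n3 σ + (-1)*n4 σ) - 1/2) +
      6/16*((ν+1)^2*(1-ν)^2)*((1*n0 σ + (-1/3)*n2 σ + 1*n4 σ) - 1/2) +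
      4/16*((ν+1)^3*(1-ν)^1)*((1*n0 σ + (1/2)*n1 σ + (-1/2)*n3 σ + (-1)*n4 σ) - 1/2) +
      1/16*((ν+1)^4*(1-ν)^0)*((1*n0 σ + 1*n1 σ + 1*n2 σ + 1*n3 σ + 1*n4 σ) - 1/2) := by
    ring
  have h : 0 ≤ n0 σ + n1 σ * ν + n2 σ * ν^2 + n3 σ * ν^3 + n4 σ * ν^4 - 1/2 := by
    rw [e]
    refine add_nonneg (add_nonneg (add_nonneg (add_nonneg ?_ ?_) ?_) ?_) ?_
    · exact mul_nonneg (by positivity) c0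
    · exact mul_nonneg (by positivity) c1
    · exact mul_nonneg (by positivity) c2
    · exact mul_nonneg (by positivity) c3
    · exact mul_nonneg (by positivity) c4
  linarith

lemma NR (σ ν : ℝ) (h0 : 0 ≤ σ) (h1 : 0 ≤ 1/2 - σ) (hp : 0 ≤ (ν-1)) (hq : 0 ≤ (9-ν)) :
    1/2 ≤ n0 σ + n1 σ * ν + n2 σ * ν^2 + n3 σ * ν^3 + n4 σ * ν^4 := by
  have c0 : 0 ≤ (1*n0 σ + 1*n1 σ + 1*n2 σ + 1*n3 σ + 1*n4 σ) - 1/2 := by linarith [bR0 σ h0 h1]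
  have c1 : 0 ≤ (1*n0 σ + 3*n1 σ + 5*n2 σ + 7*n3 σ + 9*n4 σ) - 1/2 := by linarith [bR1 σ h0 h1]
  have c2 : 0 ≤ (1*n0 σ + 5*n1 σ + (59/3)*n2 σ + 45*n3 σ + 81*n4 σ) - 1/2 := by linarith [bR2 σ h0 h1]
  have c3 : 0 ≤ (1*n0 σ + 7*n1 σ + 45*n2 σ + 243*n3 σ + 729*n4 σ) - 1/2 := by linarith [bR3 σ h0 h1]
  have c4 : 0 ≤ (1*n0 σ + 9*n1 σ + 81*n2 σ + 729*n3 σ + 6561*n4 σ) - 1/2 := by linarith [bR4 σ h0 h1]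
  have e : n0 σ + n1 σ * ν + n2 σ * ν^2 + n3 σ * ν^3 + n4 σ * ν^4 - 1/2 =
      1/4096*((ν-1)^0*(9-ν)^4)*((1*n0 σ + 1*n1 σ + 1*n2 σ + 1*n3 σ + 1*n4 σ) - 1/2) +
      4/4096*((ν-1)^1*(9-ν)^3)*((1*n0 σ + 3*n1 σ + 5*n2 σ + 7*n3 σ + 9*n4 σ) - 1/2) +
      6/4096*((ν-1)^2*(9-ν)^2)*((1*n0 σ + 5*n1 σ + (59/3)*n2 σ + 45*n3 σ + 81*n4 σ) - 1/2) +
      4/4096*((ν-1)^3*(9-ν)^1)*((1*n0 σ + 7*n1 σ + 45*n2 σ + 243*n3 σ + 729*n4 σ) - 1/2) +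
      1/4096*((ν-1)^4*(9-ν)^0)*((1*n0 σ + 9*n1 σ + 81*n2 σ + 729*n3 σ + 6561*n4 σ) - 1/2) := by
    ring
  have h : 0 ≤ n0 σ + n1 σ * ν + n2 σ * ν^2 + n3 σ * ν^3 + n4 σ * ν^4 - 1/2 := by
    rw [e]
    refine add_nonneg (add_nonneg (add_nonneg (add_nonneg ?_ ?_) ?_) ?_) ?_
    · exact mul_nonneg (by positivity) c0
    · exact mul_nonneg (by positivity) c1
    · exact mul_nonneg (by positivity) c2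
    · exact mul_nonneg (by positivity) c3
    · exact mul_nonneg (by positivity) c4
  linarith

lemma generic (σ ν D a b g : ℝ) (hD : D ≠ 0) :
    (σ * (1 + 2 * (a / D^2) * ν + ((a / D^2) * (b / D) - g / D^2) * ν ^ 2) *
        (1 + (b / D) * ν + (g / D^2) * ν ^ 2)
      - (1 + ν) * (((b / D) - (a / D^2)) + 3 * (g / D^2) * ν + 3 * (a / D^2) * (g / D^2) * ν ^ 2
        + ((a / D^2) * (b / D) - g / D^2) * (g / D^2) * ν ^ 3)) * D^5 =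
    (σ * D^5 - (b * D^4 - a * D^3)) +
    (σ * (2 * a * D^3 + b * D^4) - (b * D^4 - a * D^3) - 3 * g * D^3) * ν +
    (σ * (3 * a * b * D^2) - 3 * g * D^3 - 3 * a * g * D) * ν^2 +
    (σ * (2 * a * g * D + (a * b - g * D) * b * D) - 3 * a * g * D - (a * b - g * D) * g) * ν^3 +
    ((σ - 1) * (a * b - g * D) * g) * ν^4 := by
  field_simp
  ring

lemma PP_eq (σ ν : ℝ) (hD : 1 + 2 * mm σ ≠ 0) : PP σ ν * (1 + 2 * mm σ)^5 =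
    σ * (n0 σ + n1 σ * ν + n2 σ * ν^2 + n3 σ * ν^3 + n4 σ * ν^4) := by
  have hG : cG σ = (mm σ * (2 + mm σ) * σ ^ 2 * (1 + σ) ^ 2 / 4) / (1 + 2 * mm σ) ^ 2 := by
    unfold cG
    rw [div_div]
  unfold PP
  rw [hG]
  unfold cA cB
  rw [generic σ ν (1 + 2 * mm σ) _ _ _ hD]
  have e0 : σ * (1 + 2 * mm σ)^5 - (σ * (2 - σ ^ 3) * (1 + 2 * mm σ)^4 -
      mm σ * (2 + mm σ) * (1 - mm σ) * (1 + 2 * mm σ)^3) = σ * n0 σ := by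
    simp only [mm, n0]; ring
  have e1 : σ * (2 * (mm σ * (2 + mm σ) * (1 - mm σ)) * (1 + 2 * mm σ)^3 +
      σ * (2 - σ ^ 3) * (1 + 2 * mm σ)^4) - (σ * (2 - σ ^ 3) * (1 + 2 * mm σ)^4 -
      mm σ * (2 + mm σ) * (1 - mm σ) * (1 + 2 * mm σ)^3) -
      3 * (mm σ * (2 + mm σ) * σ ^ 2 * (1 + σ) ^ 2 / 4) * (1 + 2 * mm σ)^3 = σ * n1 σ := by
    simp only [mm, n1]; ring
  have e2 : σ * (3 * (mm σ * (2 + mm σ) * (1 - mm σ)) * (σ * (2 - σ ^ 3)) * (1 + 2 * mm σ)^2) -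
      3 * (mm σ * (2 + mm σ) * σ ^ 2 * (1 + σ) ^ 2 / 4) * (1 + 2 * mm σ)^3 -
      3 * (mm σ * (2 + mm σ) * (1 - mm σ)) * (mm σ * (2 + mm σ) * σ ^ 2 * (1 + σ) ^ 2 / 4) *
        (1 + 2 * mm σ) = σ * n2 σ := by
    simp only [mm, n2]; ring
  have e3 : σ * (2 * (mm σ * (2 + mm σ) * (1 - mm σ)) *
        (mm σ * (2 + mm σ) * σ ^ 2 * (1 + σ) ^ 2 / 4) * (1 + 2 * mm σ) +
      ((mm σ * (2 + mm σ) * (1 - mm σ)) * (σ * (2 - σ ^ 3)) -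
        (mm σ * (2 + mm σ) * σ ^ 2 * (1 + σ) ^ 2 / 4) * (1 + 2 * mm σ)) * (σ * (2 - σ ^ 3)) *
        (1 + 2 * mm σ)) -
      3 * (mm σ * (2 + mm σ) * (1 - mm σ)) * (mm σ * (2 + mm σ) * σ ^ 2 * (1 + σ) ^ 2 / 4) *
        (1 + 2 * mm σ) -
      ((mm σ * (2 + mm σ) * (1 - mm σ)) * (σ * (2 - σ ^ 3)) -
        (mm σ * (2 + mm σ) * σ ^ 2 * (1 + σ) ^ 2 / 4) * (1 + 2 * mm σ)) *
        (mm σ * (2 + mm σ) * σ ^ 2 * (1 + σ) ^ 2 / 4) = σ * n3 σ := by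
    simp only [mm, n3]; ring
  have e4 : (σ - 1) * ((mm σ * (2 + mm σ) * (1 - mm σ)) * (σ * (2 - σ ^ 3)) -
        (mm σ * (2 + mm σ) * σ ^ 2 * (1 + σ) ^ 2 / 4) * (1 + 2 * mm σ)) *
        (mm σ * (2 + mm σ) * σ ^ 2 * (1 + σ) ^ 2 / 4) = σ * n4 σ := by
    simp only [mm, n4]; ring
  rw [e0, e1, e2, e3, e4]
  ring

theorem main : S_D2w := by
  intro σ ν h0 h1 hν hν'
  have hm : 0 ≤ mm σ := by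
    unfold mm
    exact mul_nonneg h0.le (by linarith)
  have hD : 0 < 1 + 2 * mm σ := by linarith
  have hN : 1/2 ≤ n0 σ + n1 σ * ν + n2 σ * ν^2 + n3 σ * ν^3 + n4 σ * ν^4 := by
    rcases le_total ν 1 with h | h
    · exact NL σ ν h0.le (by linarith) (by linarith) (by linarith)
    · exact NR σ ν h0.le (by linarith) (by linarith) (by linarith)
  have e := PP_eq σ ν hD.ne'
  have hpos : 0 < PP σ ν * (1 + 2 * mm σ)^5 := by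
    rw [e]
    exact mul_pos h0 (by linarith)
  exact pos_of_mul_pos_left hpos (by positivity)

end Pool.Agent.Y282.RB.D2w
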