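import Pool.Agent.Y282.RB.Stm2

/-!
Project RB, job D3 (helper143): upper bound for `x²` in terms of `Λ` when `z² ≤ x²`.
-/

set_option autoImplicit false

namespace Pool.Agent.Y282.RB.D3

open Pool.Agent.Y282.RB

theorem cs {a b p q y0 y1 : ℝ} (ha : 0 < a) (hb : 0 < b) :
    (p * y0 - q * y1) ^ 2 ≤ (p ^ 2 / a + q ^ 2 / b) * (a * y0 ^ 2 + b * y1 ^ 2) := by
  have h : (p ^ 2 / a + q ^ 2 / b) * (a * y0 ^ 2 + b * y1 ^ 2) - (p * y0 - q * y1) ^ 2 =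
      (q * a * y0 + p * b * y1) ^ 2 / (a * b) := by
    field_simp
    ring
  have h2 : 0 ≤ (q * a * y0 + p * b * y1) ^ 2 / (a * b) := by positivity
  linarith

theorem main : S_D3 := by
  intro σ x y z h0 h1 hz
  have e1 : 0 < 1 - σ := by linarith
  have e2 : 0 < 2 - σ := by linarith
  have e3 : 0 < 1 - 2 * σ := by linarith
  have e4 : 0 < 1 + σ := by linarith
  have hm : 0 < mm σ := by unfold mm; positivity
  have ha : 0 < pa σ := by unfold pa; positivity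
  have hb : 0 < pb σ := by unfold pb; positivity
  -- the linear identity
  have hL : (1 - σ) * (2 - σ) * x - σ * (1 + σ) * z =
      (2 - σ) * ((1 - σ) * x + σ * y) - (3 * σ) * (((2 - σ) * y + (1 + σ) * z) / 3) := by
    ring
  have hxz : |z| ≤ |x| := sq_le_sq.1 hz
  have h2 : 2 * (1 - 2 * σ) * |x| ≤ |(1 - σ) * (2 - σ) * x - σ * (1 + σ) * z| := by
    have h3 := abs_sub_abs_le_abs_sub ((1 - σ) * (2 - σ) * x) (σ * (1 + σ) * z)
    rw [abs_mul ((1 - σ) * (2 - σ)) x, abs_mul (σ * (1 + σ)) z,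
      abs_of_pos (by positivity : 0 < (1 - σ) * (2 - σ)),
      abs_of_pos (by positivity : 0 < σ * (1 + σ))] at h3
    have h4 : σ * (1 + σ) * |z| ≤ σ * (1 + σ) * |x| :=
      mul_le_mul_of_nonneg_left hxz (by positivity)
    nlinarith
  have h5 : (2 * (1 - 2 * σ) * |x|) ^ 2 ≤ ((1 - σ) * (2 - σ) * x - σ * (1 + σ) * z) ^ 2 := by
    rw [← sq_abs ((1 - σ) * (2 - σ) * x - σ * (1 + σ) * z)]
    exact pow_le_pow_left₀ (by positivity) h2 2
  rw [mul_pow, sq_abs, hL] at h5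
  have h6 := h5.trans (cs (p := 2 - σ) (q := 3 * σ) (y0 := (1 - σ) * x + σ * y)
    (y1 := ((2 - σ) * y + (1 + σ) * z) / 3) ha hb)
  have h7 : (2 - σ) ^ 2 / pa σ + (3 * σ) ^ 2 / pb σ = (2 * (1 - 2 * σ)) ^ 2 * bm σ := by
    have hne : (2 + 4 * mm σ) ≠ 0 := by positivity
    have e5 : (1 - σ ^ 2) ≠ 0 := by nlinarith
    have e6 : 2 + mm σ = (1 + σ) * (2 - σ) := by unfold mm; ring
    have e7 : 1 - σ ^ 2 = (1 - σ) * (1 + σ) := by ring
    have e8 : 2 + 4 * mm σ = 2 * (1 + 2 * σ - 2 * σ ^ 2) := by unfold mm; ring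
    have e9 : (1 + 2 * σ - 2 * σ ^ 2) ≠ 0 := by nlinarith
    unfold pa pb bm
    rw [e6, e7, e8]
    unfold mm
    field_simp
    ring
  rw [h7] at h6
  have h8 : 0 < (2 * (1 - 2 * σ)) ^ 2 := by positivity
  have h9 : (2 * (1 - 2 * σ)) ^ 2 * x ^ 2 ≤ (2 * (1 - 2 * σ)) ^ 2 * (bm σ * L2 σ x y z) := by
    calc (2 * (1 - 2 * σ)) ^ 2 * x ^ 2 ≤ (2 * (1 - 2 * σ)) ^ 2 * bm σ *
        (pa σ * ((1 - σ) * x + σ * y) ^ 2 + pb σ * (((2 - σ) * y + (1 + σ) * z) / 3) ^ 2) := h6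
      _ = (2 * (1 - 2 * σ)) ^ 2 * (bm σ * L2 σ x y z) := by unfold L2; ring
  exact le_of_mul_le_mul_left h9 h8

end Pool.Agent.Y282.RB.D3
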