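import Pool.Agent.Y282.RB.D6

set_option autoImplicit false

namespace Pool.Agent.Y282.RB.D4

open Pool.Agent.Y282.RB Pool.Agent.Y282.RB.D6

noncomputable def Q (σ : ℝ) : ℝ :=
  (131 : ℝ) * σ ^ 0 + (4343 / 2 : ℝ) * σ ^ 1 + (-40105 / 6 : ℝ) * σ ^ 2 + (-46604 / 3 : ℝ) * σ ^ 3 + (-15606 : ℝ) * σ ^ 4 + (758765 / 6 : ℝ) * σ ^ 5 + (-401065 / 6 : ℝ) * σ ^ 6 + (-94375 : ℝ) * σ ^ 7 + (100475 : ℝ) * σ ^ 8 + (-69375 / 2 : ℝ) * σ ^ 9 + (9375 / 2 : ℝ) * σ ^ 10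

theorem Q_nonneg (σ : ℝ) (h0 : 0 < σ) (h1 : σ ≤ 1 / 4) : 0 ≤ Q σ := by
  obtain ⟨w, hw⟩ : ∃ w : ℝ, w = 1 / 4 - σ := ⟨_, rfl⟩
  have hw0 : 0 ≤ w := by rw [hw]; linarith
  have hs0 : 0 ≤ σ := h0.le
  have key : Q σ = (137363456 : ℝ) * (σ ^ 0 * w ^ 10) + (1942880256 : ℝ) * (σ ^ 1 * w ^ 9) + (32599539712 / 3 : ℝ) * (σ ^ 2 * w ^ 8) + (33217511424 : ℝ) * (σ ^ 3 * w ^ 7) + (187655708672 / 3 : ℝ) * (σ ^ 4 * w ^ 6) + (76210593280 : ℝ) * (σ ^ 5 * w ^ 5) + (60670870656 : ℝ) * (σ ^ 6 * w ^ 4) + (30803082304 : ℝ) * (σ ^ 7 * w ^ 3) + (27842168912 / 3 : ℝ) * (σ ^ 8 * w ^ 2) + (1391232034 : ℝ) * (σ ^ 9 * w ^ 1) + (347584649 / 6 : ℝ) * (σ ^ 10 * w ^ 0) := by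
    unfold Q
    rw [hw]
    ring
  rw [key]
  positivity

theorem log13 : (5 / 2 : ℝ) ≤ Real.log 13 := by
  have h5 : Real.exp 5 ≤ 13 ^ 2 := by
    have h := Real.exp_one_lt_d9
    have e : Real.exp 5 = Real.exp 1 ^ 5 := by
      rw [← Real.exp_nat_mul]; norm_num
    rw [e]
    have h0 : (0 : ℝ) ≤ Real.exp 1 := (Real.exp_pos 1).le
    calc Real.exp 1 ^ 5 ≤ (2.7182818286 : ℝ) ^ 5 := pow_le_pow_left₀ h0 h.le 5
      _ ≤ 13 ^ 2 := by norm_num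
  have h : (5 : ℝ) ≤ Real.log (13 ^ 2) := by
    rw [Real.le_log_iff_exp_le (by norm_num)]
    exact h5
  rw [Real.log_pow] at h
  push_cast at h
  linarith

theorem exp_lower (t : ℝ) (ht : 0 ≤ t) : 1 + t + t ^ 2 / 2 + t ^ 3 / 6 ≤ Real.exp t := by
  have h := Real.sum_le_exp_of_nonneg ht 4
  simp [Finset.sum_range_succ, Nat.factorial] at h
  linarith

theorem main : S_D4 := by
  intro σ h0 h1
  have hN := ND_pos σ h0 h1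
  have hm := mm_pos σ h0 h1
  have hm1 : 0 < 1 - mm σ := by
    unfold mm
    nlinarith
  have hA : 0 < NA σ := by
    unfold NA
    positivity
  have h2 : (0 : ℝ) < 1 - 2 * σ := by linarith
  have hpow : 1 + 5 * σ + (5 * σ) ^ 2 / 2 + (5 * σ) ^ 3 / 6 ≤ (13 : ℝ) ^ (2 * σ) := by
    rw [Real.rpow_def_of_pos (by norm_num)]
    refine (exp_lower (5 * σ) (by positivity)).trans (Real.exp_le_exp.2 ?_)
    have := log13
    nlinarith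
  have hQ := Q_nonneg σ h0 h1
  have hB : 0 ≤ 1 + (1 - 2 * σ) * HH σ 30 := by
    rw [HH_eq σ h0 h1]
    positivity
  refine le_trans ?_ (mul_le_mul_of_nonneg_right hpow hB)
  have key : (1 + 5 * σ + (5 * σ) ^ 2 / 2 + (5 * σ) ^ 3 / 6) * (1 + (1 - 2 * σ) * HH σ 30)
      - (31 - 36 * σ) = σ * Q σ / ND σ := by
    rw [HH_eq σ h0 h1, eq_div_iff hN.ne']
    have e1 : ((1 + 5 * σ + (5 * σ) ^ 2 / 2 + (5 * σ) ^ 3 / 6)
        * (1 + (1 - 2 * σ) * (30 * NA σ / ND σ)) - (31 - 36 * σ)) * ND σ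
        = (1 + 5 * σ + (5 * σ) ^ 2 / 2 + (5 * σ) ^ 3 / 6) * (ND σ + (1 - 2 * σ) * (30 * NA σ))
          - (31 - 36 * σ) * ND σ := by
      field_simp
    rw [e1]
    unfold NA ND Q mm
    ring
  have : 0 ≤ σ * Q σ / ND σ := by positivity
  linarith

end Pool.Agent.Y282.RB.D4
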