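import Mathlib
import Pool.Agent.Y282.RB.Stm2

/-! # Project RB: the bound for `(bm σ) ^ (1 / (2 σ))` (helper182) -/

set_option autoImplicit false

namespace Pool.Agent.Y282.RB.D5

theorem poly (t : ℝ) (h0 : 0 ≤ t) (h1 : t ≤ 1) :
    (1 + t / 2 - t ^ 2 / 8) * (1 - 5 * t / 26) ^ 8 ≤ (1 - t / 2) ^ 2 := by
  have h2 : 0 ≤ 1 - t := by linarith
  have key : (1 - t / 2) ^ 2 - (1 + t / 2 - t ^ 2 / 8) * (1 - 5 * t / 26) ^ 8 =
      t * (1 / 26 * t ^ 0 * (1 - t) ^ 9 +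
      615 / 1352 * t ^ 1 * (1 - t) ^ 8 +
      4268 / 2197 * t ^ 2 * (1 - t) ^ 7 +
      247079 / 57122 * t ^ 3 * (1 - t) ^ 6 +
      33870431 / 5940688 * t ^ 4 * (1 - t) ^ 5 +
      1433465971 / 308915776 * t ^ 5 * (1 - t) ^ 4 +
      2312729375 / 1003976272 * t ^ 6 * (1 - t) ^ 3 +
      134695067389 / 208827064576 * t ^ 7 * (1 - t) ^ 2 +
      33625445199 / 417654129152 * t ^ 8 * (1 - t) ^ 1 +
      1602676181 / 1670616516608 * t ^ 9 * (1 - t) ^ 0) := by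
    ring
  have hpos : 0 ≤ t * (1 / 26 * t ^ 0 * (1 - t) ^ 9 +
      615 / 1352 * t ^ 1 * (1 - t) ^ 8 +
      4268 / 2197 * t ^ 2 * (1 - t) ^ 7 +
      247079 / 57122 * t ^ 3 * (1 - t) ^ 6 +
      33870431 / 5940688 * t ^ 4 * (1 - t) ^ 5 +
      1433465971 / 308915776 * t ^ 5 * (1 - t) ^ 4 +
      2312729375 / 1003976272 * t ^ 6 * (1 - t) ^ 3 +
      134695067389 / 208827064576 * t ^ 7 * (1 - t) ^ 2 +
      33625445199 / 417654129152 * t ^ 8 * (1 - t) ^ 1 +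
      1602676181 / 1670616516608 * t ^ 9 * (1 - t) ^ 0) := by
    positivity
  linarith

theorem bern (a t : ℝ) (ha : 0 ≤ a) (h0 : 0 ≤ t) (h1 : t ≤ 1) : a ^ t ≤ 1 + t * (a - 1) := by
  have := rpow_one_add_le_one_add_mul_self (s := a - 1) (by linarith) h0 h1
  rwa [add_sub_cancel] at this

theorem bm_le (t : ℝ) (h0 : 0 ≤ t) (h1 : t ≤ 1) :
    (1 + t / 2 - t ^ 2 / 8) * (1 + t ^ 2 / 8) / ((1 - t / 2) ^ 2 * (1 - t ^ 2 / 16)) ≤
      ((6 / 5) * (26 / 21) ^ 8 : ℝ) ^ t := by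
  have hA := bern (8 / 9) t (by norm_num) h0 h1
  have hB := bern (15 / 16) t (by norm_num) h0 h1
  have hC := bern (21 / 26) t (by norm_num) h0 h1
  have hA0 : (0 : ℝ) < (8 / 9) ^ t := Real.rpow_pos_of_pos (by norm_num) _
  have hB0 : (0 : ℝ) < (15 / 16) ^ t := Real.rpow_pos_of_pos (by norm_num) _
  have hC0 : (0 : ℝ) < (21 / 26) ^ t := Real.rpow_pos_of_pos (by norm_num) _
  set A : ℝ := (8 / 9) ^ t with hAd
  set B : ℝ := (15 / 16) ^ t with hBd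
  set C : ℝ := (21 / 26) ^ t with hCd
  have hR : ((6 / 5) * (26 / 21) ^ 8 : ℝ) ^ t = (A * B * C ^ 8)⁻¹ := by
    have e1 : ((6 / 5) * (26 / 21) ^ 8 : ℝ) = ((8 / 9) * (15 / 16) * (21 / 26) ^ 8)⁻¹ := by
      norm_num
    rw [e1, Real.inv_rpow (by positivity), Real.mul_rpow (by positivity) (by positivity),
      Real.mul_rpow (by positivity) (by positivity), ← Real.rpow_natCast, ← Real.rpow_mul
      (by norm_num), mul_comm ((8 : ℕ) : ℝ) t, Real.rpow_mul (by norm_num), Real.rpow_natCast]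
  rw [hR, ← one_div, div_le_div_iff₀ (by
    have e1 : 0 < 1 - t / 2 := by linarith
    have e2 : 0 < 1 - t ^ 2 / 16 := by nlinarith
    positivity) (by positivity), one_mul]
  have hp := poly t h0 h1
  have hA' : (1 + t ^ 2 / 8) * A ≤ 1 := by
    have e1 : A ≤ 1 - t / 9 := by linarith
    have e2 : (1 + t ^ 2 / 8) * A ≤ (1 + t ^ 2 / 8) * (1 - t / 9) :=
      mul_le_mul_of_nonneg_left e1 (by positivity)
    refine e2.trans ?_
    have e3 : 0 ≤ t * ((1 - t) * (8 - t)) :=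
      mul_nonneg h0 (mul_nonneg (by linarith) (by linarith))
    nlinarith
  have hB' : B ≤ 1 - t ^ 2 / 16 := by
    have e1 : t ^ 2 ≤ t := by nlinarith
    linarith
  have hC' : (1 + t / 2 - t ^ 2 / 8) * C ^ 8 ≤ (1 - t / 2) ^ 2 := by
    refine le_trans ?_ hp
    have e1 : C ^ 8 ≤ (1 - 5 * t / 26) ^ 8 := pow_le_pow_left₀ hC0.le (by linarith) 8
    refine mul_le_mul_of_nonneg_left e1 ?_
    nlinarith
  calc (1 + t / 2 - t ^ 2 / 8) * (1 + t ^ 2 / 8) * (A * B * C ^ 8)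
      = ((1 + t ^ 2 / 8) * A) * B * ((1 + t / 2 - t ^ 2 / 8) * C ^ 8) := by ring
    _ ≤ 1 * (1 - t ^ 2 / 16) * (1 - t / 2) ^ 2 := by
        have hn : 0 ≤ (1 + t / 2 - t ^ 2 / 8) * C ^ 8 := by
          refine mul_nonneg ?_ (by positivity)
          nlinarith
        refine mul_le_mul (mul_le_mul hA' hB' hB0.le zero_le_one) hC' hn ?_
        nlinarith
    _ = (1 - t / 2) ^ 2 * (1 - t ^ 2 / 16) := by ring

theorem main : S_D5 := by
  intro σ h0 h1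
  have hb := bm_le (4 * σ) (by linarith) (by linarith)
  have e1 : bm σ = (1 + (4 * σ) / 2 - (4 * σ) ^ 2 / 8) * (1 + (4 * σ) ^ 2 / 8) /
      ((1 - (4 * σ) / 2) ^ 2 * (1 - (4 * σ) ^ 2 / 16)) := by
    unfold bm
    congr 1 <;> ring
  rw [← e1] at hb
  have hbm : 0 ≤ bm σ := by
    unfold bm
    refine div_nonneg (mul_nonneg ?_ (by positivity)) (mul_nonneg (by positivity) ?_)
    · nlinarith
    · nlinarith
  calc bm σ ^ (1 / (2 * σ)) ≤ (((6 / 5) * (26 / 21) ^ 8 : ℝ) ^ (4 * σ)) ^ (1 / (2 * σ)) :=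
        Real.rpow_le_rpow hbm hb (by positivity)
    _ = ((6 / 5) * (26 / 21) ^ 8 : ℝ) ^ (2 : ℝ) := by
        rw [← Real.rpow_mul (by positivity)]
        congr 1
        field_simp
        norm_num
    _ ≤ 44 := by
        rw [Real.rpow_two]
        norm_num

end Pool.Agent.Y282.RB.D5
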