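import Pool.Agent.Y282.RB.Stm2

set_option autoImplicit false

namespace Pool.Agent.Y282.RB.D6

open Pool.Agent.Y282.RB

noncomputable def NA (σ : ℝ) : ℝ :=
  (1 + 2 * mm σ) ^ 2 + 30 * (mm σ * (2 + mm σ) * (1 - mm σ))

noncomputable def ND (σ : ℝ) : ℝ :=
  (1 + 2 * mm σ) ^ 2 + 30 * (σ * (2 - σ ^ 3)) * (1 + 2 * mm σ)
    + 225 * (mm σ * (2 + mm σ) * σ ^ 2 * (1 + σ) ^ 2)

noncomputable def BN (σ : ℝ) : ℝ := (1 + 2 * σ - 2 * σ ^ 2) * (1 + 2 * σ ^ 2)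

noncomputable def BD (σ : ℝ) : ℝ := (1 - 2 * σ) ^ 2 * (1 - σ ^ 2)

noncomputable def Q (σ : ℝ) : ℝ :=
  (50 : ℝ) * σ ^ 0 + (-9 / 2 : ℝ) * σ ^ 1 + (-2027 : ℝ) * σ ^ 2 + (10717 : ℝ) * σ ^ 3 + (11085 : ℝ) * σ ^ 4 + (-30221 / 2 : ℝ) * σ ^ 5 + (-105760 : ℝ) * σ ^ 6 + (48351 : ℝ) * σ ^ 7 + (149758 : ℝ) * σ ^ 8 + (-96405 / 2 : ℝ) * σ ^ 9 + (-62355 : ℝ) * σ ^ 10 + (1800 : ℝ) * σ ^ 11 + (11700 : ℝ) * σ ^ 12

theorem mm_pos (σ : ℝ) (h0 : 0 < σ) (h1 : σ ≤ 1 / 4) : 0 < mm σ := by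
  unfold mm
  exact mul_pos h0 (by linarith)

theorem ND_pos (σ : ℝ) (h0 : 0 < σ) (h1 : σ ≤ 1 / 4) : 0 < ND σ := by
  have hm := mm_pos σ h0 h1
  have h3 : σ ^ 3 ≤ 1 := pow_le_one₀ h0.le (by linarith)
  have h2 : 0 < 2 - σ ^ 3 := by linarith
  unfold ND
  positivity

theorem HH_eq (σ : ℝ) (h0 : 0 < σ) (h1 : σ ≤ 1 / 4) : HH σ 30 = 30 * NA σ / ND σ := by
  have hm := mm_pos σ h0 h1
  have hN := ND_pos σ h0 h1
  have h1m : (0 : ℝ) < 1 + 2 * mm σ := by linarith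
  have hden : 1 + cB σ * 30 + cG σ * 30 ^ 2 = ND σ / (1 + 2 * mm σ) ^ 2 := by
    unfold cB cG ND
    field_simp
    ring
  have hnum : 1 + cA σ * 30 = NA σ / (1 + 2 * mm σ) ^ 2 := by
    unfold cA NA
    field_simp
  unfold HH
  rw [hden, hnum]
  field_simp

theorem Q_nonneg (σ : ℝ) (h0 : 0 < σ) (h1 : σ ≤ 1 / 4) : 0 ≤ Q σ := by
  obtain ⟨w, hw⟩ : ∃ w : ℝ, w = 1 / 4 - σ := ⟨_, rfl⟩
  have hw0 : 0 ≤ w := by rw [hw]; linarith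
  have hs0 : 0 ≤ σ := h0.le
  have key : Q σ = (838860800 : ℝ) * (σ ^ 0 * w ^ 12) + (10047455232 : ℝ) * (σ ^ 1 * w ^ 11) + (53031731200 : ℝ) * (σ ^ 2 * w ^ 10) + (165066047488 : ℝ) * (σ ^ 3 * w ^ 9) + (342487007232 : ℝ) * (σ ^ 4 * w ^ 8) + (509796048896 : ℝ) * (σ ^ 5 * w ^ 7) + (574204321792 : ℝ) * (σ ^ 6 * w ^ 6) + (506958535680 : ℝ) * (σ ^ 7 * w ^ 5) + (352619956736 : ℝ) * (σ ^ 8 * w ^ 4) + (186367532384 : ℝ) * (σ ^ 9 * w ^ 3) + (69178243824 : ℝ) * (σ ^ 10 * w ^ 2) + (15757899232 : ℝ) * (σ ^ 11 * w ^ 1) + (1633409028 : ℝ) * (σ ^ 12 * w ^ 0) := by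
    unfold Q
    rw [hw]
    ring
  rw [key]
  positivity

theorem main : S_D6 := by
  intro σ h0 h1
  have hN := ND_pos σ h0 h1
  have hB : 0 < BD σ := by
    unfold BD
    have h2 : (0 : ℝ) < 1 - 2 * σ := by linarith
    have h3 : (0 : ℝ) < 1 - σ ^ 2 := by nlinarith
    positivity
  have hb : bm σ = BN σ / BD σ := rfl
  have hQ := Q_nonneg σ h0 h1
  have key : 1 + (1 / (2 * σ)) * (bm σ - 1) + (1 / (2 * σ) - 1) * (bm σ * HH σ 30 - 30) - 44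
      = Q σ / (BD σ * ND σ) := by
    rw [hb, HH_eq σ h0 h1, eq_div_iff (by positivity)]
    have e1 : (1 + (1 / (2 * σ)) * (BN σ / BD σ - 1)
        + (1 / (2 * σ) - 1) * (BN σ / BD σ * (30 * NA σ / ND σ) - 30) - 44) * (BD σ * ND σ)
        = (- 43 * (BD σ * ND σ) * (2 * σ) + (BN σ - BD σ) * ND σ
          + (1 - 2 * σ) * (30 * (BN σ * NA σ - BD σ * ND σ))) / (2 * σ) := by
      field_simp
      ring
    rw [e1, div_eq_iff (by positivity)]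
    unfold BN BD NA ND Q mm
    ring
  have : 0 ≤ Q σ / (BD σ * ND σ) := by positivity
  linarith

end Pool.Agent.Y282.RB.D6
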