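import Pool.Agent.Y282.RB.Stm2

/-!
Project RB, job D7 (helper143): the pointwise inequality for `n = 2`, `p ≥ 4`.
-/

set_option autoImplicit false

open Set

namespace Pool.Agent.Y282.RB.D7

open Pool.Agent.Y282.RB

theorem lam_two {σ : ℝ} (h0 : 0 < σ) (h1 : σ < 1) (γ : ℕ → ℝ) :
    Lam σ 2 γ = L2 σ (γ 0) (γ 1) (γ 2) := by
  have e1 : 0 < 1 - σ := by linarith
  have e2 : 0 < 2 - σ := by linarith
  have e4 : 0 < 1 + σ := by linarith
  have hm : 0 < mm σ := by unfold mm; positivity
  have k0 : kk σ 0 = 1 / mm σ := by unfold kk mm; norm_num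
  have k1 : kk σ 1 = 3 / (2 + mm σ) := by
    have h : 2 + mm σ = (1 + σ) * (2 - σ) := by unfold mm; ring
    rw [h]
    unfold kk
    norm_num
  have y0 : yy σ γ 0 = (1 - σ) * γ 0 + σ * γ 1 := by
    unfold yy th
    norm_num
  have y1 : yy σ γ 1 = ((2 - σ) * γ 1 + (1 + σ) * γ 2) / 3 := by
    unfold yy th
    norm_num
    ring
  unfold Lam KK L2
  rw [Finset.sum_range_succ, Finset.sum_range_one, Finset.sum_range_succ, Finset.sum_range_one,
    k0, k1, y0, y1]
  generalize (1 - σ) * γ 0 + σ * γ 1 = u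
  generalize ((2 - σ) * γ 1 + (1 + σ) * γ 2) / 3 = v
  unfold pa pb
  field_simp
  ring

theorem tt_two (γ : ℕ → ℝ) : TT 2 γ = T2 (γ 0) (γ 1) (γ 2) := by
  unfold TT T2
  rw [Finset.sum_range_succ, Finset.sum_range_one]
  norm_num

theorem main : S_D7 := by
  intro hC0 hD1 hD2a hD2b hD3 hD4 hD5 hD6 p hp
  refine hC0 2 p (by norm_num) (by linarith) ?_
  intro γ hΛ hγ0 hor
  have hp0 : 0 < p := by linarith
  set σ : ℝ := 1 / p with hσ
  have h0 : 0 < σ := by positivity
  have h4 : σ ≤ 1 / 4 := by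
    rw [hσ]
    exact one_div_le_one_div_of_le (by norm_num) hp
  have hr : p / 2 = 1 / (2 * σ) := by rw [hσ]; field_simp
  rw [lam_two h0 (by linarith)] at hΛ
  rw [tt_two]
  rw [hr]
  set r : ℝ := 1 / (2 * σ) with hrdef
  have hr2 : 2 ≤ r := by rw [← hr]; linarith
  have hrσ : 2 * σ * r = 1 := by rw [hrdef]; field_simp
  set x := γ 0 with hx
  set y := γ 1 with hy
  set z := γ 2 with hz
  set b : ℝ := x ^ 2 with hb
  have hb0 : 0 ≤ b := by positivity
  have e1 : 0 < 1 - 2 * σ := by linarith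
  have hr1 : r * (1 - 2 * σ) = r - 1 := by linarith
  -- the consequence of `S_D1`
  have hT : ∀ ν : ℝ, -1 ≤ ν → b * HH σ ν - ν ≤ T2 x y z := by
    intro ν hν
    have := hD1 σ ν x y z h0 (by linarith) hν
    rw [hΛ] at this
    linarith
  rcases le_or_gt (b ^ r) 13 with h13 | h13
  · have hs0 : 0 ≤ b ^ r := Real.rpow_nonneg hb0 r
    have h2 := hD2b σ 12 h0 (by linarith) (by norm_num)
      (fun ν h h' => hD2a σ ν h0 h4 h h') (b ^ r) hs0 (by linarith)
    rw [← Real.rpow_mul hb0, hr1, div_le_iff₀ e1] at h2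
    have h3 := hT (b ^ r - 1) (by linarith)
    have h5 : b * b ^ (r - 1) = b ^ r := by
      rcases eq_or_lt_of_le hb0 with h | h
      · rw [← h, zero_mul, Real.zero_rpow (by linarith)]
      · rw [mul_comm, ← Real.rpow_add_one h.ne']
        congr 1
        ring
    have h6 : r * (b ^ r - b) ≤ (r - 1) * (b * HH σ (b ^ r - 1)) := by
      calc r * (b ^ r - b) = r * b * (b ^ (r - 1) - 1) := by rw [← h5]; ring
        _ ≤ r * b * (HH σ (b ^ r - 1) * (1 - 2 * σ)) :=
            mul_le_mul_of_nonneg_left h2 (by positivity)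
        _ = (r * (1 - 2 * σ)) * (b * HH σ (b ^ r - 1)) := by ring
        _ = _ := by rw [hr1]
    have h7 : (r - 1) * (b * HH σ (b ^ r - 1) - (b ^ r - 1)) ≤ (r - 1) * T2 x y z :=
      mul_le_mul_of_nonneg_left h3 (by linarith)
    unfold ph
    linarith
  · have hb1 : 1 < b := by
      by_contra h
      push Not at h
      have := Real.rpow_le_one hb0 h (show 0 ≤ r by linarith)
      linarith
    have hzx : z ^ 2 ≤ x ^ 2 := by
      rcases hor with h | h
      · exfalso
        have : x ^ 2 ≤ 1 := by nlinarith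
        linarith
      · exact h
    have hbm : b ≤ bm σ := by
      have := hD3 σ x y z h0 (by linarith) hzx
      rwa [hΛ, mul_one] at this
    have h3 := hT 30 (by norm_num)
    have h7 : (r - 1) * (b * HH σ 30 - 30) ≤ (r - 1) * T2 x y z :=
      mul_le_mul_of_nonneg_left h3 (by linarith)
    refine le_trans ?_ h7
    -- the lower end of the interval
    set bl : ℝ := (13 : ℝ) ^ (2 * σ) with hbl
    have hbl0 : 0 < bl := Real.rpow_pos_of_pos (by norm_num) _
    have hblr : bl ^ r = 13 := by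
      rw [hbl, ← Real.rpow_mul (by norm_num), hrσ, Real.rpow_one]
    have hblb : bl ≤ b := by
      by_contra h
      push Not at h
      have := Real.rpow_lt_rpow hb0 h (show 0 < r by linarith)
      linarith
    -- convexity
    have hconv : ConvexOn ℝ (Ici (0 : ℝ)) (fun t : ℝ => ph r t - (r - 1) * (t * HH σ 30 - 30)) := by
      have h8 : ConvexOn ℝ (Ici (0 : ℝ)) (fun t : ℝ => t ^ r) := convexOn_rpow (by linarith)
      refine ⟨convex_Ici 0, ?_⟩
      intro s hs t ht a c ha hc hac
      have h9 := h8.2 hs ht ha hc hac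
      simp only [smul_eq_mul] at h9 ⊢
      unfold ph
      have hc' : c = 1 - a := by linarith
      subst hc'
      nlinarith [h9]
    have hmax := hconv.le_max_of_mem_Icc (x := bl) (y := bm σ) (z := b) hbl0.le
      (show (0 : ℝ) ≤ bm σ by linarith) ⟨hblb, hbm⟩
    have hl : ph r bl - (r - 1) * (bl * HH σ 30 - 30) ≤ 0 := by
      unfold ph
      rw [hblr]
      have h10 := mul_le_mul_of_nonneg_left (hD4 σ h0 h4) (show (0 : ℝ) ≤ r by linarith)
      have h11 : r * (31 - 36 * σ) = 31 * r - 18 := by linear_combination (-18) * hrσ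
      have h12 : r * ((13 : ℝ) ^ (2 * σ) * (1 + (1 - 2 * σ) * HH σ 30)) =
          bl * r + bl * ((r * (1 - 2 * σ)) * HH σ 30) := by rw [← hbl]; ring
      rw [h11, h12, hr1] at h10
      linarith
    have hu : ph r (bm σ) - (r - 1) * (bm σ * HH σ 30 - 30) ≤ 0 := by
      unfold ph
      have h13 := hD5 σ h0 h4
      have h14 := hD6 σ h0 h4
      rw [← hrdef] at h13 h14
      linarith
    have := hmax.trans (max_le hl hu)
    linarith

end Pool.Agent.Y282.RB.D7
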