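import Pool.Agent.Y282.RB.Stm2

/-!
# Project RB: Taylor bounds for `b ^ r - 1 - r (b - 1)`
-/

set_option autoImplicit false

open Set

namespace Pool.Agent.Y282.RB.E0

open Pool.Agent.Y282.RB

theorem ph_deriv (r x : ℝ) (hr : 2 ≤ r) : HasDerivAt (ph r) (r * x ^ (r - 1) - r) x := by
  have h1 : HasDerivAt (fun x : ℝ => x ^ r) (r * x ^ (r - 1)) x :=
    Real.hasDerivAt_rpow_const (Or.inr (by linarith))
  have h2 : HasDerivAt (fun x : ℝ => r * (x - 1)) (r * 1) x :=
    ((hasDerivAt_id x).sub_const 1).const_mul r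
  have h3 := (h1.sub_const 1).sub h2
  rw [mul_one] at h3
  exact h3

theorem ph_one (r : ℝ) : ph r 1 = 0 := by
  unfold ph
  rw [Real.one_rpow]
  ring

/-- Bernoulli -/
theorem bern (r x : ℝ) (hr : 2 ≤ r) (hx : 0 ≤ x) : 1 + (r - 1) * (x - 1) ≤ x ^ (r - 1) := by
  have := one_add_mul_self_le_rpow_one_add (s := x - 1) (by linarith) (p := r - 1) (by linarith)
  rwa [add_sub_cancel] at this

theorem low1 (r b : ℝ) (hr : 2 ≤ r) (hb : 0 ≤ b) (hb1 : b ≤ 1) :
    ph r b ≤ r * (r - 1) / 2 * (1 - b) ^ 2 := by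
  have hd : ∀ x, HasDerivAt (fun x => r * (r - 1) / 2 * (1 - x) ^ 2 - ph r x)
      (-(r * (r - 1) * (1 - x)) - (r * x ^ (r - 1) - r)) x := by
    intro x
    have h0 : HasDerivAt (fun x : ℝ => 1 - x) (-1) x := (hasDerivAt_id x).const_sub 1
    have h1 : HasDerivAt (fun x : ℝ => (1 - x) ^ 2) (2 * (1 - x) ^ 1 * (-1)) x := by
      refine (h0.fun_pow 2).congr_deriv ?_
      push_cast
      ring
    have h2 := (h1.const_mul (r * (r - 1) / 2)).sub (ph_deriv r x hr)
    refine h2.congr_deriv ?_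
    ring
  have hanti : AntitoneOn (fun x => r * (r - 1) / 2 * (1 - x) ^ 2 - ph r x) (Icc 0 1) := by
    apply antitoneOn_of_deriv_nonpos (convex_Icc 0 1)
    · exact fun x _ => (hd x).continuousAt.continuousWithinAt
    · exact fun x _ => (hd x).differentiableAt.differentiableWithinAt
    · intro x hx
      rw [interior_Icc] at hx
      rw [(hd x).deriv]
      have := bern r x hr hx.1.le
      nlinarith
  have := hanti ⟨hb, hb1⟩ ⟨zero_le_one, le_rfl⟩ hb1
  simp only [ph_one] at this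
  linarith

theorem low2 (r b : ℝ) (hr : 2 ≤ r) (hb : 0 ≤ b) (hb1 : b ≤ 1) : ph r b ≤ r - 1 := by
  have h1 : b ^ r ≤ b := by
    rcases hb.eq_or_lt with h | h
    · rw [← h, Real.zero_rpow (by linarith)]
    · calc b ^ r ≤ b ^ (1 : ℝ) := Real.rpow_le_rpow_of_exponent_ge h hb1 (by linarith)
        _ = b := Real.rpow_one b
  unfold ph
  nlinarith

theorem high (r b : ℝ) (hr : 2 ≤ r) (hb : 1 ≤ b) :
    ph r b ≤ r * (r - 1) / 2 * b ^ r * (b - 1) ^ 2 := by
  set M := b ^ r with hM
  have hd : ∀ x, HasDerivAt (fun x => r * (r - 1) / 2 * M * (x - 1) ^ 2 - ph r x)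
      (r * (r - 1) * M * (x - 1) - (r * x ^ (r - 1) - r)) x := by
    intro x
    have h0 : HasDerivAt (fun x : ℝ => x - 1) 1 x := (hasDerivAt_id x).sub_const 1
    have h1 : HasDerivAt (fun x : ℝ => (x - 1) ^ 2) (2 * (x - 1) ^ 1 * 1) x := by
      refine (h0.fun_pow 2).congr_deriv ?_
      push_cast
      ring
    have h2 := (h1.const_mul (r * (r - 1) / 2 * M)).sub (ph_deriv r x hr)
    refine h2.congr_deriv ?_
    ring
  have hmono : MonotoneOn (fun x => r * (r - 1) / 2 * M * (x - 1) ^ 2 - ph r x) (Icc 1 b) := by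
    apply monotoneOn_of_deriv_nonneg (convex_Icc 1 b)
    · exact fun x _ => (hd x).continuousAt.continuousWithinAt
    · exact fun x _ => (hd x).differentiableAt.differentiableWithinAt
    · intro x hx
      rw [interior_Icc] at hx
      rw [(hd x).deriv]
      have hx0 : 0 < x := by linarith [hx.1]
      set w := x ^ (r - 1) with hw
      have hw0 : 0 < w := Real.rpow_pos_of_pos hx0 _
      have h1 := bern r x⁻¹ hr (by positivity)
      rw [Real.inv_rpow hx0.le, ← hw] at h1
      have h2 : (1 + (r - 1) * (x⁻¹ - 1)) * w ≤ 1 := by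
        calc (1 + (r - 1) * (x⁻¹ - 1)) * w ≤ w⁻¹ * w := mul_le_mul_of_nonneg_right h1 hw0.le
          _ = 1 := inv_mul_cancel₀ hw0.ne'
      have h3 : w - 1 ≤ (r - 1) * (x - 1) * (w * x⁻¹) := by
        have e : (r - 1) * (x - 1) * (w * x⁻¹) = (r - 1) * (1 - x⁻¹) * w := by
          field_simp
        rw [e]
        nlinarith
      have h4 : w * x⁻¹ ≤ M := by
        calc w * x⁻¹ ≤ w * 1 := by
              apply mul_le_mul_of_nonneg_left _ hw0.le
              exact inv_le_one_of_one_le₀ hx.1.le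
          _ = w := mul_one w
          _ ≤ x ^ r := Real.rpow_le_rpow_of_exponent_le hx.1.le (by linarith)
          _ ≤ b ^ r := Real.rpow_le_rpow hx0.le hx.2.le (by linarith)
      have h5 : (r - 1) * (x - 1) * (w * x⁻¹) ≤ (r - 1) * (x - 1) * M := by
        apply mul_le_mul_of_nonneg_left h4
        exact mul_nonneg (by linarith) (by linarith [hx.1])
      have h6 : r * (w - 1) ≤ r * ((r - 1) * (x - 1) * M) :=
        mul_le_mul_of_nonneg_left (h3.trans h5) (by linarith)
      nlinarith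
  have := hmono ⟨le_rfl, hb⟩ ⟨hb, le_rfl⟩ hb
  simp only [ph_one] at this
  linarith

theorem main : S_E0 :=
  ⟨fun r b hr hb hb1 => ⟨low1 r b hr hb hb1, low2 r b hr hb hb1⟩,
    fun r b hr hb => high r b hr hb⟩

end Pool.Agent.Y282.RB.E0
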