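import Pool.Agent.Y282.RB.Stm2

/-!
Project RB (helper282), job RB-E1 (helper310): lower bound for `TT`.
-/

set_option autoImplicit false

open Set
open scoped BigOperators

namespace Pool.Agent.Y282.RB.E1

theorem sum_odd (m : ℕ) : ∑ i ∈ Finset.range m, (2 * (i : ℝ) + 1) = (m : ℝ) ^ 2 := by
  induction m with
  | zero => simp
  | succ m ih =>
    rw [Finset.sum_range_succ, ih]
    push_cast
    ring

theorem TT_nonneg (n : ℕ) (γ : ℕ → ℝ) : 0 ≤ TT n γ :=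
  Finset.sum_nonneg fun j _ => by positivity

theorem sum_abs (n m : ℕ) (hm : m ≤ n) (γ : ℕ → ℝ) :
    ∑ i ∈ Finset.range m, |γ i - γ (i + 1)| ≤ m * Real.sqrt (TT n γ) := by
  have h1 := Finset.sum_sq_le_sum_mul_sum_of_sq_le_mul (Finset.range m)
    (r := fun i => |γ i - γ (i + 1)|) (f := fun i => 2 * (i : ℝ) + 1)
    (g := fun i => (γ i - γ (i + 1)) ^ 2 / (2 * (i : ℝ) + 1))
    (fun i _ => by positivity) (fun i _ => by positivity) (fun i _ => by
      refine le_of_eq ?_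
      rw [sq_abs]
      field_simp)
  rw [sum_odd] at h1
  have h2 : ∑ i ∈ Finset.range m, (γ i - γ (i + 1)) ^ 2 / (2 * (i : ℝ) + 1) ≤ TT n γ :=
    Finset.sum_le_sum_of_subset_of_nonneg (Finset.range_mono hm) (fun j _ _ => by positivity)
  have h3 : (∑ i ∈ Finset.range m, |γ i - γ (i + 1)|) ^ 2 ≤ (m * Real.sqrt (TT n γ)) ^ 2 := by
    rw [mul_pow, Real.sq_sqrt (TT_nonneg n γ)]
    exact h1.trans (mul_le_mul_of_nonneg_left h2 (by positivity))
  exact le_of_sq_le_sq h3 (by positivity)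

theorem tel (m : ℕ) (γ : ℕ → ℝ) : |γ m - γ 0| ≤ ∑ i ∈ Finset.range m, |γ i - γ (i + 1)| := by
  induction m with
  | zero => simp
  | succ m ih =>
    rw [Finset.sum_range_succ]
    calc |γ (m + 1) - γ 0| = |(γ m - γ 0) - (γ m - γ (m + 1))| := by ring_nf
      _ ≤ |γ m - γ 0| + |γ m - γ (m + 1)| := abs_sub _ _
      _ ≤ _ := by gcongr

theorem main : S_E1 := by
  intro n σ γ hn hσ hσ2 hL hu
  obtain ⟨m, rfl⟩ : ∃ m, n = m + 1 := ⟨n - 1, by omega⟩
  set s := Real.sqrt (TT (m + 1) γ) with hs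
  have hs0 : 0 ≤ s := Real.sqrt_nonneg _
  have hs2 : TT (m + 1) γ = s ^ 2 := (Real.sq_sqrt (TT_nonneg _ γ)).symm
  have hk : ∀ j : ℕ, 0 < kk σ j := by
    intro j
    unfold kk
    have h1 : 0 < (j : ℝ) + σ := by positivity
    have h2 : 0 < (j : ℝ) + 1 - σ := by
      have : (0 : ℝ) ≤ j := by positivity
      linarith
    positivity
  have hK : 0 < KK σ (m + 1) := Finset.sum_pos (fun j _ => hk j) ⟨0, by simp⟩
  have h0K : kk σ 0 ≤ KK σ (m + 1) :=
    Finset.single_le_sum (f := fun j => kk σ j) (fun j _ => (hk j).le) (by simp)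
  have hk0 : kk σ 0 = 1 / (σ * (1 - σ)) := by
    unfold kk
    simp
  have hkj : ∀ j : ℕ, kk σ (j + 1) ≤ 2 := by
    intro j
    unfold kk
    have h0 : (0 : ℝ) ≤ j := by positivity
    push_cast
    have h1 : 0 < (j : ℝ) + 1 + σ := by positivity
    have h2 : 0 < (j : ℝ) + 1 + 1 - σ := by linarith
    rw [div_le_iff₀ (mul_pos h1 h2)]
    nlinarith [mul_nonneg h0 h0, mul_nonneg h0 hσ.le, mul_nonneg h0 (by linarith : (0 : ℝ) ≤ 1 / 2 - σ),
      mul_nonneg hσ.le (by linarith : (0 : ℝ) ≤ 1 / 2 - σ)]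
  -- the distances
  have hy : ∀ j, yy σ γ j = γ j - (1 - th σ j) * (γ j - γ (j + 1)) := by
    intro j
    unfold yy
    ring
  have hth : ∀ j : ℕ, 1 - th σ j = (j + σ) / (2 * (j : ℝ) + 1) := by
    intro j
    unfold th
    field_simp
    ring
  have hth0 : ∀ j : ℕ, 0 ≤ 1 - th σ j ∧ 1 - th σ j ≤ 1 := by
    intro j
    rw [hth]
    have h0 : (0 : ℝ) ≤ j := by positivity
    refine ⟨by positivity, ?_⟩
    rw [div_le_one (by positivity)]
    linarith
  have hd : ∀ j, j < m + 1 → |yy σ γ j - γ 0| ≤ ((m : ℝ) + 1) * s := by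
    intro j hj
    have h1 := sum_abs (m + 1) (j + 1) hj γ
    rw [Finset.sum_range_succ] at h1
    have h2 := tel j γ
    have h3 : |yy σ γ j - γ 0| ≤ |γ j - γ 0| + |γ j - γ (j + 1)| := by
      rw [hy]
      calc |γ j - (1 - th σ j) * (γ j - γ (j + 1)) - γ 0|
          = |(γ j - γ 0) - (1 - th σ j) * (γ j - γ (j + 1))| := by ring_nf
        _ ≤ |γ j - γ 0| + |(1 - th σ j) * (γ j - γ (j + 1))| := abs_sub _ _
        _ ≤ |γ j - γ 0| + 1 * |γ j - γ (j + 1)| := by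
            rw [abs_mul, abs_of_nonneg (hth0 j).1]
            gcongr
            exact (hth0 j).2
        _ = _ := by ring
    have h4 : (((j + 1 : ℕ) : ℝ)) * s ≤ ((m : ℝ) + 1) * s := by
      have : ((j + 1 : ℕ) : ℝ) ≤ (m : ℝ) + 1 := by
        exact_mod_cast hj
      gcongr
    linarith
  have hd0 : |yy σ γ 0 - γ 0| ≤ σ * s := by
    have h1 := sum_abs (m + 1) 1 (by omega) γ
    simp only [Finset.sum_range_one, Nat.cast_one, one_mul] at h1
    have h2 : yy σ γ 0 - γ 0 = -(σ * (γ 0 - γ (0 + 1))) := by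
      rw [hy, hth]
      simp
    rw [h2, abs_neg, abs_mul, abs_of_pos hσ]
    exact mul_le_mul_of_nonneg_left h1 hσ.le
  have hsq : ∀ y b : ℝ, |y - γ 0| ≤ b → |(γ 0) ^ 2 - y ^ 2| ≤ b * (2 * γ 0 + b) := by
    intro y b hb
    have e : (γ 0) ^ 2 - y ^ 2 = -((y - γ 0) * (2 * γ 0 + (y - γ 0))) := by ring
    rw [e, abs_neg, abs_mul]
    have h1 : |2 * γ 0 + (y - γ 0)| ≤ 2 * γ 0 + b := by
      refine (abs_add_le _ _).trans ?_
      rw [abs_of_nonneg (by positivity : (0 : ℝ) ≤ 2 * γ 0)]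
      gcongr
    exact mul_le_mul hb h1 (abs_nonneg _) ((abs_nonneg _).trans hb)
  -- the sum
  have hL1 : ∑ j ∈ Finset.range (m + 1), kk σ j * (yy σ γ j) ^ 2 = KK σ (m + 1) := by
    unfold Lam at hL
    rwa [div_eq_one_iff_eq hK.ne'] at hL
  have hsum : KK σ (m + 1) * ((γ 0) ^ 2 - 1)
      = ∑ j ∈ Finset.range (m + 1), kk σ j * ((γ 0) ^ 2 - (yy σ γ j) ^ 2) := by
    simp only [mul_sub]
    rw [Finset.sum_sub_distrib, hL1, ← Finset.sum_mul]
    unfold KK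
    ring
  set A := σ * s * (2 * γ 0 + σ * s) with hA
  set B := ((m : ℝ) + 1) * s * (2 * γ 0 + ((m : ℝ) + 1) * s) with hB
  have hA0 : 0 ≤ A := by positivity
  have hB0 : 0 ≤ B := by positivity
  have hbd : KK σ (m + 1) * |(γ 0) ^ 2 - 1| ≤ kk σ 0 * A + 2 * m * B := by
    rw [← abs_of_pos hK, ← abs_mul, hsum]
    refine (Finset.abs_sum_le_sum_abs _ _).trans ?_
    rw [Finset.sum_range_succ']
    have h1 : ∀ j ∈ Finset.range m, |kk σ (j + 1) * ((γ 0) ^ 2 - (yy σ γ (j + 1)) ^ 2)| ≤ 2 * B := by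
      intro j hj
      rw [abs_mul, abs_of_pos (hk _)]
      exact mul_le_mul (hkj j) (hsq _ _ (hd (j + 1) (by
        have := Finset.mem_range.1 hj
        omega))) (abs_nonneg _) (by norm_num)
    have h2 := Finset.sum_le_sum h1
    rw [Finset.sum_const, Finset.card_range, nsmul_eq_mul] at h2
    have h3 : |kk σ 0 * ((γ 0) ^ 2 - (yy σ γ 0) ^ 2)| ≤ kk σ 0 * A := by
      rw [abs_mul, abs_of_pos (hk _)]
      exact mul_le_mul_of_nonneg_left (hsq _ _ hd0) (hk 0).le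
    linarith
  have hfin : |(γ 0) ^ 2 - 1| ≤ A + 2 * m * σ * B := by
    have h1 : kk σ 0 * A ≤ KK σ (m + 1) * A := mul_le_mul_of_nonneg_right h0K hA0
    have h2 : 1 ≤ KK σ (m + 1) * σ := by
      have h3 : 1 ≤ kk σ 0 * σ := by
        rw [hk0, div_mul_eq_mul_div, one_mul, le_div_iff₀ (mul_pos hσ (by linarith))]
        nlinarith
      exact h3.trans (mul_le_mul_of_nonneg_right h0K hσ.le)
    have h4 : 2 * m * B ≤ KK σ (m + 1) * (2 * m * σ * B) := by
      have h5 : 0 ≤ 2 * (m : ℝ) * B := by positivity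
      have h6 := mul_le_mul_of_nonneg_right h2 h5
      linarith
    have h7 : KK σ (m + 1) * |(γ 0) ^ 2 - 1| ≤ KK σ (m + 1) * (A + 2 * m * σ * B) := by
      rw [mul_add]
      linarith
    exact le_of_mul_le_mul_left h7 hK
  refine hfin.trans ?_
  rw [hs2, hA, hB]
  have hm0 : (0 : ℝ) ≤ m := by positivity
  push_cast
  have e : 6 * ((m : ℝ) + 1) ^ 2 * σ * γ 0 * s + 3 * ((m : ℝ) + 1) ^ 3 * σ * s ^ 2
      - (σ * s * (2 * γ 0 + σ * s) + 2 * m * σ * (((m : ℝ) + 1) * s * (2 * γ 0 + ((m : ℝ) + 1) * s)))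
      = σ * γ 0 * s * (2 * (m : ℝ) ^ 2 + 8 * m + 4)
        + σ * s ^ 2 * (((m : ℝ) + 1) ^ 2 * (m + 3) - σ) := by ring
  have h1 : 0 ≤ σ * γ 0 * s * (2 * (m : ℝ) ^ 2 + 8 * m + 4) := by positivity
  have h2 : 0 ≤ ((m : ℝ) + 1) ^ 2 * (m + 3) - σ := by
    have : (0 : ℝ) ≤ (m : ℝ) ^ 3 + 5 * m ^ 2 + 7 * m := by positivity
    nlinarith
  have h3 : 0 ≤ σ * s ^ 2 * (((m : ℝ) + 1) ^ 2 * (m + 3) - σ) := mul_nonneg (by positivity) h2
  linarith

end Pool.Agent.Y282.RB.E1
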