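import Mathlib
import Pool.Agent.Y282.RB.Stm2

/-!
# Project RB (helper282): upper bound for `γ 0`
-/

set_option autoImplicit false

namespace Pool.Agent.Y282.RB.E2

open Finset

lemma rel (σ : ℝ) (γ : ℕ → ℝ) (j : ℕ) :
    (2 * (j : ℝ) + 1) * yy σ γ j = ((j : ℝ) + 1 - σ) * γ j + ((j : ℝ) + σ) * γ (j + 1) := by
  have h : (2 * (j : ℝ) + 1) ≠ 0 := by positivity
  unfold yy th
  field_simp
  ring

lemma step {σ : ℝ} (h0 : 0 < σ) (h1 : σ ≤ 1 / 2) (γ : ℕ → ℝ) (j : ℕ) :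
    |γ j| ≤ 2 * |yy σ γ j| + |γ (j + 1)| := by
  have hj : (0 : ℝ) ≤ (j : ℝ) := Nat.cast_nonneg j
  have hr := rel σ γ j
  have e1 : ((j : ℝ) + 1 - σ) * γ j = (2 * (j : ℝ) + 1) * yy σ γ j - ((j : ℝ) + σ) * γ (j + 1) := by
    linarith
  have hp : 0 < (j : ℝ) + 1 - σ := by linarith
  have e2 : ((j : ℝ) + 1 - σ) * |γ j| ≤
      (2 * (j : ℝ) + 1) * |yy σ γ j| + ((j : ℝ) + σ) * |γ (j + 1)| := by
    have e3 : ((j : ℝ) + 1 - σ) * |γ j| = |((j : ℝ) + 1 - σ) * γ j| := by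
      rw [abs_mul, abs_of_pos hp]
    rw [e3, e1]
    refine (abs_sub _ _).trans ?_
    rw [abs_mul, abs_mul, abs_of_nonneg (by linarith : (0 : ℝ) ≤ 2 * (j : ℝ) + 1),
      abs_of_nonneg (by linarith : (0 : ℝ) ≤ (j : ℝ) + σ)]
  have e4 : ((j : ℝ) + 1 - σ) * |γ j| ≤
      ((j : ℝ) + 1 - σ) * (2 * |yy σ γ j| + |γ (j + 1)|) := by
    have a1 := abs_nonneg (yy σ γ j)
    have a2 := abs_nonneg (γ (j + 1))
    nlinarith
  exact le_of_mul_le_mul_left e4 hp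

lemma chain {σ : ℝ} (h0 : 0 < σ) (h1 : σ ≤ 1 / 2) (γ : ℕ → ℝ) (m : ℕ) :
    |γ 1| ≤ 2 * (∑ j ∈ range m, |yy σ γ (j + 1)|) + |γ (m + 1)| := by
  induction m with
  | zero => simp
  | succ m ih =>
    have h := step h0 h1 γ (m + 1)
    rw [sum_range_succ]
    linarith

lemma kk_le {σ : ℝ} (h0 : 0 < σ) (h1 : σ ≤ 1 / 2) (j : ℕ) : kk σ (j + 1) ≤ 2 := by
  have hj : (0 : ℝ) ≤ (j : ℝ) := Nat.cast_nonneg j
  unfold kk
  push_cast
  have hp : 0 < ((j : ℝ) + 1 + σ) * ((j : ℝ) + 1 + 1 - σ) :=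
    mul_pos (by linarith) (by linarith)
  rw [div_le_iff₀ hp]
  nlinarith

lemma kk_ge {σ : ℝ} (h0 : 0 < σ) (h1 : σ ≤ 1 / 2) {j m : ℕ} (hjm : j < m) :
    2 / ((m : ℝ) + 1) ≤ kk σ (j + 1) := by
  have hj : (0 : ℝ) ≤ (j : ℝ) := Nat.cast_nonneg j
  have hm : (j : ℝ) + 1 ≤ (m : ℝ) := by exact_mod_cast hjm
  unfold kk
  push_cast
  have hp : 0 < ((j : ℝ) + 1 + σ) * ((j : ℝ) + 1 + 1 - σ) :=
    mul_pos (by linarith) (by linarith)
  rw [div_le_div_iff₀ (by linarith) hp]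
  nlinarith

lemma final {σ N u v S A B k0 : ℝ} (hσ : 0 < σ) (hN : 1 ≤ N) (hs : σ * (100 * N ^ 2) ≤ 1)
    (hu : 0 ≤ u) (hv : 0 ≤ v) (hS : 0 ≤ S) (hA : 0 ≤ A) (hB : B ≤ 2 * N)
    (hk : σ * (1 - σ) * k0 = 1) (h1 : A + k0 * v ^ 2 = B + k0) (h2 : S ^ 2 ≤ N ^ 2 / 2 * A)
    (h4 : (1 - 2 * σ) * u ≤ v + 2 * σ * S) : u ^ 2 ≤ 1 + 50 * N ^ 2 * σ := by
  set t : ℝ := N ^ 2 * σ with ht
  have hN2 : N ≤ N ^ 2 := by nlinarith
  have ht0 : 0 < t := by positivity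
  have ht1 : t ≤ 1 / 100 := by rw [ht]; nlinarith
  have hσt : σ ≤ t := by rw [ht]; nlinarith
  have hNσ : N * σ ≤ t := by rw [ht]; nlinarith
  have hN0 : 0 ≤ N * σ := by positivity
  -- the scaled constraint
  have e1 : σ * (1 - σ) * A + v ^ 2 = σ * (1 - σ) * B + 1 := by
    have this : σ * (1 - σ) * (A + k0 * v ^ 2) = σ * (1 - σ) * (B + k0) := by rw [h1]
    have e : σ * (1 - σ) * (A + k0 * v ^ 2) = σ * (1 - σ) * A + (σ * (1 - σ) * k0) * v ^ 2 := by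
      ring
    have e' : σ * (1 - σ) * (B + k0) = σ * (1 - σ) * B + σ * (1 - σ) * k0 := by ring
    rw [e, e', hk] at this
    linarith
  have hss : 0 ≤ σ * (1 - σ) := mul_nonneg hσ.le (by linarith)
  have e2 : σ * (1 - σ) * B ≤ 2 * t := by
    have a1 : σ * (1 - σ) * B ≤ σ * (1 - σ) * (2 * N) := mul_le_mul_of_nonneg_left hB hss
    have a2 : σ * (1 - σ) * (2 * N) ≤ 2 * (N * σ) := by nlinarith
    linarith
  have e3 : 0 ≤ σ * (1 - σ) * A := mul_nonneg hss hA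
  have e4 : σ * A ≤ 2 * (σ * (1 - σ) * A) := by
    have : 0 ≤ σ * A := mul_nonneg hσ.le hA
    nlinarith
  have e5 : v ^ 2 ≤ 1 + 2 * (N * σ) := by
    have a1 : σ * (1 - σ) * B ≤ σ * (1 - σ) * (2 * N) := mul_le_mul_of_nonneg_left hB hss
    have a2 : σ * (1 - σ) * (2 * N) ≤ 2 * (N * σ) := by nlinarith
    linarith
  have e6 : (2 * σ * S) ^ 2 ≤ 4 * t * (2 * t + 1 - v ^ 2) := by
    have a1 : (2 * σ * S) ^ 2 = 4 * σ ^ 2 * S ^ 2 := by ring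
    have a2 : 4 * σ ^ 2 * S ^ 2 ≤ 4 * σ ^ 2 * (N ^ 2 / 2 * A) :=
      mul_le_mul_of_nonneg_left h2 (by positivity)
    have a3 : 4 * σ ^ 2 * (N ^ 2 / 2 * A) = 2 * t * (σ * A) := by rw [ht]; ring
    have a4 : σ * A ≤ 2 * (2 * t + 1 - v ^ 2) := by linarith
    have a5 : 2 * t * (σ * A) ≤ 2 * t * (2 * (2 * t + 1 - v ^ 2)) :=
      mul_le_mul_of_nonneg_left a4 (by linarith)
    linarith
  have hσS : 0 ≤ 2 * σ * S := by positivity
  -- both cases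
  have e7 : v + 2 * σ * S ≤ 1 + 8 * t := by
    rcases le_or_gt 1 v with h | h
    · have a1 : v ≤ 1 + t := by
        by_contra hc
        push Not at hc
        nlinarith
      have b1 : 1 - v ^ 2 ≤ 0 := by nlinarith
      have b2 : 4 * t * (2 * t + 1 - v ^ 2) ≤ 4 * t * (2 * t) :=
        mul_le_mul_of_nonneg_left (by linarith) (by linarith)
      have a2 : 2 * σ * S ≤ 3 * t := by
        apply abs_le_of_sq_le_sq' _ (by linarith) |>.2
        nlinarith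
      linarith
    · have b1 : 1 - v ^ 2 ≤ 2 * (1 - v) := by
        have := sq_nonneg (1 - v)
        linarith
      have b2 : 4 * t * (2 * t + 1 - v ^ 2) ≤ 4 * t * (2 * t + 2 * (1 - v)) :=
        mul_le_mul_of_nonneg_left (by linarith) (by linarith)
      have b3 : 0 ≤ t * (1 - v) := mul_nonneg ht0.le (by linarith)
      have a2 : 2 * σ * S ≤ (1 - v) + 8 * t := by
        apply abs_le_of_sq_le_sq' _ (by linarith) |>.2
        have b4 : (1 - v + 8 * t) ^ 2 = (1 - v) ^ 2 + 16 * (t * (1 - v)) + 64 * t ^ 2 := by ring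
        have b5 : 4 * t * (2 * t + 2 * (1 - v)) = 8 * t ^ 2 + 8 * (t * (1 - v)) := by ring
        have b6 := sq_nonneg (1 - v)
        have b7 := sq_nonneg t
        linarith
      linarith
  have e8 : u ≤ 1 + 22 * t := by
    by_contra hc
    push Not at hc
    nlinarith
  calc u ^ 2 ≤ (1 + 22 * t) ^ 2 := by
        apply pow_le_pow_left₀ hu e8
    _ ≤ 1 + 50 * t := by nlinarith
    _ = 1 + 50 * N ^ 2 * σ := by rw [ht]; ring

theorem main : S_E2 := by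
  intro n σ γ hn hσ hs hL hu hle
  obtain ⟨m, rfl⟩ : ∃ m, n = m + 1 := ⟨n - 1, by omega⟩
  have hN : (1 : ℝ) ≤ ((m + 1 : ℕ) : ℝ) := by exact_mod_cast hn
  have hm0 : (0 : ℝ) ≤ (m : ℝ) := Nat.cast_nonneg m
  have hσ2 : σ ≤ 1 / 2 := by nlinarith
  -- the constraint
  have hK : KK σ (m + 1) ≠ 0 := by
    intro h
    unfold Lam at hL
    rw [h, div_zero] at hL
    exact zero_ne_one hL
  have hc : ∑ j ∈ range (m + 1), kk σ j * (yy σ γ j) ^ 2 = ∑ j ∈ range (m + 1), kk σ j := by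
    unfold Lam at hL
    rw [div_eq_one_iff_eq hK] at hL
    exact hL
  rw [sum_range_succ', sum_range_succ'] at hc
  have hk0 : σ * (1 - σ) * kk σ 0 = 1 := by
    have h1σ : (1 - σ) ≠ 0 := by linarith
    have e : kk σ 0 = 1 / (σ * (1 - σ)) := by
      unfold kk
      simp
    rw [e]
    field_simp
  have hkn : ∀ j, 0 ≤ kk σ (j + 1) := by
    intro j
    unfold kk
    have hj : (0 : ℝ) ≤ (j : ℝ) := Nat.cast_nonneg j
    push_cast
    refine div_nonneg (by linarith) (mul_nonneg (by linarith) (by linarith))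
  have hch := chain hσ hσ2 γ m
  have hrel := rel σ γ 0
  have hun : |γ (m + 1)| ≤ γ 0 := by
    have := sq_le_sq.1 hle
    rwa [abs_of_nonneg hu] at this
  refine final (σ := σ) (N := ((m + 1 : ℕ) : ℝ)) (u := γ 0) (v := |yy σ γ 0|)
    (S := ∑ j ∈ range m, |yy σ γ (j + 1)|)
    (A := ∑ j ∈ range m, kk σ (j + 1) * (yy σ γ (j + 1)) ^ 2)
    (B := ∑ j ∈ range m, kk σ (j + 1)) (k0 := kk σ 0) hσ hN hs hu (abs_nonneg _)
    (sum_nonneg fun _ _ => abs_nonneg _)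
    (sum_nonneg fun j _ => mul_nonneg (hkn j) (sq_nonneg _)) ?_ hk0 ?_ ?_ ?_
  · calc ∑ j ∈ range m, kk σ (j + 1) ≤ ∑ j ∈ range m, (2 : ℝ) :=
          sum_le_sum fun j _ => kk_le hσ hσ2 j
      _ = 2 * m := by rw [sum_const, card_range, nsmul_eq_mul]; ring
      _ ≤ 2 * ((m + 1 : ℕ) : ℝ) := by push_cast; linarith
  · rw [sq_abs]
    exact hc
  · have c1 : (∑ j ∈ range m, |yy σ γ (j + 1)|) ^ 2 ≤
        (m : ℝ) * ∑ j ∈ range m, |yy σ γ (j + 1)| ^ 2 := by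
      have := sq_sum_le_card_mul_sum_sq (s := range m) (f := fun j => |yy σ γ (j + 1)|)
      rwa [card_range] at this
    have c2 : 2 / ((m : ℝ) + 1) * ∑ j ∈ range m, |yy σ γ (j + 1)| ^ 2 ≤
        ∑ j ∈ range m, kk σ (j + 1) * (yy σ γ (j + 1)) ^ 2 := by
      rw [mul_sum]
      refine sum_le_sum fun j hj => ?_
      rw [sq_abs]
      exact mul_le_mul_of_nonneg_right (kk_ge hσ hσ2 (mem_range.1 hj)) (sq_nonneg _)
    set Q : ℝ := ∑ j ∈ range m, |yy σ γ (j + 1)| ^ 2 with hQ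
    have hQ0 : 0 ≤ Q := sum_nonneg fun _ _ => sq_nonneg _
    have hm1 : (0 : ℝ) < (m : ℝ) + 1 := by linarith
    have c3 : ((m : ℝ) + 1) ^ 2 / 2 * (2 / ((m : ℝ) + 1) * Q) = ((m : ℝ) + 1) * Q := by
      field_simp
    have c4 : ((m : ℝ) + 1) ^ 2 / 2 * (2 / ((m : ℝ) + 1) * Q) ≤
        ((m : ℝ) + 1) ^ 2 / 2 * ∑ j ∈ range m, kk σ (j + 1) * (yy σ γ (j + 1)) ^ 2 :=
      mul_le_mul_of_nonneg_left c2 (by positivity)
    push_cast
    nlinarith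
  · have d1 : (1 - σ) * γ 0 = yy σ γ 0 - σ * γ 1 := by
      push_cast at hrel
      linarith
    have d2 : (1 - σ) * γ 0 ≤ |yy σ γ 0| + σ * |γ 1| := by
      rw [d1]
      have b1 := le_abs_self (yy σ γ 0)
      have b2 := neg_abs_le (γ 1)
      nlinarith
    nlinarith

end Pool.Agent.Y282.RB.E2
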