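import Pool.Agent.Y282.RB.Stm2

/-!
Project RB (helper282), job RB-E3 (helper814): the pointwise inequality for all `n`, large `p`.
-/

set_option autoImplicit false

namespace Pool.Agent.Y282.RB.E3

open Pool.Agent.Y282.RB

theorem caseA (N r d s τ : ℝ) (hN : 1 ≤ N) (hr : 72 * N ^ 6 ≤ r) (hd : 0 ≤ d)
    (hτ : τ = s ^ 2) (hs : 0 ≤ s) (h : 2 * (r * d) ≤ 6 * N ^ 2 * s + 3 * N ^ 3 * τ) :
    1 ≤ τ ∨ r / 2 * d ^ 2 ≤ τ := by
  have hN3 : 1 ≤ N ^ 3 := one_le_pow₀ hN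
  have hN6 : 1 ≤ N ^ 6 := one_le_pow₀ hN
  have hN4 : 1 ≤ N ^ 4 := one_le_pow₀ hN
  have h46 : N ^ 4 ≤ N ^ 6 := pow_le_pow_right₀ hN (by norm_num)
  have hr0 : 0 < r := by linarith
  rcases le_or_gt (r * d) (6 * N ^ 2 * s) with h1 | h1
  · right
    have h2 : (r * d) ^ 2 ≤ (6 * N ^ 2 * s) ^ 2 := pow_le_pow_left₀ (by positivity) h1 2
    have h3 : (r * d) ^ 2 ≤ 36 * N ^ 4 * τ := by
      rw [hτ]
      calc (r * d) ^ 2 ≤ (6 * N ^ 2 * s) ^ 2 := h2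
        _ = 36 * N ^ 4 * s ^ 2 := by ring
    have h4 : 18 * N ^ 4 * (r * d ^ 2) ≤ r * (r * d ^ 2) := by
      apply mul_le_mul_of_nonneg_right _ (by positivity)
      linarith
    have h5 : 36 * N ^ 4 * (r / 2 * d ^ 2) ≤ 36 * N ^ 4 * τ := by
      calc 36 * N ^ 4 * (r / 2 * d ^ 2) = 18 * N ^ 4 * (r * d ^ 2) := by ring
        _ ≤ r * (r * d ^ 2) := h4
        _ = (r * d) ^ 2 := by ring
        _ ≤ 36 * N ^ 4 * τ := h3
    exact le_of_mul_le_mul_left h5 (by positivity)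
  · have h2 : r * d ≤ 3 * N ^ 3 * τ := by linarith
    rcases le_or_gt (3 * N ^ 3) (r * d) with h3 | h3
    · left
      have h4 : 3 * N ^ 3 * 1 ≤ 3 * N ^ 3 * τ := by linarith
      exact le_of_mul_le_mul_left h4 (by positivity)
    · right
      have h4 : 72 * N ^ 6 * d ≤ r * d := mul_le_mul_of_nonneg_right hr hd
      have h5 : 24 * N ^ 3 * d ≤ 1 := by
        have h6 : 3 * N ^ 3 * (24 * N ^ 3 * d) ≤ 3 * N ^ 3 * 1 := by
          calc 3 * N ^ 3 * (24 * N ^ 3 * d) = 72 * N ^ 6 * d := by ring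
            _ ≤ r * d := h4
            _ ≤ 3 * N ^ 3 * 1 := by linarith
        exact le_of_mul_le_mul_left h6 (by positivity)
      have h6 : 3 / 2 * N ^ 3 * d ≤ 1 := by
        have : 0 ≤ N ^ 3 * d := by positivity
        nlinarith
      have h7 : 3 * N ^ 3 * (r / 2 * d ^ 2) ≤ 3 * N ^ 3 * τ := by
        calc 3 * N ^ 3 * (r / 2 * d ^ 2) = (r * d) * (3 / 2 * N ^ 3 * d) := by ring
          _ ≤ (r * d) * 1 := mul_le_mul_of_nonneg_left h6 (by positivity)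
          _ ≤ 3 * N ^ 3 * τ := by linarith
      exact le_of_mul_le_mul_left h7 (by positivity)

theorem caseB (N r d s τ M : ℝ) (hN : 1 ≤ N) (hM : 1 ≤ M) (hr : 72 * N ^ 6 * M ≤ r) (hd : 0 ≤ d)
    (hτ : τ = s ^ 2) (hs : 0 ≤ s) (h : 2 * (r * d) ≤ 12 * N ^ 2 * s + 3 * N ^ 3 * τ)
    (hd2 : r * d ≤ 25 * N ^ 2) : r / 2 * M * d ^ 2 ≤ τ := by
  have hN3 : 1 ≤ N ^ 3 := one_le_pow₀ hN
  have hN2 : 1 ≤ N ^ 2 := one_le_pow₀ hN
  have hN6 : 1 ≤ N ^ 6 := one_le_pow₀ hN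
  have hN4 : 1 ≤ N ^ 4 := one_le_pow₀ hN
  have h46 : N ^ 4 ≤ N ^ 6 := pow_le_pow_right₀ hN (by norm_num)
  have h34 : N ^ 3 ≤ N ^ 4 := pow_le_pow_right₀ hN (by norm_num)
  have hM0 : 0 < M := by linarith
  have hr0 : 0 < r := by
    have : 0 < 72 * N ^ 6 * M := by positivity
    linarith
  have hr4 : 72 * N ^ 4 * M ≤ r := by
    have : 72 * N ^ 4 * M ≤ 72 * N ^ 6 * M := by gcongr
    linarith
  rcases le_or_gt (r * d) (12 * N ^ 2 * s) with h1 | h1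
  · have h2 : (r * d) ^ 2 ≤ (12 * N ^ 2 * s) ^ 2 := pow_le_pow_left₀ (by positivity) h1 2
    have h3 : (r * d) ^ 2 ≤ 144 * N ^ 4 * τ := by
      rw [hτ]
      calc (r * d) ^ 2 ≤ (12 * N ^ 2 * s) ^ 2 := h2
        _ = 144 * N ^ 4 * s ^ 2 := by ring
    have h4 : 72 * N ^ 4 * M * (r * d ^ 2) ≤ r * (r * d ^ 2) :=
      mul_le_mul_of_nonneg_right hr4 (by positivity)
    have h5 : 144 * N ^ 4 * (r / 2 * M * d ^ 2) ≤ 144 * N ^ 4 * τ := by
      calc 144 * N ^ 4 * (r / 2 * M * d ^ 2) = 72 * N ^ 4 * M * (r * d ^ 2) := by ring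
        _ ≤ r * (r * d ^ 2) := h4
        _ = (r * d) ^ 2 := by ring
        _ ≤ 144 * N ^ 4 * τ := h3
    exact le_of_mul_le_mul_left h5 (by positivity)
  · have h2 : r * d ≤ 3 * N ^ 3 * τ := by linarith
    have h4 : 72 * N ^ 6 * M * d ≤ r * d := mul_le_mul_of_nonneg_right hr hd
    have h5 : 72 * (N ^ 4 * M * d) ≤ 25 := by
      have h6 : N ^ 2 * (72 * (N ^ 4 * M * d)) ≤ N ^ 2 * 25 := by
        calc N ^ 2 * (72 * (N ^ 4 * M * d)) = 72 * N ^ 6 * M * d := by ring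
          _ ≤ r * d := h4
          _ ≤ N ^ 2 * 25 := by linarith
      exact le_of_mul_le_mul_left h6 (by positivity)
    have h6 : N ^ 3 * M * d ≤ N ^ 4 * M * d := by gcongr
    have h7 : 3 / 2 * (N ^ 3 * M * d) ≤ 1 := by linarith
    have h8 : 3 * N ^ 3 * (r / 2 * M * d ^ 2) ≤ 3 * N ^ 3 * τ := by
      calc 3 * N ^ 3 * (r / 2 * M * d ^ 2) = (r * d) * (3 / 2 * (N ^ 3 * M * d)) := by ring
        _ ≤ (r * d) * 1 := mul_le_mul_of_nonneg_left h7 (by positivity)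
        _ ≤ 3 * N ^ 3 * τ := by linarith
    exact le_of_mul_le_mul_left h8 (by positivity)

theorem TT_nonneg (n : ℕ) (γ : ℕ → ℝ) : 0 ≤ TT n γ := by
  unfold TT
  exact Finset.sum_nonneg fun j _ => by positivity

theorem main : S_E3 := by
  intro hC0 hE0 hE1 hE2 n p hn hp
  obtain ⟨N, hN⟩ : ∃ N : ℝ, N = n := ⟨_, rfl⟩
  have hN1 : 1 ≤ N := by
    rw [hN]
    exact_mod_cast hn
  obtain ⟨M, hM⟩ : ∃ M : ℝ, M = Real.exp (25 * N ^ 2) := ⟨_, rfl⟩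
  have hM1 : 1 ≤ M := by
    rw [hM]
    exact Real.one_le_exp (by positivity)
  rw [← hN, ← hM] at hp
  have hN6 : 1 ≤ N ^ 6 := one_le_pow₀ hN1
  have h26 : N ^ 2 ≤ N ^ 6 := pow_le_pow_right₀ hN1 (by norm_num)
  have hNM : N ^ 6 ≤ N ^ 6 * M := le_mul_of_one_le_right (by positivity) hM1
  have hp1 : 144 * N ^ 6 ≤ p := by nlinarith
  have hp144 : 144 ≤ p := by linarith
  obtain ⟨r, hr⟩ : ∃ r, r = p / 2 := ⟨_, rfl⟩
  have hr0 : 72 ≤ r := by linarith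
  have hrM : 72 * N ^ 6 * M ≤ r := by
    rw [hr]
    linarith
  have hr6 : 72 * N ^ 6 ≤ r := by linarith
  have hσr : 1 / p = 1 / (2 * r) := by
    rw [hr]
    congr 1
    ring
  refine hC0 n p hn (by linarith) fun γ hΛ hγ0 hor => ?_
  rw [← hr]
  obtain ⟨u, hu⟩ : ∃ u, u = γ 0 := ⟨_, rfl⟩
  obtain ⟨τ, hτ⟩ : ∃ τ, τ = TT n γ := ⟨_, rfl⟩
  have hτ0 : 0 ≤ τ := hτ ▸ TT_nonneg n γ
  obtain ⟨s, hs⟩ : ∃ s, s = Real.sqrt τ := ⟨_, rfl⟩
  have hs0 : 0 ≤ s := hs ▸ Real.sqrt_nonneg τ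
  have hτs : τ = s ^ 2 := by
    rw [hs, Real.sq_sqrt hτ0]
  have hσ0 : 0 < 1 / p := by positivity
  have e1 := hE1 n (1 / p) γ hn hσ0 (by
    rw [div_le_div_iff₀ (by linarith) (by norm_num)]
    linarith) hΛ hγ0
  rw [← hN, ← hτ, ← hs, ← hu, hσr] at e1
  rw [← hτ, ← hu]
  rw [← hu] at hγ0 hor
  have hrpos : 0 < r := by linarith
  have key : 2 * r * |u ^ 2 - 1| ≤ 6 * N ^ 2 * u * s + 3 * N ^ 3 * τ := by
    have h1 : 2 * r * |u ^ 2 - 1| ≤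
        2 * r * (6 * N ^ 2 * (1 / (2 * r)) * u * s + 3 * N ^ 3 * (1 / (2 * r)) * τ) :=
      mul_le_mul_of_nonneg_left e1 (by linarith)
    have h2 : 2 * r * (6 * N ^ 2 * (1 / (2 * r)) * u * s + 3 * N ^ 3 * (1 / (2 * r)) * τ) =
        6 * N ^ 2 * u * s + 3 * N ^ 3 * τ := by
      field_simp
    linarith
  have hsum : 0 ≤ 6 * N ^ 2 * s := by positivity
  rcases le_or_gt u 1 with h1 | h1
  · -- first case
    have hb1 : u ^ 2 ≤ 1 := by nlinarith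
    have hb0 : 0 ≤ u ^ 2 := sq_nonneg u
    obtain ⟨f1, f2⟩ := hE0.1 r (u ^ 2) (by linarith) hb0 hb1
    have h2 : |u ^ 2 - 1| = 1 - u ^ 2 := by
      rw [abs_of_nonpos (by linarith)]
      ring
    rw [h2] at key
    have h3 : 6 * N ^ 2 * u * s ≤ 6 * N ^ 2 * s := by
      calc 6 * N ^ 2 * u * s = u * (6 * N ^ 2 * s) := by ring
        _ ≤ 1 * (6 * N ^ 2 * s) := mul_le_mul_of_nonneg_right h1 hsum
        _ = 6 * N ^ 2 * s := one_mul _
    rcases caseA N r (1 - u ^ 2) s τ hN1 hr6 (by linarith) hτs hs0 (by linarith) with h4 | h4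
    · calc ph r (u ^ 2) ≤ (r - 1) * 1 := by linarith
        _ ≤ (r - 1) * τ := mul_le_mul_of_nonneg_left h4 (by linarith)
    · calc ph r (u ^ 2) ≤ r * (r - 1) / 2 * (1 - u ^ 2) ^ 2 := f1
        _ = (r - 1) * (r / 2 * (1 - u ^ 2) ^ 2) := by ring
        _ ≤ (r - 1) * τ := mul_le_mul_of_nonneg_left h4 (by linarith)
  · -- second case
    have hb1 : 1 ≤ u ^ 2 := by nlinarith
    have hγn : (γ n) ^ 2 ≤ u ^ 2 := by
      rcases hor with h | h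
      · exact absurd h (not_le.2 h1)
      · exact h
    have e2 := hE2 n (1 / p) γ hn hσ0 (by
      rw [div_mul_eq_mul_div, one_mul, div_le_one (by linarith), ← hN]
      nlinarith) hΛ (hu ▸ hγ0) (hu ▸ hγn)
    rw [← hN, ← hu, hσr] at e2
    have hd2 : r * (u ^ 2 - 1) ≤ 25 * N ^ 2 := by
      have h2 : r * (u ^ 2 - 1) ≤ r * (50 * N ^ 2 * (1 / (2 * r))) :=
        mul_le_mul_of_nonneg_left (by linarith) hrpos.le
      have h3 : r * (50 * N ^ 2 * (1 / (2 * r))) = 25 * N ^ 2 := by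
        field_simp
        ring
      linarith
    have hu2 : u ≤ 2 := by
      by_contra hu2
      push Not at hu2
      have h2 : 3 ≤ u ^ 2 - 1 := by nlinarith
      have h3 : r * 3 ≤ r * (u ^ 2 - 1) := mul_le_mul_of_nonneg_left h2 hrpos.le
      have h4 : 72 * N ^ 2 ≤ r := by linarith
      have h5 : 1 ≤ N ^ 2 := one_le_pow₀ hN1
      linarith
    have f1 := hE0.2 r (u ^ 2) (by linarith) hb1
    have h2 : |u ^ 2 - 1| = u ^ 2 - 1 := abs_of_nonneg (by linarith)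
    rw [h2] at key
    have h3 : 6 * N ^ 2 * u * s ≤ 12 * N ^ 2 * s := by
      calc 6 * N ^ 2 * u * s = u * (6 * N ^ 2 * s) := by ring
        _ ≤ 2 * (6 * N ^ 2 * s) := mul_le_mul_of_nonneg_right hu2 hsum
        _ = 12 * N ^ 2 * s := by ring
    have h4 := caseB N r (u ^ 2 - 1) s τ M hN1 hM1 hrM (by linarith) hτs hs0 (by linarith) hd2
    have hpow : (u ^ 2) ^ r ≤ M := by
      have h5 : u ^ 2 ≤ Real.exp (u ^ 2 - 1) := by
        have := Real.add_one_le_exp (u ^ 2 - 1)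
        linarith
      calc (u ^ 2) ^ r ≤ (Real.exp (u ^ 2 - 1)) ^ r :=
            Real.rpow_le_rpow (by positivity) h5 hrpos.le
        _ = Real.exp ((u ^ 2 - 1) * r) := by rw [← Real.exp_mul]
        _ ≤ M := by
            rw [hM]
            apply Real.exp_le_exp.2
            linarith
    have h5 : 0 ≤ r * (r - 1) / 2 * (u ^ 2 - 1) ^ 2 := by
      have : 0 ≤ r - 1 := by linarith
      positivity
    calc ph r (u ^ 2) ≤ r * (r - 1) / 2 * (u ^ 2) ^ r * (u ^ 2 - 1) ^ 2 := f1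
      _ = (u ^ 2) ^ r * (r * (r - 1) / 2 * (u ^ 2 - 1) ^ 2) := by ring
      _ ≤ M * (r * (r - 1) / 2 * (u ^ 2 - 1) ^ 2) := mul_le_mul_of_nonneg_right hpow h5
      _ = (r - 1) * (r / 2 * M * (u ^ 2 - 1) ^ 2) := by ring
      _ ≤ (r - 1) * τ := mul_le_mul_of_nonneg_left h4 (by linarith)

end Pool.Agent.Y282.RB.E3
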