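import Pool.Agent.Y282.RB.Stm3

/-!
Project RB (helper282), job RB-F (helper310): near-extremals in the plane.
-/

set_option autoImplicit false

open MeasureTheory Set Filter Topology

namespace Pool.Agent.Y282.RB.F

theorem smooth_iter {f : ℝ → ℝ} (hf : ContDiff ℝ (⊤ : ℕ∞) f) (n : ℕ) :
    ContDiff ℝ (⊤ : ℕ∞) (iteratedDeriv n f) := by
  induction n with
  | zero => rwa [iteratedDeriv_zero]
  | succ n ih =>
    rw [iteratedDeriv_succ]
    have h : ContDiff ℝ ((⊤ : ℕ∞) + 1 : WithTop ℕ∞) (iteratedDeriv n f) := ih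
    exact (contDiff_succ_iff_deriv.1 h).2.2

theorem cpt_iter {f : ℝ → ℝ} (hf : HasCompactSupport f) (n : ℕ) :
    HasCompactSupport (iteratedDeriv n f) := by
  induction n with
  | zero => rwa [iteratedDeriv_zero]
  | succ n ih =>
    rw [iteratedDeriv_succ]
    exact ih.deriv

/-- complexification commutes with iterated derivatives -/
theorem iter_ofReal {f : ℝ → ℝ} (hf : ContDiff ℝ (⊤ : ℕ∞) f) (n : ℕ) :
    iteratedDeriv n (fun x => ((f x : ℝ) : ℂ)) = fun x => ((iteratedDeriv n f x : ℝ) : ℂ) := by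
  induction n with
  | zero => simp
  | succ n ih =>
    rw [iteratedDeriv_succ, ih, iteratedDeriv_succ]
    funext x
    have h1 : DifferentiableAt ℝ (iteratedDeriv n f) x :=
      ((smooth_iter hf n).differentiable (by norm_num)).differentiableAt
    exact h1.hasDerivAt.ofReal_comp.deriv

theorem main : S_F := by
  intro h2 h3 h1 n p c hn hp hc hcC
  obtain ⟨h, hh, hhc, hlt⟩ := h1 n p c hn hp hc hcC
  have hp0 : 0 < p := by linarith
  set g0 : ℝ → ℝ := iteratedDeriv n h with hg0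
  set F0 : ℝ → ℝ := iteratedDeriv n (fun t => t ^ n * h t) with hF0
  have hg0s : ContDiff ℝ (⊤ : ℕ∞) g0 := smooth_iter hh n
  have hg0c : HasCompactSupport g0 := cpt_iter hhc n
  have hts : ContDiff ℝ (⊤ : ℕ∞) (fun t => t ^ n * h t) := (contDiff_id.pow n).mul hh
  have htc : HasCompactSupport (fun t => t ^ n * h t) := hhc.mul_left
  have hF0s : ContDiff ℝ (⊤ : ℕ∞) F0 := smooth_iter hts n
  have hF0c : HasCompactSupport F0 := cpt_iter htc n
  have bd : ∀ f : ℝ → ℝ, HasCompactSupport f → ∃ R : ℝ, ∀ x, R ≤ x → f x = 0 := by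
    intro f hf
    obtain ⟨R, hR⟩ := hf.isCompact.isBounded.subset_closedBall 0
    refine ⟨R + 1, fun x hx => ?_⟩
    by_contra hne
    have := hR (subset_tsupport f hne)
    rw [Metric.mem_closedBall, dist_zero_right, Real.norm_eq_abs] at this
    have := le_abs_self x
    linarith
  refine ⟨fun x => ((g0 x : ℝ) : ℂ), Complex.ofRealCLM.contDiff.comp hg0s, ?_, ?_⟩
  · exact hg0c.comp_left (g := fun y : ℝ => (y : ℂ)) (by simp)
  -- the transform
  have hT : Tn n (rad n (fun x => ((g0 x : ℝ) : ℂ))) = fun z => ((F0 (Complex.normSq z) : ℝ) : ℂ) := by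
    funext z
    obtain ⟨R, hR⟩ := bd h hhc
    have e := h2 n (fun x => ((h x : ℝ) : ℂ)) (Complex.ofRealCLM.contDiff.comp hh)
      ⟨R, fun x hx => by simp [hR x hx]⟩ z
    rw [iter_ofReal hh n] at e
    rw [e]
    have e2 : (fun t : ℝ => (t : ℂ) ^ n * ((h t : ℝ) : ℂ)) = fun t : ℝ => ((t ^ n * h t : ℝ) : ℂ) := by
      funext t
      push_cast
      ring
    rw [e2, iter_ofReal hts n]
  have e1 : eLpNorm (Tn n (rad n (fun x => ((g0 x : ℝ) : ℂ)))) (ENNReal.ofReal p) (volume : Measure ℂ) =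
      ENNReal.ofReal ((Real.pi * ∫ x in Ioi (0 : ℝ), |F0 x| ^ p) ^ (1 / p)) := by
    rw [hT, ← h3 p hp.le F0 hF0s.continuous (bd F0 hF0c)]
    refine eLpNorm_congr_norm_ae (Eventually.of_forall fun z => ?_)
    simp
  have e3 : eLpNorm (rad n (fun x => ((g0 x : ℝ) : ℂ))) (ENNReal.ofReal p) (volume : Measure ℂ) =
      ENNReal.ofReal ((Real.pi * ∫ x in Ioi (0 : ℝ), |x ^ n * g0 x| ^ p) ^ (1 / p)) := by
    have hs : HasCompactSupport (fun x : ℝ => x ^ n * g0 x) := hg0c.mul_left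
    rw [← h3 p hp.le (fun x => x ^ n * g0 x) ((continuous_id.pow n).mul hg0s.continuous) (bd _ hs)]
    refine eLpNorm_congr_norm_ae (Eventually.of_forall fun z => ?_)
    unfold rad
    simp only [norm_mul, norm_pow, pow_mul, Complex.norm_real, Real.norm_eq_abs,
      abs_of_nonneg (Complex.normSq_nonneg z), Complex.sq_norm]
  rw [e1, e3, ← ENNReal.ofReal_mul hc]
  have hI1 : 0 ≤ ∫ x in Ioi (0 : ℝ), |F0 x| ^ p := integral_nonneg fun x => by positivity
  have hI2 : 0 ≤ ∫ x in Ioi (0 : ℝ), |x ^ n * g0 x| ^ p := integral_nonneg fun x => by positivity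
  have hpi := Real.pi_pos
  have e4 : c * (Real.pi * ∫ x in Ioi (0 : ℝ), |x ^ n * g0 x| ^ p) ^ (1 / p)
      = (c ^ p * (Real.pi * ∫ x in Ioi (0 : ℝ), |x ^ n * g0 x| ^ p)) ^ (1 / p) := by
    symm
    rw [Real.mul_rpow (Real.rpow_nonneg hc p) (by positivity), ← Real.rpow_mul hc,
      mul_one_div_cancel hp0.ne', Real.rpow_one]
  have hcp : 0 ≤ c ^ p := Real.rpow_nonneg hc p
  have hlt2 : c ^ p * (Real.pi * ∫ x in Ioi (0 : ℝ), |x ^ n * g0 x| ^ p) <
      Real.pi * ∫ x in Ioi (0 : ℝ), |F0 x| ^ p := by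
    have := mul_lt_mul_of_pos_left hlt hpi
    linarith
  have hpos : 0 < Real.pi * ∫ x in Ioi (0 : ℝ), |F0 x| ^ p :=
    lt_of_le_of_lt (by positivity) hlt2
  rw [e4]
  rw [ENNReal.ofReal_lt_ofReal_iff (Real.rpow_pos_of_pos hpos _)]
  exact Real.rpow_lt_rpow (by positivity) hlt2 (by positivity)

end Pool.Agent.Y282.RB.F
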