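import Pool.Agent.Y282.RB.Stm2

/-!
# Project RB (helper282): the pointwise inequality for `n = 2` and `2 ≤ p ≤ 4`; sharpness

Throughout `σ = 1 / p`, `r = p / 2 = 1 / (2 σ)`, `s = r - 1`.
-/

set_option autoImplicit false

open MeasureTheory Set

namespace Pool.Agent.Y282.RB

/-- `(b ^ s - 1) / s` -/
noncomputable def qq (s b : ℝ) : ℝ := (b ^ s - 1) / s

/-- node condition for the tangent `b ↦ b H(ν) - ν` at `b` -/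
def Node (σ ν b : ℝ) : Prop := qq (1 / (2 * σ) - 1) b ≤ HH σ ν + 1 - (1 + ν) / b

def S_G0 : Prop := ∀ σ : ℝ, 1 / 4 ≤ σ → σ < 1 / 2 →
  16 - 12 * σ ≤ (10 : ℝ) ^ (2 * σ) * (1 + (1 - 2 * σ) * HH σ 15)

def S_G4 : Prop := ∀ σ : ℝ, 1 / 4 ≤ σ → σ ≤ 1 / 3 →
  Node σ 15 (25 / 4) ∧ Node σ 40 (25 / 4) ∧ Node σ 40 9 ∧ Node σ 60 9 ∧ Node σ 60 (49 / 4)

def S_G3 : Prop := ∀ σ : ℝ, 1 / 3 ≤ σ → σ ≤ 2 / 5 →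
  Node σ 15 9 ∧ Node σ 25 9 ∧ Node σ 25 16 ∧ Node σ 60 16 ∧ Node σ 60 25

def S_G2 : Prop := ∀ σ : ℝ, 2 / 5 ≤ σ → σ ≤ 4 / 9 →
  Node σ 15 16 ∧ Node σ 35 16 ∧ Node σ 35 36

def S_G1 : Prop := ∀ σ : ℝ, 4 / 9 ≤ σ → σ < 1 / 2 →
  Node σ 15 16 ∧ Node σ 32 16 ∧ Node σ 32 49

/-- the range `x ≤ X(σ)` treated by tangents -/
noncomputable def XX (σ : ℝ) : ℝ :=
  if σ ≤ 1 / 3 then 7 / 2 else if σ ≤ 2 / 5 then 5 else if σ ≤ 4 / 9 then 6 else 7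

/-- the inequality for `x ≤ X(σ)` -/
def Low (σ X : ℝ) : Prop := ∀ x y z : ℝ, 0 ≤ x → x ≤ X → L2 σ x y z = 1 →
  ph (1 / (2 * σ)) (x ^ 2) ≤ (1 / (2 * σ) - 1) * T2 x y z

def S_G : Prop := S_D1 → S_D2w → S_D2b → S_G0 → S_G1 → S_G2 → S_G3 → S_G4 →
  ∀ σ : ℝ, 1 / 4 ≤ σ → σ < 1 / 2 → Low σ (XX σ)

/-! ### large `x` : convexity in `x` -/

noncomputable def CC (σ : ℝ) : ℝ := (1 - σ) * (2 - σ) / (σ * (1 + σ))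

noncomputable def el (σ : ℝ) : ℝ :=
  Real.sqrt ((2 - σ) ^ 2 / pa σ + 9 * σ ^ 2 / pb σ) / (σ * (1 + σ))

def Hi (σ X : ℝ) : Prop := 0 < CC σ - el σ / X ∧
  1 ≤ (CC σ) ^ 2 * (CC σ - el σ / X) ^ (1 / σ - 2)

def Hii (σ X : ℝ) : Prop :=
  ((CC σ * (1 / σ - 1) - X ^ (-(1 / σ - 2))) * (2 - σ) + (1 - 2 * σ) * X ^ (-(1 / σ - 2))) ^ 2 / pa σ
    + 9 * (σ * (CC σ * (1 / σ - 1) - X ^ (-(1 / σ - 2))) - (1 - 2 * σ) * X ^ (-(1 / σ - 2))) ^ 2 / pb σ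
    ≤ (X * (CC σ - 1) * (1 + CC σ * (1 / σ - 1)) * (σ * (1 + σ))) ^ 2

def S_Hi : Prop := ∀ σ : ℝ, 1 / 4 ≤ σ → σ < 1 / 2 → Hi σ (XX σ)

def S_Hii4 : Prop := ∀ σ : ℝ, 1 / 4 ≤ σ → σ ≤ 1 / 3 → Hii σ (7 / 2)
def S_Hii3 : Prop := ∀ σ : ℝ, 1 / 3 ≤ σ → σ ≤ 2 / 5 → Hii σ 5
def S_Hii2 : Prop := ∀ σ : ℝ, 2 / 5 ≤ σ → σ ≤ 4 / 9 → Hii σ 6
def S_Hii1 : Prop := ∀ σ : ℝ, 4 / 9 ≤ σ → σ < 1 / 2 → Hii σ 7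

/-- the inequality for `x ≥ X` -/
def Up (σ X : ℝ) : Prop := ∀ x y z : ℝ, X ≤ x → L2 σ x y z = 1 →
  x ^ (1 / σ) - |z| ^ (1 / σ) ≤ (1 / σ) * (((1 - σ) * x + σ * y) * (x - y)
    + (((2 - σ) * y + (1 + σ) * z) / 3) * (y - z))

def S_Hup : Prop := ∀ σ X : ℝ, 0 < σ → σ < 1 / 2 → 1 ≤ X → Hi σ X → Hii σ X → Low σ X → Up σ X

/-- reduction with both alternatives -/
def S_C1 : Prop := ∀ (n : ℕ) (p : ℝ), 1 ≤ n → 2 < p →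
  (∀ γ : ℕ → ℝ, Lam (1 / p) n γ = 1 → 0 ≤ γ 0 →
    (ph (p / 2) ((γ 0) ^ 2) ≤ (p / 2 - 1) * TT n γ ∨
      |γ 0| ^ p - |γ n| ^ p ≤ p * ∑ j ∈ Finset.range n, yy (1 / p) γ j * (γ j - γ (j + 1)))) →
  Star n p

/-- the pointwise inequality for `n = 2` and `2 ≤ p < 4` -/
def S_J : Prop := S_C1 → (∀ σ : ℝ, 1 / 4 ≤ σ → σ < 1 / 2 → Low σ (XX σ) ∧ Up σ (XX σ)) →
  ∀ p : ℝ, 2 ≤ p → p ≤ 4 → Star 2 p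

/-! ### sharpness -/

/-- near-extremals on the half-line -/
def S_F1 : Prop := ∀ (n : ℕ) (p c : ℝ), 1 ≤ n → 1 < p → 0 ≤ c → c < Cn p n →
  ∃ h : ℝ → ℝ, ContDiff ℝ (⊤ : ℕ∞) h ∧ HasCompactSupport h ∧
    c ^ p * ∫ x in Ioi (0 : ℝ), |x ^ n * iteratedDeriv n h x| ^ p
      < ∫ x in Ioi (0 : ℝ), |iteratedDeriv n (fun t => t ^ n * h t) x| ^ p

/-- near-extremals in the plane -/
def S_F : Prop := S_A2 → S_A3 → S_F1 → ∀ (n : ℕ) (p c : ℝ), 1 ≤ n → 1 < p → 0 ≤ c → c < Cn p n →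
  ∃ g : ℝ → ℂ, ContDiff ℝ (⊤ : ℕ∞) g ∧ HasCompactSupport g ∧
    ENNReal.ofReal c * eLpNorm (rad n g) (ENNReal.ofReal p) (volume : Measure ℂ)
      < eLpNorm (Tn n (rad n g)) (ENNReal.ofReal p) (volume : Measure ℂ)

end Pool.Agent.Y282.RB
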