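import Mathlib
import Pool.Agent.Y282.RB.Stm3
import Pool.Agent.Y282.RB.B1

/-!
# RB-F1: near-extremals on the half-line (helper564)
-/

set_option autoImplicit false

open MeasureTheory Set

namespace Pool.Agent.Y282.RB.F1

open Pool.Agent.Y282.RB Pool.Agent.Y282.RB.B1

/-- the operators `∏ (a j - σ + ε ∂)` in the variables `(ε, t)` -/
noncomputable def Ph (a : ℕ → ℝ) (σ : ℝ) (η : ℝ → ℝ) : ℕ → ℝ × ℝ → ℝ
  | 0 => fun q => η q.2
  | k + 1 => fun q => (a k - σ) * Ph a σ η k q + q.1 * fderiv ℝ (Ph a σ η k) q (0, 1)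

section

variable {a : ℕ → ℝ} {σ : ℝ} {η : ℝ → ℝ}

theorem smooth_Ph (hη : ContDiff ℝ (⊤ : ℕ∞) η) (k : ℕ) : ContDiff ℝ (⊤ : ℕ∞) (Ph a σ η k) := by
  induction k with
  | zero => exact hη.comp contDiff_snd
  | succ k ih =>
    have h1 : ContDiff ℝ (⊤ : ℕ∞) (fderiv ℝ (Ph a σ η k)) := by
      refine ih.fderiv_right ?_
      have e : ((⊤ : ℕ∞) + 1 : WithTop ℕ∞) = ((⊤ : ℕ∞) : WithTop ℕ∞) := rfl
      rw [e]
    exact (contDiff_const.mul ih).add (contDiff_fst.mul (h1.clm_apply contDiff_const))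

theorem deriv_Ph (hη : ContDiff ℝ (⊤ : ℕ∞) η) (k : ℕ) (ε t : ℝ) :
    HasDerivAt (fun s => Ph a σ η k (ε, s)) (fderiv ℝ (Ph a σ η k) (ε, t) (0, 1)) t := by
  have h1 : HasFDerivAt (Ph a σ η k) (fderiv ℝ (Ph a σ η k) (ε, t)) (ε, t) :=
    (((smooth_Ph hη k).differentiable (by norm_num)) (ε, t)).hasFDerivAt
  have h2 : HasDerivAt (fun s : ℝ => ((ε, s) : ℝ × ℝ)) (0, 1) t :=
    (hasDerivAt_const t ε).prodMk (hasDerivAt_id t)
  exact HasFDerivAt.comp_hasDerivAt t h1 h2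

theorem zero_Ph (h0 : ∀ t, t ∉ Icc (0 : ℝ) 1 → η t = 0) (k : ℕ) :
    ∀ ε t, t ∉ Icc (0 : ℝ) 1 → Ph a σ η k (ε, t) = 0 := by
  induction k with
  | zero => exact fun ε t ht => h0 t ht
  | succ k ih =>
    intro ε t ht
    have h1 : Ph a σ η k =ᶠ[nhds (ε, t)] fun _ => (0 : ℝ) := by
      have h2 : (Prod.snd ⁻¹' (Icc (0 : ℝ) 1)ᶜ : Set (ℝ × ℝ)) ∈ nhds (ε, t) :=
        (isClosed_Icc.isOpen_compl.preimage continuous_snd).mem_nhds ht
      filter_upwards [h2] with q hq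
      exact ih q.1 q.2 hq
    show (a k - σ) * Ph a σ η k (ε, t) + ε * fderiv ℝ (Ph a σ η k) (ε, t) (0, 1) = 0
    rw [ih ε t ht, h1.fderiv_eq]
    simp

theorem at0_Ph (k : ℕ) (t : ℝ) :
    Ph a σ η k (0, t) = (∏ j ∈ Finset.range k, (a j - σ)) * η t := by
  induction k with
  | zero => simp [Ph]
  | succ k ih =>
    show (a k - σ) * Ph a σ η k (0, t) + 0 * fderiv ℝ (Ph a σ η k) (0, t) (0, 1) = _
    rw [ih, Finset.prod_range_succ]
    ring

theorem chain (hη : ContDiff ℝ (⊤ : ℕ∞) η) {n : ℕ} {ε : ℝ} {f : ℕ → ℝ → ℝ}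
    (hf0 : ∀ x, 0 < x → f 0 x = x ^ (-σ) * η (ε * Real.log x))
    (hfs : ∀ k, k < n → f (k + 1) = Da (a k) (f k)) :
    ∀ k, k ≤ n → ∀ x, 0 < x → f k x = x ^ (-σ) * Ph a σ η k (ε, ε * Real.log x) := by
  intro k
  induction k with
  | zero => exact fun _ => hf0
  | succ k ih =>
    intro hk x hx
    have ih' := ih (by omega)
    rw [hfs k (by omega)]
    have h1 : f k =ᶠ[nhds x] fun y => y ^ (-σ) * Ph a σ η k (ε, ε * Real.log y) := by
      filter_upwards [Ioi_mem_nhds hx] with y hy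
      exact ih' y hy
    have h2 : HasDerivAt (fun y : ℝ => y ^ (-σ)) (-σ * x ^ (-σ - 1)) x :=
      Real.hasDerivAt_rpow_const (Or.inl hx.ne')
    have h3 : HasDerivAt (fun y : ℝ => ε * Real.log y) (ε * x⁻¹) x :=
      (Real.hasDerivAt_log hx.ne').const_mul ε
    have h4 : HasDerivAt (fun y : ℝ => Ph a σ η k (ε, ε * Real.log y))
        (fderiv ℝ (Ph a σ η k) (ε, ε * Real.log x) (0, 1) * (ε * x⁻¹)) x :=
      HasDerivAt.comp x (h₂ := fun s => Ph a σ η k (ε, s)) (h := fun y => ε * Real.log y)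
        (deriv_Ph hη k ε (ε * Real.log x)) h3
    have h5 := h2.mul h4
    show x * deriv (f k) x + a k * f k x = _
    rw [h1.deriv_eq, ih' x hx]
    have h6 : deriv (fun y => y ^ (-σ) * Ph a σ η k (ε, ε * Real.log y)) x = _ := h5.deriv
    rw [h6]
    show _ = x ^ (-σ) * ((a k - σ) * Ph a σ η k (ε, ε * Real.log x) +
      ε * fderiv ℝ (Ph a σ η k) (ε, ε * Real.log x) (0, 1))
    have h7 : x ^ (-σ - 1) = x ^ (-σ) * x⁻¹ := by
      rw [Real.rpow_sub_one hx.ne', div_eq_mul_inv]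
    rw [h7]
    field_simp
    ring

end

theorem int_eq {p σ ε : ℝ} (hσ : σ * p = 1) (hε : 0 < ε) (φ : ℝ → ℝ) :
    ∫ x in Ioi (0 : ℝ), |x ^ (-σ) * φ (ε * Real.log x)| ^ p = ε⁻¹ * ∫ t, |φ t| ^ p := by
  have himg : (fun t : ℝ => Real.exp (ε⁻¹ * t)) '' univ = Ioi 0 := by
    ext x
    constructor
    · rintro ⟨t, -, rfl⟩
      exact Real.exp_pos _
    · intro hx
      refine ⟨ε * Real.log x, mem_univ _, ?_⟩
      show Real.exp (ε⁻¹ * (ε * Real.log x)) = x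
      rw [← mul_assoc, inv_mul_cancel₀ hε.ne', one_mul, Real.exp_log hx]
  have hinj : InjOn (fun t : ℝ => Real.exp (ε⁻¹ * t)) univ := by
    intro s _ t _ hst
    have h1 : ε⁻¹ * s = ε⁻¹ * t := Real.exp_injective hst
    exact mul_left_cancel₀ (inv_ne_zero hε.ne') h1
  have hder : ∀ t ∈ (univ : Set ℝ), HasDerivWithinAt (fun t : ℝ => Real.exp (ε⁻¹ * t))
      (Real.exp (ε⁻¹ * t) * (ε⁻¹ * 1)) univ t := fun t _ =>
    (((hasDerivAt_id t).const_mul ε⁻¹).exp).hasDerivWithinAt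
  have key := integral_image_eq_integral_abs_deriv_smul MeasurableSet.univ hder hinj
    (fun x => |x ^ (-σ) * φ (ε * Real.log x)| ^ p)
  rw [himg] at key
  rw [key, setIntegral_univ, ← integral_const_mul]
  refine integral_congr_ae (Filter.Eventually.of_forall fun t => ?_)
  have h0 := Real.exp_pos (ε⁻¹ * t)
  have hε' : 0 < ε⁻¹ := inv_pos.2 hε
  show |Real.exp (ε⁻¹ * t) * (ε⁻¹ * 1)| • |Real.exp (ε⁻¹ * t) ^ (-σ) *
    φ (ε * Real.log (Real.exp (ε⁻¹ * t)))| ^ p = ε⁻¹ * |φ t| ^ p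
  have e1 : ε * (ε⁻¹ * t) = t := by
    rw [← mul_assoc, mul_inv_cancel₀ hε.ne', one_mul]
  rw [Real.log_exp, e1, mul_one, smul_eq_mul, abs_of_pos (mul_pos h0 hε'), abs_mul, abs_of_pos (Real.rpow_pos_of_pos h0 _),
    Real.mul_rpow (Real.rpow_pos_of_pos h0 _).le (abs_nonneg _), ← Real.rpow_mul h0.le]
  have h1 : Real.exp (ε⁻¹ * t) ^ (-σ * p) = (Real.exp (ε⁻¹ * t))⁻¹ := by
    rw [show -σ * p = -1 by rw [neg_mul, hσ], Real.rpow_neg_one]
  rw [h1]
  field_simp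

/-- the integral over `[0, 1]` -/
noncomputable def KI (a : ℕ → ℝ) (σ p : ℝ) (η : ℝ → ℝ) (n : ℕ) (ε : ℝ) : ℝ :=
  ∫ t in Icc (0 : ℝ) 1, |Ph a σ η n (ε, t)| ^ p

theorem cont_KI {a : ℕ → ℝ} {σ p : ℝ} {η : ℝ → ℝ} (hη : ContDiff ℝ (⊤ : ℕ∞) η) (n : ℕ)
    (hp : 0 < p) : Continuous (KI a σ p η n) := by
  refine continuous_parametric_integral_of_continuous (f := fun ε t => |Ph a σ η n (ε, t)| ^ p) ?_
    isCompact_Icc
  have h1 : Continuous (Ph a σ η n) := (smooth_Ph hη n).continuous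
  exact h1.abs.rpow_const fun q => Or.inr hp.le

theorem KI_eq {a : ℕ → ℝ} {σ p : ℝ} {η : ℝ → ℝ} (h0 : ∀ t, t ∉ Icc (0 : ℝ) 1 → η t = 0) (n : ℕ)
    (hp : 0 < p) (ε : ℝ) : KI a σ p η n ε = ∫ t, |Ph a σ η n (ε, t)| ^ p := by
  refine setIntegral_eq_integral_of_forall_compl_eq_zero fun t ht => ?_
  rw [zero_Ph h0 n ε t ht, abs_zero, Real.zero_rpow hp.ne']

theorem KI_zero {a : ℕ → ℝ} {σ p : ℝ} {η : ℝ → ℝ} (h0 : ∀ t, t ∉ Icc (0 : ℝ) 1 → η t = 0) (n : ℕ)
    (hp : 0 < p) : KI a σ p η n 0 =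
      |∏ j ∈ Finset.range n, (a j - σ)| ^ p * ∫ t, |η t| ^ p := by
  rw [KI_eq h0 n hp, ← integral_const_mul]
  refine integral_congr_ae (Filter.Eventually.of_forall fun t => ?_)
  show |Ph a σ η n (0, t)| ^ p = _
  rw [at0_Ph, abs_mul, Real.mul_rpow (abs_nonneg _) (abs_nonneg _)]

theorem main : S_F1 := by
  intro n p c hn hp hc hcC
  have hp0 : 0 < p := by linarith
  obtain ⟨σ, hσd⟩ : ∃ σ : ℝ, σ = 1 / p := ⟨_, rfl⟩
  have hσ0 : 0 < σ := by rw [hσd]; positivity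
  have hσ1 : σ < 1 := by rw [hσd, div_lt_one hp0]; exact hp
  have hσp : σ * p = 1 := by rw [hσd]; field_simp
  -- the bump function
  obtain ⟨η, hη, hηs, hη1, hη0⟩ : ∃ η : ℝ → ℝ, ContDiff ℝ (⊤ : ℕ∞) η ∧
      (∀ t, t ∉ Ioo (1 / 4 : ℝ) (3 / 4) → η t = 0) ∧ η (1 / 2) = 1 ∧ HasCompactSupport η := by
    let f : ContDiffBump (1 / 2 : ℝ) := ⟨1 / 8, 1 / 4, by norm_num, by norm_num⟩
    refine ⟨f, f.contDiff, fun t ht => ?_, ?_, f.hasCompactSupport⟩
    · have h1 : t ∉ Function.support (f : ℝ → ℝ) := by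
        rw [f.support_eq, Real.ball_eq_Ioo]
        intro h2
        apply ht
        have h3 : f.rOut = 1 / 4 := rfl
        rw [h3] at h2
        constructor
        · have := h2.1
          linarith
        · have := h2.2
          linarith
      exact Function.notMem_support.1 h1
    · exact f.one_of_mem_closedBall (Metric.mem_closedBall_self (by norm_num))
  have hηI : ∀ t, t ∉ Icc (0 : ℝ) 1 → η t = 0 := fun t ht =>
    hηs t fun h => ht ⟨by linarith [h.1], by linarith [h.2]⟩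
  have hI : 0 < ∫ t, |η t| ^ p := by
    refine Continuous.integral_pos_of_hasCompactSupport_nonneg_nonzero (x := 1 / 2)
      (hη.continuous.abs.rpow_const fun q => Or.inr hp0.le) ?_ (fun t => by positivity) ?_
    · refine HasCompactSupport.intro (isCompact_Icc (a := (0 : ℝ)) (b := 1)) fun t ht => ?_
      rw [hηI t ht, abs_zero, Real.zero_rpow hp0.ne']
    · rw [hη1, abs_one, Real.one_rpow]
      exact one_ne_zero
  -- the products
  obtain ⟨aF, haF⟩ : ∃ aF : ℕ → ℝ, aF = fun k : ℕ => (n : ℝ) - (k : ℝ) := ⟨_, rfl⟩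
  obtain ⟨aw, haw⟩ : ∃ aw : ℕ → ℝ, aw = fun k : ℕ => -(k : ℝ) := ⟨_, rfl⟩
  have hPw : |∏ j ∈ Finset.range n, (aw j - σ)| = ∏ j ∈ Finset.range n, ((j : ℝ) + σ) := by
    rw [Finset.abs_prod]
    refine Finset.prod_congr rfl fun j _ => ?_
    rw [haw]
    have h1 : (0 : ℝ) ≤ j := Nat.cast_nonneg j
    show |-(j : ℝ) - σ| = _
    rw [show -(j : ℝ) - σ = -((j : ℝ) + σ) by ring, abs_neg, abs_of_pos (by linarith)]
  have hPF : |∏ j ∈ Finset.range n, (aF j - σ)| = ∏ j ∈ Finset.range n, ((j : ℝ) + 1 - σ) := by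
    rw [← Finset.prod_range_reflect (fun j : ℕ => (j : ℝ) + 1 - σ), Finset.abs_prod]
    refine Finset.prod_congr rfl fun j hj => ?_
    rw [Finset.mem_range] at hj
    have h1 : ((n - 1 - j : ℕ) : ℝ) + 1 = (n : ℝ) - j := by
      have h2 : n = (n - 1 - j) + (1 + j) := by omega
      have h3 : (n : ℝ) = ((n - 1 - j : ℕ) : ℝ) + (1 + j) := by exact_mod_cast h2
      rw [h3]
      ring
    rw [haF, h1]
    have h4 : (1 : ℝ) ≤ (n : ℝ) - j := by
      rw [← h1]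
      have : (0 : ℝ) ≤ ((n - 1 - j : ℕ) : ℝ) := Nat.cast_nonneg _
      linarith
    show |(n : ℝ) - j - σ| = _
    rw [abs_of_pos (by linarith)]
  have hPw0 : 0 < ∏ j ∈ Finset.range n, ((j : ℝ) + σ) :=
    Finset.prod_pos fun j _ => by
      have : (0 : ℝ) ≤ j := Nat.cast_nonneg j
      linarith
  have hcP : c * ∏ j ∈ Finset.range n, ((j : ℝ) + σ) < ∏ j ∈ Finset.range n, ((j : ℝ) + 1 - σ) := by
    have h1 : Cn p n = (∏ j ∈ Finset.range n, ((j : ℝ) + 1 - σ)) /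
        ∏ j ∈ Finset.range n, ((j : ℝ) + σ) := by
      unfold Cn
      rw [← hσd, Finset.prod_div_distrib]
    rw [h1] at hcC
    exact (lt_div_iff₀ hPw0).1 hcC
  have h00 : c ^ p * KI aw σ p η n 0 < KI aF σ p η n 0 := by
    rw [KI_zero hηI n hp0, KI_zero hηI n hp0, hPw, hPF, ← mul_assoc,
      ← Real.mul_rpow hc hPw0.le]
    exact mul_lt_mul_of_pos_right (Real.rpow_lt_rpow (by positivity) hcP hp0) hI
  -- a small epsilon
  obtain ⟨ε, hε, hlt⟩ : ∃ ε : ℝ, 0 < ε ∧ c ^ p * KI aw σ p η n ε < KI aF σ p η n ε := by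
    have ho : IsOpen {ε : ℝ | c ^ p * KI aw σ p η n ε < KI aF σ p η n ε} :=
      isOpen_lt (continuous_const.mul (cont_KI hη n hp0)) (cont_KI hη n hp0)
    obtain ⟨δ, hδ, hb⟩ := Metric.isOpen_iff.1 ho 0 h00
    refine ⟨δ / 2, by positivity, hb ?_⟩
    rw [Metric.mem_ball, Real.dist_eq, sub_zero, abs_of_pos (by positivity)]
    linarith
  -- the function
  obtain ⟨h, hhd⟩ : ∃ h : ℝ → ℝ, h = fun x => if 0 < x then x ^ (-σ) * η (ε * Real.log x) else 0 :=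
    ⟨_, rfl⟩
  have hpos : ∀ x, 0 < x → h x = x ^ (-σ) * η (ε * Real.log x) := by
    intro x hx
    rw [hhd]
    exact if_pos hx
  have hsmall : ∀ x, x < 1 → h x = 0 := by
    intro x hx
    by_cases hx0 : 0 < x
    · rw [hpos x hx0, hηs, mul_zero]
      intro h1
      have h2 : Real.log x < 0 := Real.log_neg hx0 hx
      have h3 : ε * Real.log x < 0 := mul_neg_of_pos_of_neg hε h2
      have := h1.1
      linarith
    · rw [hhd]
      exact if_neg hx0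
  have hlarge : ∀ x, Real.exp ε⁻¹ < x → h x = 0 := by
    intro x hx
    have hx0 : 0 < x := (Real.exp_pos _).trans hx
    rw [hpos x hx0, hηs, mul_zero]
    intro h1
    have h2 : ε⁻¹ < Real.log x := (Real.lt_log_iff_exp_lt hx0).2 hx
    have h3 : ε * ε⁻¹ < ε * Real.log x := mul_lt_mul_of_pos_left h2 hε
    rw [mul_inv_cancel₀ hε.ne'] at h3
    have := h1.2
    linarith
  have hsm : ContDiff ℝ (⊤ : ℕ∞) h := by
    rw [contDiff_iff_contDiffAt]
    intro x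
    by_cases hx : 0 < x
    · have h1 : ContDiffAt ℝ (⊤ : ℕ∞) (fun x : ℝ => x ^ (-σ) * η (ε * Real.log x)) x :=
        (Real.contDiffAt_rpow_const_of_ne hx.ne').mul
          (hη.contDiffAt.comp x (contDiffAt_const.mul (Real.contDiffAt_log.2 hx.ne')))
      refine h1.congr_of_eventuallyEq ?_
      filter_upwards [Ioi_mem_nhds hx] with y hy using hpos y hy
    · have h1 : ContDiffAt ℝ (⊤ : ℕ∞) (fun _ : ℝ => (0 : ℝ)) x := contDiffAt_const
      refine h1.congr_of_eventuallyEq ?_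
      have hx1 : x < 1 := by linarith [not_lt.1 hx]
      filter_upwards [Iio_mem_nhds hx1] with y hy using hsmall y hy
  have hcs : HasCompactSupport h := by
    refine HasCompactSupport.intro (isCompact_Icc (a := (1 : ℝ)) (b := Real.exp ε⁻¹))
      fun x hx => ?_
    by_cases h1 : x < 1
    · exact hsmall x h1
    · refine hlarge x ?_
      by_contra h2
      exact hx ⟨not_lt.1 h1, not_lt.1 h2⟩
  have hF := chain (a := aF) (σ := σ) hη (n := n) (ε := ε) (f := fun k => Sop n k h) hpos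
    (fun k _ => by rw [haF]; rfl) n le_rfl
  have hw := chain (a := aw) (σ := σ) hη (n := n) (ε := ε) (f := fun k => Aj h k)
    (fun x hx => by
      show x ^ 0 * iteratedDeriv 0 h x = _
      rw [pow_zero, one_mul, iteratedDeriv_zero, hpos x hx])
    (fun k _ => by
      show Aj h (k + 1) = Da (aw k) (Aj h k)
      rw [haw]
      exact (Da_Aj hsm k).symm) n le_rfl
  have hFe : iteratedDeriv n (fun t => t ^ n * h t) = Sop n n h := by
    rw [iter_Sop hsm n n le_rfl, Nat.sub_self, iteratedDeriv_zero]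
    funext x
    rw [pow_zero, one_mul]
  refine ⟨h, hsm, hcs, ?_⟩
  have i1 : ∫ x in Ioi (0 : ℝ), |x ^ n * iteratedDeriv n h x| ^ p =
      ε⁻¹ * KI aw σ p η n ε := by
    rw [KI_eq hηI n hp0, ← int_eq hσp hε]
    refine setIntegral_congr_fun measurableSet_Ioi fun x hx => ?_
    show |x ^ n * iteratedDeriv n h x| ^ p = _
    rw [show x ^ n * iteratedDeriv n h x = Aj h n x from rfl, hw x hx]
  have i2 : ∫ x in Ioi (0 : ℝ), |iteratedDeriv n (fun t => t ^ n * h t) x| ^ p =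
      ε⁻¹ * KI aF σ p η n ε := by
    rw [KI_eq hηI n hp0, ← int_eq hσp hε]
    refine setIntegral_congr_fun measurableSet_Ioi fun x hx => ?_
    show |iteratedDeriv n (fun t => t ^ n * h t) x| ^ p = _
    rw [hFe, hF x hx]
  rw [i1, i2]
  have hε' : 0 < ε⁻¹ := inv_pos.2 hε
  calc c ^ p * (ε⁻¹ * KI aw σ p η n ε) = ε⁻¹ * (c ^ p * KI aw σ p η n ε) := by ring
    _ < ε⁻¹ * KI aF σ p η n ε := mul_lt_mul_of_pos_left hlt hε'

end Pool.Agent.Y282.RB.F1
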