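import Pool.Agent.Y282.RB.Stm3
import Mathlib

/-!
# Project RB: assembly of the range `x ≤ X(σ)`
-/

set_option autoImplicit false

namespace Pool.Agent.Y282.RB.G

theorem node_iff {σ ν b : ℝ} (hb : 0 < b) (hs : 0 < 1 / (2 * σ) - 1) : Node σ ν b ↔
    b ^ (1 / (2 * σ)) ≤ b + (1 / (2 * σ) - 1) * (b * (HH σ ν + 1) - (1 + ν)) := by
  unfold Node qq
  rw [div_le_iff₀ hs, Real.rpow_sub_one hb.ne', sub_le_iff_le_add, div_le_iff₀ hb]
  have h1 : ((HH σ ν + 1 - (1 + ν) / b) * (1 / (2 * σ) - 1) + 1) * b =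
      b + (1 / (2 * σ) - 1) * (b * (HH σ ν + 1) - (1 + ν)) := by
    have h2 : (1 + ν) / b * b = 1 + ν := div_mul_cancel₀ _ hb.ne'
    linear_combination (-(1 / (2 * σ) - 1)) * h2
  rw [h1]

theorem mid {σ ν b1 b2 b : ℝ} (hs : 0 < 1 / (2 * σ) - 1) (h0 : 0 < b1)
    (n1 : Node σ ν b1) (n2 : Node σ ν b2) (h1 : b1 ≤ b) (h2 : b ≤ b2) : Node σ ν b := by
  rcases eq_or_lt_of_le (h1.trans h2) with h | h
  · have h3 : b = b1 := by linarith
    rw [h3]
    exact n1
  · rw [node_iff (by linarith) hs] at n1 n2 ⊢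
    obtain ⟨t, ht⟩ : ∃ t, t = (b - b1) / (b2 - b1) := ⟨_, rfl⟩
    have hd : 0 < b2 - b1 := by linarith
    have ht0 : 0 ≤ t := by rw [ht]; exact div_nonneg (by linarith) hd.le
    have ht1 : 0 ≤ 1 - t := by
      rw [ht, sub_nonneg, div_le_one hd]
      linarith
    have hb : (1 - t) * b1 + t * b2 = b := by
      have h3 : t * (b2 - b1) = b - b1 := by
        rw [ht]
        exact div_mul_cancel₀ _ hd.ne'
      linear_combination h3
    have hc := (convexOn_rpow (by linarith : 1 ≤ 1 / (2 * σ))).2 (Set.mem_Ici.2 h0.le)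
      (Set.mem_Ici.2 (by linarith : (0 : ℝ) ≤ b2)) ht1 ht0 (by ring)
    simp only [smul_eq_mul] at hc
    rw [hb] at hc
    have e1 := mul_le_mul_of_nonneg_left n1 ht1
    have e2 := mul_le_mul_of_nonneg_left n2 ht0
    refine hc.trans ((add_le_add e1 e2).trans (le_of_eq ?_))
    rw [← hb]
    ring

theorem main : S_G := by
  intro hD1 hD2w hD2b hG0 hG1 hG2 hG3 hG4 σ hσ hσ2 x y z hx hxX hL
  have hσ0 : 0 < σ := by linarith
  obtain ⟨r, hr⟩ : ∃ r, r = 1 / (2 * σ) := ⟨_, rfl⟩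
  have hrs : r * (2 * σ) = 1 := by rw [hr]; field_simp
  have hr1 : 1 < r := by
    by_contra h
    nlinarith
  have hs : 0 < 1 / (2 * σ) - 1 := by rw [← hr]; linarith
  have hb : (0 : ℝ) ≤ x ^ 2 := sq_nonneg x
  obtain ⟨b, hbx⟩ : ∃ b, b = x ^ 2 := ⟨_, rfl⟩
  rw [← hbx] at hb
  have hT : ∀ ν, -1 ≤ ν → b * HH σ ν - ν ≤ T2 x y z := by
    intro ν hν
    have := hD1 σ ν x y z hσ0 hσ2.le hν
    rw [hL, ← hbx] at this
    linarith
  rw [← hr, ← hbx]
  unfold ph
  rcases le_or_gt (b ^ r) 10 with hbr | hbr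
  · have hbr0 : 0 ≤ b ^ r := Real.rpow_nonneg hb r
    have h1 := hD2b σ 9 hσ0 hσ2 (by norm_num) (fun ν a1 a2 => hD2w σ ν hσ0 hσ2.le a1 a2) (b ^ r)
      hbr0 (by linarith)
    have h2 : (b ^ r) ^ (1 - 2 * σ) = b ^ (r - 1) := by
      rw [← Real.rpow_mul hb]
      congr 1
      linear_combination (-1) * hrs
    have h3 : b ^ (r - 1) * b = b ^ r := by
      have := Real.rpow_add_one' hb (y := r - 1) (by linarith)
      rw [sub_add_cancel] at this
      exact this.symm
    rw [h2, div_le_iff₀ (by linarith)] at h1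
    have h4 := hT (b ^ r - 1) (by linarith)
    have h5 : (b ^ (r - 1) - 1) * (r * b) ≤ HH σ (b ^ r - 1) * (1 - 2 * σ) * (r * b) :=
      mul_le_mul_of_nonneg_right h1 (by positivity)
    have h6 : HH σ (b ^ r - 1) * (1 - 2 * σ) * (r * b) = (r - 1) * (b * HH σ (b ^ r - 1)) := by
      linear_combination (-(HH σ (b ^ r - 1)) * b) * hrs
    have h7 : (b ^ (r - 1) - 1) * (r * b) = r * b ^ r - r * b := by
      linear_combination r * h3
    have h8 := mul_le_mul_of_nonneg_left h4 (by linarith : 0 ≤ r - 1)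
    rw [h6, h7] at h5
    linarith
  · have hbl0 : (0 : ℝ) < (10 : ℝ) ^ (2 * σ) := by positivity
    have hblr : ((10 : ℝ) ^ (2 * σ)) ^ r = 10 := by
      rw [← Real.rpow_mul (by norm_num), mul_comm, hrs, Real.rpow_one]
    have hbl : (10 : ℝ) ^ (2 * σ) ≤ b := by
      by_contra h
      push Not at h
      have : b ^ r ≤ ((10 : ℝ) ^ (2 * σ)) ^ r := Real.rpow_le_rpow hb h.le (by linarith)
      rw [hblr] at this
      linarith
    have hbpos : 0 < b := lt_of_lt_of_le hbl0 hbl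
    have hlo : Node σ 15 ((10 : ℝ) ^ (2 * σ)) := by
      rw [node_iff hbl0 hs, ← hr, hblr]
      have h1 := hG0 σ hσ hσ2
      have h2 := mul_le_mul_of_nonneg_left h1 (by linarith : 0 ≤ r)
      have h3 : r * (16 - 12 * σ) = 16 * r - 6 := by linear_combination (-6) * hrs
      have h4 : r * ((10 : ℝ) ^ (2 * σ) * (1 + (1 - 2 * σ) * HH σ 15)) =
          (10 : ℝ) ^ (2 * σ) * (r + (r - 1) * HH σ 15) := by
        linear_combination (-((10 : ℝ) ^ (2 * σ) * HH σ 15)) * hrs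
      rw [h3, h4] at h2
      linarith
    have fin : ∀ ν, -1 ≤ ν → Node σ ν b → b ^ r - 1 - r * (b - 1) ≤ (r - 1) * T2 x y z := by
      intro ν hν hn
      rw [node_iff hbpos hs, ← hr] at hn
      have h1 := mul_le_mul_of_nonneg_left (hT ν hν) (by linarith : 0 ≤ r - 1)
      linarith
    have hX : b ≤ (XX σ) ^ 2 := by
      rw [hbx]
      exact pow_le_pow_left₀ hx hxX 2
    unfold XX at hX
    split_ifs at hX with c1 c2 c3
    · obtain ⟨n1, n2, n3, n4, n5⟩ := hG4 σ hσ c1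
      norm_num at hX
      rcases le_or_gt b (25 / 4) with h | h
      · exact fin 15 (by norm_num) (mid hs hbl0 hlo n1 hbl h)
      rcases le_or_gt b 9 with h' | h'
      · exact fin 40 (by norm_num) (mid hs (by norm_num) n2 n3 h.le h')
      · exact fin 60 (by norm_num) (mid hs (by norm_num) n4 n5 h'.le hX)
    · obtain ⟨n1, n2, n3, n4, n5⟩ := hG3 σ (not_le.1 c1).le c2
      norm_num at hX
      rcases le_or_gt b 9 with h | h
      · exact fin 15 (by norm_num) (mid hs hbl0 hlo n1 hbl h)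
      rcases le_or_gt b 16 with h' | h'
      · exact fin 25 (by norm_num) (mid hs (by norm_num) n2 n3 h.le h')
      · exact fin 60 (by norm_num) (mid hs (by norm_num) n4 n5 h'.le hX)
    · obtain ⟨n1, n2, n3⟩ := hG2 σ (not_le.1 c2).le c3
      norm_num at hX
      rcases le_or_gt b 16 with h | h
      · exact fin 15 (by norm_num) (mid hs hbl0 hlo n1 hbl h)
      · exact fin 35 (by norm_num) (mid hs (by norm_num) n2 n3 h.le hX)
    · obtain ⟨n1, n2, n3⟩ := hG1 σ (not_le.1 c3).le hσ2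
      norm_num at hX
      rcases le_or_gt b 16 with h | h
      · exact fin 15 (by norm_num) (mid hs hbl0 hlo n1 hbl h)
      · exact fin 32 (by norm_num) (mid hs (by norm_num) n2 n3 h.le hX)

end Pool.Agent.Y282.RB.G
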