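import Pool.Agent.Y282.RB.Stm3

/-! Project RB, job G0. -/

set_option autoImplicit false

namespace Pool.Agent.Y282.RB.G0

open Set

/-- alternating Taylor bound -/
lemma exp_lower (t : ℝ) (ht : 0 ≤ t) :
    1 - t + t ^ 2 / 2 - t ^ 3 / 6 + t ^ 4 / 24 - t ^ 5 / 120 ≤ Real.exp (-t) := by
  have hder : ∀ x : ℝ, HasDerivAt
      (fun t => Real.exp t * (1 - t + t ^ 2 / 2 - t ^ 3 / 6 + t ^ 4 / 24 - t ^ 5 / 120))
      (Real.exp x * (-(x ^ 5 / 120))) x := by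
    intro x
    have h1 : HasDerivAt (fun t : ℝ => 1 - t + t ^ 2 / 2 - t ^ 3 / 6 + t ^ 4 / 24 - t ^ 5 / 120)
        (0 - 1 + (2 * x ^ 1) / 2 - (3 * x ^ 2) / 6 + (4 * x ^ 3) / 24 - (5 * x ^ 4) / 120) x := by
      have h2 := (hasDerivAt_const x (1 : ℝ)).sub (hasDerivAt_id x)
      have h3 := h2.add ((hasDerivAt_pow 2 x).div_const 2)
      have h4 := h3.sub ((hasDerivAt_pow 3 x).div_const 6)
      have h5 := h4.add ((hasDerivAt_pow 4 x).div_const 24)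
      have h6 := h5.sub ((hasDerivAt_pow 5 x).div_const 120)
      exact h6.congr_deriv (by norm_num)
    exact ((Real.hasDerivAt_exp x).mul h1).congr_deriv (by ring)
  have hanti : AntitoneOn
      (fun t => Real.exp t * (1 - t + t ^ 2 / 2 - t ^ 3 / 6 + t ^ 4 / 24 - t ^ 5 / 120)) (Ici 0) := by
    apply antitoneOn_of_deriv_nonpos (convex_Ici 0)
    · exact fun x _ => (hder x).continuousAt.continuousWithinAt
    · exact fun x _ => (hder x).differentiableAt.differentiableWithinAt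
    · intro x hx
      rw [interior_Ici] at hx
      rw [(hder x).deriv]
      have hx0 : 0 < x := hx
      have : 0 ≤ Real.exp x * (x ^ 5 / 120) := by positivity
      linarith
  have h := hanti (Set.mem_Ici.2 (le_refl (0:ℝ))) (Set.mem_Ici.2 ht) ht
  simp only [Real.exp_zero] at h
  rw [Real.exp_neg, ← one_div, le_div_iff₀ (Real.exp_pos t), mul_comm]
  linarith

lemma log_ten : Real.log 10 ≤ 23106 / 10000 := by
  have h1 : Real.log ((10:ℝ) ^ 3) ≤ Real.log ((2:ℝ) ^ 10) :=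
    Real.log_le_log (by norm_num) (by norm_num)
  rw [Real.log_pow, Real.log_pow] at h1
  have h2 := Real.log_two_lt_d9
  push_cast at h1
  linarith

lemma HH_lower (σ : ℝ) (h1 : 1 / 4 ≤ σ) (h2 : σ ≤ 1 / 2) :
    78 / 25 + 19 / 4 * (1 - 2 * σ) + 5 * (1 - 2 * σ) ^ 2 ≤ HH σ 15 := by
  have hm : 0 < σ * (1 - σ) := mul_pos (by linarith) (by linarith)
  set m := σ * (1 - σ) with hmdef
  have hσ : 0 < σ := by linarith
  have hs3 : 0 < 2 - σ ^ 3 := by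
    have : σ ^ 3 ≤ (1 / 2) ^ 3 := pow_le_pow_left₀ hσ.le h2 3
    norm_num at this
    linarith
  obtain ⟨N, hN⟩ : ∃ N : ℝ, N = (1 + 2 * m) ^ 2 + 15 * (m * (2 + m) * (1 - m)) := ⟨_, rfl⟩
  obtain ⟨D, hD⟩ : ∃ D : ℝ, D = 4 * (1 + 2 * m) ^ 2 + 60 * (σ * (2 - σ ^ 3)) * (1 + 2 * m) +
      225 * (m * (2 + m) * σ ^ 2 * (1 + σ) ^ 2) := ⟨_, rfl⟩
  have hD0 : 0 < D := by
    rw [hD]
    positivity
  have hom : 1 + 2 * m ≠ 0 := by positivity
  have e : HH σ 15 = 60 * N / D := by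
    have hden : 1 + cB σ * 15 + cG σ * 15 ^ 2 = D / (4 * (1 + 2 * m) ^ 2) := by
      rw [hD]
      unfold cB cG mm
      rw [← hmdef]
      field_simp
      ring
    have hnum : 15 * (1 + cA σ * 15) = 15 * N / (1 + 2 * m) ^ 2 := by
      rw [hN]
      unfold cA mm
      rw [← hmdef]
      field_simp
    unfold HH
    rw [hden, hnum]
    field_simp
    ring
  rw [e, le_div_iff₀ hD0]
  have key : 60 * N - (78 / 25 + 19 / 4 * (1 - 2 * σ) + 5 * (1 - 2 * σ) ^ 2) * D =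
      (668734262 / 25) * (σ - 1 / 4) ^ 0 * (1 / 2 - σ) ^ 10 +
        (5752951338 / 25) * (σ - 1 / 4) ^ 1 * (1 / 2 - σ) ^ 9 +
        (21277052896 / 25) * (σ - 1 / 4) ^ 2 * (1 / 2 - σ) ^ 8 +
        (44421675872 / 25) * (σ - 1 / 4) ^ 3 * (1 / 2 - σ) ^ 7 +
        (11588348352 / 5) * (σ - 1 / 4) ^ 4 * (1 / 2 - σ) ^ 6 +
        (9940591808 / 5) * (σ - 1 / 4) ^ 5 * (1 / 2 - σ) ^ 5 +
        (29117303808 / 25) * (σ - 1 / 4) ^ 6 * (1 / 2 - σ) ^ 4 +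
        (12063438336 / 25) * (σ - 1 / 4) ^ 7 * (1 / 2 - σ) ^ 3 +
        (3506867712 / 25) * (σ - 1 / 4) ^ 8 * (1 / 2 - σ) ^ 2 +
        24132096 * (σ - 1 / 4) ^ 9 * (1 / 2 - σ) ^ 1 +
        (32514048 / 25) * (σ - 1 / 4) ^ 10 * (1 / 2 - σ) ^ 0 := by
    rw [hN, hD, hmdef]
    ring
  have ha : 0 ≤ σ - 1 / 4 := by linarith
  have hb : 0 ≤ 1 / 2 - σ := by linarith
  have hpos : 0 ≤ 60 * N - (78 / 25 + 19 / 4 * (1 - 2 * σ) + 5 * (1 - 2 * σ) ^ 2) * D := by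
    rw [key]
    positivity
  linarith

lemma poly_ineq (δ : ℝ) (h0 : 0 ≤ δ) (h1 : δ ≤ 1 / 2) (t : ℝ) (ht : t = δ * (23106 / 10000)) :
    10 + 6 * δ ≤ 10 * (1 - t + t ^ 2 / 2 - t ^ 3 / 6 + t ^ 4 / 24 - t ^ 5 / 120) *
      (1 + δ * (78 / 25 + 19 / 4 * δ + 5 * δ ^ 2)) := by
  have key : 10 * (1 - t + t ^ 2 / 2 - t ^ 3 / 6 + t ^ 4 / 24 - t ^ 5 / 120) *
      (1 + δ * (78 / 25 + 19 / 4 * δ + 5 * δ ^ 2)) - (10 + 6 * δ) =
      δ * ((1047 / 500) * (2 * δ) ^ 0 * (1 - 2 * δ) ^ 7 +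
        (157098209 / 10000000) * (2 * δ) ^ 1 * (1 - 2 * δ) ^ 6 +
        (5102815323941 / 100000000000) * (2 * δ) ^ 2 * (1 - 2 * δ) ^ 5 +
        (350632565294069227 / 4000000000000000) * (2 * δ) ^ 3 * (1 - 2 * δ) ^ 4 +
        (17093716260799697121669 / 200000000000000000000) * (2 * δ) ^ 4 * (1 - 2 * δ) ^ 3 +
        (235402077637243071864391 / 5000000000000000000000) * (2 * δ) ^ 5 * (1 - 2 * δ) ^ 2 +
        (1069465808878658053600487 / 80000000000000000000000) * (2 * δ) ^ 6 * (1 - 2 * δ) ^ 1 +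
        (103703226937796266355081 / 80000000000000000000000) * (2 * δ) ^ 7 * (1 - 2 * δ) ^ 0) := by
    rw [ht]
    ring
  have hb : 0 ≤ 1 - 2 * δ := by linarith
  have hpos : 0 ≤ 10 * (1 - t + t ^ 2 / 2 - t ^ 3 / 6 + t ^ 4 / 24 - t ^ 5 / 120) *
      (1 + δ * (78 / 25 + 19 / 4 * δ + 5 * δ ^ 2)) - (10 + 6 * δ) := by
    rw [key]
    positivity
  linarith

theorem main : S_G0 := by
  intro σ h1 h2
  obtain ⟨δ, hδ⟩ : ∃ δ : ℝ, δ = 1 - 2 * σ := ⟨_, rfl⟩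
  have hδ0 : 0 ≤ δ := by linarith
  have hδ1 : δ ≤ 1 / 2 := by linarith
  have hH := HH_lower σ h1 h2.le
  rw [← hδ] at hH ⊢
  have e1 : (10 : ℝ) ^ (2 * σ) = 10 * Real.exp (-(δ * Real.log 10)) := by
    rw [Real.rpow_def_of_pos (by norm_num)]
    have e2 : Real.log 10 * (2 * σ) = Real.log 10 + -(δ * Real.log 10) := by
      rw [hδ]
      ring
    rw [e2, Real.exp_add, Real.exp_log (by norm_num)]
  obtain ⟨t, ht⟩ : ∃ t : ℝ, t = δ * (23106 / 10000) := ⟨_, rfl⟩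
  have ht0 : 0 ≤ t := by
    rw [ht]
    positivity
  have h3 : Real.exp (-t) ≤ Real.exp (-(δ * Real.log 10)) := by
    apply Real.exp_le_exp.2
    have := mul_le_mul_of_nonneg_left log_ten hδ0
    linarith
  have h4 := (exp_lower t ht0).trans h3
  have h5 := poly_ineq δ hδ0 hδ1 t ht
  have h6 : 1 + δ * (78 / 25 + 19 / 4 * δ + 5 * δ ^ 2) ≤ 1 + δ * HH σ 15 := by
    have := mul_le_mul_of_nonneg_left hH hδ0
    linarith
  have h7 : 0 ≤ 1 + δ * (78 / 25 + 19 / 4 * δ + 5 * δ ^ 2) := by positivity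
  have h8 : 0 ≤ Real.exp (-(δ * Real.log 10)) := (Real.exp_pos _).le
  rw [e1]
  calc 16 - 12 * σ = 10 + 6 * δ := by rw [hδ]; ring
    _ ≤ 10 * (1 - t + t ^ 2 / 2 - t ^ 3 / 6 + t ^ 4 / 24 - t ^ 5 / 120) *
      (1 + δ * (78 / 25 + 19 / 4 * δ + 5 * δ ^ 2)) := h5
    _ ≤ 10 * Real.exp (-(δ * Real.log 10)) *
      (1 + δ * (78 / 25 + 19 / 4 * δ + 5 * δ ^ 2)) := by
        apply mul_le_mul_of_nonneg_right _ h7
        linarith
    _ ≤ 10 * Real.exp (-(δ * Real.log 10)) * (1 + δ * HH σ 15) := by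
        apply mul_le_mul_of_nonneg_left h6
        linarith

end Pool.Agent.Y282.RB.G0
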