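import Pool.Agent.Y282.RB.Stm3

/-!
# RB-G1: nodes for `σ ∈ [4/9, 1/2)` (project RB of helper282)
-/

set_option autoImplicit false

namespace Pool.Agent.Y282.RB.G1

open Pool.Agent.Y282.RB

/-- comparison of the second remainder of the exponential function with a square -/
theorem exp_rem {t K : ℝ} (ht0 : 0 ≤ t) (ht1 : t ≤ 1) (hK : 0 ≤ K) :
    Real.exp (t * K) - 1 - t * K ≤ t ^ 2 * (Real.exp K - 1 - K) := by
  have hs : ∀ x : ℝ, HasSum (fun n : ℕ => x ^ (n + 2) / ((n + 2).factorial : ℝ))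
      (Real.exp x - 1 - x) := by
    intro x
    have h1 : HasSum (fun n : ℕ => x ^ n / (n.factorial : ℝ)) (Real.exp x) := by
      rw [Real.exp_eq_exp_ℝ]
      exact NormedSpace.expSeries_div_hasSum_exp x
    have h2 := (hasSum_nat_add_iff' (f := fun n : ℕ => x ^ n / (n.factorial : ℝ)) 2).2 h1
    have h3 : Real.exp x - ∑ i ∈ Finset.range 2, x ^ i / (i.factorial : ℝ) =
        Real.exp x - 1 - x := by
      simp [Finset.sum_range_succ]
      ring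
    rw [h3] at h2
    exact h2
  have h1 := hs (t * K)
  have h2 := (hs K).mul_left (t ^ 2)
  refine hasSum_le (fun n => ?_) h1 h2
  rw [mul_pow, ← mul_div_assoc]
  apply div_le_div_of_nonneg_right _ (by positivity)
  have h4 : t ^ (n + 2) ≤ t ^ 2 := pow_le_pow_of_le_one ht0 ht1 (by omega)
  exact mul_le_mul_of_nonneg_right h4 (pow_nonneg hK _)

/-- chord bound for `qq` -/
theorem qq_le {s b : ℝ} (hs : 0 < s) (hs8 : s ≤ 1 / 8) (hb : 1 ≤ b) :
    qq s b ≤ (1 - 8 * s) * Real.log b + 8 * s * (8 * (b ^ (1 / 8 : ℝ) - 1)) := by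
  have hb0 : 0 < b := by linarith
  have hL : 0 ≤ Real.log b := Real.log_nonneg hb
  have h1 := exp_rem (t := 8 * s) (K := Real.log b / 8) (by linarith) (by linarith) (by linarith)
  have e1 : Real.exp (8 * s * (Real.log b / 8)) = b ^ s := by
    rw [Real.rpow_def_of_pos hb0]; congr 1; ring
  have e2 : Real.exp (Real.log b / 8) = b ^ (1 / 8 : ℝ) := by
    rw [Real.rpow_def_of_pos hb0]; congr 1; ring
  rw [e1, e2] at h1
  unfold qq
  rw [div_le_iff₀ hs]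
  nlinarith [h1]

theorem node_of {σ ν b L Q : ℝ} (h1 : 4 / 9 ≤ σ) (h2 : σ < 1 / 2) (hν : 0 ≤ ν) (hb : 1 ≤ b)
    (hL : Real.log b ≤ L) (hQ : 8 * (b ^ (1 / 8 : ℝ) - 1) ≤ Q)
    (h : (σ * (L - 8 * (Q - L) + (1 + ν) / b - 1) + 4 * (Q - L)) *
      ((1 + 2 * (σ * (1 - σ))) ^ 2 + σ * (2 - σ ^ 3) * (1 + 2 * (σ * (1 - σ))) * ν +
        (σ * (1 - σ)) * (2 + σ * (1 - σ)) * σ ^ 2 * (1 + σ) ^ 2 / 4 * ν ^ 2) ≤
      σ * (ν * ((1 + 2 * (σ * (1 - σ))) ^ 2 +
        (σ * (1 - σ)) * (2 + σ * (1 - σ)) * (1 - σ * (1 - σ)) * ν))) : Node σ ν b := by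
  have hσ : 0 < σ := by linarith
  have hσ1 : 0 < 1 - σ := by linarith
  have hm : 0 < σ * (1 - σ) := mul_pos hσ hσ1
  have hD : 0 < 1 + 2 * (σ * (1 - σ)) := by linarith
  have hσ3 : 0 ≤ 2 - σ ^ 3 := by
    have : σ ^ 3 ≤ 1 := pow_le_one₀ hσ.le (by linarith)
    linarith
  have hs : 0 < 1 / (2 * σ) - 1 := by
    rw [sub_pos, lt_div_iff₀ (by linarith)]; linarith
  have hs8 : 1 / (2 * σ) - 1 ≤ 1 / 8 := by
    rw [sub_le_iff_le_add, div_le_iff₀ (by linarith)]; linarith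
  have hq := qq_le hs hs8 hb
  have hq2 : qq (1 / (2 * σ) - 1) b ≤ (1 - 8 * (1 / (2 * σ) - 1)) * L +
      8 * (1 / (2 * σ) - 1) * Q := by
    refine hq.trans (add_le_add ?_ ?_)
    · exact mul_le_mul_of_nonneg_left hL (by linarith)
    · exact mul_le_mul_of_nonneg_left hQ (by linarith)
  unfold Node
  refine hq2.trans ?_
  set D := (1 + 2 * (σ * (1 - σ))) ^ 2 with hDdef
  have hDp : 0 < D := by rw [hDdef]; positivity
  set den := D + σ * (2 - σ ^ 3) * (1 + 2 * (σ * (1 - σ))) * ν +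
        (σ * (1 - σ)) * (2 + σ * (1 - σ)) * σ ^ 2 * (1 + σ) ^ 2 / 4 * ν ^ 2 with hden
  set num := ν * (D + (σ * (1 - σ)) * (2 + σ * (1 - σ)) * (1 - σ * (1 - σ)) * ν) with hnum
  have hdenp : 0 < den := by
    have h3 : 0 ≤ σ * (2 - σ ^ 3) * (1 + 2 * (σ * (1 - σ))) * ν := by positivity
    have h4 : 0 ≤ (σ * (1 - σ)) * (2 + σ * (1 - σ)) * σ ^ 2 * (1 + σ) ^ 2 / 4 * ν ^ 2 := by
      positivity
    rw [hden]; linarith
  have hHH : HH σ ν = num / den := by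
    have e1 : 1 + cB σ * ν + cG σ * ν ^ 2 = den / D := by
      rw [hden, hDdef]
      unfold cB cG mm
      field_simp
      try ring
    have e2 : ν * (1 + cA σ * ν) = num / D := by
      rw [hnum, hDdef]
      unfold cA mm
      field_simp
      try ring
    unfold HH
    rw [e1, e2, div_div_div_cancel_right₀ hDp.ne']
  rw [hHH]
  have e3 : (1 - 8 * (1 / (2 * σ) - 1)) * L + 8 * (1 / (2 * σ) - 1) * Q =
      (σ * (L - 8 * (Q - L) + (1 + ν) / b - 1) + 4 * (Q - L)) / σ + 1 - (1 + ν) / b := by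
    field_simp
    ring
  rw [e3]
  have h5 : (σ * (L - 8 * (Q - L) + (1 + ν) / b - 1) + 4 * (Q - L)) / σ ≤ num / den := by
    rw [div_le_div_iff₀ hσ hdenp]
    linarith
  linarith

theorem log16 : Real.log 16 ≤ 2773 / 1000 := by
  have h1 : (16 : ℝ) = 2 ^ 4 := by norm_num
  rw [h1, Real.log_pow]
  have := Real.log_two_lt_d9
  push_cast
  linarith

theorem log49 : Real.log 49 ≤ 39 / 10 := by
  rw [Real.log_le_iff_le_exp (by norm_num)]
  have h1 : (49 : ℝ) ^ 10 ≤ (Real.exp (39 / 10)) ^ 10 := by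
    rw [← Real.exp_nat_mul]
    have h2 : ((10 : ℕ) : ℝ) * (39 / 10) = (39 : ℕ) * 1 := by push_cast; norm_num
    rw [h2, Real.exp_nat_mul]
    have h3 : (2.7182818283 : ℝ) ≤ Real.exp 1 := Real.exp_one_gt_d9.le
    calc (49 : ℝ) ^ 10 ≤ 2.7182818283 ^ 39 := by norm_num
      _ ≤ (Real.exp 1) ^ 39 := pow_le_pow_left₀ (by norm_num) h3 39
  exact le_of_pow_le_pow_left₀ (by norm_num) (Real.exp_pos _).le h1

theorem root_le {x c : ℝ} (hx : 0 ≤ x) (hc : 0 ≤ c) (h : x ≤ c ^ 8) :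
    x ^ (1 / 8 : ℝ) ≤ c := by
  calc x ^ (1 / 8 : ℝ) ≤ (c ^ 8) ^ (1 / 8 : ℝ) := Real.rpow_le_rpow hx h (by norm_num)
    _ = c := by
      rw [← Real.rpow_natCast, ← Real.rpow_mul hc]
      norm_num

theorem root16 : 8 * ((16 : ℝ) ^ (1 / 8 : ℝ) - 1) ≤ 3314 / 1000 := by
  have h1 : (16 : ℝ) ^ (1 / 8 : ℝ) ≤ 1 + 3314 / 8000 :=
    root_le (by norm_num) (by norm_num) (by norm_num)
  linarith

theorem root49 : 8 * ((49 : ℝ) ^ (1 / 8 : ℝ) - 1) ≤ 502 / 100 := by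
  have h1 : (49 : ℝ) ^ (1 / 8 : ℝ) ≤ 1 + 502 / 800 :=
    root_le (by norm_num) (by norm_num) (by norm_num)
  linarith

/-- RB-G1 -/
theorem main : S_G1 := by
  intro σ h1 h2
  obtain ⟨v, hv⟩ : ∃ v : ℝ, σ = 1 / 2 - v := ⟨1 / 2 - σ, by ring⟩
  have hv0 : 0 ≤ v := by linarith
  have hv1 : v ≤ 1 / 18 := by linarith
  have hk : ∀ k : ℕ, v ^ k ≤ (1 / 18) ^ k := fun k => pow_le_pow_left₀ hv0 hv1 k
  have hn : ∀ k : ℕ, 0 ≤ v ^ k := fun k => pow_nonneg hv0 k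
  have k2 := hk 2
  have k3 := hk 3
  have k4 := hk 4
  have k5 := hk 5
  have k6 := hk 6
  have k7 := hk 7
  have k8 := hk 8
  have k9 := hk 9
  have n2 := hn 2
  have n3 := hn 3
  have n4 := hn 4
  have n5 := hn 5
  have n6 := hn 6
  have n7 := hn 7
  have n8 := hn 8
  have n9 := hn 9
  norm_num at k2 k3 k4 k5 k6 k7 k8 k9
  refine ⟨node_of h1 h2 (by norm_num) (by norm_num) log16 root16 ?_,
    node_of h1 h2 (by norm_num) (by norm_num) log16 root16 ?_,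
    node_of h1 h2 (by norm_num) (by norm_num) log49 root49 ?_⟩
  · rw [hv]
    linarith
  · rw [hv]
    linarith
  · rw [hv]
    linarith

end Pool.Agent.Y282.RB.G1
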