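import Pool.Agent.Y282.RB.Stm3

/-!
# Project RB, part G2: the nodes for `2 / 5 ≤ σ ≤ 4 / 9`
-/

set_option autoImplicit false

namespace Pool.Agent.Y282.RB.G2

open Pool.Agent.Y282.RB

/-- numerator of `HH` -/
noncomputable def Nn (σ ν : ℝ) : ℝ :=
  ν * (4 * (1 + 2 * mm σ) ^ 2 + 4 * (mm σ * (2 + mm σ) * (1 - mm σ)) * ν)

/-- denominator of `HH` -/
noncomputable def Dd (σ ν : ℝ) : ℝ :=
  4 * (1 + 2 * mm σ) ^ 2 + 4 * (σ * (2 - σ ^ 3) * (1 + 2 * mm σ)) * ν +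
    mm σ * (2 + mm σ) * σ ^ 2 * (1 + σ) ^ 2 * ν ^ 2

lemma Dd_pos (σ ν : ℝ) (h : 0 < σ) (h' : σ < 1 / 2) (hν : 0 ≤ ν) : 0 < Dd σ ν := by
  have hm : 0 < mm σ := by
    unfold mm
    exact mul_pos h (by linarith)
  have h3 : 0 ≤ 2 - σ ^ 3 := by
    have : σ ^ 3 ≤ 1 := pow_le_one₀ h.le (by linarith)
    linarith
  unfold Dd
  have a1 : 0 < 4 * (1 + 2 * mm σ) ^ 2 := by positivity
  have a2 : 0 ≤ 4 * (σ * (2 - σ ^ 3) * (1 + 2 * mm σ)) * ν := by positivity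
  have a3 : 0 ≤ mm σ * (2 + mm σ) * σ ^ 2 * (1 + σ) ^ 2 * ν ^ 2 := by positivity
  linarith

lemma HH_eq (σ ν : ℝ) (h : 0 < σ) (h' : σ < 1 / 2) (hν : 0 ≤ ν) :
    HH σ ν = Nn σ ν / Dd σ ν := by
  have hm : 0 < mm σ := by
    unfold mm
    exact mul_pos h (by linarith)
  have hD := Dd_pos σ ν h h' hν
  have h2 : (1 + 2 * mm σ) ≠ 0 := by positivity
  have e1 : ν * (1 + cA σ * ν) * (4 * (1 + 2 * mm σ) ^ 2) = Nn σ ν := by
    unfold cA Nn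
    field_simp
  have e2 : (1 + cB σ * ν + cG σ * ν ^ 2) * (4 * (1 + 2 * mm σ) ^ 2) = Dd σ ν := by
    unfold cB cG Dd
    field_simp
  have h4 : 4 * (1 + 2 * mm σ) ^ 2 ≠ 0 := by positivity
  unfold HH
  rw [← e1, ← e2, mul_div_mul_right _ _ h4]

lemma root_le (b v : ℝ) (n : ℕ) (hn : n ≠ 0) (hb : 0 ≤ b) (hv : 0 ≤ v) (h : b ≤ v ^ n) :
    b ^ ((n : ℝ)⁻¹) ≤ v := by
  calc b ^ ((n : ℝ)⁻¹) ≤ (v ^ n) ^ ((n : ℝ)⁻¹) := Real.rpow_le_rpow hb h (by positivity)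
    _ = v := Real.pow_rpow_inv_natCast hv hn

lemma chord (b s sa sb v0 v1 : ℝ) (hb : 0 < b) (hab : sa < sb) (h1 : sa ≤ s) (h2 : s ≤ sb)
    (h0 : b ^ sa ≤ v0) (h3 : b ^ sb ≤ v1) :
    b ^ s - 1 ≤ (v0 - 1) + (s - sa) * ((v1 - v0) / (sb - sa)) := by
  have hd : 0 < sb - sa := by linarith
  have q1 : 0 ≤ (sb - s) / (sb - sa) := div_nonneg (by linarith) hd.le
  have q2 : 0 ≤ (s - sa) / (sb - sa) := div_nonneg (by linarith) hd.le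
  have q3 : (sb - s) / (sb - sa) + (s - sa) / (sb - sa) = 1 := by
    field_simp
    ring
  have hc := (convexOn_rpow_left hb).2 (Set.mem_univ sa) (Set.mem_univ sb) q1 q2 q3
  simp only [smul_eq_mul] at hc
  have e : (sb - s) / (sb - sa) * sa + (s - sa) / (sb - sa) * sb = s := by
    field_simp
    ring
  rw [e] at hc
  have g1 : (sb - s) / (sb - sa) * b ^ sa ≤ (sb - s) / (sb - sa) * v0 :=
    mul_le_mul_of_nonneg_left h0 (div_nonneg (by linarith) hd.le)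
  have g2 : (s - sa) / (sb - sa) * b ^ sb ≤ (s - sa) / (sb - sa) * v1 :=
    mul_le_mul_of_nonneg_left h3 (div_nonneg (by linarith) hd.le)
  have e2 : (sb - s) / (sb - sa) * v0 + (s - sa) / (sb - sa) * v1 =
      v0 + (s - sa) * ((v1 - v0) / (sb - sa)) := by
    field_simp
    ring
  linarith

lemma node_of (σ ν b sa sb v0 v1 : ℝ) (h : 0 < σ) (h' : σ < 1 / 2) (hν : 0 ≤ ν) (hb : 0 < b)
    (hab : sa < sb) (h1 : sa ≤ 1 / (2 * σ) - 1) (h2 : 1 / (2 * σ) - 1 ≤ sb)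
    (h0 : b ^ sa ≤ v0) (h3 : b ^ sb ≤ v1)
    (hP : (2 * σ * (v0 - 1) + (v1 - v0) / (sb - sa) * ((1 - 2 * σ) - 2 * sa * σ)) * Dd σ ν ≤
      (1 - 2 * σ) * (Nn σ ν + (1 - (1 + ν) / b) * Dd σ ν)) : Node σ ν b := by
  have hD := Dd_pos σ ν h h' hν
  set s := 1 / (2 * σ) - 1 with hs
  have hs2 : s * (2 * σ) = 1 - 2 * σ := by
    rw [hs]
    field_simp
  have hs0 : 0 < s := by
    have : 0 < s * (2 * σ) := by rw [hs2]; linarith
    exact (mul_pos_iff_of_pos_right (by linarith)).1 this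
  have hc := chord b s sa sb v0 v1 hb hab h1 h2 h0 h3
  unfold Node qq
  rw [← hs, div_le_iff₀ hs0, HH_eq σ ν h h' hν]
  refine hc.trans ?_
  have hpos : 0 < 2 * σ * Dd σ ν := by positivity
  refine le_of_mul_le_mul_right ?_ hpos
  have hND : Nn σ ν / Dd σ ν * Dd σ ν = Nn σ ν := div_mul_cancel₀ _ hD.ne'
  have e1 : ((v0 - 1) + (s - sa) * ((v1 - v0) / (sb - sa))) * (2 * σ * Dd σ ν) =
      (2 * σ * (v0 - 1) + (v1 - v0) / (sb - sa) * (s * (2 * σ) - 2 * sa * σ)) * Dd σ ν := by ring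
  have e2 : (Nn σ ν / Dd σ ν + 1 - (1 + ν) / b) * s * (2 * σ * Dd σ ν) =
      (s * (2 * σ)) * (Nn σ ν / Dd σ ν * Dd σ ν + (1 - (1 + ν) / b) * Dd σ ν) := by ring
  rw [e1, e2, hND, hs2]
  exact hP

lemma key1 (σ : ℝ) (h1 : (2 / 5) ≤ σ) (h2 : σ ≤ (4 / 9)) :
    (2 * σ * ((14143 / 10000) - 1) + (2 - (14143 / 10000)) / ((1 / 4) - (1 / 8)) * ((1 - 2 * σ) - 2 * (1 / 8) * σ)) * Dd σ 15 ≤
      (1 - 2 * σ) * (Nn σ 15 + (1 - (1 + 15) / 16) * Dd σ 15) := by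
  have hx : 0 ≤ σ - (2 / 5) := by linarith
  have hy : 0 ≤ (4 / 9) - σ := by linarith
  have t0 : 0 ≤ (1411091961572475 / 128) * ((σ - (2 / 5)) ^ 0 * ((4 / 9) - σ) ^ 9) :=
    mul_nonneg (by norm_num) (mul_nonneg (pow_nonneg hx _) (pow_nonneg hy _))
  have t1 : 0 ≤ (111896668797883587 / 1280) * ((σ - (2 / 5)) ^ 1 * ((4 / 9) - σ) ^ 8) :=
    mul_nonneg (by norm_num) (mul_nonneg (pow_nonneg hx _) (pow_nonneg hy _))
  have t2 : 0 ≤ (9973953652186953 / 32) * ((σ - (2 / 5)) ^ 2 * ((4 / 9) - σ) ^ 7) :=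
    mul_nonneg (by norm_num) (mul_nonneg (pow_nonneg hx _) (pow_nonneg hy _))
  have t3 : 0 ≤ (2644470582591627 / 4) * ((σ - (2 / 5)) ^ 3 * ((4 / 9) - σ) ^ 6) :=
    mul_nonneg (by norm_num) (mul_nonneg (pow_nonneg hx _) (pow_nonneg hy _))
  have t4 : 0 ≤ (3710811712102065 / 4) * ((σ - (2 / 5)) ^ 4 * ((4 / 9) - σ) ^ 5) :=
    mul_nonneg (by norm_num) (mul_nonneg (pow_nonneg hx _) (pow_nonneg hy _))
  have t5 : 0 ≤ (115257899024100495 / 128) * ((σ - (2 / 5)) ^ 5 * ((4 / 9) - σ) ^ 4) :=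
    mul_nonneg (by norm_num) (mul_nonneg (pow_nonneg hx _) (pow_nonneg hy _))
  have t6 : 0 ≤ (4860569292399225 / 8) * ((σ - (2 / 5)) ^ 6 * ((4 / 9) - σ) ^ 3) :=
    mul_nonneg (by norm_num) (mul_nonneg (pow_nonneg hx _) (pow_nonneg hy _))
  have t7 : 0 ≤ (8793636218758125 / 32) * ((σ - (2 / 5)) ^ 7 * ((4 / 9) - σ) ^ 2) :=
    mul_nonneg (by norm_num) (mul_nonneg (pow_nonneg hx _) (pow_nonneg hy _))
  have t8 : 0 ≤ (9628642875110625 / 128) * ((σ - (2 / 5)) ^ 8 * ((4 / 9) - σ) ^ 1) :=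
    mul_nonneg (by norm_num) (mul_nonneg (pow_nonneg hx _) (pow_nonneg hy _))
  have t9 : 0 ≤ (2410926979021875 / 256) * ((σ - (2 / 5)) ^ 9 * ((4 / 9) - σ) ^ 0) :=
    mul_nonneg (by norm_num) (mul_nonneg (pow_nonneg hx _) (pow_nonneg hy _))
  have e : (1 - 2 * σ) * (Nn σ 15 + (1 - (1 + 15) / 16) * Dd σ 15) -
      (2 * σ * ((14143 / 10000) - 1) + (2 - (14143 / 10000)) / ((1 / 4) - (1 / 8)) * ((1 - 2 * σ) - 2 * (1 / 8) * σ)) * Dd σ 15 =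
      (1411091961572475 / 128) * ((σ - (2 / 5)) ^ 0 * ((4 / 9) - σ) ^ 9) +
      (111896668797883587 / 1280) * ((σ - (2 / 5)) ^ 1 * ((4 / 9) - σ) ^ 8) +
      (9973953652186953 / 32) * ((σ - (2 / 5)) ^ 2 * ((4 / 9) - σ) ^ 7) +
      (2644470582591627 / 4) * ((σ - (2 / 5)) ^ 3 * ((4 / 9) - σ) ^ 6) +
      (3710811712102065 / 4) * ((σ - (2 / 5)) ^ 4 * ((4 / 9) - σ) ^ 5) +
      (115257899024100495 / 128) * ((σ - (2 / 5)) ^ 5 * ((4 / 9) - σ) ^ 4) +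
      (4860569292399225 / 8) * ((σ - (2 / 5)) ^ 6 * ((4 / 9) - σ) ^ 3) +
      (8793636218758125 / 32) * ((σ - (2 / 5)) ^ 7 * ((4 / 9) - σ) ^ 2) +
      (9628642875110625 / 128) * ((σ - (2 / 5)) ^ 8 * ((4 / 9) - σ) ^ 1) +
      (2410926979021875 / 256) * ((σ - (2 / 5)) ^ 9 * ((4 / 9) - σ) ^ 0) := by
    unfold Nn Dd mm
    ring
  linarith

lemma key2 (σ : ℝ) (h1 : (2 / 5) ≤ σ) (h2 : σ ≤ (4 / 9)) :
    (2 * σ * ((14143 / 10000) - 1) + (2 - (14143 / 10000)) / ((1 / 4) - (1 / 8)) * ((1 - 2 * σ) - 2 * (1 / 8) * σ)) * Dd σ 35 ≤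
      (1 - 2 * σ) * (Nn σ 35 + (1 - (1 + 35) / 16) * Dd σ 35) := by
  have hx : 0 ≤ σ - (2 / 5) := by linarith
  have hy : 0 ≤ (4 / 9) - σ := by linarith
  have t0 : 0 ≤ (50854159672339275 / 512) * ((σ - (2 / 5)) ^ 0 * ((4 / 9) - σ) ^ 9) :=
    mul_nonneg (by norm_num) (mul_nonneg (pow_nonneg hx _) (pow_nonneg hy _))
  have t1 : 0 ≤ (1993350732200897229 / 2560) * ((σ - (2 / 5)) ^ 1 * ((4 / 9) - σ) ^ 8) :=
    mul_nonneg (by norm_num) (mul_nonneg (pow_nonneg hx _) (pow_nonneg hy _))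
  have t2 : 0 ≤ (172827886681521153 / 64) * ((σ - (2 / 5)) ^ 2 * ((4 / 9) - σ) ^ 7) :=
    mul_nonneg (by norm_num) (mul_nonneg (pow_nonneg hx _) (pow_nonneg hy _))
  have t3 : 0 ≤ (697711443472828791 / 128) * ((σ - (2 / 5)) ^ 3 * ((4 / 9) - σ) ^ 6) :=
    mul_nonneg (by norm_num) (mul_nonneg (pow_nonneg hx _) (pow_nonneg hy _))
  have t4 : 0 ≤ (1813915524894602085 / 256) * ((σ - (2 / 5)) ^ 4 * ((4 / 9) - σ) ^ 5) :=
    mul_nonneg (by norm_num) (mul_nonneg (pow_nonneg hx _) (pow_nonneg hy _))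
  have t5 : 0 ≤ (1584488299690918665 / 256) * ((σ - (2 / 5)) ^ 5 * ((4 / 9) - σ) ^ 4) :=
    mul_nonneg (by norm_num) (mul_nonneg (pow_nonneg hx _) (pow_nonneg hy _))
  have t6 : 0 ≤ (234560157244277175 / 64) * ((σ - (2 / 5)) ^ 6 * ((4 / 9) - σ) ^ 3) :=
    mul_nonneg (by norm_num) (mul_nonneg (pow_nonneg hx _) (pow_nonneg hy _))
  have t7 : 0 ≤ (183569669152408125 / 128) * ((σ - (2 / 5)) ^ 7 * ((4 / 9) - σ) ^ 2) :=
    mul_nonneg (by norm_num) (mul_nonneg (pow_nonneg hx _) (pow_nonneg hy _))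
  have t8 : 0 ≤ (174251452127776875 / 512) * ((σ - (2 / 5)) ^ 8 * ((4 / 9) - σ) ^ 1) :=
    mul_nonneg (by norm_num) (mul_nonneg (pow_nonneg hx _) (pow_nonneg hy _))
  have t9 : 0 ≤ (19269816680403125 / 512) * ((σ - (2 / 5)) ^ 9 * ((4 / 9) - σ) ^ 0) :=
    mul_nonneg (by norm_num) (mul_nonneg (pow_nonneg hx _) (pow_nonneg hy _))
  have e : (1 - 2 * σ) * (Nn σ 35 + (1 - (1 + 35) / 16) * Dd σ 35) -
      (2 * σ * ((14143 / 10000) - 1) + (2 - (14143 / 10000)) / ((1 / 4) - (1 / 8)) * ((1 - 2 * σ) - 2 * (1 / 8) * σ)) * Dd σ 35 =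
      (50854159672339275 / 512) * ((σ - (2 / 5)) ^ 0 * ((4 / 9) - σ) ^ 9) +
      (1993350732200897229 / 2560) * ((σ - (2 / 5)) ^ 1 * ((4 / 9) - σ) ^ 8) +
      (172827886681521153 / 64) * ((σ - (2 / 5)) ^ 2 * ((4 / 9) - σ) ^ 7) +
      (697711443472828791 / 128) * ((σ - (2 / 5)) ^ 3 * ((4 / 9) - σ) ^ 6) +
      (1813915524894602085 / 256) * ((σ - (2 / 5)) ^ 4 * ((4 / 9) - σ) ^ 5) +
      (1584488299690918665 / 256) * ((σ - (2 / 5)) ^ 5 * ((4 / 9) - σ) ^ 4) +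
      (234560157244277175 / 64) * ((σ - (2 / 5)) ^ 6 * ((4 / 9) - σ) ^ 3) +
      (183569669152408125 / 128) * ((σ - (2 / 5)) ^ 7 * ((4 / 9) - σ) ^ 2) +
      (174251452127776875 / 512) * ((σ - (2 / 5)) ^ 8 * ((4 / 9) - σ) ^ 1) +
      (19269816680403125 / 512) * ((σ - (2 / 5)) ^ 9 * ((4 / 9) - σ) ^ 0) := by
    unfold Nn Dd mm
    ring
  linarith

lemma key3 (σ : ℝ) (h1 : (2 / 5) ≤ σ) (h2 : σ ≤ (4 / 9)) :
    (2 * σ * ((15651 / 10000) - 1) + ((4899 / 2000) - (15651 / 10000)) / ((1 / 4) - (1 / 8)) * ((1 - 2 * σ) - 2 * (1 / 8) * σ)) * Dd σ 35 ≤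
      (1 - 2 * σ) * (Nn σ 35 + (1 - (1 + 35) / 36) * Dd σ 35) := by
  have hx : 0 ≤ σ - (2 / 5) := by linarith
  have hy : 0 ≤ (4 / 9) - σ := by linarith
  have t0 : 0 ≤ (98465373912670749 / 2560) * ((σ - (2 / 5)) ^ 0 * ((4 / 9) - σ) ^ 9) :=
    mul_nonneg (by norm_num) (mul_nonneg (pow_nonneg hx _) (pow_nonneg hy _))
  have t1 : 0 ≤ (359134274215182699 / 1280) * ((σ - (2 / 5)) ^ 1 * ((4 / 9) - σ) ^ 8) :=
    mul_nonneg (by norm_num) (mul_nonneg (pow_nonneg hx _) (pow_nonneg hy _))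
  have t2 : 0 ≤ (29453014017128547 / 32) * ((σ - (2 / 5)) ^ 2 * ((4 / 9) - σ) ^ 7) :=
    mul_nonneg (by norm_num) (mul_nonneg (pow_nonneg hx _) (pow_nonneg hy _))
  have t3 : 0 ≤ (233661909680985717 / 128) * ((σ - (2 / 5)) ^ 3 * ((4 / 9) - σ) ^ 6) :=
    mul_nonneg (by norm_num) (mul_nonneg (pow_nonneg hx _) (pow_nonneg hy _))
  have t4 : 0 ≤ (637439359528517085 / 256) * ((σ - (2 / 5)) ^ 4 * ((4 / 9) - σ) ^ 5) :=
    mul_nonneg (by norm_num) (mul_nonneg (pow_nonneg hx _) (pow_nonneg hy _))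
  have t5 : 0 ≤ (318479228604564615 / 128) * ((σ - (2 / 5)) ^ 5 * ((4 / 9) - σ) ^ 4) :=
    mul_nonneg (by norm_num) (mul_nonneg (pow_nonneg hx _) (pow_nonneg hy _))
  have t6 : 0 ≤ (117066759211113975 / 64) * ((σ - (2 / 5)) ^ 6 * ((4 / 9) - σ) ^ 3) :=
    mul_nonneg (by norm_num) (mul_nonneg (pow_nonneg hx _) (pow_nonneg hy _))
  have t7 : 0 ≤ (119508218648420625 / 128) * ((σ - (2 / 5)) ^ 7 * ((4 / 9) - σ) ^ 2) :=
    mul_nonneg (by norm_num) (mul_nonneg (pow_nonneg hx _) (pow_nonneg hy _))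
  have t8 : 0 ≤ (148877858031013125 / 512) * ((σ - (2 / 5)) ^ 8 * ((4 / 9) - σ) ^ 1) :=
    mul_nonneg (by norm_num) (mul_nonneg (pow_nonneg hx _) (pow_nonneg hy _))
  have t9 : 0 ≤ (10490406210434375 / 256) * ((σ - (2 / 5)) ^ 9 * ((4 / 9) - σ) ^ 0) :=
    mul_nonneg (by norm_num) (mul_nonneg (pow_nonneg hx _) (pow_nonneg hy _))
  have e : (1 - 2 * σ) * (Nn σ 35 + (1 - (1 + 35) / 36) * Dd σ 35) -
      (2 * σ * ((15651 / 10000) - 1) + ((4899 / 2000) - (15651 / 10000)) / ((1 / 4) - (1 / 8)) * ((1 - 2 * σ) - 2 * (1 / 8) * σ)) * Dd σ 35 =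
      (98465373912670749 / 2560) * ((σ - (2 / 5)) ^ 0 * ((4 / 9) - σ) ^ 9) +
      (359134274215182699 / 1280) * ((σ - (2 / 5)) ^ 1 * ((4 / 9) - σ) ^ 8) +
      (29453014017128547 / 32) * ((σ - (2 / 5)) ^ 2 * ((4 / 9) - σ) ^ 7) +
      (233661909680985717 / 128) * ((σ - (2 / 5)) ^ 3 * ((4 / 9) - σ) ^ 6) +
      (637439359528517085 / 256) * ((σ - (2 / 5)) ^ 4 * ((4 / 9) - σ) ^ 5) +
      (318479228604564615 / 128) * ((σ - (2 / 5)) ^ 5 * ((4 / 9) - σ) ^ 4) +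
      (117066759211113975 / 64) * ((σ - (2 / 5)) ^ 6 * ((4 / 9) - σ) ^ 3) +
      (119508218648420625 / 128) * ((σ - (2 / 5)) ^ 7 * ((4 / 9) - σ) ^ 2) +
      (148877858031013125 / 512) * ((σ - (2 / 5)) ^ 8 * ((4 / 9) - σ) ^ 1) +
      (10490406210434375 / 256) * ((σ - (2 / 5)) ^ 9 * ((4 / 9) - σ) ^ 0) := by
    unfold Nn Dd mm
    ring
  linarith

theorem main : S_G2 := by
  intro σ h1 h2
  have h0 : 0 < σ := by linarith
  have hh : σ < 1 / 2 := by linarith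
  have s1 : (1 / 8 : ℝ) ≤ 1 / (2 * σ) - 1 := by
    have : (9 / 8 : ℝ) ≤ 1 / (2 * σ) := by
      rw [le_div_iff₀ (by linarith)]
      linarith
    linarith
  have s2 : 1 / (2 * σ) - 1 ≤ (1 / 4 : ℝ) := by
    have : 1 / (2 * σ) ≤ (5 / 4 : ℝ) := by
      rw [div_le_iff₀ (by linarith)]
      linarith
    linarith
  have r1 : (16 : ℝ) ^ (1 / 8 : ℝ) ≤ 14143 / 10000 := by
    have := root_le 16 (14143 / 10000) 8 (by norm_num) (by norm_num) (by norm_num) (by norm_num)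
    rw [show (((8 : ℕ) : ℝ))⁻¹ = 1 / 8 by norm_num] at this
    exact this
  have r2 : (16 : ℝ) ^ (1 / 4 : ℝ) ≤ 2 := by
    have := root_le 16 2 4 (by norm_num) (by norm_num) (by norm_num) (by norm_num)
    rw [show (((4 : ℕ) : ℝ))⁻¹ = 1 / 4 by norm_num] at this
    exact this
  have r3 : (36 : ℝ) ^ (1 / 8 : ℝ) ≤ 15651 / 10000 := by
    have := root_le 36 (15651 / 10000) 8 (by norm_num) (by norm_num) (by norm_num) (by norm_num)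
    rw [show (((8 : ℕ) : ℝ))⁻¹ = 1 / 8 by norm_num] at this
    exact this
  have r4 : (36 : ℝ) ^ (1 / 4 : ℝ) ≤ 4899 / 2000 := by
    have := root_le 36 (4899 / 2000) 4 (by norm_num) (by norm_num) (by norm_num) (by norm_num)
    rw [show (((4 : ℕ) : ℝ))⁻¹ = 1 / 4 by norm_num] at this
    exact this
  refine ⟨?_, ?_, ?_⟩
  · refine node_of σ 15 16 (1 / 8) (1 / 4) (14143 / 10000) 2 h0 hh (by norm_num) (by norm_num)
      (by norm_num) s1 s2 r1 r2 (key1 σ h1 h2)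
  · refine node_of σ 35 16 (1 / 8) (1 / 4) (14143 / 10000) 2 h0 hh (by norm_num) (by norm_num)
      (by norm_num) s1 s2 r1 r2 (key2 σ h1 h2)
  · refine node_of σ 35 36 (1 / 8) (1 / 4) (15651 / 10000) (4899 / 2000) h0 hh (by norm_num)
      (by norm_num) (by norm_num) s1 s2 r3 r4 (key3 σ h1 h2)

end Pool.Agent.Y282.RB.G2
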