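import Mathlib
import Pool.Agent.Y282.RB.Stm3

/-!
# Project RB (helper282), job RB-G3: node inequalities

The function `qq s b` is bounded on an interval of `s` by its chord; the remaining rational
inequality in `σ` is certified by positive Bernstein coefficients.
-/

set_option autoImplicit false

namespace Pool.Agent.Y282.RB.G3

open Pool.Agent.Y282.RB

theorem qq_int (s L : ℝ) (hs : 0 < s) :
    (Real.exp (s * L) - 1) / s = ∫ t in (0:ℝ)..L, Real.exp (s * t) := by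
  rw [intervalIntegral.integral_comp_mul_left (fun x => Real.exp x) hs.ne', integral_exp,
    mul_zero, Real.exp_zero, smul_eq_mul]
  ring

/-- `s ↦ (e ^ (s L) - 1) / s` lies below its chords -/
theorem chord (s0 s1 s L : ℝ) (h0 : 0 < s0) (h01 : s0 < s1) (ha : s0 ≤ s) (hb : s ≤ s1)
    (hL : 0 ≤ L) : (Real.exp (s * L) - 1) / s ≤
      (s1 - s) / (s1 - s0) * ((Real.exp (s0 * L) - 1) / s0)
        + (s - s0) / (s1 - s0) * ((Real.exp (s1 * L) - 1) / s1) := by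
  have hs : 0 < s := lt_of_lt_of_le h0 ha
  have hd : 0 < s1 - s0 := sub_pos.mpr h01
  rw [qq_int s L hs, qq_int s0 L h0, qq_int s1 L (h0.trans h01),
    ← intervalIntegral.integral_const_mul, ← intervalIntegral.integral_const_mul,
    ← intervalIntegral.integral_add
      (Continuous.intervalIntegrable (by fun_prop) _ _)
      (Continuous.intervalIntegrable (by fun_prop) _ _)]
  apply intervalIntegral.integral_mono_on hL
    (Continuous.intervalIntegrable (by fun_prop) _ _)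
    (Continuous.intervalIntegrable (by fun_prop) _ _)
  intro t _
  have hc := convexOn_exp.2 (Set.mem_univ (s0 * t)) (Set.mem_univ (s1 * t))
    (div_nonneg (sub_nonneg.mpr hb) hd.le : 0 ≤ (s1 - s) / (s1 - s0))
    (div_nonneg (sub_nonneg.mpr ha) hd.le : 0 ≤ (s - s0) / (s1 - s0))
    (by rw [← add_div]; rw [div_eq_one_iff_eq hd.ne']; ring)
  simp only [smul_eq_mul] at hc
  refine le_trans (le_of_eq ?_) hc
  congr 1
  field_simp
  ring

theorem qq_exp (s b : ℝ) (hb : 0 < b) : qq s b = (Real.exp (s * Real.log b) - 1) / s := by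
  unfold qq
  rw [Real.rpow_def_of_pos hb, mul_comm (Real.log b) s]

theorem qq_chord (s0 s1 s b q0 q1 : ℝ) (h0 : 0 < s0) (h01 : s0 < s1) (ha : s0 ≤ s) (hb : s ≤ s1)
    (hL : 1 ≤ b) (hq0 : qq s0 b ≤ q0) (hq1 : qq s1 b ≤ q1) :
    qq s b ≤ (s1 - s) / (s1 - s0) * q0 + (s - s0) / (s1 - s0) * q1 := by
  have hd : 0 < s1 - s0 := sub_pos.mpr h01
  have hb0 : 0 < b := by linarith
  have h := chord s0 s1 s (Real.log b) h0 h01 ha hb (Real.log_nonneg hL)
  rw [← qq_exp s b hb0, ← qq_exp s0 b hb0, ← qq_exp s1 b hb0] at h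
  have h2 := mul_le_mul_of_nonneg_left hq0
    (div_nonneg (sub_nonneg.mpr hb) hd.le : 0 ≤ (s1 - s) / (s1 - s0))
  have h3 := mul_le_mul_of_nonneg_left hq1
    (div_nonneg (sub_nonneg.mpr ha) hd.le : 0 ≤ (s - s0) / (s1 - s0))
  linarith

theorem rpow_le_of (b c : ℝ) (p q : ℕ) (hb : 0 ≤ b) (hc : 0 ≤ c) (hq : q ≠ 0)
    (h : b ^ p ≤ c ^ q) : b ^ ((p : ℝ) / (q : ℝ)) ≤ c := by
  have h1 : b ^ ((p : ℝ) / (q : ℝ)) = (b ^ p) ^ (1 / (q : ℝ)) := by
    rw [← Real.rpow_natCast b p, ← Real.rpow_mul hb]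
    congr 1
    ring
  rw [h1]
  have h2 : (b ^ p) ^ (1 / (q : ℝ)) ≤ (c ^ q) ^ (1 / (q : ℝ)) :=
    Real.rpow_le_rpow (pow_nonneg hb p) h (by positivity)
  refine h2.trans (le_of_eq ?_)
  rw [← Real.rpow_natCast c q, ← Real.rpow_mul hc, mul_one_div_cancel (by exact_mod_cast hq),
    Real.rpow_one]

theorem qq_le (b c Q : ℝ) (p q : ℕ) (hb : 0 ≤ b) (hc : 0 ≤ c) (hp : p ≠ 0) (hq : q ≠ 0)
    (h : b ^ p ≤ c ^ q) (hQ : (c - 1) * q ≤ Q * p) : qq ((p : ℝ) / (q : ℝ)) b ≤ Q := by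
  have hp0 : (0 : ℝ) < p := by exact_mod_cast Nat.pos_of_ne_zero hp
  have hq0 : (0 : ℝ) < q := by exact_mod_cast Nat.pos_of_ne_zero hq
  unfold qq
  rw [div_le_iff₀ (div_pos hp0 hq0)]
  have h1 := rpow_le_of b c p q hb hc hq h
  rw [← mul_div_assoc, le_div_iff₀ hq0]
  refine le_trans ?_ hQ
  exact mul_le_mul_of_nonneg_right (by linarith) hq0.le

/-- the denominator `1 + 2 m` -/
noncomputable def dd (σ : ℝ) : ℝ := 1 + 2 * σ - 2 * σ ^ 2
/-- numerator of `cA` -/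
noncomputable def na (σ : ℝ) : ℝ := (σ * (1 - σ)) * (2 + σ * (1 - σ)) * (1 - σ * (1 - σ))
/-- denominator of `HH` times `dd ^ 2` -/
noncomputable def ww (σ ν : ℝ) : ℝ := dd σ ^ 2 + σ * (2 - σ ^ 3) * dd σ * ν
  + (σ * (1 - σ)) * (2 + σ * (1 - σ)) * σ ^ 2 * (1 + σ) ^ 2 / 4 * ν ^ 2

theorem node_of (σ ν b s0 s1 q0 q1 : ℝ) (hσ : 0 < σ) (hσ1 : σ < 1) (hν : 0 ≤ ν)
    (h0 : 0 < s0) (h01 : s0 < s1) (ha : s0 ≤ 1 / (2 * σ) - 1) (hb : 1 / (2 * σ) - 1 ≤ s1)
    (hL : 1 ≤ b) (hq0 : qq s0 b ≤ q0) (hq1 : qq s1 b ≤ q1)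
    (hF : 0 ≤ σ * (ν * (dd σ ^ 2 + na σ * ν) + (1 - (1 + ν) / b) * ww σ ν)
      - (q0 * σ + (q1 - q0) * (1 / 2 - σ - s0 * σ) / (s1 - s0)) * ww σ ν) : Node σ ν b := by
  have hd : 0 < s1 - s0 := sub_pos.mpr h01
  have h1σ : 0 < 1 - σ := by linarith
  have h2σ : 0 < 2 - σ ^ 3 := by
    have : σ ^ 3 ≤ 1 := pow_le_one₀ hσ.le hσ1.le
    linarith
  have hdd : 0 < dd σ := by
    unfold dd; nlinarith [mul_pos hσ h1σ]
  have hww : 0 < ww σ ν := by
    unfold ww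
    have : 0 ≤ σ * (2 - σ ^ 3) * dd σ * ν := by positivity
    have : 0 < 2 + σ * (1 - σ) := by positivity
    have : 0 ≤ (σ * (1 - σ)) * (2 + σ * (1 - σ)) * σ ^ 2 * (1 + σ) ^ 2 / 4 * ν ^ 2 := by
      positivity
    have : 0 < dd σ ^ 2 := by positivity
    linarith
  have hHH : HH σ ν = ν * (dd σ ^ 2 + na σ * ν) / ww σ ν := by
    have hm : 1 + 2 * mm σ = dd σ := by unfold mm dd; ring
    have hA : cA σ * dd σ ^ 2 = na σ := by
      unfold cA na; rw [hm, div_mul_cancel₀ _ (pow_pos hdd 2).ne']; unfold mm; ring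
    have hB : cB σ * dd σ = σ * (2 - σ ^ 3) := by
      unfold cB; rw [hm, div_mul_cancel₀ _ hdd.ne']
    have hG : cG σ * dd σ ^ 2 =
        (σ * (1 - σ)) * (2 + σ * (1 - σ)) * σ ^ 2 * (1 + σ) ^ 2 / 4 := by
      unfold cG; rw [hm]; unfold mm; field_simp
    have hw : ww σ ν = (1 + cB σ * ν + cG σ * ν ^ 2) * dd σ ^ 2 := by
      unfold ww; rw [← hG, ← hB]; ring
    have hn : ν * (dd σ ^ 2 + na σ * ν) = ν * (1 + cA σ * ν) * dd σ ^ 2 := by
      rw [← hA]; ring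
    rw [hw, hn]
    unfold HH
    rw [mul_div_mul_right _ _ (pow_pos hdd 2).ne']
  have hc := qq_chord s0 s1 (1 / (2 * σ) - 1) b q0 q1 h0 h01 ha hb hL hq0 hq1
  unfold Node
  refine hc.trans ?_
  rw [hHH]
  have e : (s1 - (1 / (2 * σ) - 1)) / (s1 - s0) * q0 + (1 / (2 * σ) - 1 - s0) / (s1 - s0) * q1
      = (q0 * σ + (q1 - q0) * (1 / 2 - σ - s0 * σ) / (s1 - s0)) / σ := by
    field_simp
    ring
  rw [e, div_le_iff₀ hσ]
  have e2 : (ν * (dd σ ^ 2 + na σ * ν) / ww σ ν + 1 - (1 + ν) / b) * σ =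
      (σ * (ν * (dd σ ^ 2 + na σ * ν) + (1 - (1 + ν) / b) * ww σ ν)) / ww σ ν := by
    field_simp
    ring
  rw [e2, le_div_iff₀ hww]
  linarith

theorem s_bounds (σ a c : ℝ) (ha : 0 < a) (h1 : a ≤ σ) (h2 : σ ≤ c) :
    1 / (2 * c) - 1 ≤ 1 / (2 * σ) - 1 ∧ 1 / (2 * σ) - 1 ≤ 1 / (2 * a) - 1 := by
  have hσ : 0 < σ := lt_of_lt_of_le ha h1
  constructor
  · have := one_div_le_one_div_of_le (by positivity : 0 < 2 * σ) (by linarith : 2 * σ ≤ 2 * c)
    linarith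
  · have := one_div_le_one_div_of_le (by positivity : 0 < 2 * a) (by linarith : 2 * a ≤ 2 * σ)
    linarith

theorem n1 (s : ℝ) (h0 : (1/3) ≤ s) (h1 : s ≤ (2/5)) : Node s (15) (9) := by
  have hs := s_bounds s (1/3) (2/5) (by norm_num) h0 h1
  refine node_of s (15) (9) ((1 : ℕ) / (4 : ℕ)) ((1 : ℕ) / (2 : ℕ)) (29283/10000) (4)
    (by linarith) (by linarith) (by norm_num)
    (by norm_num) (by norm_num) (le_trans (by norm_num) hs.1) (le_trans hs.2 (by norm_num))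
    (by norm_num)
    (qq_le _ (17320509/10000000) _ _ _ (by norm_num) (by norm_num) (by norm_num) (by norm_num) (by norm_num)
      (by norm_num))
    (qq_le _ (3) _ _ _ (by norm_num) (by norm_num) (by norm_num) (by norm_num) (by norm_num)
      (by norm_num)) ?_
  have hu : 0 ≤ s - (1/3) := by linarith
  have hv : 0 ≤ (2/5) - s := by linarith
  have hp : ∀ u v : ℝ, 0 ≤ u → 0 ≤ v → 0 ≤ (176810546875) * (u ^ 0 * v ^ 9) + (1696696586250) * (u ^ 1 * v ^ 8) + (7200840906750) * (u ^ 2 * v ^ 7) + (70996756909275/4) * (u ^ 3 * v ^ 6) + (448237367151345/16) * (u ^ 4 * v ^ 5) + (940004038953711/32) * (u ^ 5 * v ^ 4) + (327510774150831/16) * (u ^ 6 * v ^ 3) + (365734528518339/40) * (u ^ 7 * v ^ 2) + (11881553471082/5) * (u ^ 8 * v ^ 1) + (54769147097931/200) * (u ^ 9 * v ^ 0) := by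
    intro u v hu hv
    positivity
  refine le_of_le_of_eq (hp _ _ hu hv) ?_
  unfold ww na dd
  norm_num
  ring

theorem n2 (s : ℝ) (h0 : (1/3) ≤ s) (h1 : s ≤ (2/5)) : Node s (25) (9) := by
  have hs := s_bounds s (1/3) (2/5) (by norm_num) h0 h1
  refine node_of s (25) (9) ((1 : ℕ) / (4 : ℕ)) ((1 : ℕ) / (2 : ℕ)) (29283/10000) (4)
    (by linarith) (by linarith) (by norm_num)
    (by norm_num) (by norm_num) (le_trans (by norm_num) hs.1) (le_trans hs.2 (by norm_num))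
    (by norm_num)
    (qq_le _ (17320509/10000000) _ _ _ (by norm_num) (by norm_num) (by norm_num) (by norm_num) (by norm_num)
      (by norm_num))
    (qq_le _ (3) _ _ _ (by norm_num) (by norm_num) (by norm_num) (by norm_num) (by norm_num)
      (by norm_num)) ?_
  have hu : 0 ≤ s - (1/3) := by linarith
  have hv : 0 ≤ (2/5) - s := by linarith
  have hp : ∀ u v : ℝ, 0 ≤ u → 0 ≤ v → 0 ≤ (5885123046875/9) * (u ^ 0 * v ^ 9) + (23519582441875/4) * (u ^ 1 * v ^ 8) + (23389472619875) * (u ^ 2 * v ^ 7) + (216034236787275/4) * (u ^ 3 * v ^ 6) + (1276105587554745/16) * (u ^ 4 * v ^ 5) + (2498727147439671/32) * (u ^ 5 * v ^ 4) + (810574072680807/16) * (u ^ 6 * v ^ 3) + (167929942477347/8) * (u ^ 7 * v ^ 2) + (10073665976463/2) * (u ^ 8 * v ^ 1) + (4262127673851/8) * (u ^ 9 * v ^ 0) := by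
    intro u v hu hv
    positivity
  refine le_of_le_of_eq (hp _ _ hu hv) ?_
  unfold ww na dd
  norm_num
  ring

theorem n3 (s : ℝ) (h0 : (1/3) ≤ s) (h1 : s ≤ (2/5)) : Node s (25) (16) := by
  have hs := s_bounds s (1/3) (2/5) (by norm_num) h0 h1
  refine node_of s (25) (16) ((1 : ℕ) / (4 : ℕ)) ((1 : ℕ) / (2 : ℕ)) (4) (6)
    (by linarith) (by linarith) (by norm_num)
    (by norm_num) (by norm_num) (le_trans (by norm_num) hs.1) (le_trans hs.2 (by norm_num))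
    (by norm_num)
    (qq_le _ (2) _ _ _ (by norm_num) (by norm_num) (by norm_num) (by norm_num) (by norm_num)
      (by norm_num))
    (qq_le _ (4) _ _ _ (by norm_num) (by norm_num) (by norm_num) (by norm_num) (by norm_num)
      (by norm_num)) ?_
  have hu : 0 ≤ s - (1/3) := by linarith
  have hv : 0 ≤ (2/5) - s := by linarith
  have hp : ∀ u v : ℝ, 0 ≤ u → 0 ≤ v → 0 ≤ (1070271484375/4) * (u ^ 0 * v ^ 9) + (5544870703125/2) * (u ^ 1 * v ^ 8) + (50413616015625/4) * (u ^ 2 * v ^ 7) + (529329656953125/16) * (u ^ 3 * v ^ 6) + (1771901363221875/32) * (u ^ 4 * v ^ 5) + (122750140989375/2) * (u ^ 5 * v ^ 4) + (90209386479375/2) * (u ^ 6 * v ^ 3) + (84848067151875/4) * (u ^ 7 * v ^ 2) + (46374505306875/8) * (u ^ 8 * v ^ 1) + (2807078743125/4) * (u ^ 9 * v ^ 0) := by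
    intro u v hu hv
    positivity
  refine le_of_le_of_eq (hp _ _ hu hv) ?_
  unfold ww na dd
  norm_num
  ring

theorem n4 (s : ℝ) (h0 : (1/3) ≤ s) (h1 : s ≤ (2/5)) : Node s (60) (16) := by
  have hs := s_bounds s (1/3) (2/5) (by norm_num) h0 h1
  refine node_of s (60) (16) ((1 : ℕ) / (4 : ℕ)) ((1 : ℕ) / (2 : ℕ)) (4) (6)
    (by linarith) (by linarith) (by norm_num)
    (by norm_num) (by norm_num) (le_trans (by norm_num) hs.1) (le_trans hs.2 (by norm_num))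
    (by norm_num)
    (qq_le _ (2) _ _ _ (by norm_num) (by norm_num) (by norm_num) (by norm_num) (by norm_num)
      (by norm_num))
    (qq_le _ (4) _ _ _ (by norm_num) (by norm_num) (by norm_num) (by norm_num) (by norm_num)
      (by norm_num)) ?_
  have hu : 0 ≤ s - (1/3) := by linarith
  have hv : 0 ≤ (2/5) - s := by linarith
  have hp : ∀ u v : ℝ, 0 ≤ u → 0 ≤ v → 0 ≤ (44310216796875/16) * (u ^ 0 * v ^ 9) + (192485668359375/8) * (u ^ 1 * v ^ 8) + (92170342968750) * (u ^ 2 * v ^ 7) + (816512912578125/4) * (u ^ 3 * v ^ 6) + (2301315039028125/8) * (u ^ 4 * v ^ 5) + (534107382958125/2) * (u ^ 5 * v ^ 4) + (325888979281875/2) * (u ^ 6 * v ^ 3) + (251228185122375/4) * (u ^ 7 * v ^ 2) + (220986075747375/16) * (u ^ 8 * v ^ 1) + (10484450607825/8) * (u ^ 9 * v ^ 0) := by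
    intro u v hu hv
    positivity
  refine le_of_le_of_eq (hp _ _ hu hv) ?_
  unfold ww na dd
  norm_num
  ring

theorem n5 (s : ℝ) (h0 : (1/3) ≤ s) (h1 : s ≤ (2/5)) : Node s (60) (25) := by
  have hs := s_bounds s (1/3) (2/5) (by norm_num) h0 h1
  refine node_of s (60) (25) ((1 : ℕ) / (4 : ℕ)) ((1 : ℕ) / (2 : ℕ)) (49443/10000) (8)
    (by linarith) (by linarith) (by norm_num)
    (by norm_num) (by norm_num) (le_trans (by norm_num) hs.1) (le_trans hs.2 (by norm_num))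
    (by norm_num)
    (qq_le _ (559017/250000) _ _ _ (by norm_num) (by norm_num) (by norm_num) (by norm_num) (by norm_num)
      (by norm_num))
    (qq_le _ (5) _ _ _ (by norm_num) (by norm_num) (by norm_num) (by norm_num) (by norm_num)
      (by norm_num)) ?_
  have hu : 0 ≤ s - (1/3) := by linarith
  have hv : 0 ≤ (2/5) - s := by linarith
  have hp : ∀ u v : ℝ, 0 ≤ u → 0 ≤ v → 0 ≤ (1590682500000) * (u ^ 0 * v ^ 9) + (120516355861875/8) * (u ^ 1 * v ^ 8) + (127043502701625/2) * (u ^ 2 * v ^ 7) + (156613201249725) * (u ^ 3 * v ^ 6) + (497859578279865/2) * (u ^ 4 * v ^ 5) + (1058473677459897/4) * (u ^ 5 * v ^ 4) + (376350926811291/2) * (u ^ 6 * v ^ 3) + (431649236405142/5) * (u ^ 7 * v ^ 2) + (46370395575207/2) * (u ^ 8 * v ^ 1) + (555374362707351/200) * (u ^ 9 * v ^ 0) := by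
    intro u v hu hv
    positivity
  refine le_of_le_of_eq (hp _ _ hu hv) ?_
  unfold ww na dd
  norm_num
  ring

theorem main : S_G3 := fun s h0 h1 =>
  ⟨n1 s h0 h1, n2 s h0 h1, n3 s h0 h1, n4 s h0 h1, n5 s h0 h1⟩

end Pool.Agent.Y282.RB.G3
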