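import Pool.Agent.Y282.RB.Stm3

/-!
# Project RB: nodes for `σ` in `[1/4, 1/3]` (helper212)
-/

set_option autoImplicit false

namespace Pool.Agent.Y282.RB.G4

open Pool.Agent.Y282.RB

/-! ### `qq` is convex in `s` -/

theorem qq_int {s b : ℝ} (hs : 0 < s) (hb : 1 ≤ b) :
    qq s b = ∫ t in (0 : ℝ)..Real.log b, Real.exp (s * t) := by
  have hb0 : 0 < b := lt_of_lt_of_le one_pos hb
  rw [intervalIntegral.integral_comp_mul_left (fun t => Real.exp t) hs.ne', integral_exp, mul_zero,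
    Real.exp_zero, smul_eq_mul, qq, Real.rpow_def_of_pos hb0, mul_comm (Real.log b) s]
  field_simp

theorem chord {s1 s2 s b : ℝ} (h1 : 0 < s1) (hs1 : s1 ≤ s) (hs2 : s ≤ s2) (h12 : s1 < s2)
    (hb : 1 ≤ b) : (s2 - s1) * qq s b ≤ (s2 - s) * qq s1 b + (s - s1) * qq s2 b := by
  have hL : 0 ≤ Real.log b := Real.log_nonneg hb
  have hint : ∀ u : ℝ, IntervalIntegrable (fun t => Real.exp (u * t)) MeasureTheory.volume 0
      (Real.log b) := fun u =>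
    (Real.continuous_exp.comp (continuous_const.mul continuous_id)).intervalIntegrable _ _
  rw [qq_int (lt_of_lt_of_le h1 hs1) hb, qq_int h1 hb, qq_int (h1.trans h12) hb,
    ← intervalIntegral.integral_const_mul, ← intervalIntegral.integral_const_mul,
    ← intervalIntegral.integral_const_mul, ← intervalIntegral.integral_add
      ((hint s1).const_mul _) ((hint s2).const_mul _)]
  refine intervalIntegral.integral_mono_on hL ((hint s).const_mul _)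
    (((hint s1).const_mul _).add ((hint s2).const_mul _)) fun t _ => ?_
  have hd : 0 < s2 - s1 := sub_pos.mpr h12
  have hcv := convexOn_exp.2 (Set.mem_univ (s1 * t)) (Set.mem_univ (s2 * t))
    (div_nonneg (sub_nonneg.mpr hs2) hd.le) (div_nonneg (sub_nonneg.mpr hs1) hd.le)
    (by rw [← add_div, div_eq_one_iff_eq hd.ne']; ring)
  simp only [smul_eq_mul] at hcv
  have e : (s2 - s) / (s2 - s1) * (s1 * t) + (s - s1) / (s2 - s1) * (s2 * t) = s * t := by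
    field_simp
    ring
  rw [e] at hcv
  have h5 := mul_le_mul_of_nonneg_left hcv hd.le
  have e2 : (s2 - s1) * ((s2 - s) / (s2 - s1) * Real.exp (s1 * t) +
      (s - s1) / (s2 - s1) * Real.exp (s2 * t)) =
      (s2 - s) * Real.exp (s1 * t) + (s - s1) * Real.exp (s2 * t) := by
    field_simp
  rw [e2] at h5
  exact h5

/-! ### `HH` as a quotient of polynomials -/

/-- numerator -/
def NN (σ ν : ℝ) : ℝ := 4 * (1 + 2 * (σ * (1 - σ))) ^ 2 +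
  4 * (σ * (1 - σ)) * (2 + σ * (1 - σ)) * (1 - σ * (1 - σ)) * ν

/-- denominator -/
def DD (σ ν : ℝ) : ℝ := 4 * (1 + 2 * (σ * (1 - σ))) ^ 2 +
  4 * σ * (2 - σ ^ 3) * (1 + 2 * (σ * (1 - σ))) * ν +
  σ * (1 - σ) * (2 + σ * (1 - σ)) * σ ^ 2 * (1 + σ) ^ 2 * ν ^ 2

theorem DD_pos {σ ν : ℝ} (h0 : 0 < σ) (h1 : σ < 1) (hν : 0 ≤ ν) : 0 < DD σ ν := by
  have h2 : 0 < 1 - σ := by linarith
  have h3 : 0 < 2 - σ ^ 3 := by
    have : σ ^ 3 ≤ 1 := pow_le_one₀ h0.le h1.le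
    linarith
  unfold DD
  positivity

theorem HH_eq {σ ν : ℝ} (h0 : 0 < σ) (h1 : σ < 1) (hν : 0 ≤ ν) :
    HH σ ν = ν * NN σ ν / DD σ ν := by
  have h2 : 0 < 1 - σ := by linarith
  have hm : 0 < 1 + 2 * (σ * (1 - σ)) := by positivity
  have h3 : 0 < 2 - σ ^ 3 := by
    have : σ ^ 3 ≤ 1 := pow_le_one₀ h0.le h1.le
    linarith
  have hN : 4 * (1 + 2 * (σ * (1 - σ))) ^ 2 * (1 + cA σ * ν) = NN σ ν := by
    unfold cA mm NN
    field_simp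
  have hD : 4 * (1 + 2 * (σ * (1 - σ))) ^ 2 * (1 + cB σ * ν + cG σ * ν ^ 2) = DD σ ν := by
    unfold cB cG mm DD
    field_simp
  have h4 : 4 * (1 + 2 * (σ * (1 - σ))) ^ 2 ≠ 0 := by positivity
  rw [HH, ← hN, ← hD, mul_left_comm, mul_div_mul_left _ _ h4]

/-! ### the nodes -/

theorem node {σ ν b q1 q2 : ℝ} (h1 : 1 / 4 ≤ σ) (h2 : σ ≤ 1 / 3) (hb : 1 ≤ b) (hν : 0 ≤ ν)
    (hq1 : qq (1 / 2) b ≤ q1) (hq2 : qq 1 b ≤ q2)
    (hP : ((4 * σ - 1) * q1 + (1 - 3 * σ) * q2 + (-1 + (1 + ν) / b) * σ) * DD σ ν ≤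
      ν * NN σ ν * σ) : Node σ ν b := by
  have h0 : 0 < σ := by linarith
  have hD := DD_pos h0 (by linarith) hν
  unfold Node
  rw [HH_eq h0 (by linarith) hν]
  have hs1 : 1 / 2 ≤ 1 / (2 * σ) - 1 := by
    have : 3 / 2 ≤ 1 / (2 * σ) := by
      rw [le_div_iff₀ (by linarith)]
      linarith
    linarith
  have hs2 : 1 / (2 * σ) - 1 ≤ 1 := by
    have : 1 / (2 * σ) ≤ 2 := by
      rw [div_le_iff₀ (by linarith)]
      linarith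
    linarith
  have hc := chord (s1 := 1 / 2) (s2 := 1) (by norm_num) hs1 hs2 (by norm_num) hb
  have h3 : 1 - (1 / (2 * σ) - 1) = (4 * σ - 1) / (2 * σ) := by
    field_simp
    ring
  have h4 : 1 / (2 * σ) - 1 - 1 / 2 = (1 - 3 * σ) / (2 * σ) := by
    field_simp
    ring
  rw [h3, h4] at hc
  have h5 : (4 * σ - 1) / (2 * σ) * qq (1 / 2) b ≤ (4 * σ - 1) / (2 * σ) * q1 :=
    mul_le_mul_of_nonneg_left hq1 (div_nonneg (by linarith) (by linarith))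
  have h6 : (1 - 3 * σ) / (2 * σ) * qq 1 b ≤ (1 - 3 * σ) / (2 * σ) * q2 :=
    mul_le_mul_of_nonneg_left hq2 (div_nonneg (by linarith) (by linarith))
  have h7 : ((4 * σ - 1) * q1 + (1 - 3 * σ) * q2 + (-1 + (1 + ν) / b) * σ) / σ ≤
      ν * NN σ ν / DD σ ν := by
    rw [div_le_div_iff₀ h0 hD]
    exact hP
  have h8 : ((4 * σ - 1) * q1 + (1 - 3 * σ) * q2 + (-1 + (1 + ν) / b) * σ) / σ =
      2 * ((4 * σ - 1) / (2 * σ) * q1 + (1 - 3 * σ) / (2 * σ) * q2) - 1 + (1 + ν) / b := by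
    have hb0 : b ≠ 0 := by linarith
    field_simp
    ring
  rw [h8] at h7
  linarith

theorem qq_one (b : ℝ) : qq 1 b = b - 1 := by
  rw [qq, Real.rpow_one, div_one]

theorem qq_half {a b : ℝ} (ha : 0 ≤ a) (h : b = a ^ 2) : qq (1 / 2) b = 2 * (a - 1) := by
  rw [qq, ← Real.sqrt_eq_rpow, h, Real.sqrt_sq ha]
  ring

theorem pos0a (a b : ℝ) (ha : 0 ≤ a) (hb : 0 ≤ b) : 0 ≤
      (142688439 / 100) * a ^ 0 * b ^ 9 +
      (330176268 / 25) * a ^ 1 * b ^ 8 +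
      (252894222 / 5) * a ^ 2 * b ^ 7 +
      (5401269171 / 50) * a ^ 3 * b ^ 6 +
      (14379310989 / 100) * a ^ 4 * b ^ 5 +
      (6236857017 / 50) * a ^ 5 * b ^ 4 +
      (1772380638 / 25) * a ^ 6 * b ^ 3 +
      (638757756 / 25) * a ^ 7 * b ^ 2 +
      (132805764 / 25) * a ^ 8 * b ^ 1 +
      (12160476 / 25) * a ^ 9 * b ^ 0 := by
  positivity

theorem pos0 (σ : ℝ) (h1 : 1 / 4 ≤ σ) (h2 : σ ≤ 1 / 3) :
    ((4 * σ - 1) * (3) + (1 - 3 * σ) * (21 / 4) + (-1 + (1 + 15) / (25 / 4)) * σ) * DD σ 15 ≤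
      15 * NN σ 15 * σ := by
  have h3 := pos0a (4 * σ - 1) (1 - 3 * σ) (by linarith) (by linarith)
  have h4 : 15 * NN σ 15 * σ -
      ((4 * σ - 1) * (3) + (1 - 3 * σ) * (21 / 4) + (-1 + (1 + 15) / (25 / 4)) * σ) * DD σ 15 =
      (142688439 / 100) * (4 * σ - 1) ^ 0 * (1 - 3 * σ) ^ 9 +
      (330176268 / 25) * (4 * σ - 1) ^ 1 * (1 - 3 * σ) ^ 8 +
      (252894222 / 5) * (4 * σ - 1) ^ 2 * (1 - 3 * σ) ^ 7 +
      (5401269171 / 50) * (4 * σ - 1) ^ 3 * (1 - 3 * σ) ^ 6 +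
      (14379310989 / 100) * (4 * σ - 1) ^ 4 * (1 - 3 * σ) ^ 5 +
      (6236857017 / 50) * (4 * σ - 1) ^ 5 * (1 - 3 * σ) ^ 4 +
      (1772380638 / 25) * (4 * σ - 1) ^ 6 * (1 - 3 * σ) ^ 3 +
      (638757756 / 25) * (4 * σ - 1) ^ 7 * (1 - 3 * σ) ^ 2 +
      (132805764 / 25) * (4 * σ - 1) ^ 8 * (1 - 3 * σ) ^ 1 +
      (12160476 / 25) * (4 * σ - 1) ^ 9 * (1 - 3 * σ) ^ 0 := by
    unfold NN DD
    ring
  linarith

theorem pos1a (a b : ℝ) (ha : 0 ≤ a) (hb : 0 ≤ b) : 0 ≤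
      (788024816 / 25) * a ^ 0 * b ^ 9 +
      (5267319168 / 25) * a ^ 1 * b ^ 8 +
      (3080792112 / 5) * a ^ 2 * b ^ 7 +
      (25795336048 / 25) * a ^ 3 * b ^ 6 +
      (27145331316 / 25) * a ^ 4 * b ^ 5 +
      (18495513096 / 25) * a ^ 5 * b ^ 4 +
      (8071986688 / 25) * a ^ 6 * b ^ 3 +
      (2133609756 / 25) * a ^ 7 * b ^ 2 +
      (297254439 / 25) * a ^ 8 * b ^ 1 +
      (14779976 / 25) * a ^ 9 * b ^ 0 := by
  positivity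

theorem pos1 (σ : ℝ) (h1 : 1 / 4 ≤ σ) (h2 : σ ≤ 1 / 3) :
    ((4 * σ - 1) * (3) + (1 - 3 * σ) * (21 / 4) + (-1 + (1 + 40) / (25 / 4)) * σ) * DD σ 40 ≤
      40 * NN σ 40 * σ := by
  have h3 := pos1a (4 * σ - 1) (1 - 3 * σ) (by linarith) (by linarith)
  have h4 : 40 * NN σ 40 * σ -
      ((4 * σ - 1) * (3) + (1 - 3 * σ) * (21 / 4) + (-1 + (1 + 40) / (25 / 4)) * σ) * DD σ 40 =
      (788024816 / 25) * (4 * σ - 1) ^ 0 * (1 - 3 * σ) ^ 9 +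
      (5267319168 / 25) * (4 * σ - 1) ^ 1 * (1 - 3 * σ) ^ 8 +
      (3080792112 / 5) * (4 * σ - 1) ^ 2 * (1 - 3 * σ) ^ 7 +
      (25795336048 / 25) * (4 * σ - 1) ^ 3 * (1 - 3 * σ) ^ 6 +
      (27145331316 / 25) * (4 * σ - 1) ^ 4 * (1 - 3 * σ) ^ 5 +
      (18495513096 / 25) * (4 * σ - 1) ^ 5 * (1 - 3 * σ) ^ 4 +
      (8071986688 / 25) * (4 * σ - 1) ^ 6 * (1 - 3 * σ) ^ 3 +
      (2133609756 / 25) * (4 * σ - 1) ^ 7 * (1 - 3 * σ) ^ 2 +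
      (297254439 / 25) * (4 * σ - 1) ^ 8 * (1 - 3 * σ) ^ 1 +
      (14779976 / 25) * (4 * σ - 1) ^ 9 * (1 - 3 * σ) ^ 0 := by
    unfold NN DD
    ring
  linarith

theorem pos2a (a b : ℝ) (ha : 0 ≤ a) (hb : 0 ≤ b) : 0 ≤
      (204187136 / 9) * a ^ 0 * b ^ 9 +
      (1490124544 / 9) * a ^ 1 * b ^ 8 +
      (1596264704 / 3) * a ^ 2 * b ^ 7 +
      (2968252672 / 3) * a ^ 3 * b ^ 6 +
      (10568901376 / 9) * a ^ 4 * b ^ 5 +
      (2770124864 / 3) * a ^ 5 * b ^ 4 +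
      (481389952) * a ^ 6 * b ^ 3 +
      (1445158144 / 9) * a ^ 7 * b ^ 2 +
      (93354944 / 3) * a ^ 8 * b ^ 1 +
      (24041872 / 9) * a ^ 9 * b ^ 0 := by
  positivity

theorem pos2 (σ : ℝ) (h1 : 1 / 4 ≤ σ) (h2 : σ ≤ 1 / 3) :
    ((4 * σ - 1) * (4) + (1 - 3 * σ) * (8) + (-1 + (1 + 40) / (9)) * σ) * DD σ 40 ≤
      40 * NN σ 40 * σ := by
  have h3 := pos2a (4 * σ - 1) (1 - 3 * σ) (by linarith) (by linarith)
  have h4 : 40 * NN σ 40 * σ -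
      ((4 * σ - 1) * (4) + (1 - 3 * σ) * (8) + (-1 + (1 + 40) / (9)) * σ) * DD σ 40 =
      (204187136 / 9) * (4 * σ - 1) ^ 0 * (1 - 3 * σ) ^ 9 +
      (1490124544 / 9) * (4 * σ - 1) ^ 1 * (1 - 3 * σ) ^ 8 +
      (1596264704 / 3) * (4 * σ - 1) ^ 2 * (1 - 3 * σ) ^ 7 +
      (2968252672 / 3) * (4 * σ - 1) ^ 3 * (1 - 3 * σ) ^ 6 +
      (10568901376 / 9) * (4 * σ - 1) ^ 4 * (1 - 3 * σ) ^ 5 +
      (2770124864 / 3) * (4 * σ - 1) ^ 5 * (1 - 3 * σ) ^ 4 +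
      (481389952) * (4 * σ - 1) ^ 6 * (1 - 3 * σ) ^ 3 +
      (1445158144 / 9) * (4 * σ - 1) ^ 7 * (1 - 3 * σ) ^ 2 +
      (93354944 / 3) * (4 * σ - 1) ^ 8 * (1 - 3 * σ) ^ 1 +
      (24041872 / 9) * (4 * σ - 1) ^ 9 * (1 - 3 * σ) ^ 0 := by
    unfold NN DD
    ring
  linarith

theorem pos3a (a b : ℝ) (ha : 0 ≤ a) (hb : 0 ≤ b) : 0 ≤
      (534449216 / 9) * a ^ 0 * b ^ 9 +
      (1202384768 / 3) * a ^ 1 * b ^ 8 +
      (10673067712 / 9) * a ^ 2 * b ^ 7 +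
      (18141026176 / 9) * a ^ 3 * b ^ 6 +
      (6491218112 / 3) * a ^ 4 * b ^ 5 +
      (13643324672 / 9) * a ^ 5 * b ^ 4 +
      (2068420736 / 3) * a ^ 6 * b ^ 3 +
      (583867328 / 3) * a ^ 7 * b ^ 2 +
      (30477568) * a ^ 8 * b ^ 1 +
      (1958288) * a ^ 9 * b ^ 0 := by
  positivity

theorem pos3 (σ : ℝ) (h1 : 1 / 4 ≤ σ) (h2 : σ ≤ 1 / 3) :
    ((4 * σ - 1) * (4) + (1 - 3 * σ) * (8) + (-1 + (1 + 60) / (9)) * σ) * DD σ 60 ≤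
      60 * NN σ 60 * σ := by
  have h3 := pos3a (4 * σ - 1) (1 - 3 * σ) (by linarith) (by linarith)
  have h4 : 60 * NN σ 60 * σ -
      ((4 * σ - 1) * (4) + (1 - 3 * σ) * (8) + (-1 + (1 + 60) / (9)) * σ) * DD σ 60 =
      (534449216 / 9) * (4 * σ - 1) ^ 0 * (1 - 3 * σ) ^ 9 +
      (1202384768 / 3) * (4 * σ - 1) ^ 1 * (1 - 3 * σ) ^ 8 +
      (10673067712 / 9) * (4 * σ - 1) ^ 2 * (1 - 3 * σ) ^ 7 +
      (18141026176 / 9) * (4 * σ - 1) ^ 3 * (1 - 3 * σ) ^ 6 +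
      (6491218112 / 3) * (4 * σ - 1) ^ 4 * (1 - 3 * σ) ^ 5 +
      (13643324672 / 9) * (4 * σ - 1) ^ 5 * (1 - 3 * σ) ^ 4 +
      (2068420736 / 3) * (4 * σ - 1) ^ 6 * (1 - 3 * σ) ^ 3 +
      (583867328 / 3) * (4 * σ - 1) ^ 7 * (1 - 3 * σ) ^ 2 +
      (30477568) * (4 * σ - 1) ^ 8 * (1 - 3 * σ) ^ 1 +
      (1958288) * (4 * σ - 1) ^ 9 * (1 - 3 * σ) ^ 0 := by
    unfold NN DD
    ring
  linarith

theorem pos4a (a b : ℝ) (ha : 0 ≤ a) (hb : 0 ≤ b) : 0 ≤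
      (1439012700 / 49) * a ^ 0 * b ^ 9 +
      (10873751200 / 49) * a ^ 1 * b ^ 8 +
      (36136308200 / 49) * a ^ 2 * b ^ 7 +
      (69513966000 / 49) * a ^ 3 * b ^ 6 +
      (85502303900 / 49) * a ^ 4 * b ^ 5 +
      (69874830400 / 49) * a ^ 5 * b ^ 4 +
      (38004994800 / 49) * a ^ 6 * b ^ 3 +
      (13285173900 / 49) * a ^ 7 * b ^ 2 +
      (2711517075 / 49) * a ^ 8 * b ^ 1 +
      (246416400 / 49) * a ^ 9 * b ^ 0 := by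
  positivity

theorem pos4 (σ : ℝ) (h1 : 1 / 4 ≤ σ) (h2 : σ ≤ 1 / 3) :
    ((4 * σ - 1) * (5) + (1 - 3 * σ) * (45 / 4) + (-1 + (1 + 60) / (49 / 4)) * σ) * DD σ 60 ≤
      60 * NN σ 60 * σ := by
  have h3 := pos4a (4 * σ - 1) (1 - 3 * σ) (by linarith) (by linarith)
  have h4 : 60 * NN σ 60 * σ -
      ((4 * σ - 1) * (5) + (1 - 3 * σ) * (45 / 4) + (-1 + (1 + 60) / (49 / 4)) * σ) * DD σ 60 =
      (1439012700 / 49) * (4 * σ - 1) ^ 0 * (1 - 3 * σ) ^ 9 +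
      (10873751200 / 49) * (4 * σ - 1) ^ 1 * (1 - 3 * σ) ^ 8 +
      (36136308200 / 49) * (4 * σ - 1) ^ 2 * (1 - 3 * σ) ^ 7 +
      (69513966000 / 49) * (4 * σ - 1) ^ 3 * (1 - 3 * σ) ^ 6 +
      (85502303900 / 49) * (4 * σ - 1) ^ 4 * (1 - 3 * σ) ^ 5 +
      (69874830400 / 49) * (4 * σ - 1) ^ 5 * (1 - 3 * σ) ^ 4 +
      (38004994800 / 49) * (4 * σ - 1) ^ 6 * (1 - 3 * σ) ^ 3 +
      (13285173900 / 49) * (4 * σ - 1) ^ 7 * (1 - 3 * σ) ^ 2 +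
      (2711517075 / 49) * (4 * σ - 1) ^ 8 * (1 - 3 * σ) ^ 1 +
      (246416400 / 49) * (4 * σ - 1) ^ 9 * (1 - 3 * σ) ^ 0 := by
    unfold NN DD
    ring
  linarith

theorem main : S_G4 := by
  intro σ h1 h2
  have a1 : qq (1 / 2) (25 / 4) ≤ 3 := by
    rw [qq_half (a := 5 / 2) (by norm_num) (by norm_num)]
    norm_num
  have a2 : qq 1 (25 / 4) ≤ 21 / 4 := by
    rw [qq_one]
    norm_num
  have a3 : qq (1 / 2) 9 ≤ 4 := by
    rw [qq_half (a := 3) (by norm_num) (by norm_num)]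
    norm_num
  have a4 : qq 1 9 ≤ 8 := by
    rw [qq_one]
    norm_num
  have a5 : qq (1 / 2) (49 / 4) ≤ 5 := by
    rw [qq_half (a := 7 / 2) (by norm_num) (by norm_num)]
    norm_num
  have a6 : qq 1 (49 / 4) ≤ 45 / 4 := by
    rw [qq_one]
    norm_num
  exact ⟨node h1 h2 (by norm_num) (by norm_num) a1 a2 (pos0 σ h1 h2),
    node h1 h2 (by norm_num) (by norm_num) a1 a2 (pos1 σ h1 h2),
    node h1 h2 (by norm_num) (by norm_num) a3 a4 (pos2 σ h1 h2),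
    node h1 h2 (by norm_num) (by norm_num) a3 a4 (pos3 σ h1 h2),
    node h1 h2 (by norm_num) (by norm_num) a5 a6 (pos4 σ h1 h2)⟩

end Pool.Agent.Y282.RB.G4
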