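import Pool.Agent.Y282.RB.Stm3
import Mathlib

/-!
# Project RB: the convexity condition `Hi σ (XX σ)`
-/

set_option autoImplicit false

namespace Pool.Agent.Y282.RB.Hi

theorem el_eq {σ : ℝ} (h0 : 0 < σ) (h1 : σ < 1 / 2) :
    (2 - σ) ^ 2 / pa σ + 9 * σ ^ 2 / pb σ =
      4 * (1 + 2 * σ - 2 * σ ^ 2) * (1 + 2 * σ ^ 2) / (1 - σ ^ 2) := by
  have e1 : 1 - σ ≠ 0 := by linarith
  have e2 : 1 + σ ≠ 0 := by linarith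
  have e3 : 2 - σ ≠ 0 := by linarith
  have e4 : σ ≠ 0 := h0.ne'
  have e5 : 2 + 4 * (σ * (1 - σ)) ≠ 0 := by nlinarith
  have h2 : pa σ = (2 - σ) * (1 + σ) / (2 + 4 * (σ * (1 - σ))) := by
    unfold pa mm
    congr 1
    ring
  have h3 : pb σ = 3 * (σ * (1 - σ)) / (2 + 4 * (σ * (1 - σ))) := by
    unfold pb mm
    rfl
  have h4 : 1 - σ ^ 2 = (1 - σ) * (1 + σ) := by ring
  rw [h2, h3, h4]
  field_simp
  ring

theorem key {σ X : ℝ} (h0 : 1 / 4 ≤ σ) (h1 : σ < 1 / 2) (hX : 0 < X)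
    (h : 4 * (1 + 2 * σ - 2 * σ ^ 2) * (1 + 2 * σ ^ 2) ≤
      X ^ 2 * (2 - 10 / 3 * σ + 2 / 3 * σ ^ 2) ^ 2 * (1 - σ ^ 2)) : Hi σ X := by
  have hσ : 0 < σ := by linarith
  have hs1 : 0 < 1 - σ ^ 2 := by nlinarith
  have hq : 0 < 2 - 10 / 3 * σ + 2 / 3 * σ ^ 2 := by nlinarith
  have hd : 0 < σ * (1 + σ) := by positivity
  have hD : 1 / 3 ≤ CC σ - el σ / X := by
    have h2 : Real.sqrt ((2 - σ) ^ 2 / pa σ + 9 * σ ^ 2 / pb σ) ≤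
        X * (2 - 10 / 3 * σ + 2 / 3 * σ ^ 2) := by
      rw [el_eq hσ h1]
      apply Real.sqrt_le_iff.2
      refine ⟨by positivity, ?_⟩
      rw [div_le_iff₀ hs1, mul_pow]
      exact h
    have h3 : el σ / X ≤ (2 - 10 / 3 * σ + 2 / 3 * σ ^ 2) / (σ * (1 + σ)) := by
      unfold el
      rw [div_div, div_le_div_iff₀ (by positivity) hd]
      calc _ ≤ (X * (2 - 10 / 3 * σ + 2 / 3 * σ ^ 2)) * (σ * (1 + σ)) :=
            mul_le_mul_of_nonneg_right h2 hd.le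
        _ = _ := by ring
    have h4 : CC σ = (2 - 10 / 3 * σ + 2 / 3 * σ ^ 2) / (σ * (1 + σ)) + 1 / 3 := by
      unfold CC
      field_simp
      ring
    linarith
  have hD0 : 0 < CC σ - el σ / X := by linarith
  refine ⟨hD0, ?_⟩
  obtain ⟨e, he⟩ : ∃ e, e = 1 / σ - 2 := ⟨_, rfl⟩
  have he0 : 0 < e := by
    rw [he, sub_pos, lt_div_iff₀ hσ]
    linarith
  have he2 : e ≤ 2 := by
    rw [he, sub_le_iff_le_add, div_le_iff₀ hσ]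
    linarith
  rw [← he]
  have hC : 1 + e ≤ CC σ := by
    rw [he]
    unfold CC
    have : 1 + (1 / σ - 2) = (1 - σ) / σ := by field_simp; ring
    rw [this, div_le_div_iff₀ hσ hd]
    nlinarith [mul_pos hσ (by linarith : 0 < 1 - σ)]
  have h5 : (3 : ℝ) ^ (e / 2) ≤ 1 + e := by
    have := rpow_one_add_le_one_add_mul_self (s := 2) (p := e / 2) (by norm_num) (by linarith) (by linarith)
    norm_num at this
    linarith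
  have h6 : (3 : ℝ) ^ e ≤ (CC σ) ^ 2 := by
    have h7 : (3 : ℝ) ^ e = ((3 : ℝ) ^ (e / 2)) ^ 2 := by
      rw [← Real.rpow_natCast, ← Real.rpow_mul (by norm_num)]
      congr 1
      push_cast
      ring
    rw [h7]
    exact pow_le_pow_left₀ (by positivity) (h5.trans hC) 2
  have h8 : (1 / 3 : ℝ) ^ e ≤ (CC σ - el σ / X) ^ e :=
    Real.rpow_le_rpow (by norm_num) hD he0.le
  have h9 : (1 / 3 : ℝ) ^ e = ((3 : ℝ) ^ e)⁻¹ := by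
    rw [one_div, Real.inv_rpow (by norm_num)]
  have h10 : 0 < (3 : ℝ) ^ e := by positivity
  calc (1 : ℝ) = (3 : ℝ) ^ e * (1 / 3 : ℝ) ^ e := by
        rw [h9, mul_inv_cancel₀ h10.ne']
    _ ≤ (CC σ) ^ 2 * (CC σ - el σ / X) ^ e :=
        mul_le_mul h6 h8 (by positivity) (by positivity)

theorem q4 {σ : ℝ} (h0 : 1 / 4 ≤ σ) (h1 : σ ≤ 1 / 3) :
    0 ≤ (7 / 2 : ℝ) ^ 2 * (2 - 10 / 3 * σ + 2 / 3 * σ ^ 2) ^ 2 * (1 - σ ^ 2) -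
      4 * (1 + 2 * σ - 2 * σ ^ 2) * (1 + 2 * σ ^ 2) := by
  obtain ⟨u, hu⟩ : ∃ u, u = σ - 1 / 4 := ⟨_, rfl⟩
  obtain ⟨v, hv⟩ : ∃ v, v = 1 / 3 - σ := ⟨_, rfl⟩
  have hu0 : 0 ≤ u := by linarith
  have hv0 : 0 ≤ v := by linarith
  have h : (7 / 2 : ℝ) ^ 2 * (2 - 10 / 3 * σ + 2 / 3 * σ ^ 2) ^ 2 * (1 - σ ^ 2) -
      4 * (1 + 2 * σ - 2 * σ ^ 2) * (1 + 2 * σ ^ 2) =
      31593159 * v ^ 6 +
        164127168 * u ^ 1 * v ^ 5 +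
        349690896 * u ^ 2 * v ^ 4 +
        389316864 * u ^ 3 * v ^ 3 +
        237167360 * u ^ 4 * v ^ 2 +
        (222214144 / 3) * u ^ 5 * v ^ 1 +
        (81575936 / 9) * u ^ 6 := by
    rw [hu, hv]
    ring
  rw [h]
  positivity

theorem q3 {σ : ℝ} (h0 : 1 / 3 ≤ σ) (h1 : σ ≤ 2 / 5) :
    0 ≤ (5 : ℝ) ^ 2 * (2 - 10 / 3 * σ + 2 / 3 * σ ^ 2) ^ 2 * (1 - σ ^ 2) -
      4 * (1 + 2 * σ - 2 * σ ^ 2) * (1 + 2 * σ ^ 2) := by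
  obtain ⟨u, hu⟩ : ∃ u, u = σ - 1 / 3 := ⟨_, rfl⟩
  obtain ⟨v, hv⟩ : ∃ v, v = 2 / 5 - σ := ⟨_, rfl⟩
  have hu0 : 0 ≤ u := by linarith
  have hv0 : 0 ≤ v := by linarith
  have h : (5 : ℝ) ^ 2 * (2 - 10 / 3 * σ + 2 / 3 * σ ^ 2) ^ 2 * (1 - σ ^ 2) -
      4 * (1 + 2 * σ - 2 * σ ^ 2) * (1 + 2 * σ ^ 2) =
      (1388562500 / 9) * v ^ 6 +
        (2435275000 / 3) * u ^ 1 * v ^ 5 +
        1758605000 * u ^ 2 * v ^ 4 +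
        2002188000 * u ^ 3 * v ^ 3 +
        1258212600 * u ^ 4 * v ^ 2 +
        411199200 * u ^ 5 * v ^ 1 +
        54043200 * u ^ 6 := by
    rw [hu, hv]
    ring
  rw [h]
  positivity

theorem q2 {σ : ℝ} (h0 : 2 / 5 ≤ σ) (h1 : σ ≤ 4 / 9) :
    0 ≤ (6 : ℝ) ^ 2 * (2 - 10 / 3 * σ + 2 / 3 * σ ^ 2) ^ 2 * (1 - σ ^ 2) -
      4 * (1 + 2 * σ - 2 * σ ^ 2) * (1 + 2 * σ ^ 2) := by
  obtain ⟨u, hu⟩ : ∃ u, u = σ - 2 / 5 := ⟨_, rfl⟩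
  obtain ⟨v, hv⟩ : ∃ v, v = 4 / 9 - σ := ⟨_, rfl⟩
  have hu0 : 0 ≤ u := by linarith
  have hv0 : 0 ≤ v := by linarith
  have h : (6 : ℝ) ^ 2 * (2 - 10 / 3 * σ + 2 / 3 * σ ^ 2) ^ 2 * (1 - σ ^ 2) -
      4 * (1 + 2 * σ - 2 * σ ^ 2) * (1 + 2 * σ ^ 2) =
      (21320881479 / 16) * v ^ 6 +
        (56592266355 / 8) * u ^ 1 * v ^ 5 +
        (247616896725 / 16) * u ^ 2 * v ^ 4 +
        (71250728625 / 4) * u ^ 3 * v ^ 3 +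
        (181337990625 / 16) * u ^ 4 * v ^ 2 +
        (30068746875 / 8) * u ^ 5 * v ^ 1 +
        (8049171875 / 16) * u ^ 6 := by
    rw [hu, hv]
    ring
  rw [h]
  positivity

theorem q1 {σ : ℝ} (h0 : 4 / 9 ≤ σ) (h1 : σ ≤ 1 / 2) :
    0 ≤ (7 : ℝ) ^ 2 * (2 - 10 / 3 * σ + 2 / 3 * σ ^ 2) ^ 2 * (1 - σ ^ 2) -
      4 * (1 + 2 * σ - 2 * σ ^ 2) * (1 + 2 * σ ^ 2) := by
  obtain ⟨u, hu⟩ : ∃ u, u = σ - 4 / 9 := ⟨_, rfl⟩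
  obtain ⟨v, hv⟩ : ∃ v, v = 1 / 2 - σ := ⟨_, rfl⟩
  have hu0 : 0 ≤ u := by linarith
  have hv0 : 0 ≤ v := by linarith
  have h : (7 : ℝ) ^ 2 * (2 - 10 / 3 * σ + 2 / 3 * σ ^ 2) ^ 2 * (1 - σ ^ 2) -
      4 * (1 + 2 * σ - 2 * σ ^ 2) * (1 + 2 * σ ^ 2) =
      (2536951808 / 9) * v ^ 6 +
        1369280512 * u ^ 1 * v ^ 5 +
        2666606976 * u ^ 2 * v ^ 4 +
        2609418240 * u ^ 3 * v ^ 3 +
        1293094368 * u ^ 4 * v ^ 2 +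
        269263440 * u ^ 5 * v ^ 1 +
        6377292 * u ^ 6 := by
    rw [hu, hv]
    ring
  rw [h]
  positivity

theorem main : S_Hi := by
  intro σ h0 h1
  unfold XX
  split_ifs with c1 c2 c3
  · exact key h0 h1 (by norm_num) (sub_nonneg.1 (q4 h0 c1))
  · exact key h0 h1 (by norm_num) (sub_nonneg.1 (q3 (not_le.1 c1).le c2))
  · exact key h0 h1 (by norm_num) (sub_nonneg.1 (q2 (not_le.1 c2).le c3))
  · exact key h0 h1 (by norm_num) (sub_nonneg.1 (q1 (not_le.1 c3).le h1.le))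

end Pool.Agent.Y282.RB.Hi
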