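import Pool.Agent.Y282.RB.Stm3

/-!
# Project RB (helper282), part RB-Hii1 (job 8770, helper542): the condition `Hii σ 7` on `[4/9, 1/2)`

With `δ = 1 - 2 σ` and `D = (1 - δ)² (3 - δ)` both sides, multiplied by `D²`, are compared with multiples of `δ²`.
-/

set_option autoImplicit false

namespace Pool.Agent.Y282.RB.Hii1

open Pool.Agent.Y282.RB

theorem log7 : Real.log 7 ≤ 2 := by
  rw [Real.log_le_iff_le_exp (by norm_num)]
  have h1 := Real.exp_one_gt_d9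
  have h2 : Real.exp 2 = Real.exp 1 * Real.exp 1 := by rw [← Real.exp_add]; norm_num
  rw [h2]
  nlinarith

theorem kap (e : ℝ) (he : 0 ≤ e) : (7 : ℝ) ^ (-e) ≤ 1 ∧ 1 - 2 * e ≤ (7 : ℝ) ^ (-e) := by
  refine ⟨Real.rpow_le_one_of_one_le_of_nonpos (by norm_num) (by linarith), ?_⟩
  rw [Real.rpow_def_of_pos (by norm_num)]
  have h1 := Real.add_one_le_exp (Real.log 7 * -e)
  have h2 := mul_le_mul_of_nonneg_right log7 he
  linarith

theorem main : S_Hii1 := by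
  intro σ h1 h2
  unfold Hii
  obtain ⟨δ, hδ⟩ : ∃ δ : ℝ, δ = 1 - 2 * σ := ⟨_, rfl⟩
  have hσ : σ = (1 - δ) / 2 := by linarith
  have hδ0 : 0 < δ := by linarith
  have hδ1 : δ ≤ 1 / 9 := by linarith
  have hσ0 : 0 < σ := by linarith
  have he : 1 / σ - 2 = 2 * δ / (1 - δ) := by
    have h3 : 1 - δ ≠ 0 := by linarith
    rw [hσ]
    field_simp
    ring
  have he0 : 0 ≤ 1 / σ - 2 := by
    rw [he]
    exact div_nonneg (by linarith) (by linarith)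
  obtain ⟨k1, k2⟩ := kap _ he0
  generalize (7 : ℝ) ^ (-(1 / σ - 2)) = κ at k1 k2 ⊢
  rw [he] at k2
  have k3 : 1 - 5 * δ ≤ κ * (1 - δ) := by
    have h3 : 0 < 1 - δ := by linarith
    have h4 := mul_le_mul_of_nonneg_right k2 h3.le
    have h5 : (1 - 2 * (2 * δ / (1 - δ))) * (1 - δ) = 1 - 5 * δ := by
      field_simp
      ring
    linarith
  set D : ℝ := (1 - δ) ^ 2 * (3 - δ) with hD
  have hD0 : 0 < D := by
    have h3 : 0 < 1 - δ := by linarith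
    have h4 : 0 < 3 - δ := by linarith
    positivity
  obtain ⟨A, hA⟩ : ∃ A : ℝ, A = CC σ * (1 / σ - 1) := ⟨_, rfl⟩
  have hAD : A * D = (1 + δ) ^ 2 * (3 + δ) := by
    have h3 : 1 + σ ≠ 0 := by linarith
    have h4 : A * (σ ^ 2 * (1 + σ)) = (1 - σ) ^ 2 * (2 - σ) := by
      rw [hA]
      unfold CC
      field_simp
    have h5 : D = 8 * (σ ^ 2 * (1 + σ)) := by rw [hD, hδ]; ring
    have h6 : (1 + δ) ^ 2 * (3 + δ) = 8 * ((1 - σ) ^ 2 * (2 - σ)) := by rw [hδ]; ring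
    rw [h5, h6, ← h4]
    ring
  have hC : 7 * (CC σ - 1) * (1 + A) * (σ * (1 + σ)) = 14 * δ * (1 + A) := by
    have h3 : 1 + σ ≠ 0 := by linarith
    unfold CC
    rw [hδ]
    field_simp
    ring
  rw [← hA, hC, ← hδ]
  set b1 : ℝ := (A - κ) * (2 - σ) + δ * κ with hb1
  set b2 : ℝ := σ * (A - κ) - δ * κ with hb2
  -- bounds
  have hkD1 : κ * D ≤ D := by
    have := mul_le_mul_of_nonneg_right k1 hD0.le
    linarith
  have hkD2 : (1 - 5 * δ) * ((1 - δ) * (3 - δ)) ≤ κ * D := by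
    have h3 : 0 ≤ (1 - δ) * (3 - δ) := by
      have h4 : 0 < 1 - δ := by linarith
      have h5 : 0 < 3 - δ := by linarith
      positivity
    have h4 := mul_le_mul_of_nonneg_right k3 h3
    have h5 : κ * (1 - δ) * ((1 - δ) * (3 - δ)) = κ * D := by rw [hD]; ring
    linarith
  have e1 : b1 * D = (1 + δ) ^ 2 * (3 + δ) * ((3 + δ) / 2) - κ * D * ((3 - δ) / 2) := by
    rw [hb1, hσ, ← hAD]
    ring
  have e2 : b2 * D = (1 + δ) ^ 2 * (3 + δ) * ((1 - δ) / 2) - κ * D * ((1 + δ) / 2) := by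
    rw [hb2, hσ, ← hAD]
    ring
  have d2 : 0 ≤ δ ^ 2 := sq_nonneg _
  have d3 : 0 ≤ δ ^ 3 := by positivity
  have d4 : 0 ≤ δ ^ 4 := by positivity
  have d21 : δ ^ 2 ≤ δ / 9 := by
    have := mul_le_mul_of_nonneg_left hδ1 hδ0.le
    rw [pow_two]; linarith
  have d32 : δ ^ 3 ≤ δ ^ 2 / 9 := by
    have := mul_le_mul_of_nonneg_left hδ1 d2
    rw [pow_succ δ 2]; linarith
  have d43 : δ ^ 4 ≤ δ ^ 3 / 9 := by
    have := mul_le_mul_of_nonneg_left hδ1 d3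
    rw [pow_succ δ 3]; linarith
  have hb1u : b1 * D ≤ 42 * δ := by
    have h3 := mul_le_mul_of_nonneg_right hkD2 (show 0 ≤ (3 - δ) / 2 by linarith)
    have h4 : (1 + δ) ^ 2 * (3 + δ) * ((3 + δ) / 2) - (1 - 5 * δ) * ((1 - δ) * (3 - δ)) * ((3 - δ) / 2) =
        δ * (42 - 30 * δ + 22 * δ ^ 2 - 2 * δ ^ 3) := by ring
    have h5 : δ * (42 - 30 * δ + 22 * δ ^ 2 - 2 * δ ^ 3) ≤ 42 * δ := by
      have : δ * (42 - 30 * δ + 22 * δ ^ 2 - 2 * δ ^ 3) = 42 * δ - 30 * δ ^ 2 + 22 * δ ^ 3 - 2 * δ ^ 4 := by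
        ring
      rw [this]; linarith
    rw [e1]
    linarith
  have hb1l : 0 ≤ b1 * D := by
    have h3 := mul_le_mul_of_nonneg_right hkD1 (show 0 ≤ (3 - δ) / 2 by linarith)
    have h4 : (1 + δ) ^ 2 * (3 + δ) * ((3 + δ) / 2) - D * ((3 - δ) / 2) =
        δ * (24 + 8 * δ ^ 2) := by rw [hD]; ring
    have h5 : 0 ≤ δ * (24 + 8 * δ ^ 2) := by positivity
    rw [e1]
    linarith
  have hb2u : b2 * D ≤ 10 * δ := by
    have h3 := mul_le_mul_of_nonneg_right hkD2 (show 0 ≤ (1 + δ) / 2 by linarith)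
    have h4 : (1 + δ) ^ 2 * (3 + δ) * ((1 - δ) / 2) - (1 - 5 * δ) * ((1 - δ) * (3 - δ)) * ((1 + δ) / 2) =
        δ * (10 - 2 * δ - 10 * δ ^ 2 + 2 * δ ^ 3) := by ring
    have h5 : δ * (10 - 2 * δ - 10 * δ ^ 2 + 2 * δ ^ 3) ≤ 10 * δ := by
      have : δ * (10 - 2 * δ - 10 * δ ^ 2 + 2 * δ ^ 3) = 10 * δ - 2 * δ ^ 2 - 10 * δ ^ 3 + 2 * δ ^ 4 := by
        ring
      rw [this]; linarith
    rw [e2]
    linarith
  have hb2l : 0 ≤ b2 * D := by
    have h3 := mul_le_mul_of_nonneg_right hkD1 (show 0 ≤ (1 + δ) / 2 by linarith)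
    have h4 : (1 + δ) ^ 2 * (3 + δ) * ((1 - δ) / 2) - D * ((1 + δ) / 2) =
        4 * δ * (1 - δ ^ 2) := by rw [hD]; ring
    have h5 : 0 ≤ 4 * δ * (1 - δ ^ 2) := by
      have : 0 ≤ 1 - δ ^ 2 := by linarith
      positivity
    rw [e2]
    linarith
  -- weights
  have hm : mm σ = (1 - δ ^ 2) / 4 := by
    unfold mm
    rw [hσ]
    ring
  have hpa : 3 / 4 ≤ pa σ := by
    unfold pa
    rw [hm, div_le_div_iff₀ (by norm_num) (by linarith)]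
    linarith
  have hpb : 9 / 37 ≤ pb σ := by
    unfold pb
    rw [hm, div_le_div_iff₀ (by norm_num) (by linarith)]
    linarith
  have hpa0 : 0 < pa σ := by linarith
  have hpb0 : 0 < pb σ := by linarith
  have q1 : b1 ^ 2 / pa σ ≤ 4 / 3 * b1 ^ 2 := by
    rw [div_le_iff₀ hpa0]
    have := mul_le_mul_of_nonneg_left hpa (sq_nonneg b1)
    linarith
  have q2 : 9 * b2 ^ 2 / pb σ ≤ 37 * b2 ^ 2 := by
    rw [div_le_iff₀ hpb0]
    have := mul_le_mul_of_nonneg_left hpb (sq_nonneg b2)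
    linarith
  have q3 : (b1 * D) ^ 2 ≤ (42 * δ) ^ 2 := pow_le_pow_left₀ hb1l hb1u 2
  have q4 : (b2 * D) ^ 2 ≤ (10 * δ) ^ 2 := pow_le_pow_left₀ hb2l hb2u 2
  have q5 : (84 * δ) ^ 2 ≤ (14 * δ * (1 + A) * D) ^ 2 := by
    refine pow_le_pow_left₀ (by positivity) ?_ 2
    have h3 : 14 * δ * (1 + A) * D = 14 * δ * (6 + 10 * δ ^ 2) := by
      have : (1 + A) * D = 6 + 10 * δ ^ 2 := by
        rw [add_mul, hAD, hD]
        ring
      rw [mul_assoc, this]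
    rw [h3]
    have h4 : 14 * δ * (6 + 10 * δ ^ 2) = 84 * δ + 140 * δ ^ 3 := by ring
    rw [h4]; linarith
  have hfin : (4 / 3 * b1 ^ 2 + 37 * b2 ^ 2) * D ^ 2 ≤ (14 * δ * (1 + A)) ^ 2 * D ^ 2 := by
    have h3 : (4 / 3 * b1 ^ 2 + 37 * b2 ^ 2) * D ^ 2 = 4 / 3 * (b1 * D) ^ 2 + 37 * (b2 * D) ^ 2 := by ring
    have h4 : (14 * δ * (1 + A)) ^ 2 * D ^ 2 = (14 * δ * (1 + A) * D) ^ 2 := by ring
    rw [h3, h4]
    have h5 : (42 * δ) ^ 2 = 1764 * δ ^ 2 := by ring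
    have h6 : (10 * δ) ^ 2 = 100 * δ ^ 2 := by ring
    have h7 : (84 * δ) ^ 2 = 7056 * δ ^ 2 := by ring
    rw [h5] at q3
    rw [h6] at q4
    rw [h7] at q5
    linarith
  have hfin2 := le_of_mul_le_mul_right hfin (by positivity)
  linarith

end Pool.Agent.Y282.RB.Hii1
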