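import Pool.Agent.Y282.RB.Stm3
import Mathlib

/-!
# Project RB: the condition `Hii σ 6` on `[2/5, 4/9]`
-/

set_option autoImplicit false

namespace Pool.Agent.Y282.RB.Hii2

theorem quad {σ A κ : ℝ} (h0 : 0 < σ) (h1 : σ < 1 / 2) :
    (A * (2 - σ) - κ * (1 + σ)) ^ 2 / pa σ + 9 * (σ * A - κ * (1 - σ)) ^ 2 / pb σ =
      4 * ((1 + 2 * σ - 2 * σ ^ 2) * (A ^ 2 * ((1 + 2 * σ ^ 2) / (1 - σ ^ 2)) - 4 * A * κ +
        κ ^ 2 * ((3 - 4 * σ + 2 * σ ^ 2) / (σ * (2 - σ))))) := by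
  have e1 : 1 - σ ≠ 0 := by linarith
  have e2 : 1 + σ ≠ 0 := by linarith
  have e3 : 2 - σ ≠ 0 := by linarith
  have e4 : σ ≠ 0 := h0.ne'
  have e5 : 2 + 4 * (σ * (1 - σ)) ≠ 0 := by nlinarith
  have hpa : pa σ = (2 - σ) * (1 + σ) / (2 + 4 * (σ * (1 - σ))) := by
    unfold pa mm
    congr 1
    ring
  have hpb : pb σ = 3 * (σ * (1 - σ)) / (2 + 4 * (σ * (1 - σ))) := by
    unfold pb mm
    rfl
  have h4 : 1 - σ ^ 2 = (1 - σ) * (1 + σ) := by ring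
  rw [hpa, hpb, h4, div_div_eq_mul_div, div_div_eq_mul_div]
  field_simp
  ring

theorem pa_pos {σ : ℝ} (h0 : 0 < σ) (h1 : σ < 1 / 2) : 0 < pa σ := by
  unfold pa mm
  have : 0 < 1 - σ := by linarith
  positivity

theorem pb_pos {σ : ℝ} (h0 : 0 < σ) (h1 : σ < 1 / 2) : 0 < pb σ := by
  unfold pb mm
  have : 0 < 1 - σ := by linarith
  positivity

theorem one_le_CC {σ : ℝ} (h0 : 0 < σ) (h1 : σ < 1 / 2) :
    1 ≤ (1 - σ) * (2 - σ) / (σ * (1 + σ)) := by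
  rw [le_div_iff₀ (by positivity)]
  nlinarith

/-- reduction of `Hii` to a rational inequality by a lower bound for the power -/
theorem key {σ X κ : ℝ} (h0 : 0 < σ) (h1 : σ < 1 / 2) (hX : 1 ≤ X)
    (hκ : κ ≤ X ^ (-(1 / σ - 2)))
    (h : (1 + 2 * σ - 2 * σ ^ 2) *
      (((1 - σ) ^ 2 * (2 - σ) / (σ ^ 2 * (1 + σ))) ^ 2 * ((1 + 2 * σ ^ 2) / (1 - σ ^ 2)) -
        4 * ((1 - σ) ^ 2 * (2 - σ) / (σ ^ 2 * (1 + σ))) * κ +
        κ ^ 2 * ((3 - 4 * σ + 2 * σ ^ 2) / (σ * (2 - σ)))) ≤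
      (X * (1 - 2 * σ) * (1 + (1 - σ) ^ 2 * (2 - σ) / (σ ^ 2 * (1 + σ)))) ^ 2) : Hii σ X := by
  have e1 : 0 < 1 - σ := by linarith
  have e2 : 0 < 1 + σ := by linarith
  have e3 : 0 < 2 - σ := by linarith
  obtain ⟨k, hk⟩ : ∃ k, k = X ^ (-(1 / σ - 2)) := ⟨_, rfl⟩
  have he : 0 < 1 / σ - 2 := by
    rw [sub_pos, lt_div_iff₀ h0]
    linarith
  have hk1 : k ≤ 1 := by
    rw [hk]
    exact Real.rpow_le_one_of_one_le_of_nonpos hX (by linarith)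
  obtain ⟨A, hA⟩ : ∃ A, A = (1 - σ) ^ 2 * (2 - σ) / (σ ^ 2 * (1 + σ)) := ⟨_, rfl⟩
  obtain ⟨C, hC0⟩ : ∃ C, C = CC σ := ⟨_, rfl⟩
  have hC1 : 1 ≤ C := by
    rw [hC0]
    exact one_le_CC h0 h1
  have hA2 : C * (1 / σ - 1) = A := by
    rw [hA, hC0]
    unfold CC
    field_simp
  have hA6 : σ * A = C * (1 - σ) := by
    rw [← hA2]
    field_simp
  have hC : (C - 1) * (σ * (1 + σ)) = 2 * (1 - 2 * σ) := by
    rw [hC0]
    unfold CC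
    rw [sub_mul, div_mul_cancel₀ _ (by positivity)]
    ring
  -- lower bounds
  have hA4 : 1 - σ ≤ σ * A := by
    rw [hA6]
    nlinarith
  have hA7 : 1 ≤ A := by
    rw [← hA2]
    have : 1 ≤ 1 / σ - 1 := by linarith
    nlinarith
  have hA5 : 1 + σ ≤ A * (2 - σ) := by nlinarith
  rw [← hA] at h
  unfold Hii
  rw [← hk] at hκ ⊢
  rw [← hC0, hA2]
  have hb1 : (A - k) * (2 - σ) + (1 - 2 * σ) * k = A * (2 - σ) - k * (1 + σ) := by ring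
  have hb2 : σ * (A - k) - (1 - 2 * σ) * k = σ * A - k * (1 - σ) := by ring
  rw [hb1, hb2]
  have g1 : 0 ≤ A * (2 - σ) - k * (1 + σ) := by
    have := mul_le_mul_of_nonneg_right hk1 e2.le
    linarith
  have g2 : 0 ≤ σ * A - k * (1 - σ) := by
    have := mul_le_mul_of_nonneg_right hk1 e1.le
    linarith
  have g3 : (A * (2 - σ) - k * (1 + σ)) ^ 2 ≤ (A * (2 - σ) - κ * (1 + σ)) ^ 2 := by
    apply pow_le_pow_left₀ g1
    have := mul_le_mul_of_nonneg_right hκ e2.le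
    linarith
  have g4 : (σ * A - k * (1 - σ)) ^ 2 ≤ (σ * A - κ * (1 - σ)) ^ 2 := by
    apply pow_le_pow_left₀ g2
    have := mul_le_mul_of_nonneg_right hκ e1.le
    linarith
  have g6 : (X * (C - 1) * (1 + A) * (σ * (1 + σ))) ^ 2 =
      4 * (X * (1 - 2 * σ) * (1 + A)) ^ 2 := by
    have : X * (C - 1) * (1 + A) * (σ * (1 + σ)) = 2 * (X * (1 - 2 * σ) * (1 + A)) := by
      linear_combination (X * (1 + A)) * hC
    rw [this]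
    ring
  rw [g6]
  have g7 := quad (A := A) (κ := κ) h0 h1
  have g8 : (A * (2 - σ) - k * (1 + σ)) ^ 2 / pa σ ≤ (A * (2 - σ) - κ * (1 + σ)) ^ 2 / pa σ :=
    div_le_div_of_nonneg_right g3 (pa_pos h0 h1).le
  have g9 : 9 * (σ * A - k * (1 - σ)) ^ 2 / pb σ ≤ 9 * (σ * A - κ * (1 - σ)) ^ 2 / pb σ :=
    div_le_div_of_nonneg_right (by linarith) (pb_pos h0 h1).le
  linarith

/-- clearing denominators -/
theorem clear {σ X K D : ℝ} (h0 : 0 < σ) (h1 : σ < 1 / 2) (hD : 0 < D)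
    (h : 0 ≤ X ^ 2 * (1 - 2 * σ) ^ 2 * (σ ^ 2 * (1 + σ) + (1 - σ) ^ 2 * (2 - σ)) ^ 2 *
        (1 - σ ^ 2) * (2 - σ) * D ^ 2 * σ -
      (1 + 2 * σ - 2 * σ ^ 2) * (((1 - σ) ^ 2 * (2 - σ)) ^ 2 * (1 + 2 * σ ^ 2) * (2 - σ) *
        D ^ 2 * σ - 4 * ((1 - σ) ^ 2 * (2 - σ)) * σ ^ 2 * (1 + σ) * K *
        D * (1 - σ ^ 2) * (2 - σ) * σ +
        K ^ 2 * σ ^ 4 * (1 + σ) ^ 2 * (3 - 4 * σ + 2 * σ ^ 2) * (1 - σ ^ 2))) :
    (1 + 2 * σ - 2 * σ ^ 2) *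
      (((1 - σ) ^ 2 * (2 - σ) / (σ ^ 2 * (1 + σ))) ^ 2 * ((1 + 2 * σ ^ 2) / (1 - σ ^ 2)) -
        4 * ((1 - σ) ^ 2 * (2 - σ) / (σ ^ 2 * (1 + σ))) * (K / D) +
        (K / D) ^ 2 * ((3 - 4 * σ + 2 * σ ^ 2) / (σ * (2 - σ)))) ≤
      (X * (1 - 2 * σ) * (1 + (1 - σ) ^ 2 * (2 - σ) / (σ ^ 2 * (1 + σ)))) ^ 2 := by
  have e1 : 0 < 1 - σ := by linarith
  have e2 : 0 < 1 + σ := by linarith
  have e3 : 0 < 2 - σ := by linarith
  have e4 : 1 - σ ^ 2 = (1 - σ) * (1 + σ) := by ring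
  have e5 : 0 < 1 - σ ^ 2 := by rw [e4]; positivity
  have h2 : 0 < σ ^ 5 * (1 + σ) ^ 2 * (1 - σ ^ 2) * (2 - σ) * D ^ 2 := by positivity
  rw [← sub_nonneg]
  refine le_of_le_of_eq (div_nonneg h h2.le) ?_
  have e6 : 1 - σ ^ 2 ≠ 0 := e5.ne'
  obtain ⟨w, hw⟩ : ∃ w, w = 1 - σ ^ 2 := ⟨_, rfl⟩
  obtain ⟨t, ht⟩ : ∃ t, t = 2 - σ := ⟨_, rfl⟩
  obtain ⟨a, ha⟩ : ∃ a, a = 1 + σ := ⟨_, rfl⟩
  rw [← hw, ← ht, ← ha]
  rw [← hw] at e6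
  have e7 : t ≠ 0 := by rw [ht]; exact e3.ne'
  have e8 : a ≠ 0 := by rw [ha]; exact e2.ne'
  have e9 : σ ≠ 0 := h0.ne'
  have e10 : D ≠ 0 := hD.ne'
  rw [div_eq_iff (by positivity)]
  field_simp

theorem poly {σ : ℝ} (h0 : 2 / 5 ≤ σ) (h1 : σ ≤ 4 / 9) :
    0 ≤ (6 ^ 2 * (1 - 2 * σ) ^ 2 * (σ ^ 2 * (1 + σ) + (1 - σ) ^ 2 * (2 - σ)) ^ 2 * (1 - σ ^ 2) *
        (2 - σ) * (96 - 176 * σ) ^ 2 * σ -
      (1 + 2 * σ - 2 * σ ^ 2) * (((1 - σ) ^ 2 * (2 - σ)) ^ 2 * (1 + 2 * σ ^ 2) * (2 - σ) *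
        (96 - 176 * σ) ^ 2 * σ - 4 * ((1 - σ) ^ 2 * (2 - σ)) * σ ^ 2 * (1 + σ) * (25 * σ) *
        (96 - 176 * σ) * (1 - σ ^ 2) * (2 - σ) * σ +
        (25 * σ) ^ 2 * σ ^ 4 * (1 + σ) ^ 2 * (3 - 4 * σ + 2 * σ ^ 2) * (1 - σ ^ 2))) := by
  obtain ⟨u, hu⟩ : ∃ u, u = σ - 2 / 5 := ⟨_, rfl⟩
  obtain ⟨v, hv⟩ : ∃ v, v = 4 / 9 - σ := ⟨_, rfl⟩
  have hu0 : 0 ≤ u := by linarith
  have hv0 : 0 ≤ v := by linarith
  have h : (6 ^ 2 * (1 - 2 * σ) ^ 2 * (σ ^ 2 * (1 + σ) + (1 - σ) ^ 2 * (2 - σ)) ^ 2 * (1 - σ ^ 2) *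
        (2 - σ) * (96 - 176 * σ) ^ 2 * σ -
      (1 + 2 * σ - 2 * σ ^ 2) * (((1 - σ) ^ 2 * (2 - σ)) ^ 2 * (1 + 2 * σ ^ 2) * (2 - σ) *
        (96 - 176 * σ) ^ 2 * σ - 4 * ((1 - σ) ^ 2 * (2 - σ)) * σ ^ 2 * (1 + σ) * (25 * σ) *
        (96 - 176 * σ) * (1 - σ ^ 2) * (2 - σ) * σ +
        (25 * σ) ^ 2 * σ ^ 4 * (1 + σ) ^ 2 * (3 - 4 * σ + 2 * σ ^ 2) * (1 - σ ^ 2))) =
      (321222403608920914396941 / 256) * v ^ 14 +
        (959507280342196365252285 / 64) * u ^ 1 * v ^ 13 +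
        (2648326034806081575041025 / 32) * u ^ 2 * v ^ 12 +
        (8950840543432481069811375 / 32) * u ^ 3 * v ^ 11 +
        (82761268271350970160219375 / 128) * u ^ 4 * v ^ 10 +
        (4325049966443656295559375 / 4) * u ^ 5 * v ^ 9 +
        (86341412605494339528890625 / 64) * u ^ 6 * v ^ 8 +
        (40833318005229673210078125 / 32) * u ^ 7 * v ^ 7 +
        (235471230874395700780078125 / 256) * u ^ 8 * v ^ 6 +
        (32203386134115319951171875 / 64) * u ^ 9 * v ^ 5 +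
        (13174539877930732998046875 / 64) * u ^ 10 * v ^ 4 +
        (489308999666947119140625 / 8) * u ^ 11 * v ^ 3 +
        (200037871576922607421875 / 16) * u ^ 12 * v ^ 2 +
        (6310858810638427734375 / 4) * u ^ 13 * v ^ 1 +
        (372013666534423828125 / 4) * u ^ 14 := by
    rw [hu, hv]
    ring
  rw [h]
  positivity

theorem main : S_Hii2 := by
  intro σ h0 h1
  have hσ : 0 < σ := by linarith
  have hd : 0 < 96 - 176 * σ := by linarith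
  apply key (κ := 25 * σ / (96 - 176 * σ)) hσ (by linarith) (by norm_num)
  · obtain ⟨e, he⟩ : ∃ e, e = 1 / σ - 2 := ⟨_, rfl⟩
    have he1 : 1 / 4 ≤ e := by
      rw [he, le_sub_iff_add_le, le_div_iff₀ hσ]
      linarith
    have he2 : e ≤ 1 / 2 := by
      rw [he, sub_le_iff_le_add, div_le_iff₀ hσ]
      linarith
    rw [← he]
    have h2 : (6 : ℝ) ^ e ≤ 8 / 5 * (1 + (4 * e - 1) * (3 / 5)) := by
      have h3 : (6 : ℝ) ^ e ≤ ((8 / 5 : ℝ) ^ (4 : ℕ)) ^ e :=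
        Real.rpow_le_rpow (by norm_num) (by norm_num) (by linarith)
      have h4 : ((8 / 5 : ℝ) ^ (4 : ℕ)) ^ e = 8 / 5 * (8 / 5 : ℝ) ^ (4 * e - 1) := by
        rw [← Real.rpow_natCast, ← Real.rpow_mul (by norm_num), Real.rpow_sub_one (by norm_num)]
        push_cast
        field_simp
      have h5 := rpow_one_add_le_one_add_mul_self (s := 3 / 5) (p := 4 * e - 1) (by norm_num)
        (by linarith) (by linarith)
      rw [h4] at h3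
      norm_num at h5
      linarith
    have h6 : (0 : ℝ) < (6 : ℝ) ^ e := by positivity
    rw [Real.rpow_neg (by norm_num), div_le_iff₀ hd, inv_mul_eq_div, le_div_iff₀ h6]
    have h7 : 25 * σ * (8 / 5 * (1 + (4 * e - 1) * (3 / 5))) = 96 - 176 * σ := by
      rw [he]
      field_simp
      ring
    rw [← h7]
    exact mul_le_mul_of_nonneg_left h2 (by positivity)
  · exact clear hσ (by linarith) hd (poly h0 h1)

end Pool.Agent.Y282.RB.Hii2
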