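import Pool.Agent.Y282.RB.Stm3

/-!
# Project RB, job RB-Hii3: the condition `Hii σ 5` for `1/3 ≤ σ ≤ 2/5`
-/

set_option autoImplicit false

namespace Pool.Agent.Y282.RB.Hii3

/-- the polynomial inequality (all Bernstein coefficients on `[1/3, 2/5]` are positive) -/
theorem poly (σ : ℝ) (h1 : 1 / 3 ≤ σ) (h2 : σ ≤ 2 / 5) :
    (2 + 4 * (σ * (1 - σ))) * (((1 - σ) ^ 2 * (2 - σ) * (2 - σ) -
        1 / 5 * (σ ^ 2 * (1 + σ) * (1 + σ))) ^ 2 +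
      3 * (σ * (1 - σ)) * (2 + σ * (1 - σ)) *
        ((1 - σ) * (2 - σ) - 1 / 5 * (σ * (1 + σ))) ^ 2) ≤
    25 * (2 + σ * (1 - σ)) * (2 - 4 * σ) ^ 2 * (σ ^ 2 * (1 + σ) + (1 - σ) ^ 2 * (2 - σ)) ^ 2 := by
  have hx : 0 ≤ σ - 1 / 3 := by linarith
  have hy : 0 ≤ 2 / 5 - σ := by linarith
  have key : 25 * (2 + σ * (1 - σ)) * (2 - 4 * σ) ^ 2 *
      (σ ^ 2 * (1 + σ) + (1 - σ) ^ 2 * (2 - σ)) ^ 2 -
      (2 + 4 * (σ * (1 - σ))) * (((1 - σ) ^ 2 * (2 - σ) * (2 - σ) -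
        1 / 5 * (σ ^ 2 * (1 + σ) * (1 + σ))) ^ 2 +
      3 * (σ * (1 - σ)) * (2 + σ * (1 - σ)) *
        ((1 - σ) * (2 - σ) - 1 / 5 * (σ * (1 + σ))) ^ 2) =
      (6291962500000 / 1 : ℝ) * ((σ - 1 / 3) ^ 0 * (2 / 5 - σ) ^ 10) +
      (53135418750000 / 1 : ℝ) * ((σ - 1 / 3) ^ 1 * (2 / 5 - σ) ^ 9) +
      (199533994875000 / 1 : ℝ) * ((σ - 1 / 3) ^ 2 * (2 / 5 - σ) ^ 8) +
      (437389927312500 / 1 : ℝ) * ((σ - 1 / 3) ^ 3 * (2 / 5 - σ) ^ 7) +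
      (617002046415000 / 1 : ℝ) * ((σ - 1 / 3) ^ 4 * (2 / 5 - σ) ^ 6) +
      (581226486435000 / 1 : ℝ) * ((σ - 1 / 3) ^ 5 * (2 / 5 - σ) ^ 5) +
      (366120787595400 / 1 : ℝ) * ((σ - 1 / 3) ^ 6 * (2 / 5 - σ) ^ 4) +
      (149175840150900 / 1 : ℝ) * ((σ - 1 / 3) ^ 7 * (2 / 5 - σ) ^ 3) +
      (36010340385768 / 1 : ℝ) * ((σ - 1 / 3) ^ 8 * (2 / 5 - σ) ^ 2) +
      (4099481076528 / 1 : ℝ) * ((σ - 1 / 3) ^ 9 * (2 / 5 - σ) ^ 1) +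
      (1700548844256 / 25 : ℝ) * ((σ - 1 / 3) ^ 10 * (2 / 5 - σ) ^ 0) := by
    ring
  have hpos : 0 ≤ (6291962500000 / 1 : ℝ) * ((σ - 1 / 3) ^ 0 * (2 / 5 - σ) ^ 10) +
      (53135418750000 / 1 : ℝ) * ((σ - 1 / 3) ^ 1 * (2 / 5 - σ) ^ 9) +
      (199533994875000 / 1 : ℝ) * ((σ - 1 / 3) ^ 2 * (2 / 5 - σ) ^ 8) +
      (437389927312500 / 1 : ℝ) * ((σ - 1 / 3) ^ 3 * (2 / 5 - σ) ^ 7) +
      (617002046415000 / 1 : ℝ) * ((σ - 1 / 3) ^ 4 * (2 / 5 - σ) ^ 6) +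
      (581226486435000 / 1 : ℝ) * ((σ - 1 / 3) ^ 5 * (2 / 5 - σ) ^ 5) +
      (366120787595400 / 1 : ℝ) * ((σ - 1 / 3) ^ 6 * (2 / 5 - σ) ^ 4) +
      (149175840150900 / 1 : ℝ) * ((σ - 1 / 3) ^ 7 * (2 / 5 - σ) ^ 3) +
      (36010340385768 / 1 : ℝ) * ((σ - 1 / 3) ^ 8 * (2 / 5 - σ) ^ 2) +
      (4099481076528 / 1 : ℝ) * ((σ - 1 / 3) ^ 9 * (2 / 5 - σ) ^ 1) +
      (1700548844256 / 25 : ℝ) * ((σ - 1 / 3) ^ 10 * (2 / 5 - σ) ^ 0) := by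
    positivity
  linarith

theorem main : S_Hii3 := by
  intro σ h1 h2
  unfold Hii
  have hσ0 : 0 < σ := by linarith
  have hσ1 : 0 < 1 - σ := by linarith
  have hσ2 : 0 < 1 + σ := by linarith
  set κ : ℝ := (5 : ℝ) ^ (-(1 / σ - 2)) with hκ
  have he1 : 1 / σ ≤ 3 := by
    rw [div_le_iff₀ hσ0]
    linarith
  have he2 : 2 ≤ 1 / σ := by
    rw [le_div_iff₀ hσ0]
    linarith
  have hk1 : 1 / 5 ≤ κ := by
    have h := Real.rpow_le_rpow_of_exponent_le (x := (5 : ℝ)) (by norm_num)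
      (show (-1 : ℝ) ≤ -(1 / σ - 2) by linarith)
    rw [Real.rpow_neg_one] at h
    rw [hκ]
    linarith
  have hk2 : κ ≤ 1 := by
    have h := Real.rpow_le_rpow_of_exponent_le (x := (5 : ℝ)) (by norm_num)
      (show -(1 / σ - 2) ≤ (0 : ℝ) by linarith)
    rw [Real.rpow_zero] at h
    exact h
  clear_value κ
  set m : ℝ := σ * (1 - σ) with hm
  have hm0 : 0 < m := mul_pos hσ0 hσ1
  set D : ℝ := σ ^ 2 * (1 + σ) with hD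
  have hD0 : 0 < D := by positivity
  set N : ℝ := (1 - σ) ^ 2 * (2 - σ) with hN
  have e1 : CC σ * (1 / σ - 1) = N / D := by
    rw [hN, hD]
    unfold CC
    field_simp
  have e2 : CC σ - 1 = (2 - 4 * σ) / (σ * (1 + σ)) := by
    unfold CC
    field_simp
    ring
  set B : ℝ := N * (2 - σ) - κ * (D * (1 + σ)) with hB
  set C : ℝ := (1 - σ) * (2 - σ) - κ * (σ * (1 + σ)) with hC
  have f1 : (N / D - κ) * (2 - σ) + (1 - 2 * σ) * κ = B / D := by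
    rw [hB]
    field_simp
    ring
  have f2 : σ * (N / D - κ) - (1 - 2 * σ) * κ = m * C / D := by
    rw [hC, hm, hN, hD]
    field_simp
    ring
  have f3 : 5 * ((2 - 4 * σ) / (σ * (1 + σ))) * (1 + N / D) * (σ * (1 + σ)) =
      5 * (2 - 4 * σ) * (D + N) / D := by
    field_simp
  have hpa : pa σ = (2 + m) / (2 + 4 * m) := rfl
  have hpb : pb σ = 3 * m / (2 + 4 * m) := rfl
  rw [e1, e2, f1, f2, f3, hpa, hpb]
  have hL : (B / D) ^ 2 / ((2 + m) / (2 + 4 * m)) + 9 * (m * C / D) ^ 2 / (3 * m / (2 + 4 * m)) =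
      (2 + 4 * m) * (B ^ 2 + 3 * m * (2 + m) * C ^ 2) / ((2 + m) * D ^ 2) := by
    have h2m : (2 + 4 * m) ≠ 0 := by positivity
    have h2m' : (2 + m) ≠ 0 := by positivity
    field_simp
    ring
  rw [hL, div_pow, div_le_div_iff₀ (by positivity) (by positivity)]
  -- monotonicity in `κ`
  have hNpos : 0 ≤ N := by
    rw [hN]
    have : 0 < 2 - σ := by linarith
    positivity
  have hC0 : 0 ≤ C := by
    rw [hC]
    nlinarith [mul_pos hσ0 hσ2]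
  have hC1 : C ≤ (1 - σ) * (2 - σ) - 1 / 5 * (σ * (1 + σ)) := by
    rw [hC]
    have := mul_le_mul_of_nonneg_right hk1 (mul_pos hσ0 hσ2).le
    linarith
  have hB1 : B ≤ N * (2 - σ) - 1 / 5 * (D * (1 + σ)) := by
    rw [hB]
    have := mul_le_mul_of_nonneg_right hk1 (mul_pos hD0 hσ2).le
    linarith
  have hB0 : 0 ≤ B := by
    have h3 : B = (1 - σ) * (2 - σ) * C + κ * (σ * (1 + σ)) * ((1 - σ) * (2 - σ) - σ * (1 + σ)) := by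
      rw [hB, hC, hN, hD]
      ring
    rw [h3]
    have h4 : 0 ≤ (1 - σ) * (2 - σ) - σ * (1 + σ) := by nlinarith
    have h5 : 0 ≤ 2 - σ := by linarith
    have h6 : 0 ≤ κ := by linarith
    positivity
  have hB2 : B ^ 2 ≤ (N * (2 - σ) - 1 / 5 * (D * (1 + σ))) ^ 2 := pow_le_pow_left₀ hB0 hB1 2
  have hC2 : C ^ 2 ≤ ((1 - σ) * (2 - σ) - 1 / 5 * (σ * (1 + σ))) ^ 2 := pow_le_pow_left₀ hC0 hC1 2
  have hp := poly σ h1 h2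
  have h7 : (2 + 4 * m) * (B ^ 2 + 3 * m * (2 + m) * C ^ 2) ≤
      25 * (2 + m) * (2 - 4 * σ) ^ 2 * (D + N) ^ 2 := by
    have h8 : B ^ 2 + 3 * m * (2 + m) * C ^ 2 ≤ (N * (2 - σ) - 1 / 5 * (D * (1 + σ))) ^ 2 +
        3 * m * (2 + m) * ((1 - σ) * (2 - σ) - 1 / 5 * (σ * (1 + σ))) ^ 2 :=
      add_le_add hB2 (mul_le_mul_of_nonneg_left hC2 (by positivity))
    exact (mul_le_mul_of_nonneg_left h8 (by positivity)).trans hp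
  have h9 := mul_le_mul_of_nonneg_right h7 (by positivity : (0 : ℝ) ≤ D ^ 2)
  calc (2 + 4 * m) * (B ^ 2 + 3 * m * (2 + m) * C ^ 2) * D ^ 2
      ≤ 25 * (2 + m) * (2 - 4 * σ) ^ 2 * (D + N) ^ 2 * D ^ 2 := h9
    _ = (5 * (2 - 4 * σ) * (D + N)) ^ 2 * ((2 + m) * D ^ 2) := by ring

end Pool.Agent.Y282.RB.Hii3
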