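import Pool.Agent.Y282.RB.Stm3

set_option autoImplicit false

/-!
# Project RB: convexity in `x` for large `x` (S_Hup), proof by helper339
-/

open Set

namespace Pool.Agent.Y282.RB.Hup

/-- Cauchy-Schwarz with weights -/
lemma cs {a b A B u v : ℝ} (hA : 0 < A) (hB : 0 < B) (h : A * u ^ 2 + B * v ^ 2 = 1) :
    (a * u - b * v) ^ 2 ≤ a ^ 2 / A + b ^ 2 / B := by
  have h1 : a ^ 2 / A + b ^ 2 / B = (a ^ 2 / A + b ^ 2 / B) * (A * u ^ 2 + B * v ^ 2) := by
    rw [h, mul_one]
  have key : (a ^ 2 / A + b ^ 2 / B) * (A * u ^ 2 + B * v ^ 2) - (a * u - b * v) ^ 2 =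
      (a * B * v + b * A * u) ^ 2 / (A * B) := by
    field_simp; ring
  have h2 : 0 ≤ (a * B * v + b * A * u) ^ 2 / (A * B) := by positivity
  rw [h1]
  linarith

/-- the tangent of a power -/
lemma tang {Z X e : ℝ} (hX : 0 < X) (hZ : 0 ≤ Z) (he : 1 ≤ e) :
    X ^ e + e * X ^ (e - 1) * (Z - X) ≤ Z ^ e := by
  have h := one_add_mul_self_le_rpow_one_add (s := Z / X - 1) (p := e) (by
    have : 0 ≤ Z / X := by positivity
    linarith) he
  rw [show 1 + (Z / X - 1) = Z / X by ring, Real.div_rpow hZ hX.le,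
    le_div_iff₀ (Real.rpow_pos_of_pos hX e)] at h
  have h2 : X ^ e = X ^ (e - 1) * X := by
    rw [← Real.rpow_add_one hX.ne']
    congr 1
    ring
  have h3 : (1 + e * (Z / X - 1)) * X ^ e = X ^ e + e * X ^ (e - 1) * (Z - X) := by
    rw [h2]
    field_simp
  rw [h3] at h
  exact h

lemma mono {f f' : ℝ → ℝ} {X x : ℝ} (hd : ∀ t, X ≤ t → HasDerivAt f (f' t) t)
    (h0 : ∀ t, X ≤ t → 0 ≤ f' t) (hx : X ≤ x) : f X ≤ f x := by
  have hm : MonotoneOn f (Ici X) := by
    refine monotoneOn_of_deriv_nonneg (convex_Ici X)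
      (fun t ht => (hd t ht).continuousAt.continuousWithinAt) ?_ ?_
    · intro t ht
      rw [interior_Ici] at ht
      exact (hd t (le_of_lt ht)).differentiableAt.differentiableWithinAt
    · intro t ht
      rw [interior_Ici] at ht
      rw [(hd t (le_of_lt ht)).deriv]
      exact h0 t (le_of_lt ht)
  exact hm (mem_Ici.2 le_rfl) (mem_Ici.2 hx) hx

theorem main : S_Hup := by
  intro σ X hσ0 hσ hX hHi hHii hLow x y z hx hL
  have hX0 : 0 < X := lt_of_lt_of_le one_pos hX
  have h1σ : 0 < 1 - σ := by linarith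
  have h2σ : 0 < 2 - σ := by linarith
  have h12 : 0 < 1 - 2 * σ := by linarith
  have hσ1 : 0 < 1 + σ := by linarith
  have hmm : 0 < mm σ := mul_pos hσ0 h1σ
  have hpa : 0 < pa σ := by unfold pa; positivity
  have hpb : 0 < pb σ := by unfold pb; positivity
  have hss : 0 < σ * (1 + σ) := mul_pos hσ0 hσ1
  set P : ℝ := 1 / σ with hP
  have hP2 : 2 < P := by rw [hP, lt_div_iff₀ hσ0]; linarith
  have hPσ : P * σ = 1 := by rw [hP]; field_simp
  set C : ℝ := CC σ with hC
  have hCe : C * (σ * (1 + σ)) = (1 - σ) * (2 - σ) := by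
    rw [hC, CC]; field_simp
  have hC1 : 1 < C := by
    rw [hC, CC, lt_div_iff₀ hss]; nlinarith
  set α : ℝ := (1 - σ) * x + σ * y with hα
  set β : ℝ := ((2 - σ) * y + (1 + σ) * z) / 3 with hβ
  have hαβ : pa σ * α ^ 2 + pb σ * β ^ 2 = 1 := hL
  set l : ℝ := ((2 - σ) * α - 3 * σ * β) / (σ * (1 + σ)) with hl
  have hle : l * (σ * (1 + σ)) = (2 - σ) * α - 3 * σ * β := by
    rw [hl]; field_simp
  -- bound of `l`
  have hlel : l ≤ el σ := by
    unfold el
    rw [hl]
    refine div_le_div_of_nonneg_right ?_ hss.le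
    refine Real.le_sqrt_of_sq_le ?_
    have := cs (a := 2 - σ) (b := 3 * σ) hpa hpb hαβ
    rw [show (3 * σ) ^ 2 = 9 * σ ^ 2 by ring] at this
    exact this
  have hel : 0 ≤ el σ := by unfold el; positivity
  obtain ⟨hc0, hc1⟩ := hHi
  set c : ℝ := C - el σ / X with hc
  -- lower bound of `Z`
  have hZ : ∀ t, X ≤ t → t * c ≤ C * t - l := by
    intro t ht
    have h1 : el σ ≤ t * (el σ / X) := by
      rw [mul_div_assoc', le_div_iff₀ hX0]
      nlinarith
    have h2 : t * c = C * t - t * (el σ / X) := by rw [hc]; ring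
    rw [h2]
    linarith
  have hZ0 : ∀ t, X ≤ t → 0 < C * t - l := fun t ht =>
    lt_of_lt_of_le (mul_pos (lt_of_lt_of_le hX0 ht) hc0) (hZ t ht)
  -- the values at `x`
  have hzx : C * x - l = z := by
    have h1 : (C * x - l - z) * (σ * (1 + σ)) = 0 := by
      have : (C * x - l - z) * (σ * (1 + σ)) =
          (C * (σ * (1 + σ))) * x - l * (σ * (1 + σ)) - z * (σ * (1 + σ)) := by ring
      rw [this, hCe, hle, hα, hβ]
      ring
    have h2 := (mul_eq_zero.1 h1).resolve_right hss.ne'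
    linarith
  -- the affine bracket
  set c0 : ℝ := -(P * α ^ 2) + P * (α * β) + β * l with hc0'
  set R : ℝ := P * α - β * (P * (1 - σ) + C) with hR
  set G : ℝ → ℝ := fun t => (C * t - l) ^ P - t ^ P + P * (c0 + R * t) with hG
  set K : ℝ → ℝ := fun t => P * (C * (C * t - l) ^ (P - 1) - t ^ (P - 1) + R) with hK
  set K' : ℝ → ℝ := fun t => P * ((P - 1) * (C ^ 2 * (C * t - l) ^ (P - 2) - t ^ (P - 2)))
    with hK'
  have hlin : ∀ t, HasDerivAt (fun t => C * t - l) C t := by
    intro t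
    simpa using ((hasDerivAt_id t).const_mul C).sub_const l
  have hdG : ∀ t, X ≤ t → HasDerivAt G (K t) t := by
    intro t ht
    have ht0 : 0 < t := lt_of_lt_of_le hX0 ht
    have d1 := (hlin t).rpow_const (p := P) (Or.inl (hZ0 t ht).ne')
    have d2 := (hasDerivAt_id t).rpow_const (p := P) (Or.inl ht0.ne')
    have d3 : HasDerivAt (fun t => P * (c0 + R * t)) (P * R) t := by
      simpa using (((hasDerivAt_id t).const_mul R).const_add c0).const_mul P
    have d := (d1.sub d2).add d3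
    simp only [id] at d
    refine d.congr_deriv ?_
    simp only [hK]
    ring
  have hdK : ∀ t, X ≤ t → HasDerivAt K (K' t) t := by
    intro t ht
    have ht0 : 0 < t := lt_of_lt_of_le hX0 ht
    have d1 := ((hlin t).rpow_const (p := P - 1) (Or.inl (hZ0 t ht).ne')).const_mul C
    have d2 := (hasDerivAt_id t).rpow_const (p := P - 1) (Or.inl ht0.ne')
    have d := (((d1.sub d2).add_const R)).const_mul P
    simp only [id] at d
    refine d.congr_deriv ?_
    simp only [hK']
    rw [show P - 1 - 1 = P - 2 by ring]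
    ring
  have hK'0 : ∀ t, X ≤ t → 0 ≤ K' t := by
    intro t ht
    have ht0 : 0 < t := lt_of_lt_of_le hX0 ht
    have h1 : (t * c) ^ (P - 2) ≤ (C * t - l) ^ (P - 2) :=
      Real.rpow_le_rpow (mul_pos ht0 hc0).le (hZ t ht) (by linarith)
    rw [Real.mul_rpow ht0.le hc0.le] at h1
    have h2 : 0 < t ^ (P - 2) := Real.rpow_pos_of_pos ht0 _
    have h3 : t ^ (P - 2) ≤ C ^ 2 * (C * t - l) ^ (P - 2) := by
      calc t ^ (P - 2) = t ^ (P - 2) * 1 := by ring
        _ ≤ t ^ (P - 2) * (C ^ 2 * c ^ (P - 2)) := mul_le_mul_of_nonneg_left hc1 h2.le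
        _ = C ^ 2 * (t ^ (P - 2) * c ^ (P - 2)) := by ring
        _ ≤ C ^ 2 * (C * t - l) ^ (P - 2) := mul_le_mul_of_nonneg_left h1 (by positivity)
    simp only [hK']
    refine mul_nonneg (by linarith) (mul_nonneg (by linarith) (by linarith))
  -- the value at `X`
  set YX : ℝ := P * (α - (1 - σ) * X) with hYX
  set ZX : ℝ := C * X - l with hZX
  have hZX0 : 0 < ZX := hZ0 X le_rfl
  have ea : (1 - σ) * X + σ * YX = α := by
    rw [hYX]
    linear_combination (α - (1 - σ) * X) * hPσ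
  have hPC : C * (1 + σ) = P * ((1 - σ) * (2 - σ)) := by
    have : C * (1 + σ) * (P * σ) = P * ((1 - σ) * (2 - σ)) := by
      rw [← hCe]; ring
    rwa [hPσ, mul_one] at this
  have hPl : l * (1 + σ) = P * ((2 - σ) * α - 3 * σ * β) := by
    have : l * (1 + σ) * (P * σ) = P * ((2 - σ) * α - 3 * σ * β) := by
      rw [← hle]; ring
    rwa [hPσ, mul_one] at this
  have eb : ((2 - σ) * YX + (1 + σ) * ZX) / 3 = β := by
    rw [hYX, hZX]
    have : (1 + σ) * (C * X - l) = (C * (1 + σ)) * X - l * (1 + σ) := by ring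
    rw [this, hPC, hPl]
    linear_combination β * hPσ
  have hbr : c0 + R * X = α * (X - YX) + β * (YX - ZX) := by
    have e1 : X - YX = P * X - P * α := by
      rw [hYX]
      linear_combination (-X) * hPσ
    rw [e1, hc0', hR, hZX, hYX]
    ring
  have hLX : L2 σ X YX ZX = 1 := by
    unfold L2
    rw [ea, eb]
    exact hαβ
  have hlowX := hLow X YX ZX hX0.le le_rfl hLX
  have hr : 1 / (2 * σ) = P / 2 := by rw [hP]; field_simp
  rw [hr] at hlowX
  have hpow : ∀ w : ℝ, 0 < w → (w ^ 2) ^ (P / 2) = w ^ P := by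
    intro w hw
    rw [← Real.rpow_natCast w 2, ← Real.rpow_mul hw.le]
    congr 1
    push_cast
    ring
  have hGX : 0 ≤ G X := by
    have hbern := tang (Z := ZX ^ 2) (X := 1) (e := P / 2) one_pos (by positivity) (by linarith)
    rw [Real.one_rpow, Real.one_rpow, hpow ZX hZX0] at hbern
    unfold ph at hlowX
    rw [hpow X hX0] at hlowX
    have hid : 2 * (α * (X - YX) + β * (YX - ZX)) =
        X ^ 2 - ZX ^ 2 + (1 - 2 * σ) * T2 X YX ZX := by
      unfold T2
      rw [← ea, ← eb]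
      ring
    have hbr2 : P * (c0 + R * X) =
        P / 2 * (X ^ 2 - ZX ^ 2) + (P / 2 - 1) * T2 X YX ZX := by
      rw [hbr]
      have : P * (α * (X - YX) + β * (YX - ZX)) =
          P / 2 * (2 * (α * (X - YX) + β * (YX - ZX))) := by ring
      rw [this, hid]
      linear_combination (-(T2 X YX ZX)) * hPσ
    simp only [hG]
    rw [← hZX, hbr2]
    linarith
  -- the derivative at `X`
  have hKX : 0 ≤ K X := by
    have ht := tang (Z := ZX) (X := X) (e := P - 1) hX0 hZX0.le (by linarith)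
    rw [show P - 1 - 1 = P - 2 by ring] at ht
    have hXP : X ^ (P - 1) = X ^ (P - 2) * X := by
      rw [← Real.rpow_add_one hX0.ne']
      congr 1
      ring
    set κ : ℝ := X ^ (-(P - 2)) with hκ
    have hκX : X ^ (P - 2) * κ = 1 := by
      rw [hκ, ← Real.rpow_add hX0]
      simp
    set q : ℝ := C * (P - 1) - κ with hq
    have hcs := cs (a := q * (2 - σ) + (1 - 2 * σ) * κ)
      (b := 3 * (σ * q - (1 - 2 * σ) * κ)) hpa hpb hαβ
    have hHii' := hHii
    unfold Hii at hHii'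
    rw [← hP, ← hC, ← hκ, ← hq] at hHii'
    have h2 : (q * (2 - σ) + (1 - 2 * σ) * κ) ^ 2 / pa σ +
        (3 * (σ * q - (1 - 2 * σ) * κ)) ^ 2 / pb σ ≤
        (X * (C - 1) * (1 + C * (P - 1)) * (σ * (1 + σ))) ^ 2 := by
      rw [show (3 * (σ * q - (1 - 2 * σ) * κ)) ^ 2 = 9 * (σ * q - (1 - 2 * σ) * κ) ^ 2 by ring]
      exact hHii'
    have hpos : 0 ≤ X * (C - 1) * (1 + C * (P - 1)) * (σ * (1 + σ)) := by
      have : 0 < C * (P - 1) := mul_pos (by linarith) (by linarith)
      have h3 : 0 ≤ C - 1 := by linarith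
      positivity
    have h3 : (q * (2 - σ) + (1 - 2 * σ) * κ) * α - 3 * (σ * q - (1 - 2 * σ) * κ) * β ≤
        X * (C - 1) * (1 + C * (P - 1)) * (σ * (1 + σ)) :=
      (abs_le_of_sq_le_sq' (hcs.trans h2) hpos).2
    -- rewrite the left side
    have hRl : R * (σ * (1 + σ)) = l * (σ * (1 + σ)) - (1 - 2 * σ) * (α + 3 * β) := by
      rw [hle, hR]
      have : (P * α - β * (P * (1 - σ) + C)) * (σ * (1 + σ)) =
          (P * σ) * (1 + σ) * α - β * ((P * σ) * (1 + σ) * (1 - σ)) -
            β * (C * (σ * (1 + σ))) := by ring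
      rw [this, hPσ, hCe]
      ring
    have h4 : (C * (P - 1) * l - κ * R) * (σ * (1 + σ)) =
        (q * (2 - σ) + (1 - 2 * σ) * κ) * α - 3 * (σ * q - (1 - 2 * σ) * κ) * β := by
      have : (C * (P - 1) * l - κ * R) * (σ * (1 + σ)) =
          C * (P - 1) * (l * (σ * (1 + σ))) - κ * (R * (σ * (1 + σ))) := by ring
      rw [this, hRl, hle, hq]
      ring
    rw [← h4] at h3
    have h5 : C * (P - 1) * l - κ * R ≤ X * (C - 1) * (1 + C * (P - 1)) :=
      le_of_mul_le_mul_right h3 hss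
    have h6 : 0 < X ^ (P - 2) := Real.rpow_pos_of_pos hX0 _
    have h7 : 0 ≤ X ^ (P - 2) *
        (X * (C - 1) * (1 + C * (P - 1)) - C * (P - 1) * l + κ * R) :=
      mul_nonneg h6.le (by linarith)
    have h8 : X ^ (P - 2) * (X * (C - 1) * (1 + C * (P - 1)) - C * (P - 1) * l + κ * R) =
        C * (X ^ (P - 1) + (P - 1) * X ^ (P - 2) * (ZX - X)) - X ^ (P - 1) + R := by
      have : X ^ (P - 2) * (X * (C - 1) * (1 + C * (P - 1)) - C * (P - 1) * l + κ * R) =
          X ^ (P - 2) * (X * (C - 1) * (1 + C * (P - 1)) - C * (P - 1) * l) +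
            (X ^ (P - 2) * κ) * R := by ring
      rw [this, hκX, hXP, hZX]
      ring
    have h9 : C * (X ^ (P - 1) + (P - 1) * X ^ (P - 2) * (ZX - X)) ≤ C * ZX ^ (P - 1) :=
      mul_le_mul_of_nonneg_left ht (by linarith)
    simp only [hK]
    rw [← hZX]
    refine mul_nonneg (by linarith) ?_
    linarith
  -- conclusion
  have hK0 : ∀ t, X ≤ t → 0 ≤ K t := fun t ht => hKX.trans (mono hdK hK'0 ht)
  have hGx : 0 ≤ G x := hGX.trans (mono hdG hK0 hx)
  have hz0 : 0 < z := by rw [← hzx]; exact hZ0 x hx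
  have hbrx : c0 + R * x = α * (x - y) + β * (y - z) := by
    have ey : y = P * (α - (1 - σ) * x) := by
      rw [hα]
      linear_combination (-y) * hPσ
    have e1 : x - y = P * x - P * α := by
      have : y * (P * σ) = y := by rw [hPσ, mul_one]
      rw [hα]
      linear_combination (-(x - y)) * hPσ
    have e2 : y - z = P * (α - (1 - σ) * x) - (C * x - l) := by
      rw [hzx, ← ey]
    rw [e1, e2, hc0', hR]
    ring
  simp only [hG] at hGx
  rw [hzx, hbrx] at hGx
  rw [abs_of_pos hz0]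
  linarith

end Pool.Agent.Y282.RB.Hup
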