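import Pool.Agent.Y282.RB.Stm3

/-!
# Project RB: the pointwise inequality for `n = 2` and `2 ≤ p ≤ 4`
-/

set_option autoImplicit false

namespace Pool.Agent.Y282.RB.J

theorem th_zero (σ : ℝ) : th σ 0 = 1 - σ := by
  unfold th
  push_cast
  ring

theorem th_one (σ : ℝ) : th σ 1 = (2 - σ) / 3 := by
  unfold th
  push_cast
  ring

theorem yy_zero (σ : ℝ) (γ : ℕ → ℝ) : yy σ γ 0 = (1 - σ) * γ 0 + σ * γ 1 := by
  unfold yy
  rw [th_zero]
  ring

theorem yy_one (σ : ℝ) (γ : ℕ → ℝ) :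
    yy σ γ 1 = ((2 - σ) * γ 1 + (1 + σ) * γ 2) / 3 := by
  unfold yy
  rw [th_one]
  ring

theorem lam_two {σ : ℝ} (h0 : 0 < σ) (h1 : σ < 1) (γ : ℕ → ℝ) :
    Lam σ 2 γ = L2 σ (γ 0) (γ 1) (γ 2) := by
  unfold Lam KK L2 pa pb mm kk
  simp only [Finset.sum_range_succ, Finset.sum_range_zero]
  rw [yy_zero, yy_one]
  push_cast
  have h2 : (0 : ℝ) < 1 - σ := by linarith
  have h3 : (0 : ℝ) < 1 + σ := by linarith
  have h4 : (0 : ℝ) < 1 + 1 - σ := by linarith
  have h5 : 0 < σ * (1 - σ) := mul_pos h0 h2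
  have h6 : (2 * (0 : ℝ) + 1) / ((0 + σ) * (0 + 1 - σ)) = 1 / (σ * (1 - σ)) := by
    congr 1 <;> ring
  have h7 : (2 * (1 : ℝ) + 1) / ((1 + σ) * (1 + 1 - σ)) = 3 / (2 + σ * (1 - σ)) := by
    congr 1 <;> ring
  rw [h6, h7]
  set m := σ * (1 - σ) with hm
  have h8 : (0 : ℝ) < 2 + m := by linarith
  have h9 : (0 : ℝ) < 2 + 4 * m := by linarith
  have h10 : (0 : ℝ) + 1 / m + 3 / (2 + m) = (2 + 4 * m) / (m * (2 + m)) := by
    field_simp
    ring
  rw [h10]
  field_simp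
  ring

theorem tt_two (γ : ℕ → ℝ) : TT 2 γ = T2 (γ 0) (γ 1) (γ 2) := by
  unfold TT T2
  simp only [Finset.sum_range_succ, Finset.sum_range_zero]
  push_cast
  ring

theorem main : S_J := by
  intro hC1 hLU p hp2 hp4
  rcases hp2.eq_or_lt with rfl | hp
  · intro γ
    have e1 : ((2 : ℝ) / 2 - 1) = 0 := by norm_num
    rw [e1, Real.rpow_zero]
    simp only [Finset.sum_range_succ, Finset.sum_range_zero]
    rw [yy_zero, yy_one]
    have e2 : |γ 0| ^ (2 : ℝ) = (γ 0) ^ 2 := by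
      rw [show (2 : ℝ) = ((2 : ℕ) : ℝ) by norm_num, Real.rpow_natCast, sq_abs]
    have e3 : |γ 2| ^ (2 : ℝ) = (γ 2) ^ 2 := by
      rw [show (2 : ℝ) = ((2 : ℕ) : ℝ) by norm_num, Real.rpow_natCast, sq_abs]
    rw [e2, e3]
    apply le_of_eq
    ring
  · apply hC1 2 p (by norm_num) hp
    intro γ hLam hγ0
    have hp0 : 0 < p := by linarith
    have hs1 : 1 / 4 ≤ 1 / p := one_div_le_one_div_of_le hp0 hp4
    have hs2 : 1 / p < 1 / 2 := one_div_lt_one_div_of_lt (by norm_num) hp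
    obtain ⟨hL, hU⟩ := hLU (1 / p) hs1 hs2
    have hs0 : 0 < 1 / p := by positivity
    rw [lam_two hs0 (by linarith)] at hLam
    have e1 : 1 / (2 * (1 / p)) = p / 2 := by
      field_simp
    have e2 : 1 / (1 / p) = p := one_div_one_div p
    rcases le_total (γ 0) (XX (1 / p)) with hx | hx
    · left
      have h := hL (γ 0) (γ 1) (γ 2) hγ0 hx hLam
      rw [e1] at h
      rw [tt_two]
      exact h
    · right
      have h := hU (γ 0) (γ 1) (γ 2) hx hLam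
      rw [e2] at h
      simp only [Finset.sum_range_succ, Finset.sum_range_zero, zero_add]
      rw [yy_zero, yy_one, abs_of_nonneg hγ0]
      exact h

end Pool.Agent.Y282.RB.J
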