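import Pool.Agent.Y282.RB.Stm4

/-!
# Project RB (helper282): `rad n g` is a Schwartz function of angular type `2 n` (helper911)
-/

set_option autoImplicit false

open MeasureTheory Set

namespace Pool.Agent.Y282.RB.K2

theorem main : S_K2 := by
  intro n g hg hc
  have hcs : HasCompactSupport (rad n g) := by
    obtain ⟨R, hR⟩ : ∃ R : ℝ, tsupport g ⊆ Metric.closedBall 0 R :=
      hc.isCompact.isBounded.subset_closedBall 0
    have hz : ∀ x : ℝ, R < x → g x = 0 := by
      intro x hx
      by_contra hne
      have h1 := hR (subset_tsupport g (Function.mem_support.mpr hne))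
      rw [mem_closedBall_zero_iff, Real.norm_eq_abs] at h1
      have := le_abs_self x
      linarith
    refine HasCompactSupport.intro (K := Metric.closedBall (0 : ℂ) (1 + |R|))
      (isCompact_closedBall _ _) ?_
    intro z hzn
    rw [mem_closedBall_zero_iff, not_le] at hzn
    have h2 : R < Complex.normSq z := by
      rw [Complex.normSq_eq_norm_sq]
      have h3 := abs_nonneg R
      have h4 := le_abs_self R
      nlinarith
    unfold rad
    rw [hz _ h2, mul_zero]
  have hsm : ContDiff ℝ (⊤ : ℕ∞) (rad n g) := by
    have h1 : ContDiff ℝ (⊤ : ℕ∞) (fun z : ℂ => Complex.normSq z) := by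
      have h2 : (fun z : ℂ => Complex.normSq z) = fun z : ℂ => z.re * z.re + z.im * z.im := by
        funext z
        exact Complex.normSq_apply z
      rw [h2]
      have hre : ContDiff ℝ (⊤ : ℕ∞) (fun z : ℂ => z.re) := Complex.reCLM.contDiff
      have him : ContDiff ℝ (⊤ : ℕ∞) (fun z : ℂ => z.im) := Complex.imCLM.contDiff
      exact (hre.mul hre).add (him.mul him)
    have h3 : ContDiff ℝ (⊤ : ℕ∞) (fun z : ℂ => z ^ (2 * n)) := contDiff_id.pow _
    exact h3.mul (hg.comp h1)
  refine ⟨hcs.toSchwartzMap hsm, rfl, ?_, ?_⟩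
  · intro a z ha
    change rad n g (a * z) = a ^ (2 * n) * rad n g z
    unfold rad
    have h1 : Complex.normSq (a * z) = Complex.normSq z := by
      rw [map_mul, Complex.normSq_eq_norm_sq a, ha]
      ring
    rw [h1, mul_pow, mul_assoc]
  · exact hcs

end Pool.Agent.Y282.RB.K2
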