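import Pool.Agent.Y282.RB.Stm4

/-!
# Project RB (helper282): the constant as a quotient of Pochhammer symbols (helper911)
-/

set_option autoImplicit false

namespace Pool.Agent.Y282.RB.K3

theorem main : S_K3 := by
  intro n p hp
  have hp0 : (0 : ℝ) < p := by linarith
  have h1 : (0 : ℝ) < 1 / p := by positivity
  unfold Cn
  induction n with
  | zero => simp
  | succ n ih =>
    rw [Finset.prod_range_succ, ih, ascPochhammer_succ_eval, ascPochhammer_succ_eval]
    have hpos : 0 < (ascPochhammer ℝ n).eval (1 / p) := ascPochhammer_pos n _ h1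
    have h2 : (0 : ℝ) < (n : ℝ) + 1 / p := by positivity
    have h3 : (0 : ℝ) < 1 / p + (n : ℝ) := by positivity
    rw [div_mul_div_comm]
    congr 1
    · ring
    · ring

end Pool.Agent.Y282.RB.K3
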