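import Pool.Agent.Y282.RB.A
import Pool.Agent.Y282.RB.A1
import Pool.Agent.Y282.RB.A2
import Pool.Agent.Y282.RB.A3
import Pool.Agent.Y282.RB.A4
import Pool.Agent.Y282.RB.B1
import Pool.Agent.Y282.RB.B2
import Pool.Agent.Y282.RB.C0
import Pool.Agent.Y282.RB.C1
import Pool.Agent.Y282.RB.D1
import Pool.Agent.Y282.RB.D2a
import Pool.Agent.Y282.RB.D2w
import Pool.Agent.Y282.RB.D2b
import Pool.Agent.Y282.RB.D3
import Pool.Agent.Y282.RB.D4
import Pool.Agent.Y282.RB.D5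
import Pool.Agent.Y282.RB.D6
import Pool.Agent.Y282.RB.D7
import Pool.Agent.Y282.RB.E0
import Pool.Agent.Y282.RB.F
import Pool.Agent.Y282.RB.F1
import Pool.Agent.Y282.RB.G
import Pool.Agent.Y282.RB.G0
import Pool.Agent.Y282.RB.G1
import Pool.Agent.Y282.RB.G2
import Pool.Agent.Y282.RB.G3
import Pool.Agent.Y282.RB.G4
import Pool.Agent.Y282.RB.Hi
import Pool.Agent.Y282.RB.Hii1
import Pool.Agent.Y282.RB.Hii2
import Pool.Agent.Y282.RB.Hii3
import Pool.Agent.Y282.RB.Hii4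
import Pool.Agent.Y282.RB.Hup
import Pool.Agent.Y282.RB.J
import Pool.Agent.Y282.RB.K2
import Pool.Agent.Y282.RB.K3

/-! # Project RB: assembly (helper282) -/

set_option autoImplicit false

open MeasureTheory Set

namespace Pool.Agent.Y282.RB.Fin

theorem partA : S_A := A.main A1.main A2.main A3.main A4.main

theorem partB (n : ℕ) (p : ℝ) (hn : 1 ≤ n) (hp : 2 ≤ p) (h : Star n p) : OneD n p (Cn p n) :=
  B2.main B1.main n p hn hp h

theorem star2_big : ∀ p : ℝ, 4 ≤ p → Star 2 p :=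
  D7.main C0.main D1.main D2a.main D2b.main D3.main D4.main D5.main D6.main

theorem low : ∀ σ : ℝ, 1 / 4 ≤ σ → σ < 1 / 2 → Low σ (XX σ) :=
  G.main D1.main D2w.main D2b.main G0.main G1.main G2.main G3.main G4.main

theorem hii : ∀ σ : ℝ, 1 / 4 ≤ σ → σ < 1 / 2 → Hii σ (XX σ) := by
  intro σ h1 h2
  unfold XX
  split_ifs with a b c
  · exact Hii4.main σ h1 a
  · exact Hii3.main σ (not_le.mp a).le b
  · exact Hii2.main σ (not_le.mp b).le c
  · exact Hii1.main σ (not_le.mp c).le h2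

theorem xx_ge (σ : ℝ) : 1 ≤ XX σ := by
  unfold XX
  split_ifs <;> norm_num

theorem star2_small : ∀ p : ℝ, 2 ≤ p → p ≤ 4 → Star 2 p :=
  J.main C1.main (fun σ h1 h2 => ⟨low σ h1 h2,
    Hup.main σ (XX σ) (by linarith) h2 (xx_ge σ) (Hi.main σ h1 h2) (hii σ h1 h2) (low σ h1 h2)⟩)

theorem star2 (p : ℝ) (hp : 2 ≤ p) : Star 2 p := by
  rcases le_total p 4 with h | h
  · exact star2_small p hp h
  · exact star2_big p h

/-- from the pointwise inequality to the plane -/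
theorem plane (n : ℕ) (p : ℝ) (hn : 1 ≤ n) (hp : 2 ≤ p) (h : Star n p)
    (g : ℝ → ℂ) (hg : ContDiff ℝ (⊤ : ℕ∞) g) (hs : HasCompactSupport g) :
    eLpNorm (Tn n (rad n g)) (ENNReal.ofReal p) (volume : Measure ℂ)
      ≤ ENNReal.ofReal (Cn p n) * eLpNorm (rad n g) (ENNReal.ofReal p) (volume : Measure ℂ) := by
  have hC : 0 ≤ Cn p n := by
    unfold Cn
    refine Finset.prod_nonneg (fun j _ => ?_)
    have h1 : (1 : ℝ) / p ≤ 1 / 2 := by
      apply one_div_le_one_div_of_le <;> linarith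
    have h2 : (0 : ℝ) < 1 / p := by positivity
    have h3 : (0 : ℝ) ≤ (j : ℝ) := Nat.cast_nonneg j
    apply div_nonneg <;> linarith
  exact partA n p (Cn p n) (by linarith) hC (partB n p hn hp h) g hg hs

theorem sharp : ∀ (n : ℕ) (p c : ℝ), 1 ≤ n → 1 < p → 0 ≤ c → c < Cn p n →
  ∃ g : ℝ → ℂ, ContDiff ℝ (⊤ : ℕ∞) g ∧ HasCompactSupport g ∧
    ENNReal.ofReal c * eLpNorm (rad n g) (ENNReal.ofReal p) (volume : Measure ℂ)
      < eLpNorm (Tn n (rad n g)) (ENNReal.ofReal p) (volume : Measure ℂ) :=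
  F.main A2.main A3.main F1.main

end Pool.Agent.Y282.RB.Fin
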