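import Pool.Agent.Y282.RB.Stm5

/-!
# Project RB: first and second moments of `y_j - γ_0`
-/

set_option autoImplicit false

namespace Pool.Agent.Y282.RB.M1

open Finset

/-- the coefficients of `y_j - γ_0` in terms of the differences -/
noncomputable def w (σ : ℝ) (i j : ℕ) : ℝ := if i < j then 1 else if i = j then 1 - th σ j else 0

theorem th_one (σ : ℝ) (j : ℕ) : 1 - th σ j = ((j : ℝ) + σ) / (2 * j + 1) := by
  unfold th
  have h : (2 * (j : ℝ) + 1) ≠ 0 := by positivity
  field_simp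
  ring

theorem kk_pos {σ : ℝ} (h0 : 0 < σ) (h1 : σ ≤ 1 / 2) (j : ℕ) : 0 < kk σ j := by
  unfold kk
  have hj : (0 : ℝ) ≤ (j : ℝ) := Nat.cast_nonneg j
  have h2 : 0 < (j : ℝ) + 1 - σ := by linarith
  positivity

theorem y_eq (σ : ℝ) (γ : ℕ → ℝ) (n j : ℕ) (hj : j < n) :
    yy σ γ j - γ 0 = ∑ i ∈ range n, w σ i j * (γ (i + 1) - γ i) := by
  have h1 : ∀ m, ∑ i ∈ range m, (γ (i + 1) - γ i) = γ m - γ 0 := fun m =>
    Finset.sum_range_sub γ m
  have h2 : ∑ i ∈ range n, w σ i j * (γ (i + 1) - γ i) =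
      ∑ i ∈ range (j + 1), w σ i j * (γ (i + 1) - γ i) := by
    symm
    apply Finset.sum_subset
    · intro i hi
      rw [mem_range] at hi ⊢
      omega
    · intro i _ hi
      rw [mem_range, not_lt] at hi
      unfold w
      rw [if_neg (by omega), if_neg (by omega), zero_mul]
  have h3 : ∑ i ∈ range j, w σ i j * (γ (i + 1) - γ i) = γ j - γ 0 := by
    rw [← h1 j]
    refine sum_congr rfl fun i hi => ?_
    unfold w
    rw [if_pos (mem_range.1 hi), one_mul]
  have h4 : w σ j j = 1 - th σ j := by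
    unfold w
    rw [if_neg (lt_irrefl _), if_pos rfl]
  rw [h2, sum_range_succ, h3, h4]
  unfold yy
  ring

theorem TT_nonneg (n : ℕ) (γ : ℕ → ℝ) : 0 ≤ TT n γ := by
  unfold TT
  exact Finset.sum_nonneg fun i _ => div_nonneg (sq_nonneg _) (by positivity)

theorem cs (n : ℕ) (γ a : ℕ → ℝ) :
    (∑ i ∈ range n, a i * (γ (i + 1) - γ i)) ^ 2 ≤
      (∑ i ∈ range n, (2 * (i : ℝ) + 1) * (a i) ^ 2) * TT n γ := by
  unfold TT
  refine Finset.sum_sq_le_sum_mul_sum_of_sq_le_mul _ (fun i _ => by positivity)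
    (fun i _ => by positivity) (fun i _ => le_of_eq ?_)
  have h : (2 * (i : ℝ) + 1) ≠ 0 := by positivity
  field_simp
  ring

theorem sum_odd (m : ℕ) : ∑ i ∈ range m, (2 * (i : ℝ) + 1) = (m : ℝ) ^ 2 := by
  induction m with
  | zero => simp
  | succ m ih => rw [sum_range_succ, ih]; push_cast; ring

theorem sum_lin (m : ℕ) : ∑ j ∈ range m, 2 * ((j : ℝ) + 3) = (m : ℝ) ^ 2 + 5 * m := by
  induction m with
  | zero => simp
  | succ m ih => rw [sum_range_succ, ih]; push_cast; ring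

theorem w_nonneg {σ : ℝ} (h0 : 0 < σ) (i j : ℕ) : 0 ≤ w σ i j := by
  unfold w
  split_ifs
  · exact zero_le_one
  · rw [th_one]; positivity
  · exact le_rfl

theorem w_le_one {σ : ℝ} (h0 : 0 < σ) (h1 : σ ≤ 1 / 2) (i j : ℕ) : w σ i j ≤ 1 := by
  unfold w
  split_ifs
  · exact le_rfl
  · rw [th_one, div_le_one (by positivity)]
    have hj : (0 : ℝ) ≤ (j : ℝ) := Nat.cast_nonneg j
    linarith
  · exact zero_le_one

theorem y_sq {σ : ℝ} (h0 : 0 < σ) (h1 : σ ≤ 1 / 2) (γ : ℕ → ℝ) (n j : ℕ) (hj : j < n) :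
    (yy σ γ j - γ 0) ^ 2 ≤ ((j : ℝ) + 1) ^ 2 * TT n γ := by
  rw [y_eq σ γ n j hj]
  refine (cs n γ (fun i => w σ i j)).trans ?_
  refine mul_le_mul_of_nonneg_right ?_ (TT_nonneg n γ)
  have h2 : ∑ i ∈ range n, (2 * (i : ℝ) + 1) * (w σ i j) ^ 2 =
      ∑ i ∈ range (j + 1), (2 * (i : ℝ) + 1) * (w σ i j) ^ 2 := by
    symm
    apply Finset.sum_subset
    · intro i hi
      rw [mem_range] at hi ⊢
      omega
    · intro i _ hi
      rw [mem_range, not_lt] at hi
      unfold w
      rw [if_neg (by omega), if_neg (by omega)]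
      ring
  rw [h2]
  calc ∑ i ∈ range (j + 1), (2 * (i : ℝ) + 1) * (w σ i j) ^ 2
      ≤ ∑ i ∈ range (j + 1), (2 * (i : ℝ) + 1) := by
        refine Finset.sum_le_sum fun i _ => ?_
        have h3 : (w σ i j) ^ 2 ≤ 1 := by
          have h4 := w_nonneg h0 i j
          have h5 := w_le_one h0 h1 i j
          nlinarith
        calc (2 * (i : ℝ) + 1) * (w σ i j) ^ 2 ≤ (2 * (i : ℝ) + 1) * 1 :=
              mul_le_mul_of_nonneg_left h3 (by positivity)
          _ = 2 * (i : ℝ) + 1 := mul_one _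
    _ = ((j : ℝ) + 1) ^ 2 := by rw [sum_odd]; push_cast; ring

theorem sum_sqrt (m : ℕ) : ∑ j ∈ range (m + 1), 1 / Real.sqrt (j : ℝ) ≤ 2 * Real.sqrt (m : ℝ) := by
  induction m with
  | zero => simp
  | succ m ih =>
    rw [sum_range_succ]
    have ha : 0 ≤ Real.sqrt (m : ℝ) := Real.sqrt_nonneg _
    have hb : 0 < Real.sqrt ((m + 1 : ℕ) : ℝ) := Real.sqrt_pos.2 (by positivity)
    have ha2 : Real.sqrt (m : ℝ) ^ 2 = m := Real.sq_sqrt (by positivity)
    have hb2 : Real.sqrt ((m + 1 : ℕ) : ℝ) ^ 2 = (m : ℝ) + 1 := by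
      rw [Real.sq_sqrt (by positivity)]; push_cast; ring
    have hab : Real.sqrt (m : ℝ) ≤ Real.sqrt ((m + 1 : ℕ) : ℝ) :=
      Real.sqrt_le_sqrt (by push_cast; linarith)
    set a := Real.sqrt (m : ℝ)
    set b := Real.sqrt ((m + 1 : ℕ) : ℝ)
    have h1 : 1 / b ≤ 2 * b - 2 * a := by
      rw [div_le_iff₀ hb]
      nlinarith
    linarith

theorem sum_sqrt' (n : ℕ) : ∑ j ∈ range n, 1 / Real.sqrt (j : ℝ) ≤ 2 * Real.sqrt (n : ℝ) := by
  rcases n with _ | m
  · simp
  · refine (sum_sqrt m).trans ?_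
    have : Real.sqrt (m : ℝ) ≤ Real.sqrt ((m + 1 : ℕ) : ℝ) :=
      Real.sqrt_le_sqrt (by push_cast; linarith)
    linarith

theorem main : S_M1 := by
  intro n σ γ hn h0 h1
  have hT := TT_nonneg n γ
  have hkk0 : kk σ 0 = 1 / (σ * (1 - σ)) := by
    unfold kk
    norm_num
  have h1s : 0 < 1 - σ := by linarith
  have hKge : 1 / (σ * (1 - σ)) ≤ KK σ n := by
    rw [← hkk0]
    unfold KK
    exact Finset.single_le_sum (f := fun j => kk σ j) (fun j _ => (kk_pos h0 h1 j).le)
      (mem_range.2 hn)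
  have hKpos : 0 < KK σ n := lt_of_lt_of_le (by positivity) hKge
  obtain ⟨q, hq⟩ : ∃ q : ℝ, q = 1 / KK σ n := ⟨_, rfl⟩
  have hq0 : 0 < q := by rw [hq]; positivity
  have hq1 : q ≤ σ * (1 - σ) := by
    rw [hq, div_le_iff₀ hKpos]
    rw [div_le_iff₀ (by positivity)] at hKge
    linarith
  have hqσ : q ≤ σ := by nlinarith
  have hP : ∀ j, kk σ j / KK σ n = kk σ j * q := fun j => by rw [hq]; ring
  have hP0 : ∀ j, 0 ≤ kk σ j / KK σ n := fun j => div_nonneg (kk_pos h0 h1 j).le hKpos.le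
  have hP1 : ∀ j : ℕ, 1 ≤ j → kk σ j / KK σ n ≤ 2 * σ / j := by
    intro j hj
    have hj' : (1 : ℝ) ≤ (j : ℝ) := by exact_mod_cast hj
    have hj0 : (0 : ℝ) < (j : ℝ) := by linarith
    have h2 : kk σ j ≤ 2 / j := by
      unfold kk
      have h3 : 0 < ((j : ℝ) + σ) * ((j : ℝ) + 1 - σ) := by
        have : 0 < (j : ℝ) + 1 - σ := by linarith
        positivity
      rw [div_le_div_iff₀ h3 hj0]
      nlinarith [mul_pos h0 h1s]
    rw [hP]
    calc kk σ j * q ≤ 2 / j * σ := mul_le_mul h2 hqσ hq0.le (by positivity)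
      _ = 2 * σ / j := by ring
  have hP2 : ∀ j : ℕ, kk σ j / KK σ n * (1 - th σ j) ≤ σ / (j + 1) := by
    intro j
    have hj0 : (0 : ℝ) ≤ (j : ℝ) := Nat.cast_nonneg j
    have h2 : kk σ j * (1 - th σ j) = 1 / ((j : ℝ) + 1 - σ) := by
      rw [th_one]
      unfold kk
      have h3 : (j : ℝ) + 1 - σ ≠ 0 := by
        have : 0 < (j : ℝ) + 1 - σ := by linarith
        exact this.ne'
      have h4 : (j : ℝ) + σ ≠ 0 := by positivity
      have h5 : 2 * (j : ℝ) + 1 ≠ 0 := by positivity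
      field_simp
    rw [hP]
    have h3 : 0 < (j : ℝ) + 1 - σ := by linarith
    calc kk σ j * q * (1 - th σ j) = (kk σ j * (1 - th σ j)) * q := by ring
      _ = 1 / ((j : ℝ) + 1 - σ) * q := by rw [h2]
      _ ≤ 1 / ((j : ℝ) + 1 - σ) * (σ * (1 - σ)) :=
          mul_le_mul_of_nonneg_left hq1 (by positivity)
      _ ≤ σ / (j + 1) := by
          rw [one_div_mul_eq_div, div_le_div_iff₀ h3 (by positivity)]
          nlinarith [mul_nonneg hj0 (mul_pos h0 h0).le]
  have hP3 : kk σ 0 / KK σ n ≤ 1 := by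
    rw [div_le_one hKpos, hkk0]
    exact hKge
  have hn1 : (1 : ℝ) ≤ (n : ℝ) := by exact_mod_cast hn
  constructor
  · -- first moment
    obtain ⟨c, hc⟩ : ∃ c : ℕ → ℝ, ∀ i, c i = ∑ j ∈ range n, kk σ j / KK σ n * w σ i j :=
      ⟨_, fun _ => rfl⟩
    have e1 : ∑ j ∈ range n, kk σ j / KK σ n * (yy σ γ j - γ 0) =
        ∑ i ∈ range n, c i * (γ (i + 1) - γ i) := by
      have e2 : ∀ j ∈ range n, kk σ j / KK σ n * (yy σ γ j - γ 0) =
          ∑ i ∈ range n, kk σ j / KK σ n * w σ i j * (γ (i + 1) - γ i) := by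
        intro j hj
        rw [y_eq σ γ n j (mem_range.1 hj), Finset.mul_sum]
        refine sum_congr rfl fun i _ => ?_
        ring
      rw [sum_congr rfl e2, Finset.sum_comm]
      refine sum_congr rfl fun i _ => ?_
      rw [hc, Finset.sum_mul]
    rw [e1]
    refine (cs n γ c).trans ?_
    refine mul_le_mul_of_nonneg_right ?_ hT
    have hcb : ∀ i ∈ range n, (2 * (i : ℝ) + 1) * (c i) ^ 2 ≤ 50 * σ ^ 2 * n := by
      intro i hi
      have hin := mem_range.1 hi
      have hi0 : (0 : ℝ) ≤ (i : ℝ) := Nat.cast_nonneg i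
      have hc0 : 0 ≤ c i := by
        rw [hc]
        exact Finset.sum_nonneg fun j _ => mul_nonneg (hP0 j) (w_nonneg h0 i j)
      have hr0 : 0 < Real.sqrt ((i : ℝ) + 1) := Real.sqrt_pos.2 (by positivity)
      have hr2 : Real.sqrt ((i : ℝ) + 1) ^ 2 = (i : ℝ) + 1 := Real.sq_sqrt (by positivity)
      have hr1 : 1 ≤ Real.sqrt ((i : ℝ) + 1) := by
        rw [Real.one_le_sqrt]; linarith
      have hm2 : Real.sqrt (n : ℝ) ^ 2 = n := Real.sq_sqrt (by positivity)
      have hm1 : 1 ≤ Real.sqrt (n : ℝ) := by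
        rw [Real.one_le_sqrt]; exact hn1
      set r := Real.sqrt ((i : ℝ) + 1) with hr
      set M := Real.sqrt (n : ℝ) with hM
      have hterm : ∀ j ∈ range n, kk σ j / KK σ n * w σ i j ≤
          2 * σ / r * (1 / Real.sqrt (j : ℝ)) + (if i = j then σ / (i + 1) else 0) := by
        intro j _
        have hnn : 0 ≤ 2 * σ / r * (1 / Real.sqrt (j : ℝ)) := by positivity
        rcases lt_trichotomy i j with h | h | h
        · have hw : w σ i j = 1 := by unfold w; rw [if_pos h]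
          rw [hw, mul_one, if_neg h.ne, add_zero]
          refine (hP1 j (by omega)).trans ?_
          have hj1 : (i : ℝ) + 1 ≤ (j : ℝ) := by exact_mod_cast h
          have hj0 : (0 : ℝ) < (j : ℝ) := by linarith
          have hs0 : 0 < Real.sqrt (j : ℝ) := Real.sqrt_pos.2 hj0
          have hs2 : Real.sqrt (j : ℝ) * Real.sqrt (j : ℝ) = j := Real.mul_self_sqrt hj0.le
          have hrs : r ≤ Real.sqrt (j : ℝ) := Real.sqrt_le_sqrt hj1
          have e3 : 2 * σ / r * (1 / Real.sqrt (j : ℝ)) = 2 * σ / (r * Real.sqrt (j : ℝ)) := by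
            field_simp
          rw [e3]
          refine div_le_div_of_nonneg_left (by positivity) (by positivity) ?_
          calc r * Real.sqrt (j : ℝ) ≤ Real.sqrt (j : ℝ) * Real.sqrt (j : ℝ) :=
                mul_le_mul_of_nonneg_right hrs hs0.le
            _ = j := hs2
        · subst h
          have hw : w σ i i = 1 - th σ i := by
            unfold w
            rw [if_neg (lt_irrefl _), if_pos rfl]
          rw [hw, if_pos rfl]
          have := hP2 i
          linarith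
        · have hw : w σ i j = 0 := by
            unfold w
            rw [if_neg (by omega), if_neg (by omega)]
          rw [hw, mul_zero, if_neg (by omega), add_zero]
          exact hnn
      have hci : c i ≤ 2 * σ / r * (2 * M) + σ / (i + 1) := by
        rw [hc]
        refine (Finset.sum_le_sum hterm).trans ?_
        rw [Finset.sum_add_distrib, ← Finset.mul_sum, Finset.sum_ite_eq, if_pos hi]
        have := mul_le_mul_of_nonneg_left (sum_sqrt' n) (by positivity : (0 : ℝ) ≤ 2 * σ / r)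
        linarith
      have hci2 : c i * r ≤ 5 * σ * M := by
        have h6 : σ / (i + 1) * r ≤ σ * M := by
          have h7 : σ / ((i : ℝ) + 1) * r = σ / r := by
            rw [← hr2]
            field_simp
          rw [h7]
          calc σ / r ≤ σ / 1 := div_le_div_of_nonneg_left h0.le one_pos hr1
            _ = σ * 1 := by ring
            _ ≤ σ * M := mul_le_mul_of_nonneg_left hm1 h0.le
        calc c i * r ≤ (2 * σ / r * (2 * M) + σ / (i + 1)) * r :=
              mul_le_mul_of_nonneg_right hci hr0.le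
          _ = 4 * σ * M + σ / (i + 1) * r := by field_simp; ring
          _ ≤ 4 * σ * M + σ * M := by linarith
          _ = 5 * σ * M := by ring
      have hsq : (c i) ^ 2 * (i + 1) ≤ 25 * σ ^ 2 * n := by
        calc (c i) ^ 2 * (i + 1) = (c i * r) ^ 2 := by rw [mul_pow, hr2]
          _ ≤ (5 * σ * M) ^ 2 := pow_le_pow_left₀ (mul_nonneg hc0 hr0.le) hci2 2
          _ = 25 * σ ^ 2 * n := by rw [mul_pow, hm2]; ring
      nlinarith [sq_nonneg (c i)]
    calc ∑ i ∈ range n, (2 * (i : ℝ) + 1) * (c i) ^ 2 ≤ ∑ i ∈ range n, 50 * σ ^ 2 * n :=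
          Finset.sum_le_sum hcb
      _ = 50 * (n : ℝ) ^ 2 * σ ^ 2 := by
          rw [Finset.sum_const, card_range, nsmul_eq_mul]; ring
  · -- second moment
    have hterm : ∀ j ∈ range n, kk σ j / KK σ n * (yy σ γ j - γ 0) ^ 2 ≤
        (σ * TT n γ) * (2 * ((j : ℝ) + 3)) := by
      intro j hj
      rcases Nat.eq_zero_or_pos j with h | h
      · subst h
        have e2 : yy σ γ 0 - γ 0 = σ * (γ 1 - γ 0) := by
          unfold yy th
          norm_num
          ring
        have e3 : (γ 1 - γ 0) ^ 2 ≤ TT n γ := by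
          unfold TT
          have := Finset.single_le_sum (f := fun j : ℕ => (γ j - γ (j + 1)) ^ 2 / (2 * (j : ℝ) + 1))
            (fun j _ => div_nonneg (sq_nonneg _) (by positivity)) (mem_range.2 hn)
          simp only [Nat.cast_zero, mul_zero, zero_add, div_one] at this
          calc (γ 1 - γ 0) ^ 2 = (γ 0 - γ 1) ^ 2 := by ring
            _ ≤ _ := this
        calc kk σ 0 / KK σ n * (yy σ γ 0 - γ 0) ^ 2 ≤ 1 * (yy σ γ 0 - γ 0) ^ 2 :=
              mul_le_mul_of_nonneg_right hP3 (sq_nonneg _)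
          _ = σ ^ 2 * (γ 1 - γ 0) ^ 2 := by rw [e2]; ring
          _ ≤ σ ^ 2 * TT n γ := mul_le_mul_of_nonneg_left e3 (sq_nonneg _)
          _ ≤ (σ * TT n γ) * (2 * (((0 : ℕ) : ℝ) + 3)) := by
              have : σ ^ 2 * TT n γ = (σ * TT n γ) * σ := by ring
              rw [this]
              refine mul_le_mul_of_nonneg_left ?_ (mul_nonneg h0.le hT)
              norm_num
              linarith
      · have hj1 : (1 : ℝ) ≤ (j : ℝ) := by exact_mod_cast h
        have hj0 : (0 : ℝ) < (j : ℝ) := by linarith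
        have e2 := y_sq h0 h1 γ n j (mem_range.1 hj)
        calc kk σ j / KK σ n * (yy σ γ j - γ 0) ^ 2
            ≤ (2 * σ / j) * (((j : ℝ) + 1) ^ 2 * TT n γ) :=
              mul_le_mul (hP1 j h) e2 (sq_nonneg _) (by positivity)
          _ = (σ * TT n γ) * (2 * (((j : ℝ) + 1) ^ 2 / j)) := by ring
          _ ≤ (σ * TT n γ) * (2 * ((j : ℝ) + 3)) := by
              refine mul_le_mul_of_nonneg_left ?_ (mul_nonneg h0.le hT)
              have : ((j : ℝ) + 1) ^ 2 / j ≤ (j : ℝ) + 3 := by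
                rw [div_le_iff₀ hj0]
                nlinarith
              linarith
    calc ∑ j ∈ range n, kk σ j / KK σ n * (yy σ γ j - γ 0) ^ 2
        ≤ ∑ j ∈ range n, (σ * TT n γ) * (2 * ((j : ℝ) + 3)) := Finset.sum_le_sum hterm
      _ = (σ * TT n γ) * ((n : ℝ) ^ 2 + 5 * n) := by rw [← Finset.mul_sum, sum_lin]
      _ ≤ (σ * TT n γ) * (7 * (n : ℝ) ^ 2) := by
          refine mul_le_mul_of_nonneg_left ?_ (mul_nonneg h0.le hT)
          nlinarith
      _ = 7 * (n : ℝ) ^ 2 * σ * TT n γ := by ring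

end Pool.Agent.Y282.RB.M1
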