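import Pool.Agent.Y282.RB.Stm2

/-!
# Project RB (helper282): all `n`, with `p ≥ 4000 n ^ 5`
-/

set_option autoImplicit false

namespace Pool.Agent.Y282.RB

/-- first and second moments of `y_j - γ_0` -/
def S_M1 : Prop := ∀ (n : ℕ) (σ : ℝ) (γ : ℕ → ℝ), 1 ≤ n → 0 < σ → σ ≤ 1 / 2 →
  (∑ j ∈ Finset.range n, kk σ j / KK σ n * (yy σ γ j - γ 0)) ^ 2
      ≤ 50 * (n : ℝ) ^ 2 * σ ^ 2 * TT n γ ∧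
  ∑ j ∈ Finset.range n, kk σ j / KK σ n * (yy σ γ j - γ 0) ^ 2
      ≤ 7 * (n : ℝ) ^ 2 * σ * TT n γ

/-- upper bound for `γ 0` -/
def S_M2 : Prop := ∀ (n : ℕ) (σ : ℝ) (γ : ℕ → ℝ), 1 ≤ n → 0 < σ → σ * (1000 * (n : ℝ)) ≤ 1 →
  Lam σ n γ = 1 → 0 ≤ γ 0 → (γ n) ^ 2 ≤ (γ 0) ^ 2 →
  (γ 0) ^ 2 ≤ 1 + σ * (41 / 5 + 41 / 10 * Real.log n)

/-- the pointwise inequality for all `n` and all `p ≥ 4000 n ^ 5` -/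
def S_M3 : Prop := S_C0 → S_E0 → S_M1 → S_M2 → ∀ (n : ℕ) (p : ℝ), 1 ≤ n →
  4000 * (n : ℝ) ^ 5 ≤ p → Star n p

end Pool.Agent.Y282.RB
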