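import Mathlib
import Pool.Agent.Y282.RB.Stm5

/-!
# Project RB (helper282), task M2: upper bound for `γ 0` with a logarithm (written by helper255)
-/

set_option autoImplicit false

namespace Pool.Agent.Y282.RB.M2

open Finset

noncomputable def GG (σ : ℝ) (j : ℕ) : ℝ := ∏ i ∈ range j, (((i : ℝ) + 1 - σ) / ((i : ℝ) + σ))

lemma GG_succ (σ : ℝ) (j : ℕ) : GG σ (j + 1) = GG σ j * (((j : ℝ) + 1 - σ) / ((j : ℝ) + σ)) := by
  unfold GG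
  rw [prod_range_succ]

lemma GG_pos {σ : ℝ} (h0 : 0 < σ) (h1 : σ ≤ 1 / 2) (j : ℕ) : 0 < GG σ j := by
  unfold GG
  refine prod_pos fun i _ => ?_
  have hi : (0 : ℝ) ≤ (i : ℝ) := Nat.cast_nonneg i
  exact div_pos (by linarith) (by linarith)

noncomputable def aa (σ : ℝ) (j : ℕ) : ℝ := (2 * (j : ℝ) + 1) / (((j : ℝ) + 1 - σ) * GG σ j)

lemma rel (σ : ℝ) (γ : ℕ → ℝ) (j : ℕ) :
    (2 * (j : ℝ) + 1) * yy σ γ j = ((j : ℝ) + 1 - σ) * γ j + ((j : ℝ) + σ) * γ (j + 1) := by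
  have h : (2 * (j : ℝ) + 1) ≠ 0 := by positivity
  unfold yy th
  field_simp
  ring

lemma chain {σ : ℝ} (h0 : 0 < σ) (h1 : σ ≤ 1 / 2) (γ : ℕ → ℝ) (m : ℕ) :
    |γ 0| ≤ ∑ j ∈ range m, aa σ j * |yy σ γ j| + |γ m| / GG σ m := by
  induction m with
  | zero => simp [GG]
  | succ m ih =>
    have hj : (0 : ℝ) ≤ (m : ℝ) := Nat.cast_nonneg m
    have hr := rel σ γ m
    have hp : 0 < (m : ℝ) + 1 - σ := by linarith
    have hq : 0 < (m : ℝ) + σ := by linarith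
    have hG := GG_pos h0 h1 m
    have e1 : ((m : ℝ) + 1 - σ) * γ m = (2 * (m : ℝ) + 1) * yy σ γ m -
        ((m : ℝ) + σ) * γ (m + 1) := by linarith
    have e2 : ((m : ℝ) + 1 - σ) * |γ m| ≤
        (2 * (m : ℝ) + 1) * |yy σ γ m| + ((m : ℝ) + σ) * |γ (m + 1)| := by
      have e3 : ((m : ℝ) + 1 - σ) * |γ m| = |((m : ℝ) + 1 - σ) * γ m| := by
        rw [abs_mul, abs_of_pos hp]
      rw [e3, e1]
      refine (abs_sub _ _).trans ?_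
      rw [abs_mul, abs_mul, abs_of_nonneg (by linarith : (0 : ℝ) ≤ 2 * (m : ℝ) + 1),
        abs_of_pos hq]
    have e4 : |γ m| / GG σ m ≤ aa σ m * |yy σ γ m| + |γ (m + 1)| / GG σ (m + 1) := by
      rw [GG_succ]
      unfold aa
      have e5 : (2 * (m : ℝ) + 1) / (((m : ℝ) + 1 - σ) * GG σ m) * |yy σ γ m| +
          |γ (m + 1)| / (GG σ m * (((m : ℝ) + 1 - σ) / ((m : ℝ) + σ))) =
          ((2 * (m : ℝ) + 1) * |yy σ γ m| + ((m : ℝ) + σ) * |γ (m + 1)|) /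
            (((m : ℝ) + 1 - σ) * GG σ m) := by
        field_simp
      rw [e5, div_le_div_iff₀ hG (mul_pos hp hG)]
      nlinarith
    rw [sum_range_succ]
    linarith

lemma kk_le {σ : ℝ} (h0 : 0 < σ) (h1 : σ ≤ 1 / 2) (j : ℕ) :
    kk σ (j + 1) ≤ 2 * ((j : ℝ) + 1)⁻¹ := by
  have hj : (0 : ℝ) ≤ (j : ℝ) := Nat.cast_nonneg j
  unfold kk
  push_cast
  have hp : 0 < ((j : ℝ) + 1 + σ) * ((j : ℝ) + 1 + 1 - σ) :=
    mul_pos (by linarith) (by linarith)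
  rw [← div_eq_mul_inv, div_le_div_iff₀ hp (by linarith)]
  nlinarith [mul_pos h0 (show 0 < 1 - σ by linarith)]

lemma kk_pos {σ : ℝ} (h0 : 0 < σ) (h1 : σ ≤ 1 / 2) (j : ℕ) : 0 < kk σ j := by
  have hj : (0 : ℝ) ≤ (j : ℝ) := Nat.cast_nonneg j
  unfold kk
  exact div_pos (by linarith) (mul_pos (by linarith) (by linarith))

noncomputable def bb (σ : ℝ) (j : ℕ) : ℝ :=
  (2 * (j : ℝ) + 1) * ((j : ℝ) + σ) / (((j : ℝ) + 1 - σ) * GG σ j ^ 2)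

lemma bb_nonneg {σ : ℝ} (h0 : 0 < σ) (h1 : σ ≤ 1 / 2) (j : ℕ) : 0 ≤ bb σ j := by
  have hj : (0 : ℝ) ≤ (j : ℝ) := Nat.cast_nonneg j
  have hG := GG_pos h0 h1 j
  unfold bb
  refine div_nonneg (mul_nonneg (by linarith) (by linarith)) (mul_nonneg (by linarith) ?_)
  positivity

lemma aa_sq {σ : ℝ} (h0 : 0 < σ) (h1 : σ ≤ 1 / 2) (j : ℕ) (y : ℝ) :
    (aa σ j * |y|) ^ 2 = bb σ j * (kk σ j * y ^ 2) := by
  have hj : (0 : ℝ) ≤ (j : ℝ) := Nat.cast_nonneg j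
  have hG := GG_pos h0 h1 j
  have hp : (j : ℝ) + 1 - σ ≠ 0 := by linarith
  have hq : (j : ℝ) + σ ≠ 0 := by linarith
  rw [mul_pow, sq_abs]
  unfold aa bb kk
  field_simp

/-- harmonic sum -/
noncomputable def Hm (m : ℕ) : ℝ := ∑ j ∈ range m, ((j : ℝ) + 1)⁻¹

lemma Hm_succ (m : ℕ) : Hm (m + 1) = Hm m + ((m : ℝ) + 1)⁻¹ := by
  unfold Hm
  rw [sum_range_succ]

lemma Hm_nonneg (m : ℕ) : 0 ≤ Hm m := sum_nonneg fun j _ => by positivity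

lemma Hm_mono {a b : ℕ} (h : a ≤ b) : Hm a ≤ Hm b :=
  sum_le_sum_of_subset_of_nonneg (range_subset_range.2 h) fun j _ _ => by positivity

lemma Hm_le (m : ℕ) : Hm m ≤ 1 + Real.log m := by
  have h := harmonic_le_one_add_log m
  have e : ((harmonic m : ℚ) : ℝ) = Hm m := by
    unfold harmonic Hm
    push_cast
    rfl
  rw [e] at h
  exact h

lemma GG_low {σ : ℝ} (h0 : 0 < σ) (h1 : σ ≤ 1 / 2) (j : ℕ) (hH : 2 * σ * Hm j ≤ 1) :
    (1 - σ) / σ * ((j : ℝ) + 1) * (1 - 2 * σ * Hm j) ≤ GG σ (j + 1) := by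
  induction j with
  | zero =>
    simp [GG, Hm]
  | succ j ih =>
    have hj : (0 : ℝ) ≤ (j : ℝ) := Nat.cast_nonneg j
    have hHj := Hm_succ j
    have hi : (0 : ℝ) < ((j : ℝ) + 1)⁻¹ := by positivity
    have h2 : 2 * σ * Hm j ≤ 1 := by
      rw [hHj] at hH
      have : 0 ≤ 2 * σ * ((j : ℝ) + 1)⁻¹ := by positivity
      linarith
    have h3 := ih h2
    rw [GG_succ σ (j + 1)]
    push_cast
    set c : ℝ := (1 - σ) / σ with hc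
    have hc0 : 0 ≤ c := div_nonneg (by linarith) h0.le
    set t : ℝ := 1 - 2 * σ * Hm j with ht
    have ht0 : 0 ≤ t := by linarith
    have hw0 : 0 ≤ 2 * σ * ((j : ℝ) + 1)⁻¹ := by positivity
    have hstep : ((j : ℝ) + 1 + 1) / ((j : ℝ) + 1) * (1 - 2 * σ * ((j : ℝ) + 1)⁻¹) ≤
        ((j : ℝ) + 1 + 1 - σ) / ((j : ℝ) + 1 + σ) := by
      have e1 : ((j : ℝ) + 1 + 1) / ((j : ℝ) + 1) * (1 - 2 * σ * ((j : ℝ) + 1)⁻¹) =
          ((j : ℝ) + 1 + 1) * ((j : ℝ) + 1 - 2 * σ) / ((j : ℝ) + 1) ^ 2 := by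
        field_simp
      rw [e1, div_le_div_iff₀ (by positivity) (by linarith)]
      nlinarith [mul_nonneg hj h0.le, mul_nonneg (mul_nonneg hj hj) h0.le, sq_nonneg σ,
        mul_nonneg hj (sq_nonneg σ)]
    have hC0 : 0 ≤ ((j : ℝ) + 1 + 1 - σ) / ((j : ℝ) + 1 + σ) :=
      div_nonneg (by linarith) (by linarith)
    have h4 : c * ((j : ℝ) + 1) * t * (((j : ℝ) + 1 + 1) / ((j : ℝ) + 1) *
        (1 - 2 * σ * ((j : ℝ) + 1)⁻¹)) ≤ GG σ (j + 1) *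
        (((j : ℝ) + 1 + 1 - σ) / ((j : ℝ) + 1 + σ)) := by
      calc c * ((j : ℝ) + 1) * t * (((j : ℝ) + 1 + 1) / ((j : ℝ) + 1) *
            (1 - 2 * σ * ((j : ℝ) + 1)⁻¹))
          ≤ c * ((j : ℝ) + 1) * t * (((j : ℝ) + 1 + 1 - σ) / ((j : ℝ) + 1 + σ)) := by gcongr
        _ ≤ _ := by gcongr
    refine le_trans ?_ h4
    have e2 : c * ((j : ℝ) + 1) * t * (((j : ℝ) + 1 + 1) / ((j : ℝ) + 1) *
        (1 - 2 * σ * ((j : ℝ) + 1)⁻¹)) = c * ((j : ℝ) + 1 + 1) *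
        (t * (1 - 2 * σ * ((j : ℝ) + 1)⁻¹)) := by
      field_simp
    rw [e2]
    have h5 : 1 - 2 * σ * Hm (j + 1) ≤ t * (1 - 2 * σ * ((j : ℝ) + 1)⁻¹) := by
      rw [hHj, ht]
      have : 0 ≤ (2 * σ * Hm j) * (2 * σ * ((j : ℝ) + 1)⁻¹) := by
        have := Hm_nonneg j
        positivity
      nlinarith
    gcongr

lemma GG_ge {σ : ℝ} (h0 : 0 < σ) (h1 : σ ≤ 1 / 2) (m : ℕ) : (1 - σ) / σ ≤ GG σ (m + 1) := by
  induction m with
  | zero => simp [GG]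
  | succ m ih =>
    have hj : (0 : ℝ) ≤ (m : ℝ) := Nat.cast_nonneg m
    rw [GG_succ]
    push_cast
    have h2 : 1 ≤ ((m : ℝ) + 1 + 1 - σ) / ((m : ℝ) + 1 + σ) := by
      rw [le_div_iff₀ (by linarith)]
      linarith
    have h3 : 0 ≤ GG σ (m + 1) := (GG_pos h0 h1 _).le
    nlinarith

lemma bb_le {σ g : ℝ} (h0 : 0 < σ) (h1 : σ ≤ 1 / 2) (hg : 0 < g) (j : ℕ)
    (hG : g * ((j : ℝ) + 1) ≤ GG σ (j + 1)) :
    bb σ (j + 1) ≤ 2 * (1 + σ) / g ^ 2 * ((j : ℝ) + 1)⁻¹ := by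
  have hj : (0 : ℝ) ≤ (j : ℝ) := Nat.cast_nonneg j
  unfold bb
  push_cast
  have hp : 0 < (j : ℝ) + 1 + 1 - σ := by linarith
  have hGp := GG_pos h0 h1 (j + 1)
  have h2 : (2 * ((j : ℝ) + 1) + 1) * ((j : ℝ) + 1 + σ) / (((j : ℝ) + 1 + 1 - σ) *
      GG σ (j + 1) ^ 2) ≤ (2 * ((j : ℝ) + 1) + 1) * ((j : ℝ) + 1 + σ) /
        (((j : ℝ) + 1 + 1 - σ) * (g * ((j : ℝ) + 1)) ^ 2) := by
    gcongr
  refine h2.trans ?_
  have e1 : 2 * (1 + σ) / g ^ 2 * ((j : ℝ) + 1)⁻¹ = 2 * (1 + σ) / (g ^ 2 * ((j : ℝ) + 1)) := by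
    field_simp
  rw [e1, div_le_div_iff₀ (by positivity) (by positivity)]
  have h3 : (2 * ((j : ℝ) + 1) + 1) * ((j : ℝ) + 1 + σ) ≤
      2 * ((j : ℝ) + 1 + 1 - σ) * (((j : ℝ) + 1) * (1 + σ)) := by
    have h4 : 2 * ((j : ℝ) + 1) + 1 ≤ 2 * ((j : ℝ) + 1 + 1 - σ) := by linarith
    have h5 : (j : ℝ) + 1 + σ ≤ ((j : ℝ) + 1) * (1 + σ) := by nlinarith
    gcongr
  calc (2 * ((j : ℝ) + 1) + 1) * ((j : ℝ) + 1 + σ) * (g ^ 2 * ((j : ℝ) + 1)) ≤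
      (2 * ((j : ℝ) + 1 + 1 - σ) * (((j : ℝ) + 1) * (1 + σ))) * (g ^ 2 * ((j : ℝ) + 1)) := by
        gcongr
    _ = 2 * (1 + σ) * (((j : ℝ) + 1 + 1 - σ) * (g * ((j : ℝ) + 1)) ^ 2) := by ring

/-- the numerical part: `l = σ L` -/
lemma final {σ l u X1 X2 : ℝ} (hσ : 0 < σ) (hσl : σ ≤ l) (hl : l ≤ 1 / 1000)
    (hX1 : X1 * (1 - σ) ≤ 1 + 2 * l) (hX2 : X2 * (1 - σ) ≤ 1 + 203 / 100 * l) (hX10 : 0 ≤ X1)
    (hX20 : 0 ≤ X2) (hu : (u * (1 - 2 * σ)) ^ 2 ≤ (X1 * (1 - σ)) * (X2 * (1 - σ))) :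
    u ^ 2 ≤ 1 + 41 / 10 * σ + 41 / 10 * l := by
  have hs1 : σ ≤ 1 / 1000 := hσl.trans hl
  have hl0 : 0 ≤ l := hσ.le.trans hσl
  have h1 : (X1 * (1 - σ)) * (X2 * (1 - σ)) ≤ (1 + 2 * l) * (1 + 203 / 100 * l) := by
    have : 0 ≤ X2 * (1 - σ) := mul_nonneg hX20 (by linarith)
    have : 0 ≤ X1 * (1 - σ) := mul_nonneg hX10 (by linarith)
    gcongr
  have h2 : (1 + 2 * l) * (1 + 203 / 100 * l) ≤ 1 + 4035 / 1000 * l := by nlinarith
  have h3 : u ^ 2 * (1 - 2 * σ) ^ 2 ≤ 1 + 4035 / 1000 * l := by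
    calc u ^ 2 * (1 - 2 * σ) ^ 2 = (u * (1 - 2 * σ)) ^ 2 := by ring
      _ ≤ _ := hu.trans (h1.trans h2)
  have h4 : 1 + 4035 / 1000 * l ≤ (1 + 41 / 10 * σ + 41 / 10 * l) * (1 - 2 * σ) ^ 2 := by
    have e : (1 - 2 * σ) ^ 2 = 1 - 4 * σ + 4 * σ ^ 2 := by ring
    rw [e]
    nlinarith [mul_nonneg hσ.le hl0, mul_nonneg (mul_nonneg hσ.le hσ.le) hl0, sq_nonneg σ]
  have h5 : 0 < (1 - 2 * σ) ^ 2 := by
    have : 0 < 1 - 2 * σ := by linarith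
    positivity
  exact le_of_mul_le_mul_right (h3.trans h4) h5

theorem main : S_M2 := by
  intro n σ γ hn hσ hs hL hu hle
  obtain ⟨m, rfl⟩ : ∃ m, n = m + 1 := ⟨n - 1, by omega⟩
  have hN : (1 : ℝ) ≤ ((m + 1 : ℕ) : ℝ) := by exact_mod_cast hn
  have hσ1 : σ ≤ 1 / 1000 := by nlinarith
  have hσ2 : σ ≤ 1 / 2 := by linarith
  have hσ0 : (0 : ℝ) < 1 - σ := by linarith
  -- the logarithm
  set L : ℝ := 1 + Real.log ((m + 1 : ℕ) : ℝ) with hLdef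
  have hL1 : 1 ≤ L := by
    have := Real.log_nonneg hN
    linarith
  have hLn : L ≤ ((m + 1 : ℕ) : ℝ) := by
    have := Real.log_le_sub_one_of_pos (show (0 : ℝ) < ((m + 1 : ℕ) : ℝ) by linarith)
    linarith
  set l : ℝ := σ * L with hl
  have hl1 : l ≤ 1 / 1000 := by
    have : σ * L ≤ σ * ((m + 1 : ℕ) : ℝ) := by gcongr
    rw [hl]
    linarith
  have hσl : σ ≤ l := by
    rw [hl]
    nlinarith
  have hl0 : 0 < l := lt_of_lt_of_le hσ hσl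
  have hHL : Hm m ≤ L := (Hm_mono (Nat.le_succ m)).trans (Hm_le (m + 1))
  -- the constraint
  have hkp := kk_pos hσ hσ2
  have hKp : 0 < KK σ (m + 1) := by
    unfold KK
    exact sum_pos (fun j _ => hkp j) ⟨0, mem_range.2 (by omega)⟩
  have hc : ∑ j ∈ range (m + 1), kk σ j * (yy σ γ j) ^ 2 = KK σ (m + 1) := by
    unfold Lam at hL
    rw [div_eq_one_iff_eq hKp.ne'] at hL
    exact hL
  have hk0 : kk σ 0 = 1 / (σ * (1 - σ)) := by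
    unfold kk
    simp
  have hK : KK σ (m + 1) ≤ 1 / (σ * (1 - σ)) + 2 * L := by
    unfold KK
    rw [sum_range_succ', hk0]
    have h1 : ∑ j ∈ range m, kk σ (j + 1) ≤ 2 * Hm m := by
      unfold Hm
      rw [mul_sum]
      exact sum_le_sum fun j _ => kk_le hσ hσ2 j
    linarith
  -- Cauchy-Schwarz
  set S : ℝ := ∑ j ∈ range (m + 1), aa σ j * |yy σ γ j| with hS
  set Z : ℝ := ∑ j ∈ range (m + 1), bb σ j with hZ
  have hCS : S ^ 2 ≤ Z * KK σ (m + 1) := by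
    rw [← hc]
    exact sum_sq_le_sum_mul_sum_of_sq_eq_mul (range (m + 1)) (fun j _ => bb_nonneg hσ hσ2 j)
      (fun j _ => mul_nonneg (hkp j).le (sq_nonneg _)) (fun j _ => aa_sq hσ hσ2 j _)
  set g : ℝ := (1 - σ) / σ * (1 - 2 * l) with hg
  have hg0 : 0 < g := by
    rw [hg]
    exact mul_pos (div_pos hσ0 hσ) (by linarith)
  have hZb : Z ≤ σ / (1 - σ) + 2 * (1 + σ) / g ^ 2 * L := by
    rw [hZ, sum_range_succ']
    have h0 : bb σ 0 = σ / (1 - σ) := by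
      unfold bb GG
      simp
    have h1 : ∑ j ∈ range m, bb σ (j + 1) ≤ 2 * (1 + σ) / g ^ 2 * Hm m := by
      unfold Hm
      rw [mul_sum]
      refine sum_le_sum fun j hj => bb_le hσ hσ2 hg0 j ?_
      have hjm : j ≤ m := (mem_range.1 hj).le
      have hHj : Hm j ≤ L := (Hm_mono hjm).trans hHL
      have h2 : 2 * σ * Hm j ≤ 2 * l := by
        rw [hl]
        have := mul_le_mul_of_nonneg_left hHj hσ.le
        linarith
      refine le_trans ?_ (GG_low hσ hσ2 j (by linarith))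
      have h3 : (0 : ℝ) ≤ (1 - σ) / σ * ((j : ℝ) + 1) := by positivity
      calc g * ((j : ℝ) + 1) = (1 - σ) / σ * ((j : ℝ) + 1) * (1 - 2 * l) := by
            rw [hg]; ring
        _ ≤ (1 - σ) / σ * ((j : ℝ) + 1) * (1 - 2 * σ * Hm j) := by
            gcongr
            
    have h4 : 2 * (1 + σ) / g ^ 2 * Hm m ≤ 2 * (1 + σ) / g ^ 2 * L := by gcongr
    rw [h0]
    linarith
  have hZ0 : 0 ≤ Z := sum_nonneg fun j _ => bb_nonneg hσ hσ2 j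
  -- the last term
  have hun : |γ (m + 1)| ≤ γ 0 := by
    have := sq_le_sq.1 hle
    rwa [abs_of_nonneg hu] at this
  have hch := chain hσ hσ2 γ (m + 1)
  rw [← hS, abs_of_nonneg hu] at hch
  have hGG := GG_ge hσ hσ2 m
  have hGp := GG_pos hσ hσ2 (m + 1)
  have hlast : |γ (m + 1)| / GG σ (m + 1) ≤ γ 0 * (σ / (1 - σ)) := by
    have h1 : |γ (m + 1)| / GG σ (m + 1) ≤ γ 0 / ((1 - σ) / σ) := by
      have : 0 < (1 - σ) / σ := div_pos hσ0 hσ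
      gcongr
    refine h1.trans (le_of_eq ?_)
    field_simp
  have hS0 : 0 ≤ S := by
    rw [hS]
    refine sum_nonneg fun j _ => mul_nonneg ?_ (abs_nonneg _)
    unfold aa
    have hj : (0 : ℝ) ≤ (j : ℝ) := Nat.cast_nonneg j
    exact div_nonneg (by linarith) (mul_nonneg (by linarith) (GG_pos hσ hσ2 j).le)
  have hmain : γ 0 * (1 - 2 * σ) ≤ S * (1 - σ) := by
    have h1 : γ 0 ≤ S + γ 0 * (σ / (1 - σ)) := by linarith
    have h2 := mul_le_mul_of_nonneg_right h1 hσ0.le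
    have e1 : (S + γ 0 * (σ / (1 - σ))) * (1 - σ) = S * (1 - σ) + γ 0 * σ := by
      field_simp
    rw [e1] at h2
    linarith
  have hsq : (γ 0 * (1 - 2 * σ)) ^ 2 ≤
      (σ * KK σ (m + 1) * (1 - σ)) * (Z / σ * (1 - σ)) := by
    have h1 : (γ 0 * (1 - 2 * σ)) ^ 2 ≤ (S * (1 - σ)) ^ 2 := by
      apply pow_le_pow_left₀ (mul_nonneg hu (by linarith)) hmain
    refine h1.trans ?_
    have e1 : (σ * KK σ (m + 1) * (1 - σ)) * (Z / σ * (1 - σ)) =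
        Z * KK σ (m + 1) * (1 - σ) ^ 2 := by
      field_simp
    rw [e1, mul_pow]
    gcongr
  have hfin := final (σ := σ) (l := l) (u := γ 0) (X1 := σ * KK σ (m + 1)) (X2 := Z / σ) hσ hσl
    hl1 ?_ ?_ (by positivity) (div_nonneg hZ0 hσ.le) hsq
  · have e : 1 + 41 / 10 * σ + 41 / 10 * l = 1 + σ * (41 / 5 + 41 / 10 * Real.log
        ((m + 1 : ℕ) : ℝ)) := by
      rw [hl, hLdef]
      ring
    rw [← e]
    exact hfin
  · have h1 : σ * KK σ (m + 1) * (1 - σ) ≤ σ * (1 / (σ * (1 - σ)) + 2 * L) * (1 - σ) := by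
      gcongr
    refine h1.trans ?_
    have e1 : σ * (1 / (σ * (1 - σ)) + 2 * L) * (1 - σ) = 1 + 2 * (σ * L) * (1 - σ) := by
      field_simp
    rw [e1, ← hl]
    nlinarith
  · have h1 : Z / σ * (1 - σ) ≤ (σ / (1 - σ) + 2 * (1 + σ) / g ^ 2 * L) / σ * (1 - σ) := by
      gcongr
    refine h1.trans ?_
    have e1 : (σ / (1 - σ) + 2 * (1 + σ) / g ^ 2 * L) / σ * (1 - σ) =
        1 + 2 * (1 + σ) / ((1 - σ) * (1 - 2 * l) ^ 2) * l := by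
      have h2 : (1 - 2 * l) ≠ 0 := by linarith
      rw [hg, hl]
      field_simp
    rw [e1]
    have h2 : 2 * (1 + σ) / ((1 - σ) * (1 - 2 * l) ^ 2) ≤ 203 / 100 := by
      have h3 : (998 / 1000 : ℝ) ^ 2 ≤ (1 - 2 * l) ^ 2 := by
        apply pow_le_pow_left₀ (by norm_num)
        linarith
      have h4 : (999 / 1000 : ℝ) * (998 / 1000 : ℝ) ^ 2 ≤ (1 - σ) * (1 - 2 * l) ^ 2 := by
        gcongr
        linarith
      rw [div_le_iff₀ (lt_of_lt_of_le (by norm_num) h4)]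
      nlinarith
    have h5 := mul_le_mul_of_nonneg_right h2 hl0.le
    linarith

end Pool.Agent.Y282.RB.M2
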