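import Pool.Agent.Y282.RB.Stm5

/-!
Project RB (helper282), job RB-M3 (helper417): the pointwise inequality for all `n`,
`p ≥ 4000 n ^ 5`.
-/

set_option autoImplicit false

namespace Pool.Agent.Y282.RB.M3

open Pool.Agent.Y282.RB

theorem TT_nonneg (n : ℕ) (γ : ℕ → ℝ) : 0 ≤ TT n γ := by
  unfold TT
  exact Finset.sum_nonneg fun j _ => by positivity

theorem kk_pos {σ : ℝ} (h0 : 0 < σ) (h1 : σ ≤ 1 / 2) (j : ℕ) : 0 < kk σ j := by
  unfold kk
  have hj : (0 : ℝ) ≤ j := Nat.cast_nonneg j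
  have h2 : (0 : ℝ) < (j : ℝ) + 1 - σ := by linarith
  positivity

theorem KK_pos {σ : ℝ} (h0 : 0 < σ) (h1 : σ ≤ 1 / 2) {n : ℕ} (hn : 1 ≤ n) : 0 < KK σ n := by
  unfold KK
  exact Finset.sum_pos (fun j _ => kk_pos h0 h1 j) ⟨0, Finset.mem_range.2 (by omega)⟩

theorem lam_eq {σ : ℝ} (h0 : 0 < σ) (h1 : σ ≤ 1 / 2) {n : ℕ} (hn : 1 ≤ n) (γ : ℕ → ℝ) (x : ℝ) :
    Lam σ n γ = x ^ 2 + 2 * x * (∑ j ∈ Finset.range n, kk σ j / KK σ n * (yy σ γ j - x)) +
      ∑ j ∈ Finset.range n, kk σ j / KK σ n * (yy σ γ j - x) ^ 2 := by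
  have hK := KK_pos h0 h1 hn
  have hs : ∑ j ∈ Finset.range n, kk σ j / KK σ n = 1 := by
    rw [← Finset.sum_div]
    exact div_self hK.ne'
  have e1 : Lam σ n γ = ∑ j ∈ Finset.range n, kk σ j / KK σ n * (yy σ γ j) ^ 2 := by
    unfold Lam
    rw [Finset.sum_div]
    refine Finset.sum_congr rfl fun j _ => ?_
    ring
  have e2 : x ^ 2 = ∑ j ∈ Finset.range n, kk σ j / KK σ n * x ^ 2 := by
    rw [← Finset.sum_mul, hs, one_mul]
  rw [e1, e2, Finset.mul_sum, ← Finset.sum_add_distrib, ← Finset.sum_add_distrib]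
  refine Finset.sum_congr rfl fun j _ => ?_
  ring

theorem exp_41 : Real.exp (41 / 10) ≤ 61 := by
  have h1 : Real.exp (41 / 10) ^ 10 ≤ 61 ^ 10 := by
    rw [← Real.exp_nat_mul]
    have h2 : ((10 : ℕ) : ℝ) * (41 / 10) = ((41 : ℕ) : ℝ) * 1 := by norm_num
    rw [h2, Real.exp_nat_mul]
    have h3 := Real.exp_one_lt_d9.le
    calc Real.exp 1 ^ 41 ≤ (2.7182818286 : ℝ) ^ 41 := pow_le_pow_left₀ (Real.exp_pos 1).le h3 41
      _ ≤ 61 ^ 10 := by norm_num
  exact le_of_pow_le_pow_left₀ (by norm_num) (by norm_num) h1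

theorem main : S_M3 := by
  intro hC0 hE0 hM1 hM2 n p hn hp
  obtain ⟨N, hN⟩ : ∃ N : ℝ, N = n := ⟨_, rfl⟩
  have hN1 : 1 ≤ N := by
    rw [hN]
    exact_mod_cast hn
  rw [← hN] at hp
  have hN5 : 1 ≤ N ^ 5 := one_le_pow₀ hN1
  have hN4 : 1 ≤ N ^ 4 := one_le_pow₀ hN1
  have hN2 : 1 ≤ N ^ 2 := one_le_pow₀ hN1
  have h45 : N ^ 4 ≤ N ^ 5 := pow_le_pow_right₀ hN1 (by norm_num)
  have h25 : N ^ 2 ≤ N ^ 5 := pow_le_pow_right₀ hN1 (by norm_num)
  have h15 : N ≤ N ^ 5 := by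
    calc N = N ^ 1 := (pow_one N).symm
      _ ≤ N ^ 5 := pow_le_pow_right₀ hN1 (by norm_num)
  obtain ⟨r, hr⟩ : ∃ r, r = p / 2 := ⟨_, rfl⟩
  have hr5 : 2000 * N ^ 5 ≤ r := by linarith
  have hr2000 : 2000 ≤ r := by linarith
  have hrpos : 0 < r := by linarith
  have hσr : 1 / p = 1 / (2 * r) := by
    rw [hr]
    congr 1
    ring
  refine hC0 n p hn (by linarith) fun γ hΛ hγ0 hor => ?_
  rw [← hr]
  have hσ0 : 0 < 1 / p := by
    have : 0 < p := by linarith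
    positivity
  have hσ2 : 1 / p ≤ 1 / 2 := by
    rw [div_le_div_iff₀ (by linarith) (by norm_num)]
    linarith
  obtain ⟨m1, m2⟩ := hM1 n (1 / p) γ hn hσ0 hσ2
  have hlam := lam_eq hσ0 hσ2 hn γ (γ 0)
  have hq0 : 0 ≤ ∑ j ∈ Finset.range n, kk (1 / p) j / KK (1 / p) n * (yy (1 / p) γ j - γ 0) ^ 2 := by
    refine Finset.sum_nonneg fun j _ => ?_
    have := (kk_pos hσ0 hσ2 j).le
    have := (KK_pos hσ0 hσ2 hn).le
    positivity
  obtain ⟨ℓ, hℓ⟩ : ∃ ℓ, ℓ = ∑ j ∈ Finset.range n, kk (1 / p) j / KK (1 / p) n *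
    (yy (1 / p) γ j - γ 0) := ⟨_, rfl⟩
  obtain ⟨q, hq⟩ : ∃ q, q = ∑ j ∈ Finset.range n, kk (1 / p) j / KK (1 / p) n *
    (yy (1 / p) γ j - γ 0) ^ 2 := ⟨_, rfl⟩
  obtain ⟨u, hu⟩ : ∃ u, u = γ 0 := ⟨_, rfl⟩
  obtain ⟨τ, hτ⟩ : ∃ τ, τ = TT n γ := ⟨_, rfl⟩
  have hτ0 : 0 ≤ τ := hτ ▸ TT_nonneg n γ
  rw [← hℓ, ← hN, ← hτ, hσr] at m1
  rw [← hq, ← hN, ← hτ, hσr] at m2
  rw [← hℓ, ← hq, hΛ, ← hu] at hlam
  rw [← hq] at hq0
  rw [← hτ, ← hu]
  rw [← hu] at hγ0 hor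
  -- the two moments
  have m1' : r ^ 2 * ℓ ^ 2 ≤ 25 / 2 * N ^ 2 * τ := by
    have h1 := mul_le_mul_of_nonneg_left m1 (sq_nonneg r)
    have h2 : r ^ 2 * (50 * N ^ 2 * (1 / (2 * r)) ^ 2 * τ) = 25 / 2 * N ^ 2 * τ := by
      field_simp
      ring
    linarith
  have m2' : r * q ≤ 7 / 2 * N ^ 2 * τ := by
    have h1 := mul_le_mul_of_nonneg_left m2 hrpos.le
    have h2 : r * (7 * N ^ 2 * (1 / (2 * r)) * τ) = 7 / 2 * N ^ 2 * τ := by
      field_simp
    linarith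
  rcases le_or_gt u 1 with h1 | h1
  · -- first case
    have hb1 : u ^ 2 ≤ 1 := by nlinarith
    have hb0 : 0 ≤ u ^ 2 := sq_nonneg u
    obtain ⟨f1, f2⟩ := hE0.1 r (u ^ 2) (by linarith) hb0 hb1
    obtain ⟨d, hd⟩ : ∃ d, d = 1 - u ^ 2 := ⟨_, rfl⟩
    have hd0 : 0 ≤ d := by linarith
    rw [← hd] at f1
    have hsplit : d ≤ 2 * |ℓ| + q := by
      have h2 : u * ℓ ≤ |ℓ| := by
        calc u * ℓ ≤ u * |ℓ| := mul_le_mul_of_nonneg_left (le_abs_self _) hγ0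
          _ ≤ 1 * |ℓ| := mul_le_mul_of_nonneg_right h1 (abs_nonneg _)
          _ = |ℓ| := one_mul _
      linarith
    rcases le_or_gt (d / 2) (2 * |ℓ|) with h2 | h2
    · have h3 : (d / 2) ^ 2 ≤ (2 * |ℓ|) ^ 2 := pow_le_pow_left₀ (by linarith) h2 2
      have h4 : (2 * |ℓ|) ^ 2 = 4 * ℓ ^ 2 := by
        rw [mul_pow, sq_abs]
        norm_num
      have h5 : d ^ 2 ≤ 16 * ℓ ^ 2 := by
        rw [h4] at h3
        linarith
      have h6 : r ^ 2 * d ^ 2 ≤ 200 * N ^ 2 * τ := by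
        have := mul_le_mul_of_nonneg_left h5 (sq_nonneg r)
        linarith
      have h7 : r / 2 * d ^ 2 ≤ τ := by
        have h8 : 100 * N ^ 2 * (r * d ^ 2) ≤ r * (r * d ^ 2) := by
          apply mul_le_mul_of_nonneg_right _ (by positivity)
          linarith
        have h9 : 200 * N ^ 2 * (r / 2 * d ^ 2) ≤ 200 * N ^ 2 * τ := by
          calc 200 * N ^ 2 * (r / 2 * d ^ 2) = 100 * N ^ 2 * (r * d ^ 2) := by ring
            _ ≤ r * (r * d ^ 2) := h8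
            _ = r ^ 2 * d ^ 2 := by ring
            _ ≤ 200 * N ^ 2 * τ := h6
        exact le_of_mul_le_mul_left h9 (by positivity)
      calc ph r (u ^ 2) ≤ r * (r - 1) / 2 * d ^ 2 := f1
        _ = (r - 1) * (r / 2 * d ^ 2) := by ring
        _ ≤ (r - 1) * τ := mul_le_mul_of_nonneg_left h7 (by linarith)
    · have h3 : d ≤ 2 * q := by linarith
      have h4 : r * d ≤ 7 * N ^ 2 * τ := by
        have := mul_le_mul_of_nonneg_left h3 hrpos.le
        linarith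
      rcases le_or_gt (7 * N ^ 2) (r * d) with h5 | h5
      · have h6 : 1 ≤ τ := by
          have : 7 * N ^ 2 * 1 ≤ 7 * N ^ 2 * τ := by linarith
          exact le_of_mul_le_mul_left this (by positivity)
        calc ph r (u ^ 2) ≤ (r - 1) * 1 := by linarith
          _ ≤ (r - 1) * τ := mul_le_mul_of_nonneg_left h6 (by linarith)
      · have h7 : r / 2 * d ^ 2 ≤ τ := by
          have h8 : 7 * N ^ 2 * (7 * N ^ 2) * d ≤ 2 * (r * d) := by
            have : 7 * N ^ 2 * (7 * N ^ 2) ≤ 2 * r := by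
              calc 7 * N ^ 2 * (7 * N ^ 2) = 49 * N ^ 4 := by ring
                _ ≤ 2 * r := by linarith
            calc 7 * N ^ 2 * (7 * N ^ 2) * d ≤ 2 * r * d := mul_le_mul_of_nonneg_right this hd0
              _ = 2 * (r * d) := by ring
          have h9 : 7 * N ^ 2 * (r / 2 * d ^ 2) ≤ 7 * N ^ 2 * τ := by
            calc 7 * N ^ 2 * (r / 2 * d ^ 2) = (r * d) * (7 * N ^ 2 * d / 2) := by ring
              _ ≤ (7 * N ^ 2) * (7 * N ^ 2 * d / 2) :=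
                mul_le_mul_of_nonneg_right h5.le (by positivity)
              _ ≤ r * d := by linarith
              _ ≤ 7 * N ^ 2 * τ := h4
          exact le_of_mul_le_mul_left h9 (by positivity)
        calc ph r (u ^ 2) ≤ r * (r - 1) / 2 * d ^ 2 := f1
          _ = (r - 1) * (r / 2 * d ^ 2) := by ring
          _ ≤ (r - 1) * τ := mul_le_mul_of_nonneg_left h7 (by linarith)
  · -- second case
    have hb1 : 1 ≤ u ^ 2 := by nlinarith
    have hγn : (γ n) ^ 2 ≤ u ^ 2 := by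
      rcases hor with h | h
      · exact absurd h (not_le.2 h1)
      · exact h
    have hlog : Real.log N ≤ N := (Real.log_le_sub_one_of_pos (by linarith)).trans (by linarith)
    have hlog0 : 0 ≤ Real.log N := Real.log_nonneg hN1
    have e2 := hM2 n (1 / p) γ hn hσ0 (by
      rw [div_mul_eq_mul_div, one_mul, div_le_one (by linarith), ← hN]
      linarith) hΛ (hu ▸ hγ0) (hu ▸ hγn)
    rw [← hN, ← hu, hσr] at e2
    obtain ⟨b, hb⟩ : ∃ b, b = u ^ 2 := ⟨_, rfl⟩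
    have hd2 : (b - 1) * r ≤ 41 / 10 + 41 / 20 * Real.log N := by
      have h2 : (b - 1) * r ≤ (1 / (2 * r) * (41 / 5 + 41 / 10 * Real.log N)) * r :=
        mul_le_mul_of_nonneg_right (by rw [hb]; linarith) hrpos.le
      have h3 : (1 / (2 * r) * (41 / 5 + 41 / 10 * Real.log N)) * r =
          41 / 10 + 41 / 20 * Real.log N := by
        field_simp
        ring
      linarith
    have hb01 : b ≤ 101 / 100 := by
      have h2 : (b - 1) * r ≤ 1 / 100 * r := by linarith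
      have := le_of_mul_le_mul_right h2 hrpos
      linarith
    have hpow : b ^ r ≤ 61 * N ^ 3 := by
      have h5 : b ≤ Real.exp (b - 1) := by
        have := Real.add_one_le_exp (b - 1)
        linarith
      calc b ^ r ≤ (Real.exp (b - 1)) ^ r :=
            Real.rpow_le_rpow (by rw [hb]; positivity) h5 hrpos.le
        _ = Real.exp ((b - 1) * r) := by rw [← Real.exp_mul]
        _ ≤ Real.exp (41 / 10 + 3 * Real.log N) := by
            apply Real.exp_le_exp.2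
            linarith
        _ = Real.exp (41 / 10) * N ^ 3 := by
            rw [Real.exp_add]
            congr 1
            rw [show 3 * Real.log N = ((3 : ℕ) : ℝ) * Real.log N by norm_num,
              Real.exp_nat_mul, Real.exp_log (by linarith)]
        _ ≤ 61 * N ^ 3 := mul_le_mul_of_nonneg_right exp_41 (by positivity)
    have hdl : (b - 1) ^ 2 ≤ 4 * b * ℓ ^ 2 := by
      have h2 : b - 1 ≤ 2 * u * (-ℓ) := by
        rw [hb]
        linarith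
      have h3 : (b - 1) ^ 2 ≤ (2 * u * (-ℓ)) ^ 2 := pow_le_pow_left₀ (by rw [hb]; linarith) h2 2
      calc (b - 1) ^ 2 ≤ (2 * u * (-ℓ)) ^ 2 := h3
        _ = 4 * b * ℓ ^ 2 := by rw [hb]; ring
    have hdl2 : r ^ 2 * (b - 1) ^ 2 ≤ 101 / 2 * N ^ 2 * τ := by
      have h2 : r ^ 2 * (b - 1) ^ 2 ≤ 4 * b * (r ^ 2 * ℓ ^ 2) := by
        have := mul_le_mul_of_nonneg_left hdl (sq_nonneg r)
        linarith
      have h3 : 4 * b * (r ^ 2 * ℓ ^ 2) ≤ 4 * (101 / 100) * (25 / 2 * N ^ 2 * τ) :=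
        mul_le_mul (by linarith) m1' (by positivity) (by norm_num)
      linarith
    have hkey : r / 2 * (61 * N ^ 3) * (b - 1) ^ 2 ≤ τ := by
      have h2 : r * (r / 2 * (61 * N ^ 3) * (b - 1) ^ 2) ≤ r * τ := by
        calc r * (r / 2 * (61 * N ^ 3) * (b - 1) ^ 2) = 61 / 2 * N ^ 3 * (r ^ 2 * (b - 1) ^ 2) := by
              ring
          _ ≤ 61 / 2 * N ^ 3 * (101 / 2 * N ^ 2 * τ) :=
            mul_le_mul_of_nonneg_left hdl2 (by positivity)
          _ = 6161 / 4 * N ^ 5 * τ := by ring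
          _ ≤ r * τ := mul_le_mul_of_nonneg_right (by linarith) hτ0
      exact le_of_mul_le_mul_left h2 hrpos
    have f1 := hE0.2 r (u ^ 2) (by linarith) hb1
    rw [← hb] at f1 ⊢
    have h5 : 0 ≤ r * (r - 1) / 2 * (b - 1) ^ 2 := by
      have : 0 ≤ r - 1 := by linarith
      positivity
    calc ph r b ≤ r * (r - 1) / 2 * b ^ r * (b - 1) ^ 2 := f1
      _ = b ^ r * (r * (r - 1) / 2 * (b - 1) ^ 2) := by ring
      _ ≤ (61 * N ^ 3) * (r * (r - 1) / 2 * (b - 1) ^ 2) := mul_le_mul_of_nonneg_right hpow h5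
      _ = (r - 1) * (r / 2 * (61 * N ^ 3) * (b - 1) ^ 2) := by ring
      _ ≤ (r - 1) * τ := mul_le_mul_of_nonneg_left hkey (by linarith)

end Pool.Agent.Y282.RB.M3
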