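import Pool.Agent.Y282.RB.Stm

/-! # Project RB (helper282): comparison of constants -/

set_option autoImplicit false

namespace Pool.Agent.Y282.RB

/-- `(1 - 1/p)_n / (1/p)_n ≤ n ^ (1 - 2/p) (p - 1)` -/
def S_N : Prop := ∀ (n : ℕ) (p : ℝ), 1 ≤ n → 2 ≤ p →
  Cn p n ≤ (n : ℝ) ^ (1 - 2 / p) * (p - 1)

end Pool.Agent.Y282.RB
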