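import Mathlib
import Pool.Agent.Y282.RB.Stm6

/-! # Project RB, part N (helper441): comparison of constants -/

set_option autoImplicit false

namespace Pool.Agent.Y282.RB.N

open Real

lemma log_cmp {δ t : ℝ} (h0 : 0 ≤ δ) (h1 : δ ≤ 1) (ht0 : 0 ≤ t) (ht1 : t < 1) :
    log (1 + δ * t) - log (1 - δ * t) ≤ δ * (log (1 + t) - log (1 - t)) := by
  have hδt : δ * t ≤ t := by nlinarith
  have a1 : |δ * t| < 1 := by
    rw [abs_of_nonneg (by positivity)]; linarith
  have a2 : |t| < 1 := by rw [abs_of_nonneg ht0]; exact ht1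
  have s1 := Real.hasSum_log_sub_log_of_abs_lt_one a1
  have s2 := (Real.hasSum_log_sub_log_of_abs_lt_one a2).mul_left δ
  refine hasSum_le (fun k => ?_) s1 s2
  rw [mul_pow]
  have h2 : δ ^ (2 * k + 1) ≤ δ := by
    calc δ ^ (2 * k + 1) ≤ δ ^ 1 := pow_le_pow_of_le_one h0 h1 (by omega)
      _ = δ := pow_one δ
  have h3 : 0 ≤ 2 * (1 / (2 * (k : ℝ) + 1)) * t ^ (2 * k + 1) := by positivity
  calc 2 * (1 / (2 * (k : ℝ) + 1)) * (δ ^ (2 * k + 1) * t ^ (2 * k + 1))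
      = δ ^ (2 * k + 1) * (2 * (1 / (2 * (k : ℝ) + 1)) * t ^ (2 * k + 1)) := by ring
    _ ≤ δ * (2 * (1 / (2 * (k : ℝ) + 1)) * t ^ (2 * k + 1)) := mul_le_mul_of_nonneg_right h2 h3

lemma factor {δ : ℝ} (h0 : 0 ≤ δ) (h1 : δ ≤ 1) {j : ℕ} (hj : 1 ≤ j) :
    (2 * (j : ℝ) + 1 + δ) / (2 * j + 1 - δ) ≤ (((j : ℝ) + 1) / j) ^ δ := by
  have hj' : (1 : ℝ) ≤ j := by exact_mod_cast hj
  set t : ℝ := 1 / (2 * j + 1) with ht
  have ht0 : 0 < t := by positivity
  have ht1 : t < 1 := by rw [ht, div_lt_one (by positivity)]; linarith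
  have hlog := log_cmp h0 h1 ht0.le ht1
  have hδt : δ * t < 1 := by nlinarith
  have e1 : (2 * (j : ℝ) + 1 + δ) / (2 * j + 1 - δ) = (1 + δ * t) / (1 - δ * t) := by
    rw [ht]
    have : 2 * (j : ℝ) + 1 - δ ≠ 0 := by linarith
    field_simp
  have e2 : ((j : ℝ) + 1) / j = (1 + t) / (1 - t) := by
    rw [ht]
    have : 2 * (j : ℝ) + 1 - 1 ≠ 0 := by linarith
    field_simp
    ring
  have p1 : 0 < 1 + δ * t := by positivity
  have p2 : 0 < 1 - δ * t := by linarith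
  have p3 : 0 < 1 + t := by positivity
  have p4 : 0 < 1 - t := by linarith
  rw [e1, e2, Real.rpow_def_of_pos (by positivity), Real.log_div p3.ne' p4.ne']
  rw [← Real.log_le_iff_le_exp (by positivity), Real.log_div p1.ne' p2.ne']
  linarith

theorem main : S_N := by
  intro n p hn hp
  have hp0 : 0 < p := by linarith
  set δ : ℝ := 1 - 2 / p with hδ
  have h2p : 2 / p ≤ 1 := by rw [div_le_one hp0]; exact hp
  have h0 : 0 ≤ δ := by rw [hδ]; linarith
  have h1 : δ ≤ 1 := by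
    rw [hδ]
    have : 0 < 2 / p := by positivity
    linarith
  induction n, hn using Nat.le_induction with
  | base =>
    unfold Cn
    rw [Finset.prod_range_one]
    simp only [Nat.cast_zero, Nat.cast_one, Real.one_rpow, zero_add, one_mul]
    apply le_of_eq
    field_simp
  | succ n hn ih =>
    have hn' : (1 : ℝ) ≤ n := by exact_mod_cast hn
    unfold Cn at ih ⊢
    rw [Finset.prod_range_succ]
    have e : ((n : ℝ) + 1 - 1 / p) / ((n : ℝ) + 1 / p) = (2 * (n : ℝ) + 1 + δ) / (2 * n + 1 - δ) := by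
      rw [hδ]
      have e1 : 2 * (n : ℝ) + 1 + (1 - 2 / p) = 2 * ((n : ℝ) + 1 - 1 / p) := by ring
      have e2 : 2 * (n : ℝ) + 1 - (1 - 2 / p) = 2 * ((n : ℝ) + 1 / p) := by ring
      rw [e1, e2, mul_div_mul_left _ _ (by norm_num : (2 : ℝ) ≠ 0)]
    rw [e]
    have hf := factor h0 h1 hn
    have hpos : 0 ≤ (n : ℝ) ^ δ * (p - 1) := mul_nonneg (by positivity) (by linarith)
    have hfp : 0 ≤ (2 * (n : ℝ) + 1 + δ) / (2 * n + 1 - δ) :=
      div_nonneg (by linarith) (by linarith)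
    calc (∏ j ∈ Finset.range n, (((j : ℝ) + 1 - 1 / p) / ((j : ℝ) + 1 / p))) *
          ((2 * (n : ℝ) + 1 + δ) / (2 * n + 1 - δ))
        ≤ ((n : ℝ) ^ δ * (p - 1)) * ((((n : ℝ) + 1) / n) ^ δ) :=
          mul_le_mul ih hf hfp hpos
      _ = ((n + 1 : ℕ) : ℝ) ^ δ * (p - 1) := by
          rw [Real.div_rpow (by positivity) (by positivity)]
          have : (n : ℝ) ^ δ ≠ 0 := (Real.rpow_pos_of_pos (by linarith) δ).ne'
          push_cast
          field_simp

end Pool.Agent.Y282.RB.N
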