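import Pool.Agent.Y282.RB.Fin
import Pool.Agent.Y282.RB.K
import Pool.Agent.Y282.RB.M1
import Pool.Agent.Y282.RB.M2
import Pool.Agent.Y282.RB.M3
import Pool.Agent.Y282.RB.N

/-! # Project RB: assembly for all `n` (helper282) -/

set_option autoImplicit false

open MeasureTheory Set

namespace Pool.Agent.Y282.RB.Fin2

theorem starn (n : ℕ) (p : ℝ) (hn : 1 ≤ n) (hp : 4000 * (n : ℝ) ^ 5 ≤ p) : Star n p :=
  M3.main C0.main E0.main M1.main M2.main n p hn hp

theorem schw (n : ℕ) (p : ℝ) (hn : 1 ≤ n) (hp : 4000 * (n : ℝ) ^ 5 ≤ p)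
    (f : SchwartzMap ℂ ℂ) (hf : Ang n f) :
    eLpNorm (Tn n f) (ENNReal.ofReal p) (volume : Measure ℂ)
      ≤ ENNReal.ofReal (Cn p n) * eLpNorm (⇑f) (ENNReal.ofReal p) (volume : Measure ℂ) := by
  have hn' : (1 : ℝ) ≤ (n : ℝ) := by exact_mod_cast hn
  have hp2 : 2 ≤ p := by
    have : (1 : ℝ) ≤ (n : ℝ) ^ 5 := one_le_pow₀ hn'
    linarith
  have hC : 0 ≤ Cn p n := by
    unfold Cn
    refine Finset.prod_nonneg (fun j _ => ?_)
    have h1 : (1 : ℝ) / p ≤ 1 / 2 := by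
      apply one_div_le_one_div_of_le <;> linarith
    have h2 : (0 : ℝ) < 1 / p := by positivity
    have h3 : (0 : ℝ) ≤ (j : ℝ) := Nat.cast_nonneg j
    apply div_nonneg <;> linarith
  exact K.main n p (Cn p n) hn hp2 hC
    (fun g hg hs => Fin.plane n p hn hp2 (starn n p hn hp) g hg hs) f hf

end Pool.Agent.Y282.RB.Fin2
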