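import Pool.Agent.Y282.RB.Stm3

/-!
# Project RB (helper282): the condition `Hii σ (7 / 2)` for `1 / 4 ≤ σ ≤ 1 / 3`
-/

set_option autoImplicit false

namespace Pool.Agent.Y282.RB.Hii4

/-- the polynomial inequality -/
lemma poly (σ : ℝ) (h1 : 1 / 4 ≤ σ) (h2 : σ ≤ 1 / 3) :
    ((2 - σ) * ((1 - σ) ^ 2 * (2 - σ)) - 4 / 49 * (1 + σ) * (σ ^ 2 * (1 + σ))) ^ 2
        * (2 + 4 * (σ * (1 - σ))) * (σ * (1 - σ))
      + 3 * (σ * ((1 - σ) ^ 2 * (2 - σ)) - 4 / 49 * (1 - σ) * (σ ^ 2 * (1 + σ))) ^ 2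
        * (2 + 4 * (σ * (1 - σ))) * (2 + σ * (1 - σ))
    ≤ 49 * (1 - 2 * σ) ^ 2 * (σ ^ 2 * (1 + σ) + (1 - σ) ^ 2 * (2 - σ)) ^ 2
        * (σ * (1 - σ)) * (2 + σ * (1 - σ)) := by
  obtain ⟨u, hu⟩ : ∃ u : ℝ, u = 1 - 3 * σ := ⟨_, rfl⟩
  have hu0 : 0 ≤ u := by rw [hu]; linarith
  have hu1 : u ≤ 1 / 4 := by rw [hu]; linarith
  have hs : σ = (1 - u) / 3 := by rw [hu]; ring
  have hk : ∀ k : ℕ, u ^ (3 + k) ≤ u ^ 3 * (1 / 4) ^ k := by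
    intro k
    rw [pow_add]
    exact mul_le_mul_of_nonneg_left (pow_le_pow_left₀ hu0 hu1 k) (by positivity)
  have h4 := hk 1
  have h5 := hk 2
  have h6 := hk 3
  have h7 := hk 4
  have h8 := hk 5
  have h11 := hk 8
  have h12 := hk 9
  norm_num at h4 h5 h6 h7 h8 h11 h12
  have p2 : 0 ≤ u ^ 2 := by positivity
  have p3 : 0 ≤ u ^ 3 := by positivity
  have p9 : 0 ≤ u ^ 9 := by positivity
  have p10 : 0 ≤ u ^ 10 := by positivity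
  have key : 47258883 * (49 * (1 - 2 * σ) ^ 2 * (σ ^ 2 * (1 + σ) + (1 - σ) ^ 2 * (2 - σ)) ^ 2
        * (σ * (1 - σ)) * (2 + σ * (1 - σ))
      - (((2 - σ) * ((1 - σ) ^ 2 * (2 - σ)) - 4 / 49 * (1 + σ) * (σ ^ 2 * (1 + σ))) ^ 2
        * (2 + 4 * (σ * (1 - σ))) * (σ * (1 - σ))
      + 3 * (σ * ((1 - σ) ^ 2 * (2 - σ)) - 4 / 49 * (1 - σ) * (σ ^ 2 * (1 + σ))) ^ 2
        * (2 + 4 * (σ * (1 - σ))) * (2 + σ * (1 - σ))))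
      = 3427264 + 353514624 * u + 775688504 * u ^ 2 + 503900766 * u ^ 3 - 155324295 * u ^ 4
        - 671810910 * u ^ 5 - 545276292 * u ^ 6 - 251438292 * u ^ 7 - 34940793 * u ^ 8
        + 18619460 * u ^ 9 + 3669564 * u ^ 10 - 28400 * u ^ 11 - 1200 * u ^ 12 := by
    rw [hs]; ring
  linarith

theorem main : S_Hii4 := by
  intro σ h1 h2
  have h0 : 0 < σ := by linarith
  have e4 : 1 / σ ≤ 4 := by rw [div_le_iff₀ h0]; linarith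
  have e3 : 3 ≤ 1 / σ := by rw [le_div_iff₀ h0]; linarith
  have hκ : (4 / 49 : ℝ) ≤ (7 / 2 : ℝ) ^ (-(1 / σ - 2)) := by
    have e : (4 / 49 : ℝ) = (7 / 2 : ℝ) ^ (-(2 : ℝ)) := by
      rw [Real.rpow_neg (by norm_num), show (2 : ℝ) = ((2 : ℕ) : ℝ) by norm_num,
        Real.rpow_natCast]
      norm_num
    rw [e]
    exact Real.rpow_le_rpow_of_exponent_le (by norm_num) (by linarith)
  have hκ1 : (7 / 2 : ℝ) ^ (-(1 / σ - 2)) ≤ 1 :=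
    Real.rpow_le_one_of_one_le_of_nonpos (by norm_num) (by linarith)
  unfold Hii
  generalize (7 / 2 : ℝ) ^ (-(1 / σ - 2)) = κ at hκ hκ1 ⊢
  -- the coefficients
  have hm : 0 < mm σ := by unfold mm; exact mul_pos h0 (by linarith)
  have hpa : 0 < pa σ := by unfold pa; positivity
  have hpb : 0 < pb σ := by unfold pb; positivity
  have hq : 0 < σ ^ 2 * (1 + σ) := by positivity
  obtain ⟨D, hD⟩ : ∃ D : ℝ, D = CC σ * (1 / σ - 1) := ⟨_, rfl⟩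
  have hDq : D * (σ ^ 2 * (1 + σ)) = (1 - σ) ^ 2 * (2 - σ) := by
    rw [hD]; unfold CC; field_simp
  have hD' : D = (1 - σ) ^ 2 * (2 - σ) / (σ ^ 2 * (1 + σ)) := by
    rw [eq_div_iff hq.ne']; exact hDq
  have hCC : (CC σ - 1) * (σ * (1 + σ)) = 2 * (1 - 2 * σ) := by
    unfold CC; field_simp; ring
  have hD3 : 4 ≤ D := by
    rw [hD', le_div_iff₀ hq]
    nlinarith [mul_nonneg (sub_nonneg.2 h2) (sub_nonneg.2 h1), sq_nonneg σ,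
      mul_nonneg h0.le (mul_nonneg (sub_nonneg.2 h2) (sub_nonneg.2 h1))]
  rw [← hD]
  -- monotonicity in `κ`
  have a1 : 0 ≤ (D - κ) * (2 - σ) + (1 - 2 * σ) * κ := by
    nlinarith [mul_nonneg (sub_nonneg.2 hκ1) (by linarith : (0:ℝ) ≤ 1 + σ),
      mul_nonneg (sub_nonneg.2 hD3) (by linarith : (0:ℝ) ≤ 2 - σ)]
  have a2 : (D - κ) * (2 - σ) + (1 - 2 * σ) * κ ≤ (2 - σ) * D - 4 / 49 * (1 + σ) := by
    nlinarith [mul_nonneg (sub_nonneg.2 hκ) (by linarith : (0:ℝ) ≤ 1 + σ)]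
  have b1 : 0 ≤ σ * (D - κ) - (1 - 2 * σ) * κ := by
    nlinarith [mul_nonneg (sub_nonneg.2 hκ1) (by linarith : (0:ℝ) ≤ 1 - σ),
      mul_nonneg (sub_nonneg.2 hD3) h0.le]
  have b2 : σ * (D - κ) - (1 - 2 * σ) * κ ≤ σ * D - 4 / 49 * (1 - σ) := by
    nlinarith [mul_nonneg (sub_nonneg.2 hκ) (by linarith : (0:ℝ) ≤ 1 - σ)]
  have s1 : ((D - κ) * (2 - σ) + (1 - 2 * σ) * κ) ^ 2 ≤ ((2 - σ) * D - 4 / 49 * (1 + σ)) ^ 2 :=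
    pow_le_pow_left₀ a1 a2 2
  have s2 : (σ * (D - κ) - (1 - 2 * σ) * κ) ^ 2 ≤ (σ * D - 4 / 49 * (1 - σ)) ^ 2 :=
    pow_le_pow_left₀ b1 b2 2
  have t1 : ((D - κ) * (2 - σ) + (1 - 2 * σ) * κ) ^ 2 / pa σ
      ≤ ((2 - σ) * D - 4 / 49 * (1 + σ)) ^ 2 / pa σ := by gcongr
  have t2 : 9 * (σ * (D - κ) - (1 - 2 * σ) * κ) ^ 2 / pb σ
      ≤ 9 * (σ * D - 4 / 49 * (1 - σ)) ^ 2 / pb σ := by gcongr
  refine (add_le_add t1 t2).trans ?_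
  have hR : (7 / 2 * (CC σ - 1) * (1 + D) * (σ * (1 + σ))) ^ 2
      = (7 * (1 - 2 * σ) * (1 + D)) ^ 2 := by
    rw [show 7 / 2 * (CC σ - 1) * (1 + D) * (σ * (1 + σ))
      = 7 / 2 * (1 + D) * ((CC σ - 1) * (σ * (1 + σ))) by ring, hCC]
    ring
  rw [hR, hD']
  have hm' : 0 < σ * (1 - σ) := hm
  unfold pa pb mm
  have hP := poly σ h1 h2
  have hden : 0 < (σ ^ 2 * (1 + σ)) ^ 2 * ((σ * (1 - σ)) * (2 + σ * (1 - σ))) := by positivity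
  have h1s : (1 - σ) ≠ 0 := by linarith
  have hL : ((2 - σ) * ((1 - σ) ^ 2 * (2 - σ) / (σ ^ 2 * (1 + σ))) - 4 / 49 * (1 + σ)) ^ 2
        / ((2 + σ * (1 - σ)) / (2 + 4 * (σ * (1 - σ))))
      + 9 * (σ * ((1 - σ) ^ 2 * (2 - σ) / (σ ^ 2 * (1 + σ))) - 4 / 49 * (1 - σ)) ^ 2
        / (3 * (σ * (1 - σ)) / (2 + 4 * (σ * (1 - σ))))
      = (((2 - σ) * ((1 - σ) ^ 2 * (2 - σ)) - 4 / 49 * (1 + σ) * (σ ^ 2 * (1 + σ))) ^ 2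
        * (2 + 4 * (σ * (1 - σ))) * (σ * (1 - σ))
      + 3 * (σ * ((1 - σ) ^ 2 * (2 - σ)) - 4 / 49 * (1 - σ) * (σ ^ 2 * (1 + σ))) ^ 2
        * (2 + 4 * (σ * (1 - σ))) * (2 + σ * (1 - σ)))
        / ((σ ^ 2 * (1 + σ)) ^ 2 * ((σ * (1 - σ)) * (2 + σ * (1 - σ)))) := by
    have n1 : (2 + σ * (1 - σ)) ≠ 0 := by positivity
    have n2 : (2 + 4 * (σ * (1 - σ))) ≠ 0 := by positivity
    have n3 : (1 + σ) ≠ 0 := by positivity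
    have n4 : σ ≠ 0 := h0.ne'
    generalize hw : 2 + σ * (1 - σ) = w at *
    generalize hv : 2 + 4 * (σ * (1 - σ)) = v at *
    field_simp
    ring
  have hRR : (7 * (1 - 2 * σ) * (1 + (1 - σ) ^ 2 * (2 - σ) / (σ ^ 2 * (1 + σ)))) ^ 2
      = (49 * (1 - 2 * σ) ^ 2 * (σ ^ 2 * (1 + σ) + (1 - σ) ^ 2 * (2 - σ)) ^ 2
        * (σ * (1 - σ)) * (2 + σ * (1 - σ)))
        / ((σ ^ 2 * (1 + σ)) ^ 2 * ((σ * (1 - σ)) * (2 + σ * (1 - σ)))) := by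
    have n1 : (2 + σ * (1 - σ)) ≠ 0 := by positivity
    have n3 : (1 + σ) ≠ 0 := by positivity
    have n4 : σ ≠ 0 := h0.ne'
    generalize hw : 2 + σ * (1 - σ) = w at *
    field_simp
    ring
  rw [hL, hRR]
  exact div_le_div_of_nonneg_right hP hden.le

end Pool.Agent.Y282.RB.Hii4
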