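import Pool.Agent.Y282.RB.Stm3

/-!
# Project RB (helper282): all Schwartz functions of angular type `2 n`
-/

set_option autoImplicit false

open MeasureTheory Set

namespace Pool.Agent.Y282.RB

/-- `f (a z) = a ^ (2 n) f z` for `|a| = 1` -/
def Ang (n : ℕ) (f : ℂ → ℂ) : Prop := ∀ a z : ℂ, ‖a‖ = 1 → f (a * z) = a ^ (2 * n) * f z

/-- passage from compactly supported functions to Schwartz functions -/
def S_K : Prop := ∀ (n : ℕ) (p C : ℝ), 1 ≤ n → 2 ≤ p → 0 ≤ C →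
  (∀ g : ℝ → ℂ, ContDiff ℝ (⊤ : ℕ∞) g → HasCompactSupport g →
    eLpNorm (Tn n (rad n g)) (ENNReal.ofReal p) (volume : Measure ℂ)
      ≤ ENNReal.ofReal C * eLpNorm (rad n g) (ENNReal.ofReal p) (volume : Measure ℂ)) →
  ∀ f : SchwartzMap ℂ ℂ, Ang n f →
    eLpNorm (Tn n f) (ENNReal.ofReal p) (volume : Measure ℂ)
      ≤ ENNReal.ofReal C * eLpNorm (⇑f) (ENNReal.ofReal p) (volume : Measure ℂ)

/-- the functions `rad n g` are Schwartz functions of angular type `2 n` -/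
def S_K2 : Prop := ∀ (n : ℕ) (g : ℝ → ℂ), ContDiff ℝ (⊤ : ℕ∞) g → HasCompactSupport g →
  ∃ f : SchwartzMap ℂ ℂ, (⇑f = rad n g) ∧ Ang n f ∧ HasCompactSupport f

/-- the constant -/
def S_K3 : Prop := ∀ (n : ℕ) (p : ℝ), 1 < p →
  Cn p n = (ascPochhammer ℝ n).eval (1 - 1 / p) / (ascPochhammer ℝ n).eval (1 / p)

end Pool.Agent.Y282.RB
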